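/-
ROW BdA. Non-integral numbers and valuations.
PROOF. `iInf_valuationSubring_superset` (Mathlib/RingTheory/Valuation/LocalSubring.lean) with `s = ∅`: the
intersection of all the valuation subrings of ℂ is the integral closure of the prime ring `Subring.closure ∅`
in ℂ. If `μ` is in every valuation subring then it is integral over `Subring.closure ∅`, whose elements are
integers, so it is integral over ℤ (the map ℤ → `Subring.closure ∅` is surjective; `IsIntegral.tower_bot...`,
`RingHom.IsIntegralElem.of_comp`, or transitivity `isIntegral_trans`).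
-/
import Mathlib

set_option autoImplicit false

namespace Pool.Agent.H28.IP

theorem exists_val {μ : ℂ} (h : ¬ IsIntegral ℤ μ) : ∃ V : ValuationSubring ℂ, μ ∉ V := by
  by_contra hcon
  push Not at hcon
  have h1 : μ ∈ (⨅ V : {V : ValuationSubring ℂ // (∅ : Set ℂ) ⊆ V.toSubring}, V.1.toSubring) := by
    rw [Subring.mem_iInf]
    intro V
    exact hcon V.1
  rw [iInf_valuationSubring_superset] at h1
  have h2 : IsIntegral (Subring.closure (∅ : Set ℂ)) μ := h1
  obtain ⟨q, hq, hq0⟩ := h2
  apply h
  have hsurj : Function.Surjective (Int.castRingHom (Subring.closure (∅ : Set ℂ))) := by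
    rintro ⟨z, hz⟩
    rw [Subring.closure_empty] at hz
    obtain ⟨n, hn⟩ := hz
    exact ⟨n, Subtype.ext (by simpa using hn)⟩
  obtain ⟨Q, hQ, hQm⟩ := Polynomial.lifts_and_natDegree_eq_and_monic
    (f := Int.castRingHom (Subring.closure (∅ : Set ℂ))) (p := q)
    (by rw [Polynomial.lifts_iff_coeffs_subset_range]; intro z _; exact hsurj z) hq
  refine ⟨Q, hQm.2, ?_⟩
  rw [← hQ, Polynomial.eval₂_map] at hq0
  have he : (algebraMap (Subring.closure (∅ : Set ℂ)) ℂ).comp (Int.castRingHom _) =
      algebraMap ℤ ℂ := RingHom.ext_int _ _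
  rw [he] at hq0
  exact hq0

end Pool.Agent.H28.IP
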