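/-
ROW BdB. Linear algebra in dimension 2.
PROOFS. `actz φ` is additive and linear over ℤ, with `actz φ (1, 0) = (φ.1, φ.2.1)`, `actz φ (0, 1) = (φ.2.2.1, φ.2.2.2)`,
`det2 (actz φ z) (actz φ w) = dt φ * det2 z w` (expand, ring).
cramer: expand, ring.
two_bound: by cramer `det2 w₀' w₁' • e = det2 e w₁' • w₀' + det2 w₀' e • w₁'` for `e = (1, 0)` and `e = (0, 1)`; apply `actz φ`:
`det2 w₀' w₁' • actz φ e = ± det2 e w₁' • w₀ ± det2 w₀' e • w₁`, whose entries are at most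
`2 b₂ * 2 b₁ + 2 b₂ * 2 b₁ = 8 b₁ b₂` in absolute value. `det2 w₀' w₁' ≠ 0` since
`dt φ * det2 w₀' w₁' = det2 (actz φ w₀') (actz φ w₁') = ± det2 w₀ w₁ ≠ 0`; so its absolute value is `≥ 1`.
prim_line: `det2 w u = 0` with `det2 w z = 1` gives `u = k w`, `k = det2 u z` (cramer: `det2 w z • u = det2 u z • w +
det2 w u • z`); if also `det2 u z' = 1` for some `z'`, then `k * det2 w z' = 1`, so `k = ± 1`.
-/
import Pool.Agent.H28.IQ.Defs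

set_option autoImplicit false

namespace Pool.Agent.H28.IP

theorem det2_act (φ : ℤ × ℤ × ℤ × ℤ) (z w : ℤ × ℤ) :
    det2 (actz φ z) (actz φ w) = dt φ * det2 z w := by
  simp only [det2, actz, dt]
  ring

theorem cramer (w z u : ℤ × ℤ) : det2 w z • u = det2 u z • w + det2 w u • z := by
  ext
  · simp only [det2, Prod.smul_fst, Prod.fst_add, smul_eq_mul]
    ring
  · simp only [det2, Prod.smul_snd, Prod.snd_add, smul_eq_mul]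
    ring

theorem prim_line {w z u z' : ℤ × ℤ} (h1 : det2 w z = 1) (h2 : det2 u z' = 1)
    (h : det2 w u = 0) : u = w ∨ u = -w := by
  have hc := cramer w z u
  rw [h1, h, one_smul, zero_smul, add_zero] at hc
  have hk : det2 u z * det2 w z' = 1 := by
    have e1 : u.1 = det2 u z * w.1 := by
      have := congrArg Prod.fst hc
      simpa using this
    have e2 : u.2 = det2 u z * w.2 := by
      have := congrArg Prod.snd hc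
      simpa using this
    have h3 : det2 u z' = det2 u z * det2 w z' := by
      have : det2 u z' = u.1 * z'.2 - u.2 * z'.1 := rfl
      rw [this]
      have h4 : det2 w z' = w.1 * z'.2 - w.2 * z'.1 := rfl
      rw [h4]
      calc u.1 * z'.2 - u.2 * z'.1
          = (det2 u z * w.1) * z'.2 - (det2 u z * w.2) * z'.1 := by rw [← e1, ← e2]
        _ = _ := by ring
    rw [← h3, h2]
  rcases Int.eq_one_or_neg_one_of_mul_eq_one hk with h5 | h5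
  · left
    rw [h5, one_smul] at hc
    exact hc
  · right
    rw [h5, neg_smul, one_smul] at hc
    exact hc

theorem BdB_key {D x a b c d : ℤ} {b₁ b₂ : ℕ} (hD : D ≠ 0) (h : D * x = a * c - b * d)
    (ha : |a| ≤ ((2 * b₂ : ℕ) : ℤ)) (hb : |b| ≤ ((2 * b₂ : ℕ) : ℤ))
    (hc : |c| ≤ ((2 * b₁ : ℕ) : ℤ)) (hd : |d| ≤ ((2 * b₁ : ℕ) : ℤ)) :
    |x| ≤ ((8 * b₁ * b₂ : ℕ) : ℤ) := by
  have h1 : |x| ≤ |D * x| := by
    rw [abs_mul]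
    have : 1 ≤ |D| := Int.one_le_abs hD
    nlinarith [abs_nonneg x]
  have h2 : |a * c - b * d| ≤ |a| * |c| + |b| * |d| := by
    have := abs_sub (a * c) (b * d)
    rw [abs_mul, abs_mul] at this
    exact this
  have h3 : |a| * |c| ≤ ((2 * b₂ : ℕ) : ℤ) * ((2 * b₁ : ℕ) : ℤ) :=
    mul_le_mul ha hc (abs_nonneg _) (by positivity)
  have h4 : |b| * |d| ≤ ((2 * b₂ : ℕ) : ℤ) * ((2 * b₁ : ℕ) : ℤ) :=
    mul_le_mul hb hd (abs_nonneg _) (by positivity)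
  have h5 : ((8 * b₁ * b₂ : ℕ) : ℤ) = ((2 * b₂ : ℕ) : ℤ) * ((2 * b₁ : ℕ) : ℤ)
      + ((2 * b₂ : ℕ) : ℤ) * ((2 * b₁ : ℕ) : ℤ) := by
    push_cast
    ring
  rw [h5]
  calc |x| ≤ |D * x| := h1
    _ = |a * c - b * d| := by rw [h]
    _ ≤ _ := h2
    _ ≤ _ := add_le_add h3 h4

theorem BdB_abs {φ : ℤ × ℤ × ℤ × ℤ} {w w' : ℤ × ℤ} {K : ℤ} (h : |w.1| ≤ K ∧ |w.2| ≤ K)
    (e : actz φ w' = w ∨ actz φ w' = -w) : |(actz φ w').1| ≤ K ∧ |(actz φ w').2| ≤ K := by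
  rcases e with e | e
  · rw [e]
    exact h
  · rw [e]
    simp only [Prod.fst_neg, Prod.snd_neg, abs_neg]
    exact h

theorem two_bound {φ : ℤ × ℤ × ℤ × ℤ} (hφ : dt φ = 1 ∨ dt φ = -1) {w₀ w₁ w₀' w₁' : ℤ × ℤ}
    {b₁ b₂ : ℕ} (h0 : |w₀.1| ≤ ((2 * b₁ : ℕ) : ℤ) ∧ |w₀.2| ≤ ((2 * b₁ : ℕ) : ℤ))
    (h1 : |w₁.1| ≤ ((2 * b₁ : ℕ) : ℤ) ∧ |w₁.2| ≤ ((2 * b₁ : ℕ) : ℤ))
    (h0' : |w₀'.1| ≤ ((2 * b₂ : ℕ) : ℤ) ∧ |w₀'.2| ≤ ((2 * b₂ : ℕ) : ℤ))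
    (h1' : |w₁'.1| ≤ ((2 * b₂ : ℕ) : ℤ) ∧ |w₁'.2| ≤ ((2 * b₂ : ℕ) : ℤ))
    (hd : det2 w₀ w₁ ≠ 0) (e0 : actz φ w₀' = w₀ ∨ actz φ w₀' = -w₀)
    (e1 : actz φ w₁' = w₁ ∨ actz φ w₁' = -w₁) :
    (|φ.1| ≤ ((8 * b₁ * b₂ : ℕ) : ℤ) ∧ |φ.2.1| ≤ ((8 * b₁ * b₂ : ℕ) : ℤ)) ∧
      |φ.2.2.1| ≤ ((8 * b₁ * b₂ : ℕ) : ℤ) ∧ |φ.2.2.2| ≤ ((8 * b₁ * b₂ : ℕ) : ℤ) := by
  have a0 := BdB_abs h0 e0
  have a1 := BdB_abs h1 e1
  have hD : det2 w₀' w₁' ≠ 0 := by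
    intro hz
    have h2 := det2_act φ w₀' w₁'
    rw [hz, mul_zero] at h2
    apply hd
    rcases e0 with e0 | e0 <;> rcases e1 with e1 | e1 <;> rw [e0, e1] at h2 <;>
      simp only [det2, Prod.fst_neg, Prod.snd_neg] at h2 ⊢ <;> linarith
  refine ⟨⟨?_, ?_⟩, ?_, ?_⟩
  · exact BdB_key (a := w₁'.2) (b := w₀'.2) (c := (actz φ w₀').1) (d := (actz φ w₁').1) hD
      (by simp only [det2, actz]; ring) h1'.2 h0'.2 a0.1 a1.1
  · exact BdB_key (a := w₁'.2) (b := w₀'.2) (c := (actz φ w₀').2) (d := (actz φ w₁').2) hD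
      (by simp only [det2, actz]; ring) h1'.2 h0'.2 a0.2 a1.2
  · exact BdB_key (a := w₀'.1) (b := w₁'.1) (c := (actz φ w₁').1) (d := (actz φ w₀').1) hD
      (by simp only [det2, actz]; ring) h0'.1 h1'.1 a1.1 a0.1
  · exact BdB_key (a := w₀'.1) (b := w₁'.1) (c := (actz φ w₁').2) (d := (actz φ w₀').2) hD
      (by simp only [det2, actz]; ring) h0'.1 h1'.1 a1.2 a0.2

end Pool.Agent.H28.IP
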