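import Pool.Agent.H28.IP.Defs

/-! Isomorphism problem for 2-generator finitely presented metabelian groups, part 2 (finite rank):
definitions. -/

set_option autoImplicit false

namespace Pool.Agent.H28.IP

/-! ## Integer matrices as lists -/

/-- A `d × d` matrix, row by row, the entries being the integers `vz` of pairs. -/
abbrev LM := List (ℕ × ℕ)

/-- The entries. -/
def ent (d : ℕ) (A : LM) (i j : ℕ) : ℕ × ℕ := A.getD (i * d + j) (0, 0)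

/-- The sum of a list of pairs. -/
def sump (l : List (ℕ × ℕ)) : ℕ × ℕ := l.foldr addp (0, 0)

/-- The product. -/
def mulM (d : ℕ) (A B : LM) : LM :=
  (List.range (d * d)).map fun t =>
    sump ((List.range d).map fun k => mulp (ent d A (t / d) k) (ent d B k (t % d)))

/-- The scalar matrix `c`. -/
def sclM (d c : ℕ) : LM :=
  (List.range (d * d)).map fun t => if t / d = t % d then (c, 0) else (0, 0)

/-- The sum. -/
def addM (d : ℕ) (A B : LM) : LM :=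
  (List.range (d * d)).map fun t => addp (A.getD t (0, 0)) (B.getD t (0, 0))

/-- The negative. -/
def negM (A : LM) : LM := A.map Prod.swap

/-- The powers. -/
def powM (d : ℕ) (A : LM) (n : ℕ) : LM := Nat.rec (sclM d 1) (fun _ R => mulM d A R) n

/-- Equality of the matrices. -/
def eqM (d : ℕ) (A B : LM) : Prop := ∀ t < d * d, vz (A.getD t (0, 0)) = vz (B.getD t (0, 0))

/-- The trace. -/
def trM (d : ℕ) (A : LM) : ℕ × ℕ := sump ((List.range d).map fun i => ent d A i i)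

/-- The matrix of a list. -/
def toM (d : ℕ) (A : LM) : Matrix (Fin d) (Fin d) ℤ := fun i j => vz (ent d A i j)

/-! ## Models: `x = A / m`, `x⁻¹ = A' / m`, `y = B / m`, `y⁻¹ = B' / m` -/

/-- The data `(d, m, A, A', B, B')`. -/
abbrev MD := ℕ × ℕ × LM × LM × LM × LM

/-- The relations. -/
def MatOK (D : MD) : Prop := 1 ≤ D.2.1 ∧
  eqM D.1 (mulM D.1 D.2.2.1 D.2.2.2.1) (sclM D.1 (D.2.1 * D.2.1)) ∧
  eqM D.1 (mulM D.1 D.2.2.2.2.1 D.2.2.2.2.2) (sclM D.1 (D.2.1 * D.2.1)) ∧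
  eqM D.1 (mulM D.1 D.2.2.1 D.2.2.2.2.1) (mulM D.1 D.2.2.2.2.1 D.2.2.1)

/-- Vectors in `ℤ²`. -/
abbrev VV := (ℕ × ℕ) × (ℕ × ℕ)

/-- The vector. -/
def vv (w : VV) : ℤ × ℤ := (vz w.1, vz w.2)

/-- The degree. -/
def dg (w : VV) : ℕ := w.1.1 + w.1.2 + w.2.1 + w.2.2

/-- `m ^ dg w` times the matrix of `x ^ w₁ * y ^ w₂`. -/
def numM (D : MD) (w : VV) : LM :=
  mulM D.1 (mulM D.1 (powM D.1 D.2.2.1 w.1.1) (powM D.1 D.2.2.2.1 w.1.2))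
    (mulM D.1 (powM D.1 D.2.2.2.2.1 w.2.1) (powM D.1 D.2.2.2.2.2 w.2.2))

/-- `m ^ M` times the matrix of `pol L`. -/
def evN (D : MD) (M : ℕ) (L : NL) : LM :=
  L.foldr (fun e R => addM D.1 (mulM D.1 (sclM D.1 (D.2.1 ^ (M - dg (e.1, e.2.1))))
    (cond e.2.2 (numM D (e.1, e.2.1)) (negM (numM D (e.1, e.2.1))))) R) []

/-- The matrix of `pol L` is zero. -/
def Vanish (D : MD) (L : NL) : Prop := eqM D.1 (evN D (mx L) L) []

/-- `k w`. -/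
def sclV (k : ℕ) (w : VV) : VV := ((k * w.1.1, k * w.1.2), (k * w.2.1, k * w.2.2))

/-- `-w`. -/
def negV (w : VV) : VV := (w.1.swap, w.2.swap)

/-- The scalar product. -/
def dotV (x w : VV) : ℕ × ℕ := addp (mulp x.1 w.1) (mulp x.2 w.2)

/-- The determinant. -/
def detV (w z : VV) : ℕ × ℕ := subp (mulp w.1 z.2) (mulp w.2 z.1)

/-- The determinant. -/
def det2 (w z : ℤ × ℤ) : ℤ := w.1 * z.2 - w.2 * z.1

/-- The vectors with entries of absolute value at most `K`. -/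
def box2 (K : ℕ) : List VV := (ints K).flatMap fun a => (ints K).map fun b => (a, b)

/-- The matrix of `w` or its inverse is not integral over `ℤ`. -/
def NonInt (D : MD) (w : VV) : Prop := ∃ k t : ℕ, D.1 ≤ k ∧ t < D.1 * D.1 ∧
  (¬ ((D.2.1 ^ (dg w * (k - D.1)) : ℕ) : ℤ) ∣ vz ((numM D (sclV k w)).getD t (0, 0)) ∨
   ¬ ((D.2.1 ^ (dg w * (k - D.1)) : ℕ) : ℤ) ∣ vz ((numM D (sclV k (negV w))).getD t (0, 0)))

/-- The trace of the `n`-th power of the matrix of `w` is larger than `2 d`. -/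
def Growth (D : MD) (w : VV) (n : ℕ) : Prop :=
  ((2 * D.1 * D.2.1 ^ (dg w * n) : ℕ) : ℤ) < |vz (trM D.1 (numM D (sclV n w)))|

/-- The `h`-th power of the matrix of `w` is unipotent. -/
def Unip (D : MD) (w : VV) (h : ℕ) : Prop :=
  eqM D.1 (powM D.1 (addM D.1 (numM D (sclV h w))
    (negM (sclM D.1 (D.2.1 ^ (dg w * h))))) D.1) []

/-! ## Directions -/

/-- `x · e ≤ x · e₀`. -/
def leE (x : VV) (e₀ e : (ℕ × ℕ) × (ℕ × ℕ) × Bool) : Bool :=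
  decide (vz (dotV x (e.1, e.2.1)) ≤ vz (dotV x (e₀.1, e₀.2.1)))

/-- Every vector of size at most `4 b` is orthogonal to a nonzero vector of size at most `2 b`, or has a
unique minimal exponent in some `L ∈ Ls`. -/
def Cov (Ls : List NL) (b : ℕ) : Prop := 1 ≤ b ∧ (∀ L ∈ Ls, mx L ≤ b) ∧
  ∀ x ∈ box2 (4 * b), vv x ≠ 0 → (∃ w ∈ box2 (2 * b), vv w ≠ 0 ∧ vz (dotV x w) = 0) ∨
    ∃ L ∈ Ls, ∃ e ∈ L, (L.filter (leE x e)).length = 1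

/-- Relations in `x` and in `y` alone, with at most `2 ^ c` terms. -/
def PB (P : Pres) (A B : Word) (c : ℕ) : Prop := ∃ Lx Ly : NL,
  (InN P (subst [A, B] (wl Lx)) ∧ InN P (subst [A, B] (wl Ly))) ∧
  ((∀ e ∈ Lx, vz e.2.1 = 0) ∧ (∀ e ∈ Ly, vz e.1 = 0)) ∧
  ((∃ z : ℤ × ℤ, ¬ ((0 : ℕ) : ℤ) ∣ (pol Lx).coeff z) ∧
    ∃ z : ℤ × ℤ, ¬ ((0 : ℕ) : ℤ) ∣ (pol Ly).coeff z) ∧
  Lx.length ≤ 2 ^ c ∧ Ly.length ≤ 2 ^ c

/-! ## Certificates -/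

/-- `m` does not carry the annihilator of `(A₂, B₂)` into that of `(A₁, B₁)`. -/
def NImS (P₁ : Pres) (A₁ B₁ : Word) (P₂ : Pres) (A₂ B₂ : Word) (m : MP) : Prop :=
  ∃ N : NL, InN P₂ (subst [A₂, B₂] (wl N)) ∧ FQ P₁ (subst [A₁, B₁] (wl (actl m N)))

/-- `w ≠ 1` in a finite quotient of the group of `P` in which `r = 1`. -/
def FQp (P : Pres) (r w : Word) : Prop :=
  ∃ (k : ℕ) (T : List (List ℕ × List ℕ)), IsRep P k T ∧ (∀ s < k, actw T r s = s) ∧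
    ∃ s < k, actw T w s ≠ s

/-- `z ↦ m z + k det(w', z) w`. -/
def fam (m : ℤ × ℤ × ℤ × ℤ) (w w' : ℤ × ℤ) (k : ℤ) : ℤ × ℤ × ℤ × ℤ :=
  (m.1 - k * (w'.2 * w.1), m.2.1 - k * (w'.2 * w.2),
    m.2.2.1 + k * (w'.1 * w.1), m.2.2.2 + k * (w'.1 * w.2))

/-- The same for pairs. -/
def famN (m : MP) (w w' : VV) (k : ℕ × ℕ) : MP :=
  (subp m.1 (mulp k (mulp w'.2 w.1)), subp m.2.1 (mulp k (mulp w'.2 w.2)),
    addp m.2.2.1 (mulp k (mulp w'.1 w.1)), addp m.2.2.2 (mulp k (mulp w'.1 w.2)))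

/-- Periodic obstruction. -/
def FamP (P₁ : Pres) (A₁ B₁ : Word) (P₂ : Pres) (A₂ B₂ : Word) (w : VV) (m : MP) : Prop :=
  ∃ N : NL, InN P₂ (subst [A₂, B₂] (wl N)) ∧
    FQp P₁ (subst [A₁, B₁] (wl [(w.1, w.2, true), ((0, 0), (0, 0), false)]))
      (subst [A₁, B₁] (wl (actl m N)))

/-- The value of a polynomial given by the list of its coefficients. -/
def pvN (F : List (ℕ × ℕ)) (k : ℕ × ℕ) : ℕ × ℕ := F.foldr (fun c r => addp c (mulp k r)) (0, 0)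

/-- The value of a polynomial given by the list of its coefficients. -/
def pv (F : List ℤ) (k : ℤ) : ℤ := F.foldr (fun c r => c + k * r) 0

/-- A bound for the coefficients. -/
def mxF (F : List (ℕ × ℕ)) : ℕ := (F.map fun c => c.1 + c.2).sum

/-- Polynomial obstruction. -/
def FamQ (D : MD) (P₁ : Pres) (A₁ B₁ : Word) (P₂ : Pres) (A₂ B₂ : Word) (w w' : VV) (m : MP) :
    Prop :=
  ∃ (N : NL) (t E : ℕ) (F : List (ℕ × ℕ)), InN P₂ (subst [A₂, B₂] (wl N)) ∧ t < D.1 * D.1 ∧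
    F.length ≤ D.1 ∧ (∃ c ∈ F, vz c ≠ 0) ∧
    (∀ k < D.1, (E : ℤ) * vz ((evN D (mx (actl (famN m w w' (k, 0)) N))
        (actl (famN m w w' (k, 0)) N)).getD t (0, 0)) =
      vz (pvN F (k, 0)) * ((D.2.1 ^ mx (actl (famN m w w' (k, 0)) N) : ℕ) : ℤ)) ∧
    ∀ k ∈ ints (mxF F), NImS P₁ A₁ B₁ P₂ A₂ B₂ (famN m w w' k)

/-- All matrices `φ` with `φ w' = ± w` are excluded. -/
def Fam (D : MD) (P₁ : Pres) (A₁ B₁ : Word) (P₂ : Pres) (A₂ B₂ : Word) (K : ℕ) (w w' : VV) :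
    Prop :=
  ∃ k : ℕ, 1 ≤ k ∧ Unip D w k ∧ ∀ m ∈ box (K * (k + 2)), (dt (vm m) = 1 ∨ dt (vm m) = -1) →
    (actz (vm m) (vv w') = vv w ∨ actz (vm m) (vv w') = -vv w) →
    FamP P₁ A₁ B₁ P₂ A₂ B₂ (sclV k w) m ∨ FamQ D P₁ A₁ B₁ P₂ A₂ B₂ (sclV k w) w' m

/-- The certificate for two groups of finite rank, with the model `D`. -/
def NJ2 (D : MD) (P₁ : Pres) (A₁ B₁ : Word) (P₂ : Pres) (A₂ B₂ : Word) : Prop :=
  ∃ (c₁ c₂ b₁ b₂ K : ℕ) (Ls₁ Ls₂ : List NL),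
    (PB P₁ A₁ B₁ c₁ ∧ PB P₂ A₂ B₂ c₂) ∧
    ((∀ L ∈ Ls₁, InN P₁ (subst [A₁, B₁] (wl L))) ∧
      ∀ L ∈ Ls₂, InN P₂ (subst [A₂, B₂] (wl L))) ∧
    (Cov Ls₁ b₁ ∧ Cov Ls₂ b₂) ∧
    8 * b₁ * b₂ ≤ K ∧ (NonInt D ((1, 0), (0, 0)) ∨ NonInt D ((0, 0), (1, 0))) ∧
    (∀ w ∈ box2 (2 * b₁), (∃ z ∈ box2 (2 * b₁), vz (detV w z) = 1) → NonInt D w ∨
      (∃ n, Growth D w n ∧ (n * (c₂ + 8 * b₁ * b₂ * c₁) + 2 * b₂) * (2 * b₁) ≤ K) ∨
      ∀ w' ∈ box2 (2 * b₂), (∃ z ∈ box2 (2 * b₂), vz (detV w' z) = 1) →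
        Fam D P₁ A₁ B₁ P₂ A₂ B₂ (4 * b₁ * b₂) w w') ∧
    ∀ m ∈ box K, (dt (vm m) = 1 ∨ dt (vm m) = -1) → NImS P₁ A₁ B₁ P₂ A₂ B₂ m

/-- The certificate of non-isomorphism, `P₁` of finite rank, not polycyclic, with independent
generators. -/
def NJ (P₁ P₂ : Pres) : Prop :=
  ∃ (A₁ B₁ : Word) (W₁ : List Word) (A₂ B₂ : Word) (W₂ : List Word) (Js : List NL),
    GenW P₁ A₁ B₁ W₁ ∧ GenW P₂ A₂ B₂ W₂ ∧ HomM P₁ Js A₁ B₁ W₁ ∧
    ((∃ u v : ℕ × ℕ, (vz u ≠ 0 ∨ vz v ≠ 0) ∧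
        cl P₂ (subst [A₂, B₂] (zp 0 u ++ zp 1 v)) ∈ commutator (GN P₂)) ∨
      ∃ D : MD, MatOK D ∧ (∀ L ∈ Js, Vanish D L) ∧ NJ2 D P₁ A₁ B₁ P₂ A₂ B₂)

/-! ## Infinite cyclic abelianisation -/

/-- The weighted exponent sum. -/
def xs (E : List (ℕ × ℕ)) (w : Word) : ℕ × ℕ :=
  w.foldr (fun l r => addp (cond l.2 (E.getD l.1 (0, 0)) (E.getD l.1 (0, 0)).swap) r) (0, 0)

/-- `E` defines a homomorphism to `ℤ / n`. -/
def HZ (P : Pres) (E : List (ℕ × ℕ)) (n : ℕ) : Prop :=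
  E.length ≤ P.1 ∧ ∀ r ∈ P.2, (n : ℤ) ∣ vz (xs E r)

/-- The abelianisation is not infinite cyclic. -/
def NC (P : Pres) : Prop := ∃ (A B : Word) (W : List Word), GenW P A B W ∧
  ((∃ n : ℕ, 1 ≤ n ∧ cl P (subst [A, B] (zp 0 (n, 0))) ∈ commutator (GN P) ∧
      cl P (subst [A, B] (zp 1 (n, 0))) ∈ commutator (GN P)) ∨
    ∃ (p : ℕ) (E F : List (ℕ × ℕ)), p.Prime ∧ HZ P E p ∧ HZ P F p ∧
      (p : ℤ) ∣ vz (xs E A) - 1 ∧ (p : ℤ) ∣ vz (xs E B) ∧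
      (p : ℤ) ∣ vz (xs F A) ∧ (p : ℤ) ∣ vz (xs F B) - 1)

/-- The certificate of non-isomorphism, `P₁` with infinite cyclic abelianisation. -/
def NZ (P₁ P₂ : Pres) : Prop :=
  ∃ (A₁ B₁ : Word) (W₁ : List Word) (E : List (ℕ × ℕ)), GenW P₁ A₁ B₁ W₁ ∧
    cl P₁ B₁ ∈ commutator (GN P₁) ∧ HZ P₁ E 0 ∧ vz (xs E A₁) ≠ 0 ∧
    (NC P₂ ∨ ∃ (A₂ B₂ : Word) (W₂ : List Word), GenW P₂ A₂ B₂ W₂ ∧
      cl P₂ B₂ ∈ commutator (GN P₂) ∧
      NIm P₁ A₁ B₁ P₂ A₂ B₂ ((1, 0), (0, 0), (0, 0), (1, 0)) ∧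
      NIm P₁ A₁ B₁ P₂ A₂ B₂ ((0, 1), (0, 0), (0, 0), (1, 0)))

/-! ## Semantics -/

/-- The homomorphism `(i, j) ↦ X ^ i * Y ^ j` for commuting units. -/
def monc {R : Type} [Ring R] (X Y : Rˣ) (h : Commute X Y) : Multiplicative (ℤ × ℤ) →* R where
  toFun z := ((X ^ (Multiplicative.toAdd z).1 * Y ^ (Multiplicative.toAdd z).2 : Rˣ) : R)
  map_one' := by simp
  map_mul' := fun z w => by
    simp only [toAdd_mul, Prod.fst_add, Prod.snd_add, zpow_add, ← Units.val_mul]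
    congr 1
    rw [mul_assoc, mul_assoc, ← mul_assoc (X ^ _) (Y ^ _) (Y ^ _),
      ((h.zpow_zpow (Multiplicative.toAdd w).1 (Multiplicative.toAdd z).2).eq), mul_assoc]

/-- Evaluation at two commuting units. -/
noncomputable def evm {R : Type} [Ring R] (X Y : Rˣ) (h : Commute X Y) : Lam →+* R :=
  AddMonoidAlgebra.liftNCRingHom (Int.castRingHom R) (monc X Y h) (fun n _ => Int.cast_commute n _)

/-- The units `X`, `Y` are the matrices of `x`, `y` in the model `D`. -/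
def Link (D : MD) (X Y : (Matrix (Fin D.1) (Fin D.1) ℚ)ˣ) : Prop :=
  1 ≤ D.2.1 ∧ ∀ w : VV, (toM D.1 (numM D w)).map (Int.cast : ℤ → ℚ) =
    ((D.2.1 : ℚ) ^ dg w) •
      ((X ^ vz w.1 * Y ^ vz w.2 : (Matrix (Fin D.1) (Fin D.1) ℚ)ˣ) : Matrix (Fin D.1) (Fin D.1) ℚ)

/-- Total orders of the group `ℤ²` (`pos z`: `0 < z`). -/
def IsOrd (pos : ℤ × ℤ → Prop) : Prop :=
  (∀ z w, pos z → pos w → pos (z + w)) ∧ ¬ pos 0 ∧ ∀ z, z ≠ 0 → pos z ∨ pos (-z)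

/-- Torsion-free abelianisation. -/
def TFab (G : Type) [Group G] : Prop :=
  ∀ (g : G) (n : ℕ), n ≠ 0 → g ^ n ∈ commutator G → g ∈ commutator G

end Pool.Agent.H28.IP
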