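/-
ROW BdC. Bounds for the roots of integer polynomials. The largest exponent dominates the sum.
-/
import Pool.Agent.H28.IQ.Defs
import Pool.Agent.H28.IP.GmA
import Pool.Agent.H28.IP.WlB

set_option autoImplicit false

namespace Pool.Agent.H28.IP

theorem BdC_root {ι : Type} [DecidableEq ι] (S : Finset ι) (c e : ι → ℤ)
    (he : ∀ a ∈ S, ∀ b ∈ S, e a = e b → a = b) (hS : S.Nonempty) (hc : ∀ i ∈ S, c i ≠ 0) (N : ℕ)
    (hN : ∑ i ∈ S, |c i| ≤ (N : ℤ)) (w : ℂˣ)
    (h0 : ∑ i ∈ S, (c i : ℂ) * ((w ^ e i : ℂˣ) : ℂ) = 0) : ‖(w : ℂ)‖ ≤ (N : ℝ) := by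
  obtain ⟨s, hs, hmax⟩ := S.exists_max_image e hS
  have hcs : 1 ≤ |c s| := Int.one_le_abs (hc s hs)
  have hN1 : (1 : ℤ) ≤ N :=
    (hcs.trans (Finset.single_le_sum (f := fun i => |c i|) (fun i _ => abs_nonneg _) hs)).trans hN
  by_cases hw : ‖(w : ℂ)‖ ≤ 1
  · exact hw.trans (by exact_mod_cast hN1)
  push Not at hw
  have hw0 : 0 < ‖(w : ℂ)‖ := by linarith
  have key : (c s : ℂ) * ((w ^ e s : ℂˣ) : ℂ) =
      - ∑ i ∈ S.erase s, (c i : ℂ) * ((w ^ e i : ℂˣ) : ℂ) := by
    rw [← Finset.add_sum_erase S _ hs] at h0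
    exact eq_neg_of_add_eq_zero_left h0
  have hnw : ∀ k : ℤ, ‖((w ^ k : ℂˣ) : ℂ)‖ = ‖(w : ℂ)‖ ^ k := by
    intro k
    rw [Units.val_zpow_eq_zpow_val, norm_zpow]
  have h1 : ‖(w : ℂ)‖ ^ e s ≤ (N : ℝ) * ‖(w : ℂ)‖ ^ (e s - 1) := by
    have a1 : ‖(w : ℂ)‖ ^ e s ≤ ‖(c s : ℂ) * ((w ^ e s : ℂˣ) : ℂ)‖ := by
      rw [norm_mul, hnw]
      have : (1 : ℝ) ≤ ‖(c s : ℂ)‖ := by
        rw [Complex.norm_intCast]
        exact_mod_cast hcs
      nlinarith [zpow_pos hw0 (e s)]
    refine a1.trans ?_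
    rw [key, norm_neg]
    refine (norm_sum_le _ _).trans ?_
    have a2 : ∀ i ∈ S.erase s, ‖(c i : ℂ) * ((w ^ e i : ℂˣ) : ℂ)‖ ≤
        ((|c i| : ℤ) : ℝ) * ‖(w : ℂ)‖ ^ (e s - 1) := by
      intro i hi
      rw [Finset.mem_erase] at hi
      rw [norm_mul, hnw, Complex.norm_intCast]
      push_cast
      refine mul_le_mul_of_nonneg_left ?_ (abs_nonneg _)
      refine zpow_le_zpow_right₀ hw.le ?_
      have b1 := hmax i hi.2
      have b2 : e i ≠ e s := fun h => hi.1 (he i hi.2 s hs h)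
      omega
    refine (Finset.sum_le_sum a2).trans ?_
    rw [← Finset.sum_mul]
    refine mul_le_mul_of_nonneg_right ?_ (zpow_pos hw0 _).le
    rw [← Int.cast_sum]
    have a3 : ∑ i ∈ S.erase s, |c i| ≤ ∑ i ∈ S, |c i| :=
      Finset.sum_le_sum_of_subset_of_nonneg (Finset.erase_subset _ _) (fun i _ _ => abs_nonneg _)
    exact_mod_cast a3.trans hN
  have h2 : ‖(w : ℂ)‖ ^ e s = ‖(w : ℂ)‖ * ‖(w : ℂ)‖ ^ (e s - 1) := by
    rw [← zpow_one_add₀ hw0.ne']
    congr 1
    ring
  rw [h2] at h1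
  exact le_of_mul_le_mul_right h1 (zpow_pos hw0 _)

/-- The sum of the absolute values of the coefficients. -/
theorem BdC_norm (L : NL) : ∑ z ∈ (pol L).coeff.support, |(pol L).coeff z| ≤ (L.length : ℤ) := by
  induction L with
  | nil => simp [pol]
  | cons e L ih =>
    have hp : ∃ t : Lam, (t = mo (vz e.1, vz e.2.1) ∨ t = -mo (vz e.1, vz e.2.1)) ∧
        pol (e :: L) = t + pol L := by
      refine ⟨cond e.2.2 (mo (vz e.1, vz e.2.1)) (-mo (vz e.1, vz e.2.1)), ?_, by simp [pol]⟩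
      cases e.2.2 <;> simp
    obtain ⟨t, ht, hp⟩ := hp
    rw [hp]
    set T := insert (vz e.1, vz e.2.1) ((t + pol L).coeff.support ∪ (pol L).coeff.support) with hT
    have e1 : ∑ z ∈ (t + pol L).coeff.support, |(t + pol L).coeff z| =
        ∑ z ∈ T, |(t + pol L).coeff z| := by
      refine Finset.sum_subset ?_ ?_
      · intro z hz
        rw [hT]
        exact Finset.mem_insert_of_mem (Finset.mem_union_left _ hz)
      · intro z _ hz
        rw [Finsupp.notMem_support_iff] at hz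
        rw [hz, abs_zero]
    have e2 : ∑ z ∈ (pol L).coeff.support, |(pol L).coeff z| =
        ∑ z ∈ T, |(pol L).coeff z| := by
      refine Finset.sum_subset ?_ ?_
      · intro z hz
        rw [hT]
        exact Finset.mem_insert_of_mem (Finset.mem_union_right _ hz)
      · intro z _ hz
        rw [Finsupp.notMem_support_iff] at hz
        rw [hz, abs_zero]
    have e3 : ∑ z ∈ T, |t.coeff z| ≤ 1 := by
      have hc : ∀ z, |t.coeff z| = if z = (vz e.1, vz e.2.1) then 1 else 0 := by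
        intro z
        rcases ht with h | h <;> rw [h]
        · unfold mo
          rw [AddMonoidAlgebra.coeff_single, Finsupp.single_apply]
          by_cases hz : (vz e.1, vz e.2.1) = z
          · rw [if_pos hz, if_pos hz.symm]; simp
          · rw [if_neg hz, if_neg (Ne.symm hz)]; simp
        · unfold mo
          rw [AddMonoidAlgebra.coeff_neg, AddMonoidAlgebra.coeff_single, Finsupp.neg_apply,
            Finsupp.single_apply]
          by_cases hz : (vz e.1, vz e.2.1) = z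
          · rw [if_pos hz, if_pos hz.symm]; simp
          · rw [if_neg hz, if_neg (Ne.symm hz)]; simp
      simp_rw [hc]
      rw [Finset.sum_ite_eq' T]
      split_ifs <;> norm_num
    rw [e1]
    rw [e2] at ih
    have e4 : ∑ z ∈ T, |(t + pol L).coeff z| ≤ ∑ z ∈ T, |t.coeff z| + ∑ z ∈ T, |(pol L).coeff z| := by
      rw [← Finset.sum_add_distrib]
      refine Finset.sum_le_sum fun z _ => ?_
      rw [AddMonoidAlgebra.coeff_add, Finsupp.add_apply]
      exact abs_add_le _ _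
    rw [List.length_cons]
    push_cast
    linarith

theorem BdC_ev (ξ η : ℂˣ) (f : Lam) :
    evr ξ η f = ∑ z ∈ f.coeff.support, (f.coeff z : ℂ) * ((ξ ^ z.1 * η ^ z.2 : ℂˣ) : ℂ) := by
  unfold evr
  rfl

theorem BdC_supp (L : NL) (P : ℤ × ℤ → Prop) (h : ∀ e ∈ L, P (vz e.1, vz e.2.1)) :
    ∀ z ∈ (pol L).coeff.support, P z := by
  induction L with
  | nil => intro z hz; simp [pol] at hz
  | cons e L ih =>
    intro z hz
    have hp : pol (e :: L) = cond e.2.2 (mo (vz e.1, vz e.2.1)) (-mo (vz e.1, vz e.2.1)) + pol L := by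
      simp [pol]
    rw [hp, AddMonoidAlgebra.coeff_add] at hz
    have h1 := Finsupp.support_add hz
    rw [Finset.mem_union] at h1
    rcases h1 with h1 | h1
    · have h2 : z = (vz e.1, vz e.2.1) := by
        rcases hb : e.2.2 with _ | _
        · rw [hb] at h1
          simp only [cond_false, AddMonoidAlgebra.coeff_neg, Finsupp.support_neg] at h1
          exact WlB_mo _ _ h1
        · rw [hb] at h1
          simp only [cond_true] at h1
          exact WlB_mo _ _ h1
      rw [h2]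
      exact h e List.mem_cons_self
    · exact ih (fun e' he' => h e' (List.mem_cons_of_mem _ he')) z h1

theorem poly_bound_x {L : NL} (hy : ∀ e ∈ L, vz e.2.1 = 0)
    (hne : ∃ z : ℤ × ℤ, ¬ ((0 : ℕ) : ℤ) ∣ (pol L).coeff z) {ξ η : ℂˣ}
    (h0 : evr ξ η (pol L) = 0) :
    ‖(ξ : ℂ)‖ ≤ (L.length : ℝ) ∧ ‖((ξ⁻¹ : ℂˣ) : ℂ)‖ ≤ (L.length : ℝ) := by
  classical
  have hs : ∀ z ∈ (pol L).coeff.support, z.2 = 0 := BdC_supp L (fun z => z.2 = 0) hy
  have hS : (pol L).coeff.support.Nonempty := by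
    obtain ⟨z, hz⟩ := hne
    refine ⟨z, ?_⟩
    rw [Finsupp.mem_support_iff]
    intro h
    rw [h] at hz
    exact hz (dvd_zero _)
  rw [BdC_ev] at h0
  constructor
  · refine BdC_root (pol L).coeff.support (fun z => (pol L).coeff z) (fun z => z.1) ?_ hS ?_ _
      (BdC_norm L) ξ ?_
    · intro a ha b hb hab
      exact Prod.ext hab ((hs a ha).trans (hs b hb).symm)
    · intro i hi
      exact Finsupp.mem_support_iff.1 hi
    · rw [← h0]
      refine Finset.sum_congr rfl fun z hz => ?_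
      rw [hs z hz, zpow_zero, mul_one]
  · refine BdC_root (pol L).coeff.support (fun z => (pol L).coeff z) (fun z => - z.1) ?_ hS ?_ _
      (BdC_norm L) ξ⁻¹ ?_
    · intro a ha b hb hab
      exact Prod.ext (neg_injective hab) ((hs a ha).trans (hs b hb).symm)
    · intro i hi
      exact Finsupp.mem_support_iff.1 hi
    · rw [← h0]
      refine Finset.sum_congr rfl fun z hz => ?_
      rw [hs z hz, zpow_zero, mul_one, inv_zpow', neg_neg]

theorem poly_bound_y {L : NL} (hx : ∀ e ∈ L, vz e.1 = 0)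
    (hne : ∃ z : ℤ × ℤ, ¬ ((0 : ℕ) : ℤ) ∣ (pol L).coeff z) {ξ η : ℂˣ}
    (h0 : evr ξ η (pol L) = 0) :
    ‖(η : ℂ)‖ ≤ (L.length : ℝ) ∧ ‖((η⁻¹ : ℂˣ) : ℂ)‖ ≤ (L.length : ℝ) := by
  classical
  have hs : ∀ z ∈ (pol L).coeff.support, z.1 = 0 := BdC_supp L (fun z => z.1 = 0) hx
  have hS : (pol L).coeff.support.Nonempty := by
    obtain ⟨z, hz⟩ := hne
    refine ⟨z, ?_⟩
    rw [Finsupp.mem_support_iff]
    intro h
    rw [h] at hz
    exact hz (dvd_zero _)
  rw [BdC_ev] at h0
  constructor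
  · refine BdC_root (pol L).coeff.support (fun z => (pol L).coeff z) (fun z => z.2) ?_ hS ?_ _
      (BdC_norm L) η ?_
    · intro a ha b hb hab
      exact Prod.ext ((hs a ha).trans (hs b hb).symm) hab
    · intro i hi
      exact Finsupp.mem_support_iff.1 hi
    · rw [← h0]
      refine Finset.sum_congr rfl fun z hz => ?_
      rw [hs z hz, zpow_zero, one_mul]
  · refine BdC_root (pol L).coeff.support (fun z => (pol L).coeff z) (fun z => - z.2) ?_ hS ?_ _
      (BdC_norm L) η⁻¹ ?_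
    · intro a ha b hb hab
      exact Prod.ext ((hs a ha).trans (hs b hb).symm) (neg_injective hab)
    · intro i hi
      exact Finsupp.mem_support_iff.1 hi
    · rw [← h0]
      refine Finset.sum_congr rfl fun z hz => ?_
      rw [hs z hz, zpow_zero, one_mul, inv_zpow', neg_neg]

end Pool.Agent.H28.IP
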