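/-
ROW BdD. The bound from growth.
PROOF. Write `P z = ξ ^ z.1 η ^ z.2 ∈ ℂˣ` (multiplicative in `z`), `C = c₂ + 8 b₁ b₂ c₁`. `‖P z‖ ≤ 2 ^ (4 b₁ c₁)` and
`‖P (-z)‖ ≤ 2 ^ (4 b₁ c₁)`, because `|z.1| + |z.2| ≤ 4 b₁` and `‖ξ‖, ‖ξ⁻¹‖, ‖η‖, ‖η⁻¹‖ ≤ 2 ^ c₁` (`2 ^ c₁ ≥ 1`).
Let `u = actz φ e` with `e = (1, 0)` or `(0, 1)`: `u = (φ.1, φ.2.1)` or `(φ.2.2.1, φ.2.2.2)`. By cramer (BdB) with
`det2 w z = 1`: `u = α w + β z`, `α = det2 u z`, `β = det2 w u`. `|β| = |det2 (± actz φ w') (actz φ e)| = |dt φ det2 w' e| =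
|det2 w' e| ≤ 2 b₂` (det2_act). `P u = (P w) ^ α (P z) ^ β` and `‖P u‖, ‖(P u)⁻¹‖ ≤ 2 ^ c₂` (hu1 for `e = (1,0)`, hu2 for
`(0,1)`), so `‖(P w) ^ α‖ ≤ 2 ^ c₂ (2 ^ (4 b₁ c₁)) ^ |β| ≤ 2 ^ C`, and the same for `‖(P w) ^ (-α)‖`. So
`‖P w‖ ^ |α| ≤ 2 ^ C`. Then `2 ^ |α| ≤ (‖P w‖ ^ n) ^ |α| = (‖P w‖ ^ |α|) ^ n ≤ 2 ^ (n C)`, so `|α| ≤ n C`. Finally
`|u.i| ≤ |α| |w.i| + |β| |z.i| ≤ (n C + 2 b₂) (2 b₁)`.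
-/
import Pool.Agent.H28.IQ.BdB

set_option autoImplicit false

namespace Pool.Agent.H28.IP

theorem BdD_log (ξ η : ℂˣ) (i j : ℤ) : Real.log ‖((ξ ^ i * η ^ j : ℂˣ) : ℂ)‖ =
    i * Real.log ‖(ξ : ℂ)‖ + j * Real.log ‖(η : ℂ)‖ := by
  have h1 : ‖(ξ : ℂ)‖ ≠ 0 := norm_ne_zero_iff.2 ξ.ne_zero
  have h2 : ‖(η : ℂ)‖ ≠ 0 := norm_ne_zero_iff.2 η.ne_zero
  rw [Units.val_mul, Units.val_zpow_eq_zpow_val, Units.val_zpow_eq_zpow_val, norm_mul, norm_zpow,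
    norm_zpow, Real.log_mul (zpow_ne_zero _ h1) (zpow_ne_zero _ h2), Real.log_zpow, Real.log_zpow]

theorem BdD_abs {u : ℂˣ} {c : ℕ} (h : ‖(u : ℂ)‖ ≤ 2 ^ c ∧ ‖((u⁻¹ : ℂˣ) : ℂ)‖ ≤ 2 ^ c) :
    |Real.log ‖(u : ℂ)‖| ≤ c * Real.log 2 := by
  have h1 : 0 < ‖(u : ℂ)‖ := norm_pos_iff.2 u.ne_zero
  have h2 := Real.log_le_log h1 h.1
  rw [Real.log_pow] at h2
  have h3 := h.2
  rw [Units.val_inv_eq_inv_val, norm_inv] at h3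
  have h4 := Real.log_le_log (inv_pos.2 h1) h3
  rw [Real.log_pow, Real.log_inv] at h4
  rw [abs_le]
  constructor <;> linarith

theorem BdD_one {φ : ℤ × ℤ × ℤ × ℤ} (hφ : dt φ = 1 ∨ dt φ = -1) {w z w' e u : ℤ × ℤ}
    {b₁ b₂ c₁ c₂ n : ℕ} (hw : |w.1| ≤ ((2 * b₁ : ℕ) : ℤ) ∧ |w.2| ≤ ((2 * b₁ : ℕ) : ℤ))
    (hz : |z.1| ≤ ((2 * b₁ : ℕ) : ℤ) ∧ |z.2| ≤ ((2 * b₁ : ℕ) : ℤ))
    (hwz : det2 w z = 1) (he : actz φ w' = w ∨ actz φ w' = -w) (hu : u = actz φ e)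
    (hde : |det2 w' e| ≤ ((2 * b₂ : ℕ) : ℤ)) {x y : ℝ} (hx : |x| ≤ c₁ * Real.log 2)
    (hy : |y| ≤ c₁ * Real.log 2) (hg : Real.log 2 < n * (w.1 * x + w.2 * y))
    (hu2 : |u.1 * x + u.2 * y| ≤ c₂ * Real.log 2) :
    |u.1| ≤ (((n * (c₂ + 8 * b₁ * b₂ * c₁) + 2 * b₂) * (2 * b₁) : ℕ) : ℤ) ∧
      |u.2| ≤ (((n * (c₂ + 8 * b₁ * b₂ * c₁) + 2 * b₂) * (2 * b₁) : ℕ) : ℤ) := by
  have hL : 0 < Real.log 2 := Real.log_pos (by norm_num)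
  obtain ⟨α, hα⟩ : ∃ α, α = det2 u z := ⟨_, rfl⟩
  obtain ⟨β, hβ⟩ : ∃ β, β = det2 w u := ⟨_, rfl⟩
  have hc := cramer w z u
  rw [hwz, one_smul, ← hα, ← hβ] at hc
  have hc1 : u.1 = α * w.1 + β * z.1 := by
    have := congrArg Prod.fst hc
    simpa using this
  have hc2 : u.2 = α * w.2 + β * z.2 := by
    have := congrArg Prod.snd hc
    simpa using this
  have hβ' : |β| ≤ ((2 * b₂ : ℕ) : ℤ) := by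
    have h1 : |β| = |det2 w' e| := by
      have h2 := det2_act φ w' e
      have h3 : |dt φ * det2 w' e| = |det2 w' e| := by
        rcases hφ with h | h
        · rw [h, one_mul]
        · rw [h, neg_one_mul, abs_neg]
      rw [← h3, ← h2, ← hu, hβ]
      rcases he with h | h
      · rw [h]
      · rw [h]
        have h4 : det2 (-w) u = - det2 w u := by
          simp only [det2, Prod.fst_neg, Prod.snd_neg]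
          ring
        rw [h4, abs_neg]
    rw [h1]
    exact hde
  have hlz : |(z.1 : ℝ) * x + z.2 * y| ≤ 4 * b₁ * c₁ * Real.log 2 := by
    have h1 : |(z.1 : ℝ)| ≤ 2 * b₁ := by exact_mod_cast hz.1
    have h2 : |(z.2 : ℝ)| ≤ 2 * b₁ := by exact_mod_cast hz.2
    calc |(z.1 : ℝ) * x + z.2 * y| ≤ |(z.1 : ℝ) * x| + |(z.2 : ℝ) * y| := abs_add_le _ _
      _ = |(z.1 : ℝ)| * |x| + |(z.2 : ℝ)| * |y| := by rw [abs_mul, abs_mul]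
      _ ≤ 2 * b₁ * (c₁ * Real.log 2) + 2 * b₁ * (c₁ * Real.log 2) :=
          add_le_add (mul_le_mul h1 hx (abs_nonneg _) (by positivity))
            (mul_le_mul h2 hy (abs_nonneg _) (by positivity))
      _ = _ := by ring
  have hlu : (u.1 : ℝ) * x + u.2 * y = α * (w.1 * x + w.2 * y) + β * (z.1 * x + z.2 * y) := by
    rw [hc1, hc2]
    push_cast
    ring
  have hβr : |(β : ℝ)| ≤ 2 * b₂ := by exact_mod_cast hβ'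
  have h1 : |(α : ℝ)| * |(w.1 : ℝ) * x + w.2 * y| ≤ (c₂ + 8 * b₁ * b₂ * c₁) * Real.log 2 := by
    rw [← abs_mul]
    have h2 : (α : ℝ) * (w.1 * x + w.2 * y) = (u.1 * x + u.2 * y) - β * (z.1 * x + z.2 * y) := by
      rw [hlu]
      ring
    rw [h2]
    calc |((u.1 : ℝ) * x + u.2 * y) - β * (z.1 * x + z.2 * y)|
        ≤ |(u.1 : ℝ) * x + u.2 * y| + |(β : ℝ) * (z.1 * x + z.2 * y)| := abs_sub _ _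
      _ = |(u.1 : ℝ) * x + u.2 * y| + |(β : ℝ)| * |(z.1 : ℝ) * x + z.2 * y| := by rw [abs_mul]
      _ ≤ c₂ * Real.log 2 + 2 * b₂ * (4 * b₁ * c₁ * Real.log 2) :=
          add_le_add hu2 (mul_le_mul hβr hlz (abs_nonneg _) (by positivity))
      _ = _ := by ring
  have h2 : |(α : ℝ)| ≤ n * (c₂ + 8 * b₁ * b₂ * c₁) := by
    have h3 : |(α : ℝ)| * Real.log 2 ≤ n * (c₂ + 8 * b₁ * b₂ * c₁) * Real.log 2 := by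
      have h4 : Real.log 2 ≤ n * |(w.1 : ℝ) * x + w.2 * y| :=
        hg.le.trans (mul_le_mul_of_nonneg_left (le_abs_self _) (Nat.cast_nonneg n))
      calc |(α : ℝ)| * Real.log 2 ≤ |(α : ℝ)| * (n * |(w.1 : ℝ) * x + w.2 * y|) :=
            mul_le_mul_of_nonneg_left h4 (abs_nonneg _)
        _ = n * (|(α : ℝ)| * |(w.1 : ℝ) * x + w.2 * y|) := by ring
        _ ≤ n * ((c₂ + 8 * b₁ * b₂ * c₁) * Real.log 2) :=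
            mul_le_mul_of_nonneg_left h1 (Nat.cast_nonneg n)
        _ = _ := by ring
    exact le_of_mul_le_mul_right h3 hL
  have hα' : |α| ≤ ((n * (c₂ + 8 * b₁ * b₂ * c₁) : ℕ) : ℤ) := by
    have : ((|α| : ℤ) : ℝ) ≤ ((((n * (c₂ + 8 * b₁ * b₂ * c₁) : ℕ) : ℤ)) : ℝ) := by
      push_cast
      exact h2
    exact_mod_cast this
  have hfin : ∀ s t : ℤ, |s| ≤ ((2 * b₁ : ℕ) : ℤ) → |t| ≤ ((2 * b₁ : ℕ) : ℤ) →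
      |α * s + β * t| ≤ (((n * (c₂ + 8 * b₁ * b₂ * c₁) + 2 * b₂) * (2 * b₁) : ℕ) : ℤ) := by
    intro s t hs ht
    calc |α * s + β * t| ≤ |α * s| + |β * t| := abs_add_le _ _
      _ = |α| * |s| + |β| * |t| := by rw [abs_mul, abs_mul]
      _ ≤ ((n * (c₂ + 8 * b₁ * b₂ * c₁) : ℕ) : ℤ) * ((2 * b₁ : ℕ) : ℤ) +
          ((2 * b₂ : ℕ) : ℤ) * ((2 * b₁ : ℕ) : ℤ) :=
          add_le_add (mul_le_mul hα' hs (abs_nonneg _) (by positivity))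
            (mul_le_mul hβ' ht (abs_nonneg _) (by positivity))
      _ = _ := by
          push_cast
          ring
  rw [hc1, hc2]
  exact ⟨hfin _ _ hw.1 hz.1, hfin _ _ hw.2 hz.2⟩

theorem growth_bound {φ : ℤ × ℤ × ℤ × ℤ} (hφ : dt φ = 1 ∨ dt φ = -1) {w z w' : ℤ × ℤ}
    {b₁ b₂ c₁ c₂ n : ℕ} (hw : |w.1| ≤ ((2 * b₁ : ℕ) : ℤ) ∧ |w.2| ≤ ((2 * b₁ : ℕ) : ℤ))
    (hz : |z.1| ≤ ((2 * b₁ : ℕ) : ℤ) ∧ |z.2| ≤ ((2 * b₁ : ℕ) : ℤ))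
    (hw' : |w'.1| ≤ ((2 * b₂ : ℕ) : ℤ) ∧ |w'.2| ≤ ((2 * b₂ : ℕ) : ℤ))
    (hwz : det2 w z = 1) (he : actz φ w' = w ∨ actz φ w' = -w) {ξ η : ℂˣ}
    (hg : 2 < ‖((ξ ^ w.1 * η ^ w.2 : ℂˣ) : ℂ)‖ ^ n)
    (hξ : ‖(ξ : ℂ)‖ ≤ 2 ^ c₁ ∧ ‖((ξ⁻¹ : ℂˣ) : ℂ)‖ ≤ 2 ^ c₁)
    (hη : ‖(η : ℂ)‖ ≤ 2 ^ c₁ ∧ ‖((η⁻¹ : ℂˣ) : ℂ)‖ ≤ 2 ^ c₁)
    (hu1 : ‖((ξ ^ φ.1 * η ^ φ.2.1 : ℂˣ) : ℂ)‖ ≤ 2 ^ c₂ ∧
      ‖(((ξ ^ φ.1 * η ^ φ.2.1)⁻¹ : ℂˣ) : ℂ)‖ ≤ 2 ^ c₂)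
    (hu2 : ‖((ξ ^ φ.2.2.1 * η ^ φ.2.2.2 : ℂˣ) : ℂ)‖ ≤ 2 ^ c₂ ∧
      ‖(((ξ ^ φ.2.2.1 * η ^ φ.2.2.2)⁻¹ : ℂˣ) : ℂ)‖ ≤ 2 ^ c₂) :
    (|φ.1| ≤ (((n * (c₂ + 8 * b₁ * b₂ * c₁) + 2 * b₂) * (2 * b₁) : ℕ) : ℤ) ∧
      |φ.2.1| ≤ (((n * (c₂ + 8 * b₁ * b₂ * c₁) + 2 * b₂) * (2 * b₁) : ℕ) : ℤ)) ∧
    |φ.2.2.1| ≤ (((n * (c₂ + 8 * b₁ * b₂ * c₁) + 2 * b₂) * (2 * b₁) : ℕ) : ℤ) ∧
      |φ.2.2.2| ≤ (((n * (c₂ + 8 * b₁ * b₂ * c₁) + 2 * b₂) * (2 * b₁) : ℕ) : ℤ) := by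
  have hx := BdD_abs hξ
  have hy := BdD_abs hη
  have h1 := BdD_abs hu1
  have h2 := BdD_abs hu2
  rw [BdD_log] at h1 h2
  have h3 : Real.log 2 < n * ((w.1 : ℝ) * Real.log ‖(ξ : ℂ)‖ + w.2 * Real.log ‖(η : ℂ)‖) := by
    rw [← BdD_log, ← Real.log_pow]
    exact Real.log_lt_log (by norm_num) hg
  refine ⟨BdD_one (u := (φ.1, φ.2.1)) (e := (1, 0)) hφ hw hz hwz he ?_ ?_ hx hy h3 h1,
    BdD_one (u := (φ.2.2.1, φ.2.2.2)) (e := (0, 1)) hφ hw hz hwz he ?_ ?_ hx hy h3 h2⟩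
  · simp [actz]
  · simpa [det2] using hw'.2
  · simp [actz]
  · simpa [det2] using hw'.1

end Pool.Agent.H28.IP
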