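/-
ROW CvA. A Farey argument.
PROOF. Call `w` small if `|w.1| ≤ N` and `|w.2| ≤ N`. `pos w` and `pos (-w)` are never both true (hadd, h0).
Choose signs `s, t ∈ {1, -1}` with `pos (s, 0)` and `pos (0, -t)`: put `w = (s, 0)`, `w' = (0, t)`. These satisfy the
invariant: (I) `pos w`, `pos (-w')`, `w, w'` small, `δ := det2 w w' = ± 1`, `0 ≤ w.1 * w'.1`, `0 ≤ w.2 * w'.2`. As long
as `w + w'` is small (it is nonzero, as det2 w w' ≠ 0), replace `w` by `w + w'` if `pos (w + w')`, and `w'` by `w + w'` if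
`pos (-(w + w'))`; (I) is preserved, and `|w.1| + |w.2| + |w'.1| + |w'.2| ≤ 4 N` increases (because `|w.i + w'.i| =
|w.i| + |w'.i|`). So we reach a pair with (I) and `w + w'` not small (strong induction on `4 N` minus this sum).
Put `χ = (δ (w.2 + w'.2), -δ (w.1 + w'.1))`. For `u : ℤ × ℤ` let `α = δ det2 u w'`, `β = δ det2 w u`: then
`u = α w + β w'` and `χ · u = δ det2 u (w + w') = α - β`. `χ ≠ 0` and
`|χ.i| ≤ 2 N`. Let `u` be small with `pos u`. If `α ≥ 1` and `β ≥ 1`, or both `≤ -1`, then for each coordinate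
`|u.i| = |α| |w.i| + |β| |w'.i| ≥ |w.i + w'.i|`, and `w + w'` would be small: impossible. So `α ≥ 0 ≥ β` or
`α ≤ 0 ≤ β`, not both zero. In the second case `-u = (-α) w + β (-w')` is a nonzero combination with coefficients in ℕ
of elements with `pos`, so `pos (-u)` (induction on the coefficients, hadd), a contradiction with `pos u`. So `α ≥ 0 ≥ β`,
and `χ · u = α - β > 0`.
-/
import Pool.Agent.H28.IQ.Defs

set_option autoImplicit false

namespace Pool.Agent.H28.IP

/-- the invariant of the Farey descent -/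
private structure CvAInv (pos : ℤ × ℤ → Prop) (N : ℕ) (a b c d : ℤ) : Prop where
  pw : pos (a, b)
  pw' : pos (-c, -d)
  ha : |a| ≤ N
  hb : |b| ≤ N
  hc : |c| ≤ N
  hd : |d| ≤ N
  det : a * d - b * c = 1 ∨ a * d - b * c = -1
  hac : 0 ≤ a * c
  hbd : 0 ≤ b * d

private lemma CvA_abs_add {a c : ℤ} (h : 0 ≤ a * c) : |a + c| = |a| + |c| := by
  rcases lt_trichotomy a 0 with ha | ha | ha
  · have hc : c ≤ 0 := by nlinarith
    rw [abs_of_neg ha, abs_of_nonpos hc, abs_of_nonpos (by linarith)]; ring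
  · subst ha; simp
  · have hc : 0 ≤ c := by nlinarith
    rw [abs_of_pos ha, abs_of_nonneg hc, abs_of_nonneg (by linarith)]

private lemma CvA_step {pos : ℤ × ℤ → Prop} {N : ℕ}
    (hs : ∀ w : ℤ × ℤ, w ≠ 0 → |w.1| ≤ (N : ℤ) → |w.2| ≤ (N : ℤ) → pos w ∨ pos (-w)) :
    ∀ n : ℕ, ∀ a b c d : ℤ, CvAInv pos N a b c d → 4 * (N : ℤ) - (|a| + |b| + |c| + |d|) ≤ n →
      ∃ a b c d : ℤ, CvAInv pos N a b c d ∧ ¬ (|a + c| ≤ (N : ℤ) ∧ |b + d| ≤ (N : ℤ)) := by
  intro n
  induction n with
  | zero =>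
    intro a b c d hI hn
    refine ⟨a, b, c, d, hI, ?_⟩
    rintro ⟨h1, h2⟩
    rw [CvA_abs_add hI.hac] at h1
    rw [CvA_abs_add hI.hbd] at h2
    have h3 := hI.ha
    have h4 := hI.hb
    have h5 := hI.hc
    have h6 := hI.hd
    push_cast at hn
    have a0 : |a| = 0 := by have := abs_nonneg a; have := abs_nonneg b; have := abs_nonneg c; have := abs_nonneg d; linarith
    have b0 : |b| = 0 := by have := abs_nonneg a; have := abs_nonneg b; have := abs_nonneg c; have := abs_nonneg d; linarith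
    rw [abs_eq_zero] at a0 b0
    have := hI.det
    rw [a0, b0] at this
    omega
  | succ n ih =>
    intro a b c d hI hn
    by_cases hsm : |a + c| ≤ (N : ℤ) ∧ |b + d| ≤ (N : ℤ)
    · have hne : ((a + c, b + d) : ℤ × ℤ) ≠ 0 := by
        intro h
        have h1 : a + c = 0 := congrArg Prod.fst h
        have h2 : b + d = 0 := congrArg Prod.snd h
        have hc : c = -a := by linarith
        have hd : d = -b := by linarith
        have := hI.det
        rw [hc, hd] at this
        have e : a * -b - b * -a = 0 := by ring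
        rw [e] at this
        omega
      have hcd : 1 ≤ |c| + |d| := by
        by_contra h
        have h1 := abs_nonneg c
        have h2 := abs_nonneg d
        have c0 : |c| = 0 := by omega
        have d0 : |d| = 0 := by omega
        rw [abs_eq_zero] at c0 d0
        have := hI.det
        rw [c0, d0] at this
        omega
      have hab : 1 ≤ |a| + |b| := by
        by_contra h
        have h1 := abs_nonneg a
        have h2 := abs_nonneg b
        have c0 : |a| = 0 := by omega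
        have d0 : |b| = 0 := by omega
        rw [abs_eq_zero] at c0 d0
        have := hI.det
        rw [c0, d0] at this
        omega
      rcases hs _ hne hsm.1 hsm.2 with hp | hp
      · refine ih (a + c) (b + d) c d ⟨hp, hI.pw', hsm.1, hsm.2, hI.hc, hI.hd, ?_, ?_, ?_⟩ ?_
        · have e : (a + c) * d - (b + d) * c = a * d - b * c := by ring
          rw [e]; exact hI.det
        · nlinarith [hI.hac, mul_self_nonneg c]
        · nlinarith [hI.hbd, mul_self_nonneg d]
        · rw [CvA_abs_add hI.hac, CvA_abs_add hI.hbd]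
          push_cast at hn
          linarith
      · refine ih a b (a + c) (b + d) ⟨hI.pw, hp, hI.ha, hI.hb, hsm.1, hsm.2, ?_, ?_, ?_⟩ ?_
        · have e : a * (b + d) - b * (a + c) = a * d - b * c := by ring
          rw [e]; exact hI.det
        · nlinarith [hI.hac, mul_self_nonneg a]
        · nlinarith [hI.hbd, mul_self_nonneg b]
        · rw [CvA_abs_add hI.hac, CvA_abs_add hI.hbd]
          push_cast at hn
          linarith
    · exact ⟨a, b, c, d, hI, hsm⟩

private lemma CvA_big {N : ℕ} {a c x α β : ℤ} (hac : 0 ≤ a * c) (hx : |x| ≤ (N : ℤ)) (hxe : x = α * a + β * c)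
    (h : (1 ≤ α ∧ 1 ≤ β) ∨ (α ≤ -1 ∧ β ≤ -1)) : |a + c| ≤ (N : ℤ) := by
  have key : |a + c| ≤ |x| := by
    rw [hxe, CvA_abs_add hac]
    have hs : 0 ≤ (α * a) * (β * c) := by
      have e : (α * a) * (β * c) = (α * β) * (a * c) := by ring
      rw [e]
      refine mul_nonneg ?_ hac
      rcases h with ⟨h1, h2⟩ | ⟨h1, h2⟩ <;> nlinarith
    rw [CvA_abs_add hs, abs_mul, abs_mul]
    have hα : 1 ≤ |α| := by rcases h with ⟨h1, h2⟩ | ⟨h1, h2⟩ <;> [exact le_trans h1 (le_abs_self _); exact le_trans (by linarith) (neg_le_abs _)]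
    have hβ : 1 ≤ |β| := by rcases h with ⟨h1, h2⟩ | ⟨h1, h2⟩ <;> [exact le_trans h2 (le_abs_self _); exact le_trans (by linarith) (neg_le_abs _)]
    have := abs_nonneg a
    have := abs_nonneg c
    nlinarith
  exact key.trans hx

private lemma CvA_mul {pos : ℤ × ℤ → Prop} (hadd : ∀ z w, pos z → pos w → pos (z + w)) {z : ℤ × ℤ} (hz : pos z)
    (m : ℕ) : pos ((m + 1) • z) := by
  induction m with
  | zero => simpa using hz
  | succ m ih =>
    rw [add_smul (m + 1) 1 z, one_smul]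
    exact hadd _ _ ih hz

private lemma CvA_comb {pos : ℤ × ℤ → Prop} (hadd : ∀ z w, pos z → pos w → pos (z + w)) {z w : ℤ × ℤ} (hz : pos z)
    (hw : pos w) (m n : ℕ) (h : m ≠ 0 ∨ n ≠ 0) : pos (m • z + n • w) := by
  rcases m with _ | m
  · rcases n with _ | n
    · simp at h
    · simpa using CvA_mul hadd hw n
  · rcases n with _ | n
    · simpa using CvA_mul hadd hz m
    · exact hadd _ _ (CvA_mul hadd hz m) (CvA_mul hadd hw n)

theorem stern {pos : ℤ × ℤ → Prop} (hadd : ∀ z w, pos z → pos w → pos (z + w)) (h0 : ¬ pos 0)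
    {N : ℕ} (hN : 1 ≤ N)
    (hs : ∀ w : ℤ × ℤ, w ≠ 0 → |w.1| ≤ (N : ℤ) → |w.2| ≤ (N : ℤ) → pos w ∨ pos (-w)) :
    ∃ χ : ℤ × ℤ, χ ≠ 0 ∧ |χ.1| ≤ ((2 * N : ℕ) : ℤ) ∧ |χ.2| ≤ ((2 * N : ℕ) : ℤ) ∧
      ∀ w : ℤ × ℤ, |w.1| ≤ (N : ℤ) → |w.2| ≤ (N : ℤ) → pos w → 0 < χ.1 * w.1 + χ.2 * w.2 := by
  have hN' : (1 : ℤ) ≤ N := by exact_mod_cast hN
  -- starting pair
  have h1 : ∃ s : ℤ, (s = 1 ∨ s = -1) ∧ pos (s, 0) := by
    rcases hs (1, 0) (by simp) (by simpa using hN') (by simp) with h | h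
    · exact ⟨1, Or.inl rfl, h⟩
    · exact ⟨-1, Or.inr rfl, by simpa using h⟩
  have h2 : ∃ t : ℤ, (t = 1 ∨ t = -1) ∧ pos (0, -t) := by
    rcases hs (0, 1) (by simp) (by simp) (by simpa using hN') with h | h
    · exact ⟨-1, Or.inr rfl, by simpa using h⟩
    · exact ⟨1, Or.inl rfl, by simpa using h⟩
  obtain ⟨s, hs1, hps⟩ := h1
  obtain ⟨t, ht1, hpt⟩ := h2
  have hI0 : CvAInv pos N s 0 0 t := by
    refine ⟨hps, by simpa using hpt, ?_, by simp, by simp, ?_, ?_, by simp, by simp⟩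
    · rcases hs1 with rfl | rfl <;> simpa using hN'
    · rcases ht1 with rfl | rfl <;> simpa using hN'
    · rcases hs1 with rfl | rfl <;> rcases ht1 with rfl | rfl <;> simp
  obtain ⟨a, b, c, d, hI, hbig⟩ := CvA_step hs (4 * N) s 0 0 t hI0 (by
    push_cast
    have := abs_nonneg s; have := abs_nonneg t
    simp
    linarith)
  obtain ⟨δ, hδ, hδ2⟩ : ∃ δ : ℤ, δ = a * d - b * c ∧ δ * δ = 1 := by
    refine ⟨_, rfl, ?_⟩
    rcases hI.det with h | h <;> rw [h] <;> norm_num
  have hδabs : |δ| = 1 := by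
    rcases hI.det with h | h <;> rw [hδ, h] <;> simp
  have hA1 := hI.ha
  have hA2 := hI.hb
  have hA3 := hI.hc
  have hA4 := hI.hd
  refine ⟨(δ * (b + d), -(δ * (a + c))), ?_, ?_, ?_, ?_⟩
  · intro h
    have e1 : δ * (b + d) = 0 := congrArg Prod.fst h
    have e2 : -(δ * (a + c)) = 0 := congrArg Prod.snd h
    have hδ0 : δ ≠ 0 := by intro h; rw [h] at hδ2; simp at hδ2
    have e1' : b + d = 0 := by rcases mul_eq_zero.1 e1 with h | h; exact absurd h hδ0; exact h
    have e2' : a + c = 0 := by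
      rcases mul_eq_zero.1 (neg_eq_zero.1 e2) with h | h
      exact absurd h hδ0
      exact h
    apply hbig
    rw [e1', e2']
    simp
  · simp only [abs_mul, hδabs, one_mul]
    rw [CvA_abs_add hI.hbd]
    push_cast
    linarith
  · simp only [abs_neg, abs_mul, hδabs, one_mul]
    rw [CvA_abs_add hI.hac]
    push_cast
    linarith
  · rintro ⟨x, y⟩ hx hy hu
    simp only at hx hy ⊢
    set α : ℤ := δ * (x * d - y * c) with hα
    set β : ℤ := δ * (a * y - b * x) with hβ
    have hxe : x = α * a + β * c := by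
      have : α * a + β * c = (δ * (a * d - b * c)) * x := by rw [hα, hβ]; ring
      rw [this, ← hδ, hδ2, one_mul]
    have hye : y = α * b + β * d := by
      have : α * b + β * d = (δ * (a * d - b * c)) * y := by rw [hα, hβ]; ring
      rw [this, ← hδ, hδ2, one_mul]
    have hval : δ * (b + d) * x + -(δ * (a + c)) * y = α - β := by rw [hα, hβ]; ring
    rw [hval]
    have hnot : ¬ ((1 ≤ α ∧ 1 ≤ β) ∨ (α ≤ -1 ∧ β ≤ -1)) := fun h =>
      hbig ⟨CvA_big hI.hac hx hxe h, CvA_big hI.hbd hy hye h⟩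
    by_contra hneg
    have hle : α ≤ 0 ∧ 0 ≤ β := by
      constructor
      · by_contra h
        exact hnot (Or.inl ⟨by omega, by omega⟩)
      · by_contra h
        exact hnot (Or.inr ⟨by omega, by omega⟩)
    have hz : α ≠ 0 ∨ β ≠ 0 := by
      by_contra h
      push Not at h
      rw [h.1, h.2] at hxe hye
      simp only [zero_mul, add_zero] at hxe hye
      rw [hxe, hye] at hu
      exact h0 hu
    obtain ⟨m, hm⟩ := Int.eq_ofNat_of_zero_le (show 0 ≤ -α by omega)
    obtain ⟨n, hn⟩ := Int.eq_ofNat_of_zero_le hle.2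
    have hc := CvA_comb hadd hI.pw hI.pw' m n (by omega)
    have e : m • ((a, b) : ℤ × ℤ) + n • ((-c, -d) : ℤ × ℤ) = (-x, -y) := by
      ext
      · have e0 : (m • ((a, b) : ℤ × ℤ) + n • ((-c, -d) : ℤ × ℤ)).1 = (m : ℤ) * a + (n : ℤ) * -c := by simp
        rw [e0, ← hn, ← hm, hxe]
        ring
      · have e0 : (m • ((a, b) : ℤ × ℤ) + n • ((-c, -d) : ℤ × ℤ)).2 = (m : ℤ) * b + (n : ℤ) * -d := by simp
        rw [e0, ← hn, ← hm, hye]
        ring
    rw [e] at hc
    have := hadd _ _ hu hc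
    apply h0
    have e3 : ((x, y) : ℤ × ℤ) + (-x, -y) = 0 := by ext <;> simp
    rwa [e3] at this

end Pool.Agent.H28.IP
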