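/-
ROW CvB. Directions of valuations are small.
PROOF of cov_sound. Write `P z = evr ξ η (mo z) = ξ ^ z.1 η ^ z.2` (evr_mo in Pool.Agent.H28.IP.GmA), nonzero,
multiplicative in `z` (mo_add), `P 0 = 1`, `P (-z) = (P z)⁻¹`. Suppose the conclusion is false. Let
`pos z := P z ∈ V.nonunits`. `nonunits` is closed under products, does not contain 1, and `x ∉ V → x⁻¹ ∈ V.nonunits`
(ValuationSubring.mem_nonunits_iff, valuation), so for `w ≠ 0` of size at most `N = 2 b`: `P w` and `P (-w)` are not both in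
`V`, so `pos (-w)` or `pos w`. By stern (CvA) there is `χ ≠ 0` of size at most `4 b`, `χ · w > 0` for all `w` of size at
most `2 b` with `pos w`. Let `x ∈ box2 (4 b)` with `vv x = χ` (WlB_ints in Pool.Agent.H28.IP.WlB; `box2` is
a flatMap). By Cov: either some `w ∈ box2 (2 b)`, `vv w ≠ 0`, has `χ · vv w = 0` (vz of dotV by vz_addp, vz_mulp in
Pool.Agent.H28.IP.WlA; size of elements of `ints K`: `|vz u| ≤ K`): contradiction, as `pos w` or `pos (-w)`. Or there are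
`L ∈ Ls`, `e₀ ∈ L` such that exactly one position of the list `L` has `χ · z_e ≤ χ · z_{e₀}` (it is the position of
`e₀`), where `z_e = (vz e.1, vz e.2.1)`. For all other positions `e`: `u = z_e - z_{e₀}` has `χ · u > 0` and size at most
`2 mx L ≤ 2 b` (each entry of `z_e` is at most `mx L`), so `u ≠ 0` and `pos u` (else `pos (-u)` and `χ · (-u) > 0`). Now
`0 = P (-z_{e₀}) evr ξ η (pol L) = ± 1 + ∑ ± P (z_e - z_{e₀})` (sum over the other positions; additivity of `pol`: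
WlA_pol_cons), the sum being in the ideal of nonunits of `V`: then `1` would be a nonunit, a contradiction.
(List bookkeeping: if `(L.filter q).length = 1` and `q e₀` then `L = L₁ ++ e₀ :: L₂` with no element of `L₁`, `L₂`
satisfying `q`.)
dir: take `w` from cov_sound, `g = gcd w.1 w.2 ≥ 1`, `w = g w₀`. `P w₀ ∈ V` because `(P w₀) ^ g = P w ∈ V` and
(`x ∉ V → x⁻¹ ∈ nonunits → (x⁻¹) ^ g ∈ nonunits → x ^ g ∉ V`), the same for `P (-w₀)`. `w₀` is primitive and of size at most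
`2 b`; there is `z` with `det2 w₀ z = 1` and size at most that of `w₀` (Bezout: if `w₀.1 = 0` then `w₀.2 = ± 1`, `z = (∓1, 0)`;
if `w₀.2 = 0` then `z = (0, ± 1)`; otherwise take `z.1` with `0 ≤ z.1 < |w₀.1|`, `w₀.2 z.1 ≡ -1 mod w₀.1`, and
`z.2 = (1 + w₀.2 z.1) / w₀.1`, `|z.2| ≤ |w₀.2|`: `|1 + w₀.2 z.1| ≤ 1 + |w₀.2| (|w₀.1| - 1) ≤ |w₀.2| |w₀.1|`).
dir_unique: if `det2 w w' ≠ 0` then for every `z`: `det2 w w' • z = det2 z w' • w + det2 w z • w'`, so
`(P z) ^ k ∈ V` for `k = |det2 w w'| ≥ 1` (powers with integer exponents of `P w`, `P w'`, units of `V`), so `P z ∈ V` as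
before: contradiction with hnt.
-/
import Pool.Agent.H28.IQ.CvA
import Pool.Agent.H28.IP.GmA
import Pool.Agent.H28.IP.WlB
import Pool.Agent.H28.IP.WlA

set_option autoImplicit false

namespace Pool.Agent.H28.IP

section CvBaux

variable {K : Type} [Field K]

theorem CvB_add (ξ η : Kˣ) (z w : ℤ × ℤ) :
    evr ξ η (mo (z + w)) = evr ξ η (mo z) * evr ξ η (mo w) := by
  rw [mo_add, map_mul]

theorem CvB_zero (ξ η : Kˣ) : evr ξ η (mo 0) = 1 := by
  rw [mo_zero, map_one]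

theorem CvB_neg (ξ η : Kˣ) (z : ℤ × ℤ) : evr ξ η (mo (-z)) = (evr ξ η (mo z))⁻¹ :=
  eq_inv_of_mul_eq_one_left (by rw [← CvB_add, neg_add_cancel, CvB_zero])

theorem CvB_ne (ξ η : Kˣ) (z : ℤ × ℤ) : evr ξ η (mo z) ≠ 0 := by
  intro h
  have h1 : evr ξ η (mo (z + -z)) = 1 := by rw [add_neg_cancel, CvB_zero]
  rw [CvB_add, h, zero_mul] at h1
  exact zero_ne_one h1

theorem CvB_nsmul (ξ η : Kˣ) (n : ℕ) (z : ℤ × ℤ) :
    evr ξ η (mo (n • z)) = (evr ξ η (mo z)) ^ n := by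
  induction n with
  | zero => rw [zero_smul, CvB_zero, pow_zero]
  | succ n ih => rw [add_smul, one_smul, CvB_add, ih, pow_succ]

theorem CvB_zsmul (ξ η : Kˣ) (n : ℤ) (z : ℤ × ℤ) :
    evr ξ η (mo (n • z)) = (evr ξ η (mo z)) ^ n := by
  rcases n with n | n
  · have : (Int.ofNat n) • z = n • z := natCast_zsmul z n
    rw [this, CvB_nsmul]
    exact (zpow_natCast _ n).symm
  · rw [negSucc_zsmul, CvB_neg, CvB_nsmul, zpow_negSucc]

theorem CvB_memV (V : ValuationSubring K) (x : K) : x ∈ V ↔ V.valuation x ≤ 1 :=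
  (V.valuation_le_one_iff x).symm

theorem CvB_root (V : ValuationSubring K) {x : K} {g : ℕ} (hg : 1 ≤ g) (h : x ^ g ∈ V) : x ∈ V := by
  rw [CvB_memV, map_pow] at h
  rw [CvB_memV]
  by_contra hc
  push Not at hc
  exact absurd (one_lt_pow' hc (by omega)) (not_lt.2 h)

theorem CvB_lt (V : ValuationSubring K) {x : K} (h : 1 < V.valuation x) : V.valuation x⁻¹ < 1 := by
  rw [map_inv₀]
  exact inv_lt_one_of_one_lt₀ h

theorem CvB_sum (V : ValuationSubring K) (ξ η : Kˣ) (c : K) (s : NL)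
    (h : ∀ e ∈ s, V.valuation (c * evr ξ η (mo (vz e.1, vz e.2.1))) < 1) :
    V.valuation (c * evr ξ η (pol s)) < 1 := by
  induction s with
  | nil =>
    have h2 : pol [] = 0 := rfl
    rw [h2, map_zero, mul_zero, map_zero]
    exact zero_lt_one
  | cons e s ih =>
    rw [WlA_pol_cons, map_add, mul_add]
    refine lt_of_le_of_lt (V.valuation.map_add _ _) (max_lt ?_ (ih fun e' he' => h e' (List.mem_cons_of_mem _ he')))
    have h1 := h e List.mem_cons_self
    cases e.2.2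
    · rw [cond_false, map_neg, mul_neg, Valuation.map_neg]
      exact h1
    · rw [cond_true]
      exact h1

theorem CvB_ints {k : ℕ} {u : ℕ × ℕ} (h : u ∈ ints k) : |vz u| ≤ (k : ℤ) := by
  unfold ints at h
  rw [List.mem_flatMap] at h
  obtain ⟨n, hn, hu⟩ := h
  rw [List.mem_range] at hn
  simp only [List.mem_cons, List.not_mem_nil, or_false] at hu
  unfold vz
  rw [abs_le]
  rcases hu with rfl | rfl
  · constructor <;> simp <;> omega
  · constructor <;> simp <;> omega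

theorem CvB_box {k : ℕ} {w : VV} (h : w ∈ box2 k) : |(vv w).1| ≤ (k : ℤ) ∧ |(vv w).2| ≤ (k : ℤ) := by
  unfold box2 at h
  rw [List.mem_flatMap] at h
  obtain ⟨a, ha, h⟩ := h
  rw [List.mem_map] at h
  obtain ⟨b, hb, rfl⟩ := h
  exact ⟨CvB_ints ha, CvB_ints hb⟩

theorem CvB_dot (x w : VV) : vz (dotV x w) = (vv x).1 * (vv w).1 + (vv x).2 * (vv w).2 := by
  unfold dotV vv
  rw [vz_addp, vz_mulp, vz_mulp]

theorem CvB_mx {L : NL} {e : (ℕ × ℕ) × (ℕ × ℕ) × Bool} (h : e ∈ L) :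
    |vz e.1| ≤ (mx L : ℤ) ∧ |vz e.2.1| ≤ (mx L : ℤ) := by
  have h1 : e.1.1 + e.1.2 + e.2.1.1 + e.2.1.2 ≤ mx L := by
    induction L with
    | nil => simp at h
    | cons e' L ih =>
      have hm : mx (e' :: L) = (e'.1.1 + e'.1.2 + e'.2.1.1 + e'.2.1.2) + mx L := by
        simp [mx]
      rw [hm]
      rcases List.mem_cons.1 h with rfl | h
      · omega
      · have := ih h
        omega
  unfold vz
  constructor
  · rw [abs_le]; constructor <;> omega
  · rw [abs_le]; constructor <;> omega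

theorem CvB_bezout {a c : ℤ} {B : ℕ} (hB : 1 ≤ B) (hco : IsCoprime a c) (ha : |a| ≤ (B : ℤ))
    (hc : |c| ≤ (B : ℤ)) : ∃ z1 z2 : ℤ, a * z2 - c * z1 = 1 ∧ |z1| ≤ (B : ℤ) ∧ |z2| ≤ (B : ℤ) := by
  rcases eq_or_ne a 0 with h0 | h0
  · subst h0
    have h1 : IsUnit c := isCoprime_zero_left.1 hco
    rcases Int.isUnit_iff.1 h1 with h2 | h2
    · subst h2
      exact ⟨-1, 0, by ring, by simpa using hc, by simp⟩
    · subst h2
      exact ⟨1, 0, by ring, by simpa using hc, by simp⟩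
  rcases eq_or_ne c 0 with h1 | h1
  · subst h1
    have h1 : IsUnit a := isCoprime_zero_right.1 hco
    rcases Int.isUnit_iff.1 h1 with h2 | h2
    · subst h2
      exact ⟨0, 1, by ring, by simp, by simpa using ha⟩
    · subst h2
      exact ⟨0, -1, by ring, by simp, by simpa using ha⟩
  obtain ⟨u, v, huv⟩ := hco
  have ha0 : 0 < |a| := abs_pos.2 h0
  have hc0 : 0 < |c| := abs_pos.2 h1
  have h2 : a * ((-v) / a) + (-v) % a = -v := Int.mul_ediv_add_emod (-v) a
  have h3 : 0 ≤ (-v) % a := Int.emod_nonneg _ h0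
  have h4 : (-v) % a < |a| := Int.emod_lt_abs _ h0
  obtain ⟨t, ht⟩ : ∃ t : ℤ, t = (-v) / a := ⟨_, rfl⟩
  obtain ⟨r, hr⟩ : ∃ r : ℤ, r = (-v) % a := ⟨_, rfl⟩
  rw [← ht, ← hr] at h2
  rw [← hr] at h3 h4
  refine ⟨r, u - c * t, ?_, ?_, ?_⟩
  · have : v = -(a * t + r) := by linarith
    rw [this] at huv
    linarith
  · rw [abs_of_nonneg h3]
    omega
  · have h5 : a * (u - c * t) = 1 + c * r := by
      have : v = -(a * t + r) := by linarith
      rw [this] at huv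
      linarith
    have h6 : |a| * |u - c * t| ≤ |a| * |c| := by
      rw [← abs_mul, h5]
      calc |1 + c * r| ≤ |1| + |c * r| := abs_add_le _ _
        _ = 1 + |c| * r := by rw [abs_one, abs_mul, abs_of_nonneg h3]
        _ ≤ 1 + |c| * (|a| - 1) := by nlinarith
        _ ≤ |a| * |c| := by nlinarith
    exact (le_of_mul_le_mul_left h6 ha0).trans hc

end CvBaux

theorem cov_sound {K : Type} [Field K] (V : ValuationSubring K) (ξ η : Kˣ) {Ls : List NL} {b : ℕ}
    (hC : Cov Ls b) (h0 : ∀ L ∈ Ls, evr ξ η (pol L) = 0) :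
    ∃ w : ℤ × ℤ, w ≠ 0 ∧ |w.1| ≤ ((2 * b : ℕ) : ℤ) ∧ |w.2| ≤ ((2 * b : ℕ) : ℤ) ∧
      evr ξ η (mo w) ∈ V ∧ evr ξ η (mo (-w)) ∈ V := by
  classical
  by_contra hcon
  push Not at hcon
  have hV : ∀ z : ℤ × ℤ, V.valuation (evr ξ η (mo (-z))) = (V.valuation (evr ξ η (mo z)))⁻¹ := by
    intro z
    rw [CvB_neg, map_inv₀]
  have hadd : ∀ z w : ℤ × ℤ, V.valuation (evr ξ η (mo z)) < 1 → V.valuation (evr ξ η (mo w)) < 1 →
      V.valuation (evr ξ η (mo (z + w))) < 1 := by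
    intro z w hz hw
    rw [CvB_add, map_mul]
    exact lt_of_le_of_lt (mul_le_of_le_one_left' hz.le) hw
  have h00 : ¬ V.valuation (evr ξ η (mo (0 : ℤ × ℤ))) < 1 := by
    rw [CvB_zero, map_one]
    exact lt_irrefl 1
  have hs : ∀ w : ℤ × ℤ, w ≠ 0 → |w.1| ≤ ((2 * b : ℕ) : ℤ) → |w.2| ≤ ((2 * b : ℕ) : ℤ) →
      V.valuation (evr ξ η (mo w)) < 1 ∨ V.valuation (evr ξ η (mo (-w))) < 1 := by
    intro w hw h1 h2
    by_cases h3 : evr ξ η (mo w) ∈ V
    · have h4 := hcon w hw h1 h2 h3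
      rw [CvB_memV, not_le] at h4
      left
      have h5 := CvB_lt V h4
      rw [← CvB_neg, neg_neg] at h5
      exact h5
    · rw [CvB_memV, not_le] at h3
      right
      rw [CvB_neg]
      exact CvB_lt V h3
  have hb := hC.1
  obtain ⟨χ, hχ0, hχ1, hχ2, hχ⟩ := stern hadd h00 (N := 2 * b) (by omega) hs
  have h22 : (2 * (2 * b) : ℕ) = 4 * b := by ring
  rw [h22] at hχ1 hχ2
  obtain ⟨u1, hu1, hu1'⟩ := WlB_ints hχ1
  obtain ⟨u2, hu2, hu2'⟩ := WlB_ints hχ2
  have hx : ((u1, u2) : VV) ∈ box2 (4 * b) := by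
    unfold box2
    rw [List.mem_flatMap]
    refine ⟨u1, hu1, ?_⟩
    rw [List.mem_map]
    exact ⟨u2, hu2, rfl⟩
  have hvx : vv (u1, u2) = χ := by
    unfold vv
    simp only [hu1', hu2']
  rcases hC.2.2 (u1, u2) hx (by rw [hvx]; exact hχ0) with ⟨w, hw, hw0, hdot⟩ | ⟨L, hL, e₀, he₀, hlen⟩
  · rw [CvB_dot, hvx] at hdot
    obtain ⟨s1, s2⟩ := CvB_box hw
    rcases hs (vv w) hw0 s1 s2 with h | h
    · have := hχ (vv w) s1 s2 h
      linarith
    · have := hχ (-vv w) (by simpa using s1) (by simpa using s2) h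
      simp only [Prod.fst_neg, Prod.snd_neg] at this
      linarith
  · have hself : leE (u1, u2) e₀ e₀ = true := by
      unfold leE
      simp
    obtain ⟨s, t, hst⟩ := List.append_of_mem he₀
    have hlen2 : (s.filter (leE (u1, u2) e₀)).length = 0 ∧ (t.filter (leE (u1, u2) e₀)).length = 0 := by
      rw [hst, List.filter_append, List.filter_cons_of_pos hself, List.length_append,
        List.length_cons] at hlen
      omega
    have hs' : ∀ e ∈ s, ¬ leE (u1, u2) e₀ e = true := by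
      have := List.length_eq_zero_iff.1 hlen2.1
      exact List.filter_eq_nil_iff.1 this
    have ht' : ∀ e ∈ t, ¬ leE (u1, u2) e₀ e = true := by
      have := List.length_eq_zero_iff.1 hlen2.2
      exact List.filter_eq_nil_iff.1 this
    have hmx := hC.2.1 L hL
    have hkey : ∀ e ∈ L, ¬ leE (u1, u2) e₀ e = true →
        V.valuation (evr ξ η (mo (-(vz e₀.1, vz e₀.2.1))) * evr ξ η (mo (vz e.1, vz e.2.1))) < 1 := by
      intro e he hle
      rw [← CvB_add]
      have hle' : vz (dotV (u1, u2) (e₀.1, e₀.2.1)) < vz (dotV (u1, u2) (e.1, e.2.1)) := by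
        unfold leE at hle
        rw [decide_eq_true_eq, not_le] at hle
        exact hle
      rw [CvB_dot, CvB_dot, hvx] at hle'
      have he1 := CvB_mx he
      have he2 := CvB_mx he₀
      have a1 := abs_le.1 he1.1
      have a2 := abs_le.1 he1.2
      have a3 := abs_le.1 he2.1
      have a4 := abs_le.1 he2.2
      have hmx' : (mx L : ℤ) ≤ b := by exact_mod_cast hmx
      simp only [vv] at hle'
      obtain ⟨z, hz⟩ : ∃ z : ℤ × ℤ, z = -(vz e₀.1, vz e₀.2.1) + (vz e.1, vz e.2.1) := ⟨_, rfl⟩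
      rw [← hz]
      have hz1 : z.1 = -vz e₀.1 + vz e.1 := by rw [hz]; rfl
      have hz2 : z.2 = -vz e₀.2.1 + vz e.2.1 := by rw [hz]; rfl
      have hdot : 0 < χ.1 * z.1 + χ.2 * z.2 := by
        rw [hz1, hz2]
        linarith
      have hzne : z ≠ 0 := by
        intro h
        rw [h] at hdot
        simp at hdot
      have b1 : |z.1| ≤ ((2 * b : ℕ) : ℤ) := by
        rw [hz1, abs_le]; push_cast; constructor <;> linarith
      have b2 : |z.2| ≤ ((2 * b : ℕ) : ℤ) := by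
        rw [hz2, abs_le]; push_cast; constructor <;> linarith
      rcases hs z hzne b1 b2 with h | h
      · exact h
      · exfalso
        have := hχ (-z) (by simpa using b1) (by simpa using b2) h
        simp only [Prod.fst_neg, Prod.snd_neg] at this
        linarith
    have h1 := CvB_sum V ξ η (evr ξ η (mo (-(vz e₀.1, vz e₀.2.1)))) s
      (fun e he => hkey e (by rw [hst]; exact List.mem_append_left _ he) (hs' e he))
    have h2 := CvB_sum V ξ η (evr ξ η (mo (-(vz e₀.1, vz e₀.2.1)))) t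
      (fun e he => hkey e (by rw [hst]; exact List.mem_append_right _ (List.mem_cons_of_mem _ he)) (ht' e he))
    have h3 := h0 L hL
    rw [hst, WlA_pol_app, WlA_pol_cons, map_add, map_add] at h3
    have h4 : V.valuation (evr ξ η (mo (-(vz e₀.1, vz e₀.2.1))) *
        evr ξ η (cond e₀.2.2 (mo (vz e₀.1, vz e₀.2.1)) (-mo (vz e₀.1, vz e₀.2.1)))) = 1 := by
      have h5 : evr ξ η (mo (-(vz e₀.1, vz e₀.2.1))) * evr ξ η (mo (vz e₀.1, vz e₀.2.1)) = 1 := by
        rw [← CvB_add, neg_add_cancel, CvB_zero]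
      cases e₀.2.2
      · rw [cond_false, map_neg, mul_neg, Valuation.map_neg, h5, map_one]
      · rw [cond_true, h5, map_one]
    have h6 : evr ξ η (mo (-(vz e₀.1, vz e₀.2.1))) *
        evr ξ η (cond e₀.2.2 (mo (vz e₀.1, vz e₀.2.1)) (-mo (vz e₀.1, vz e₀.2.1))) =
        -(evr ξ η (mo (-(vz e₀.1, vz e₀.2.1))) * evr ξ η (pol s) +
          evr ξ η (mo (-(vz e₀.1, vz e₀.2.1))) * evr ξ η (pol t)) := by
      have := congrArg (fun y => evr ξ η (mo (-(vz e₀.1, vz e₀.2.1))) * y) h3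
      simp only [mul_add, mul_zero] at this
      linear_combination this
    rw [h6, Valuation.map_neg] at h4
    have h7 := lt_of_le_of_lt (V.valuation.map_add
      (evr ξ η (mo (-(vz e₀.1, vz e₀.2.1))) * evr ξ η (pol s))
      (evr ξ η (mo (-(vz e₀.1, vz e₀.2.1))) * evr ξ η (pol t))) (max_lt h1 h2)
    rw [h4] at h7
    exact lt_irrefl _ h7

theorem dir {K : Type} [Field K] (V : ValuationSubring K) (ξ η : Kˣ) {Ls : List NL} {b : ℕ}
    (hC : Cov Ls b) (h0 : ∀ L ∈ Ls, evr ξ η (pol L) = 0) :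
    ∃ w z : ℤ × ℤ, det2 w z = 1 ∧ (|w.1| ≤ ((2 * b : ℕ) : ℤ) ∧ |w.2| ≤ ((2 * b : ℕ) : ℤ)) ∧
      (|z.1| ≤ ((2 * b : ℕ) : ℤ) ∧ |z.2| ≤ ((2 * b : ℕ) : ℤ)) ∧
      evr ξ η (mo w) ∈ V ∧ evr ξ η (mo (-w)) ∈ V := by
  obtain ⟨w, hw0, hw1, hw2, hw3, hw4⟩ := cov_sound V ξ η hC h0
  have hb := hC.1
  obtain ⟨g, hg⟩ : ∃ g : ℕ, g = Int.gcd w.1 w.2 := ⟨_, rfl⟩
  have hg1 : 1 ≤ g := by
    rw [hg]
    apply Nat.one_le_iff_ne_zero.2
    intro h
    rw [Int.gcd_eq_zero_iff] at h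
    exact hw0 (Prod.ext h.1 h.2)
  have hgz : (0 : ℤ) < g := by exact_mod_cast hg1
  obtain ⟨a, ha⟩ : (g : ℤ) ∣ w.1 := by rw [hg]; exact Int.gcd_dvd_left _ _
  obtain ⟨c, hc⟩ : (g : ℤ) ∣ w.2 := by rw [hg]; exact Int.gcd_dvd_right _ _
  have hwg : w = g • ((a, c) : ℤ × ℤ) := by
    ext
    · rw [ha]; simp
    · rw [hc]; simp
  have hco : IsCoprime a c := by
    rw [Int.isCoprime_iff_gcd_eq_one]
    have h1 : Int.gcd w.1 w.2 = g * Int.gcd a c := by
      rw [ha, hc, Int.gcd_mul_left]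
      simp
    rw [← hg] at h1
    have h2 : g * Int.gcd a c = g * 1 := by rw [mul_one]; exact h1.symm
    exact Nat.eq_of_mul_eq_mul_left hg1 h2
  have hle : ∀ x : ℤ, |x| ≤ |(g : ℤ) * x| := by
    intro x
    rw [abs_mul, abs_of_pos hgz]
    have := abs_nonneg x
    nlinarith
  have ha1 : |a| ≤ ((2 * b : ℕ) : ℤ) := (hle a).trans (by rw [← ha]; exact hw1)
  have hc1 : |c| ≤ ((2 * b : ℕ) : ℤ) := (hle c).trans (by rw [← hc]; exact hw2)
  obtain ⟨z1, z2, hdet, hz1, hz2⟩ := CvB_bezout (B := 2 * b) (by omega) hco ha1 hc1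
  refine ⟨(a, c), (z1, z2), hdet, ⟨ha1, hc1⟩, ⟨hz1, hz2⟩, ?_, ?_⟩
  · apply CvB_root V hg1
    rw [← CvB_nsmul, ← hwg]
    exact hw3
  · apply CvB_root V hg1
    rw [← CvB_nsmul, smul_neg, ← hwg]
    exact hw4

theorem dir_unique {K : Type} [Field K] (V : ValuationSubring K) (ξ η : Kˣ)
    (hnt : ∃ z : ℤ × ℤ, evr ξ η (mo z) ∉ V) {w w' : ℤ × ℤ}
    (h1 : evr ξ η (mo w) ∈ V) (h2 : evr ξ η (mo (-w)) ∈ V)
    (h3 : evr ξ η (mo w') ∈ V) (h4 : evr ξ η (mo (-w')) ∈ V) : det2 w w' = 0 := by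
  by_contra hk
  obtain ⟨z, hz⟩ := hnt
  apply hz
  have hval : ∀ u : ℤ × ℤ, evr ξ η (mo u) ∈ V → evr ξ η (mo (-u)) ∈ V →
      V.valuation (evr ξ η (mo u)) = 1 := by
    intro u hu hu'
    rw [CvB_memV] at hu hu'
    apply le_antisymm hu
    by_contra hc
    push Not at hc
    have h5 : 1 < V.valuation (evr ξ η (mo (-u))) := by
      rw [CvB_neg, map_inv₀]
      exact (one_lt_inv₀ (by
        rw [zero_lt_iff, ne_eq, map_eq_zero]
        exact CvB_ne ξ η u)).2 hc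
    exact absurd h5 (not_lt.2 hu')
  have v1 := hval w h1 h2
  have v2 := hval w' h3 h4
  have hcomb : (det2 w w') • z = (det2 z w') • w + (det2 w z) • w' := by
    ext
    · simp only [Prod.smul_fst, Prod.fst_add, smul_eq_mul, det2]
      ring
    · simp only [Prod.smul_snd, Prod.snd_add, smul_eq_mul, det2]
      ring
  have h5 : V.valuation (evr ξ η (mo z)) ^ (det2 w w') = 1 := by
    rw [← map_zpow₀, ← CvB_zsmul, hcomb, CvB_add, CvB_zsmul, CvB_zsmul, map_mul, map_zpow₀, map_zpow₀,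
      v1, v2, one_zpow, one_zpow, mul_one]
  have h6 : V.valuation (evr ξ η (mo z)) ^ (det2 w w').natAbs = 1 := by
    rcases Int.natAbs_eq (det2 w w') with h | h
    · rw [h, zpow_natCast] at h5
      exact h5
    · rw [h, zpow_neg, zpow_natCast, inv_eq_one] at h5
      exact h5
  apply CvB_root V (g := (det2 w w').natAbs) (Nat.one_le_iff_ne_zero.2 (by rwa [ne_eq, Int.natAbs_eq_zero]))
  rw [CvB_memV, map_pow, h6]

end Pool.Agent.H28.IP
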