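/-
ROW CvC. Valuations from orders.
PROOF. Let `S ⊆ Lam` be the subring of the `f` with support in `{0} ∪ {z | pos z}` (closed under products because
`pos` is closed under addition and `¬ pos 0`), and `ε : S → ℤ`, `ε f = f.coeff 0`, a ring homomorphism (the
coefficient of `f g` at 0 is `f 0 g 0`: `z + w = 0` with `z, w ∈ {0} ∪ pos` forces `z = w = 0`, else `pos 0`).
The set `{ε f | f ∈ I ∩ S}` is an ideal of ℤ which does not contain 1 (hno), so it is contained in `p ℤ` for a prime
`p` (a maximal ideal of ℤ; if it is zero take `p = 2`). Let `R = Lam ⧸ I`, `S' ⊆ R` the image of `S`, a subring, and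
`n' ⊆ S'` the image of `{f ∈ S | p ∣ ε f}`: an ideal of `S'`, and `1 ∉ n'`: otherwise `1 - f ∈ I` with `f ∈ S`, `p ∣ ε f`, and
`1 - f ∈ I ∩ S` has `ε (1 - f) = 1 - ε f`, not divisible by `p`. Let `q` be a maximal ideal of `S'` containing `n'`, `q₀ ⊆ q` a
minimal prime of `S'` (`Ideal.exists_minimalPrimes_le`), and `Q` a prime of `R` with `Q ∩ S' = q₀`
(`Ideal.exists_comap_eq_of_mem_minimalPrimes_of_injective` for the injection `S' → R`). Let `K = FractionRing (R ⧸ Q)`,
`θ : Lam →+* K` the composite, `ξ, η` the images of `x, y` (units, `Units.map` of `XL, YL`); `θ f = evr ξ η f` (lam_ind,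
evr_mo), so `evr ξ η f = 0` for `f ∈ I`. Let `B` be the image of `S'` in `K` (`≅ S' ⧸ q₀`), and `q₁ ⊆ B` the image of `q`, a
proper ideal since `q ⊇ q₀` is the kernel. By `Ideal.image_subset_nonunits_valuationSubring`
(Mathlib/RingTheory/Valuation/LocalSubring.lean) there is a valuation subring `V` of `K` with `B ≤ V` and
`q₁ ⊆ V.nonunits`. For `pos z`: `mo z ∈ S`, `ε (mo z) = 0` (as `z ≠ 0`), so `θ (mo z) ∈ q₁`. Also `(p : Lam) ∈ S`, `ε p = p`.
-/
import Pool.Agent.H28.IQ.Defs
import Pool.Agent.H28.IP.GmA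

set_option autoImplicit false

namespace Pool.Agent.H28.IP

/-- support in the cone -/
def CvC_In (pos : ℤ × ℤ → Prop) (f : Lam) : Prop := ∀ z, f.coeff z ≠ 0 → z = 0 ∨ pos z

theorem CvC_mul {pos : ℤ × ℤ → Prop} (hord : IsOrd pos) {f g : Lam} (hf : CvC_In pos f)
    (hg : CvC_In pos g) : CvC_In pos (f * g) := by
  classical
  intro z hz
  rw [AddMonoidAlgebra.coeff_mul_apply_left] at hz
  obtain ⟨a, ha, hne⟩ := Finset.exists_ne_zero_of_sum_ne_zero hz
  have h1 : f.coeff a ≠ 0 := left_ne_zero_of_mul hne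
  have h2 : g.coeff (-a + z) ≠ 0 := right_ne_zero_of_mul hne
  have e : z = a + (-a + z) := by abel
  rcases hf a h1 with h | h <;> rcases hg _ h2 with h' | h'
  · left; rw [e, h', h]; simp
  · right; rw [h] at h'; simpa using h'
  · right; rw [h'] at e; rw [e]; simpa using h
  · right; rw [e]; exact hord.1 _ _ h h'

theorem CvC_coeff {pos : ℤ × ℤ → Prop} (hord : IsOrd pos) {f g : Lam} (hf : CvC_In pos f)
    (hg : CvC_In pos g) : (f * g).coeff 0 = f.coeff 0 * g.coeff 0 := by
  classical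
  rw [AddMonoidAlgebra.coeff_mul_apply_left, Finsupp.sum]
  rw [Finset.sum_eq_single (0 : ℤ × ℤ)]
  · simp
  · intro a ha ha0
    by_contra hne
    have h1 : f.coeff a ≠ 0 := left_ne_zero_of_mul hne
    have h2 : g.coeff (-a + 0) ≠ 0 := right_ne_zero_of_mul hne
    have p1 : pos a := (hf a h1).resolve_left ha0
    rcases hg _ h2 with h | h
    · apply ha0
      have : -a = 0 := by simpa using h
      simpa using this
    · have := hord.1 _ _ p1 h
      apply hord.2.1
      simpa using this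
  · intro h
    have : f.coeff 0 = 0 := by simpa using h
    rw [this, zero_mul]

/-- the cone ring -/
def CvC_S {pos : ℤ × ℤ → Prop} (hord : IsOrd pos) : Subring Lam where
  carrier := {f | CvC_In pos f}
  mul_mem' hf hg := CvC_mul hord hf hg
  one_mem' := by
    intro z hz
    left
    by_contra h
    apply hz
    have : (1 : Lam) = AddMonoidAlgebra.single 0 1 := rfl
    rw [this, AddMonoidAlgebra.coeff_single]
    exact Finsupp.single_eq_of_ne h
  add_mem' := by
    intro f g hf hg z hz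
    rw [AddMonoidAlgebra.coeff_add, Finsupp.add_apply] at hz
    by_cases h : f.coeff z = 0
    · rw [h, zero_add] at hz
      exact hg z hz
    · exact hf z h
  zero_mem' := by
    intro z hz
    exact absurd rfl hz
  neg_mem' := by
    intro f hf z hz
    rw [AddMonoidAlgebra.coeff_neg, Finsupp.neg_apply] at hz
    exact hf z (neg_ne_zero.mp hz)

/-- the constant coefficient -/
def CvC_e {pos : ℤ × ℤ → Prop} (hord : IsOrd pos) : CvC_S hord →+* ℤ where
  toFun f := f.1.coeff 0
  map_one' := by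
    show (1 : Lam).coeff 0 = 1
    simp
  map_mul' f g := CvC_coeff hord f.2 g.2
  map_zero' := rfl
  map_add' f g := rfl

theorem CvC_x (i : ℤ) : ((XL ^ i : Lamˣ) : Lam) = mo (i, 0) := by
  induction i using Int.induction_on with
  | zero =>
    rw [zpow_zero, Units.val_one]
    exact mo_zero.symm
  | succ n ih =>
    rw [zpow_add_one, Units.val_mul, ih]
    show mo ((n : ℤ), 0) * mo (1, 0) = mo ((n : ℤ) + 1, 0)
    rw [← mo_add]
    rfl
  | pred n ih =>
    rw [zpow_sub_one, Units.val_mul, ih]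
    show mo (-(n : ℤ), 0) * mo (-1, 0) = mo (-(n : ℤ) - 1, 0)
    rw [← mo_add]
    rfl

theorem CvC_y (i : ℤ) : ((YL ^ i : Lamˣ) : Lam) = mo (0, i) := by
  induction i using Int.induction_on with
  | zero =>
    rw [zpow_zero, Units.val_one]
    exact mo_zero.symm
  | succ n ih =>
    rw [zpow_add_one, Units.val_mul, ih]
    show mo (0, (n : ℤ)) * mo (0, 1) = mo (0, (n : ℤ) + 1)
    rw [← mo_add]
    rfl
  | pred n ih =>
    rw [zpow_sub_one, Units.val_mul, ih]
    show mo (0, -(n : ℤ)) * mo (0, -1) = mo (0, -(n : ℤ) - 1)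
    rw [← mo_add]
    rfl

theorem CvC_theta {K : Type} [Field K] (t : Lam →+* K) (f : Lam) :
    evr (Units.map t.toMonoidHom XL) (Units.map t.toMonoidHom YL) f = t f := by
  refine lam_ind (p := fun f => evr (Units.map t.toMonoidHom XL)
    (Units.map t.toMonoidHom YL) f = t f) ?_ ?_ ?_ ?_ f
  · rw [map_zero, map_zero]
  · intro f g hf hg
    rw [map_add, map_add, hf, hg]
  · intro f hf
    rw [map_neg, map_neg, hf]
  · intro z
    rw [evr_mo, ← map_zpow, ← map_zpow, ← map_mul]
    show t ((XL ^ z.1 * YL ^ z.2 : Lamˣ) : Lam) = t (mo z)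
    rw [Units.val_mul, CvC_x, CvC_y, ← mo_add]
    congr 2
    ext <;> simp

theorem CvC_val {R : Type} [CommRing R] (S' : Subring R) (q : Ideal S') (hq : q.IsMaximal) :
    ∃ (K : Type) (_ : Field K) (φ : R →+* K) (V : ValuationSubring K),
      ∀ t ∈ q, φ t.1 ∈ V.nonunits := by
  have := hq.isPrime
  obtain ⟨q₀, hq₀, hq₀q⟩ := Ideal.exists_minimalPrimes_le (I := (⊥ : Ideal S')) (J := q) bot_le
  obtain ⟨Q, hQ, hQc⟩ := Ideal.exists_comap_eq_of_mem_minimalPrimes_of_injective
    (f := S'.subtype) Subtype.val_injective q₀ hq₀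
  have := hQ
  let K := FractionRing (R ⧸ Q)
  let φ : R →+* K := (algebraMap (R ⧸ Q) K).comp (Ideal.Quotient.mk Q)
  have hφ : ∀ r, φ r = 0 → r ∈ Q := by
    intro r hr
    have : Ideal.Quotient.mk Q r = 0 :=
      (IsFractionRing.injective (R ⧸ Q) K) (by rw [map_zero]; exact hr)
    exact Ideal.Quotient.eq_zero_iff_mem.mp this
  let B : Subring K := S'.map φ
  let τ : S' →+* B := (φ.comp S'.subtype).codRestrict B (fun f => ⟨f.1, f.2, rfl⟩)
  have hτ : Function.Surjective τ := by
    rintro ⟨_, f, hf, rfl⟩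
    exact ⟨⟨f, hf⟩, rfl⟩
  have hq1 : Ideal.map τ q ≠ ⊤ := by
    intro h
    have h1 : (1 : B) ∈ Ideal.map τ q := by rw [h]; trivial
    rw [Ideal.mem_map_iff_of_surjective _ hτ] at h1
    obtain ⟨t, ht, ht1⟩ := h1
    have h2 : φ ((1 - t : S') : R) = 0 := by
      have : τ (1 - t) = 0 := by rw [map_sub, map_one, ht1, sub_self]
      exact congrArg Subtype.val this
    have h3 : (1 - t : S') ∈ q₀ := by
      rw [← hQc, Ideal.mem_comap]
      exact hφ _ h2
    apply hq.ne_top
    rw [Ideal.eq_top_iff_one]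
    have := q.add_mem (hq₀q h3) ht
    simpa using this
  obtain ⟨V, hBV, hqV⟩ := Ideal.image_subset_nonunits_valuationSubring _ hq1
  refine ⟨K, inferInstance, φ, V, fun t ht => ?_⟩
  apply hqV
  exact ⟨τ t, Ideal.mem_map_of_mem _ ht, rfl⟩

theorem val_of_cone {I : Ideal Lam} {pos : ℤ × ℤ → Prop} (hord : IsOrd pos)
    (hno : ¬ ∃ f ∈ I, (∀ z ∈ f.coeff.support, z = 0 ∨ pos z) ∧ f.coeff 0 = 1) :
    ∃ (p : ℕ) (K : Type) (_ : Field K) (V : ValuationSubring K) (ξ η : Kˣ), p.Prime ∧
      (∀ f ∈ I, evr ξ η f = 0) ∧ (∀ z, pos z → evr ξ η (mo z) ∈ V.nonunits) ∧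
      (p : K) ∈ V.nonunits := by
  classical
  -- the prime
  have hsurj : Function.Surjective (CvC_e hord) := by
    intro n
    refine ⟨(n : CvC_S hord), ?_⟩
    rw [map_intCast]; simp
  obtain ⟨p, hp, hpI⟩ : ∃ p : ℕ, p.Prime ∧ ∀ f : CvC_S hord, f.1 ∈ I → (p : ℤ) ∣ CvC_e hord f := by
    have hne : Ideal.map (CvC_e hord) (I.comap (CvC_S hord).subtype) ≠ ⊤ := by
      intro h
      have h1 : (1 : ℤ) ∈ Ideal.map (CvC_e hord) (I.comap (CvC_S hord).subtype) := by
        rw [h]; trivial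
      rw [Ideal.mem_map_iff_of_surjective _ hsurj] at h1
      obtain ⟨f, hf, hf1⟩ := h1
      refine hno ⟨f.1, hf, ?_, hf1⟩
      intro z hz
      exact f.2 z (Finsupp.mem_support_iff.mp hz)
    obtain ⟨M, hM, hle⟩ := Ideal.exists_le_maximal _ hne
    obtain ⟨g, hg⟩ := (IsPrincipalIdealRing.principal M).principal
    by_cases h0 : M = ⊥
    · refine ⟨2, Nat.prime_two, fun f hf => ?_⟩
      have : CvC_e hord f ∈ M := hle (Ideal.mem_map_of_mem _ hf)
      rw [h0, Ideal.mem_bot] at this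
      rw [this]; exact dvd_zero _
    · have hMs : M = Ideal.span {g} := hg
      have hg0 : g ≠ 0 := by
        rintro rfl
        apply h0
        rw [hMs]; simp
      have hpr : Prime g := by
        rw [← Ideal.span_singleton_prime hg0, ← hMs]
        exact hM.isPrime
      refine ⟨g.natAbs, Int.prime_iff_natAbs_prime.mp hpr, fun f hf => ?_⟩
      have : CvC_e hord f ∈ M := hle (Ideal.mem_map_of_mem _ hf)
      rw [hMs, Ideal.mem_span_singleton] at this
      exact Int.natAbs_dvd.mpr this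
  -- the ring `R`
  set π : Lam →+* Lam ⧸ I := Ideal.Quotient.mk I with hπ
  set S' : Subring (Lam ⧸ I) := (CvC_S hord).map π with hS'
  let σ : CvC_S hord →+* S' := (π.comp (CvC_S hord).subtype).codRestrict S'
    (fun f => ⟨f.1, f.2, rfl⟩)
  have hσ : Function.Surjective σ := by
    rintro ⟨_, f, hf, rfl⟩
    exact ⟨⟨f, hf⟩, rfl⟩
  let N : Ideal (CvC_S hord) := Ideal.comap (CvC_e hord) (Ideal.span {(p : ℤ)})
  have hN : ∀ f, f ∈ N ↔ (p : ℤ) ∣ CvC_e hord f := by
    intro f
    rw [Ideal.mem_comap, Ideal.mem_span_singleton]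
  have hN1 : Ideal.map σ N ≠ ⊤ := by
    intro h
    have h1 : (1 : S') ∈ Ideal.map σ N := by rw [h]; trivial
    rw [Ideal.mem_map_iff_of_surjective _ hσ] at h1
    obtain ⟨f, hf, hf1⟩ := h1
    have h2 : π (1 - f : CvC_S hord).1 = 0 := by
      have : σ (1 - f) = 0 := by rw [map_sub, map_one, hf1, sub_self]
      exact congrArg Subtype.val this
    have h3 : (1 - f : CvC_S hord).1 ∈ I := Ideal.Quotient.eq_zero_iff_mem.mp h2
    have h4 := hpI _ h3
    rw [map_sub, map_one] at h4
    have h5 : (p : ℤ) ∣ 1 := by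
      have := dvd_add h4 ((hN f).mp hf)
      simpa using this
    exact (Nat.prime_iff_prime_int.mp hp).not_isUnit (isUnit_of_dvd_one h5)
  obtain ⟨q, hq, hNq⟩ := Ideal.exists_le_maximal _ hN1
  obtain ⟨K, _, φ, V, hqV⟩ := CvC_val S' q hq
  have key : ∀ f : CvC_S hord, (p : ℤ) ∣ CvC_e hord f → φ (π f.1) ∈ V.nonunits := by
    intro f hf
    exact hqV (σ f) (hNq (Ideal.mem_map_of_mem _ ((hN f).mpr hf)))
  refine ⟨p, K, inferInstance, V, Units.map (φ.comp π).toMonoidHom XL,
    Units.map (φ.comp π).toMonoidHom YL, hp, ?_, ?_, ?_⟩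
  · intro f hf
    rw [CvC_theta]
    show φ (π f) = 0
    rw [hπ, Ideal.Quotient.eq_zero_iff_mem.mpr hf, map_zero]
  · intro z hz
    rw [CvC_theta]
    have hz0 : z ≠ 0 := by rintro rfl; exact hord.2.1 hz
    have hmem : mo z ∈ CvC_S hord := by
      intro w hw
      right
      by_contra h
      apply hw
      rw [mo, AddMonoidAlgebra.coeff_single]
      apply Finsupp.single_eq_of_ne
      rintro rfl
      exact h hz
    refine key ⟨mo z, hmem⟩ ?_
    show (p : ℤ) ∣ (mo z).coeff 0
    rw [mo, AddMonoidAlgebra.coeff_single, Finsupp.single_eq_of_ne hz0.symm]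
    exact dvd_zero _
  · have := key (p : CvC_S hord) (by rw [map_natCast])
    have e : φ (π ((p : CvC_S hord) : Lam)) = (p : K) := by
      rw [Subring.coe_natCast, map_natCast, map_natCast]
    rw [← e]
    exact this

end Pool.Agent.H28.IP
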