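/-
ROW CvD. Valuations of algebraic numbers.
PROOF. `v = V.valuation : Valuation K V.ValueGroup`. Integers are in `V`, `v n ≤ 1`. `v p < 1` (p is a nonunit:
`ValuationSubring.valuation_lt_one_iff`, `mem_nonunits_iff`), `v p ≠ 0`. An integer `c` with `p ∤ c` has `v c = 1`:
`u c + w p = 1` with integers `u, w`; if `v c < 1` then `v 1 = v (u c + w p) < 1`. So an integer `c ≠ 0`, `c = p ^ k c'`
with `p ∤ c'`, has `v c = v p ^ k`. Let `d(T) = ∑ c_i T ^ i ≠ 0` with `d(ξ) = 0`. The terms `c_i ξ ^ i`, `i` in the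
(nonempty) support, are nonzero, with sum 0; the maximum of `v (c_i ξ ^ i)` is attained at two indices `i < j`
(otherwise the sum would have that value: `Valuation.map_sum_eq_of_lt` / `Valuation.map_add_eq_of_lt_right`; the
support has at least two elements since a single term is nonzero). So `v (c_i) v (ξ) ^ i = v (c_j) v (ξ) ^ j`,
`v (ξ) ^ (j - i) = v p ^ (k_i - k_j)`; `n = j - i ≥ 1`, `a = k_i - k_j`.
-/
import Mathlib

set_option autoImplicit false

namespace Pool.Agent.H28.IP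

theorem CvD_int {K : Type} [Field K] (V : ValuationSubring K) (c : ℤ) : V.valuation (c : K) ≤ 1 :=
  (V.valuation_le_one_iff _).mpr (intCast_mem V c)

theorem CvD_coprime {K : Type} [Field K] (V : ValuationSubring K) {p : ℕ} (hp : p.Prime)
    (hv : V.valuation (p : K) < 1) {c : ℤ} (hc : ¬ (p : ℤ) ∣ c) : V.valuation (c : K) = 1 := by
  refine le_antisymm (CvD_int V c) ?_
  by_contra hlt
  rw [not_le] at hlt
  obtain ⟨u, w, huw⟩ := ((Nat.prime_iff_prime_int.mp hp).coprime_iff_not_dvd).mpr hc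
  have h1 : (u : K) * (p : K) + (w : K) * (c : K) = 1 := by
    have := congrArg (fun z : ℤ => (z : K)) huw
    push_cast at this
    exact this
  have h2 : V.valuation ((u : K) * (p : K)) < 1 := by
    rw [map_mul]
    exact lt_of_le_of_lt (mul_le_of_le_one_left' (CvD_int V u)) hv
  have h3 : V.valuation ((w : K) * (c : K)) < 1 := by
    rw [map_mul]
    exact lt_of_le_of_lt (mul_le_of_le_one_left' (CvD_int V w)) hlt
  have h4 := Valuation.map_add_lt V.valuation h2 h3
  rw [h1, map_one] at h4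
  exact lt_irrefl _ h4

theorem CvD_pow {K : Type} [Field K] (V : ValuationSubring K) {p : ℕ} (hp : p.Prime)
    (hv : V.valuation (p : K) < 1) {c : ℤ} (hc : c ≠ 0) :
    ∃ k : ℕ, V.valuation (c : K) = V.valuation (p : K) ^ k := by
  have hfin : FiniteMultiplicity (p : ℤ) c := by
    rw [Int.finiteMultiplicity_iff]
    exact ⟨by simpa using hp.ne_one, hc⟩
  obtain ⟨c', h1, h2⟩ := hfin.exists_eq_pow_mul_and_not_dvd
  refine ⟨multiplicity (p : ℤ) c, ?_⟩
  have h3 : (c : K) = (p : K) ^ multiplicity (p : ℤ) c * (c' : K) := by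
    have := congrArg (fun z : ℤ => (z : K)) h1
    push_cast at this
    exact this
  rw [h3, map_mul, map_pow, CvD_coprime V hp hv h2, mul_one]

theorem CvD_fin {K : Type} [Field K] [CharZero K] (V : ValuationSubring K) {p : ℕ} (hp : p.Prime)
    (hv : V.valuation (p : K) < 1) {ξ : K} (hξ : ξ ≠ 0) {a b : ℤ} (ha : a ≠ 0) (hb : b ≠ 0) {i j : ℕ} (hij : i < j)
    (h : V.valuation ((a : K) * ξ ^ i) = V.valuation ((b : K) * ξ ^ j)) :
    ∃ (n : ℕ) (a : ℤ), 1 ≤ n ∧ V.valuation (ξ ^ n) = V.valuation ((p : K) ^ a) := by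
  obtain ⟨k, hk⟩ := CvD_pow V hp hv ha
  obtain ⟨l, hl⟩ := CvD_pow V hp hv hb
  have hp0 : V.valuation (p : K) ≠ 0 := (Valuation.ne_zero_iff _).mpr (Nat.cast_ne_zero.mpr hp.ne_zero)
  have hx0 : V.valuation ξ ≠ 0 := (Valuation.ne_zero_iff _).mpr hξ
  refine ⟨j - i, (k : ℤ) - l, by omega, ?_⟩
  rw [map_mul, map_mul, map_pow, map_pow, hk, hl] at h
  rw [map_pow, map_zpow₀, zpow_sub₀ hp0, zpow_natCast, zpow_natCast, eq_div_iff (pow_ne_zero _ hp0)]
  have h1 : V.valuation ξ ^ j = V.valuation ξ ^ i * V.valuation ξ ^ (j - i) := by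
    rw [← pow_add]
    congr 1
    omega
  rw [h1] at h
  apply mul_right_cancel₀ (pow_ne_zero i hx0)
  rw [h]
  ac_rfl

theorem val_alg {K : Type} [Field K] [CharZero K] (V : ValuationSubring K) {p : ℕ} (hp : p.Prime)
    (hpV : (p : K) ∈ V.nonunits) {ξ : K} (hξ : ξ ≠ 0) {d : Polynomial ℤ} (hd : d ≠ 0)
    (h : Polynomial.aeval ξ d = 0) :
    ∃ (n : ℕ) (a : ℤ), 1 ≤ n ∧ V.valuation (ξ ^ n) = V.valuation ((p : K) ^ a) := by
  have hv : V.valuation (p : K) < 1 := (V.mem_nonunits_iff).mp hpV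
  have hsum : ∑ i ∈ d.support, ((d.coeff i : ℤ) : K) * ξ ^ i = 0 := by
    have h1 := h
    rw [Polynomial.aeval_def, Polynomial.eval₂_eq_sum, Polynomial.sum_def] at h1
    simpa using h1
  have hne : d.support.Nonempty := Polynomial.support_nonempty.mpr hd
  obtain ⟨i, hi, hmax⟩ := Finset.exists_max_image d.support
    (fun i => V.valuation (((d.coeff i : ℤ) : K) * ξ ^ i)) hne
  have hci : ∀ i ∈ d.support, d.coeff i ≠ 0 := fun i hi => Polynomial.mem_support_iff.mp hi
  have hvi : V.valuation (((d.coeff i : ℤ) : K) * ξ ^ i) ≠ 0 := by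
    rw [Valuation.ne_zero_iff]
    exact mul_ne_zero (Int.cast_ne_zero.mpr (hci i hi)) (pow_ne_zero _ hξ)
  have hex : ∃ j ∈ d.support, j ≠ i ∧
      V.valuation (((d.coeff j : ℤ) : K) * ξ ^ j) = V.valuation (((d.coeff i : ℤ) : K) * ξ ^ i) := by
    by_contra hcon
    push Not at hcon
    have h1 : V.valuation (∑ j ∈ d.support.erase i, ((d.coeff j : ℤ) : K) * ξ ^ j) <
        V.valuation (((d.coeff i : ℤ) : K) * ξ ^ i) := by
      refine Valuation.map_sum_lt V.valuation hvi (fun j hj => ?_)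
      have hj' := Finset.mem_erase.mp hj
      exact lt_of_le_of_ne (hmax j hj'.2) (hcon j hj'.2 hj'.1)
    have h2 : ∑ j ∈ d.support.erase i, ((d.coeff j : ℤ) : K) * ξ ^ j = -(((d.coeff i : ℤ) : K) * ξ ^ i) := by
      have h3 := Finset.add_sum_erase d.support (fun j => ((d.coeff j : ℤ) : K) * ξ ^ j) hi
      rw [hsum] at h3
      exact eq_neg_of_add_eq_zero_right h3
    rw [h2, Valuation.map_neg] at h1
    exact lt_irrefl _ h1
  obtain ⟨j, hj, hji, heq⟩ := hex
  rcases Nat.lt_or_gt_of_ne hji with hlt | hlt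
  · exact CvD_fin V hp hv hξ (hci j hj) (hci i hi) hlt heq
  · exact CvD_fin V hp hv hξ (hci i hi) (hci j hj) hlt heq.symm

end Pool.Agent.H28.IP
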