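/-
ROW CvE. Finite rank excludes valuations which are positive on a half-plane.
PROOF. `P z = evr ξ η (mo z) = ξ ^ z.1 η ^ z.2` (evr_mo). No `z ≠ 0` has `V.valuation (P z) = 1`: `pos z` or
`pos (-z)`, so `P z` or `P (-z) = (P z)⁻¹` is a nonunit, of valuation `< 1`. (*)
By hord `pos` has `z ≠ 0 → pos z ∨ pos (-z)`.
Case 1: `(p : K) = 0`. The image `B` of `evr ξ η : Lam → K` is a quotient of `Lam ⧸ (I ⊔ span {p})`, which is finite. So the
powers of `ξ` are in a finite set, `ξ ^ n = 1` with `n ≥ 1` (`ξ` is a unit; pigeonhole), and `z = (n, 0) ≠ 0` contradicts (*).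
Case 2: `(p : K) ≠ 0`. `K` has characteristic 0: otherwise `CharP K l`, `l` prime, `l ≠ p`, and `u p + w l = 1` in ℤ gives
`(u : K) p = 1` with `(u : K) ∈ V`, so `p` is a unit of `V`, a contradiction. By elim_x (Pool.Agent.H28.IP.FaE) and
elim_y (FaD) there are nonzero integer polynomials with `aeval (mo (1,0)) d ∈ I`, `aeval (mo (0,1)) e ∈ I`, so
`d(ξ) = 0`, `e(η) = 0` (apply the ring homomorphism `evr ξ η`: `Polynomial.map_aeval`/`hom_eval₂`). By val_alg (CvD):
`v (ξ ^ n) = v (p ^ a)`, `v (η ^ n') = v (p ^ a')`, `n, n' ≥ 1`. If `a = 0`: `z = (n, 0)` contradicts (*). Otherwise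
`z = (n a', - n' a)`: `v (P z) = v (ξ ^ n) ^ a' v (η ^ n') ^ (-a) = v p ^ (a a' - a' a) = 1` and `z.2 ≠ 0`: contradiction.
-/
import Pool.Agent.H28.IQ.CvD
import Pool.Agent.H28.IQ.Defs
import Pool.Agent.H28.IP.GmA
import Pool.Agent.H28.IP.FaD

set_option autoImplicit false

namespace Pool.Agent.H28.IP

theorem CvE_ne {pos : ℤ × ℤ → Prop} (hord : IsOrd pos) {K : Type} [Field K]
    (V : ValuationSubring K) (ξ η : Kˣ)
    (hpos : ∀ z, pos z → evr ξ η (mo z) ∈ V.nonunits) (z : ℤ × ℤ) (hz : z ≠ 0) :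
    V.valuation ((ξ ^ z.1 * η ^ z.2 : Kˣ) : K) ≠ 1 := by
  have key : ∀ w, pos w → V.valuation ((ξ ^ w.1 * η ^ w.2 : Kˣ) : K) < 1 := by
    intro w hw
    have h := hpos w hw
    rw [evr_mo] at h
    exact h
  rcases hord.2.2 z hz with h | h
  · exact (key z h).ne
  · intro h1
    have h2 := key (-z) h
    have h3 : (ξ ^ (-z).1 * η ^ (-z).2 : Kˣ) = (ξ ^ z.1 * η ^ z.2)⁻¹ := by
      simp only [Prod.fst_neg, Prod.snd_neg, zpow_neg, mul_inv]
    rw [h3, Units.val_inv_eq_inv_val, map_inv₀, h1, inv_one] at h2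
    exact lt_irrefl _ h2

theorem CvE_root {I : Ideal Lam} {K : Type} [Field K] (ξ η : Kˣ) (hI : ∀ f ∈ I, evr ξ η f = 0)
    (d : Polynomial ℤ) (z : ℤ × ℤ) (h : Polynomial.aeval (mo z) d ∈ I) :
    Polynomial.aeval ((ξ ^ z.1 * η ^ z.2 : Kˣ) : K) d = 0 := by
  have h1 := hI _ h
  rw [Polynomial.aeval_def, Polynomial.hom_eval₂, evr_mo,
    show (evr ξ η).comp (algebraMap ℤ Lam) = algebraMap ℤ K from RingHom.ext_int _ _] at h1
  exact h1

theorem cone_contra {I : Ideal Lam}
    (hfin : ∀ p : ℕ, p.Prime → Finite (Lam ⧸ (I ⊔ Ideal.span {(p : Lam)})))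
    {pos : ℤ × ℤ → Prop} (hord : IsOrd pos) {p : ℕ} (hp : p.Prime) {K : Type} [Field K]
    (V : ValuationSubring K) (ξ η : Kˣ) (hI : ∀ f ∈ I, evr ξ η f = 0)
    (hpos : ∀ z, pos z → evr ξ η (mo z) ∈ V.nonunits) (hpV : (p : K) ∈ V.nonunits) : False := by
  have hne := CvE_ne hord V ξ η hpos
  have hv : V.valuation (p : K) < 1 := hpV
  by_cases hp0 : (p : K) = 0
  · obtain ⟨N, hN, hm⟩ := FaE_pow _ (hfin p hp) ((1, 0) : ℤ × ℤ)
    have hz : evr ξ η (mo ((N : ℤ) * ((1, 0) : ℤ × ℤ).1, (N : ℤ) * ((1, 0) : ℤ × ℤ).2) - 1) = 0 := by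
      obtain ⟨a, ha, b, hb, hab⟩ := Submodule.mem_sup.1 hm
      obtain ⟨c, rfl⟩ := Ideal.mem_span_singleton'.1 hb
      rw [← hab, map_add, hI a ha, map_mul, map_natCast, hp0, mul_zero, add_zero]
    rw [map_sub, map_one, evr_mo, sub_eq_zero] at hz
    refine hne ((N : ℤ) * ((1, 0) : ℤ × ℤ).1, (N : ℤ) * ((1, 0) : ℤ × ℤ).2) ?_ ?_
    · intro h
      have h1 := congrArg Prod.fst h
      simp only [mul_one, Prod.fst_zero] at h1
      omega
    · rw [hz, map_one]
  · have hch : CharZero K := by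
      obtain ⟨q, hq⟩ := CharP.exists K
      rcases CharP.char_is_prime_or_zero K q with hqp | hq0
      · exfalso
        have hqz : (q : K) = 0 := CharP.cast_eq_zero K q
        have hpq : p ≠ q := by
          intro h
          rw [h] at hp0
          exact hp0 hqz
        have hco : IsCoprime (p : ℤ) (q : ℤ) := by
          rw [Nat.isCoprime_iff_coprime]
          exact (Nat.coprime_primes hp hqp).2 hpq
        obtain ⟨u, w, huw⟩ := hco
        have h1 : (u : K) * (p : K) = 1 := by
          have := congrArg (fun z : ℤ => (z : K)) huw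
          push_cast at this
          rw [hqz, mul_zero, add_zero] at this
          exact this
        have h2 : V.valuation ((u : K) * (p : K)) < 1 := by
          rw [map_mul]
          exact lt_of_le_of_lt (mul_le_of_le_one_left' (CvD_int V u)) hv
        rw [h1, map_one] at h2
        exact lt_irrefl _ h2
      · subst hq0
        exact CharP.charP_to_charZero K
    obtain ⟨d, hd, hdI⟩ := elim_x hfin
    obtain ⟨e, he, heI⟩ := elim_y hfin
    have hd0 := CvE_root ξ η hI d (1, 0) hdI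
    have he0 := CvE_root ξ η hI e (0, 1) heI
    simp only [zpow_one, zpow_zero, mul_one, one_mul] at hd0 he0
    obtain ⟨n, a, hn, hna⟩ := val_alg V hp hv ξ.ne_zero hd hd0
    obtain ⟨m, b, hm, hmb⟩ := val_alg V hp hv η.ne_zero he he0
    by_cases ha : a = 0
    · refine hne ((n : ℤ), 0) ?_ ?_
      · intro h
        have h1 := congrArg Prod.fst h
        simp only [Prod.fst_zero] at h1
        omega
      · rw [ha, zpow_zero, map_one] at hna
        simp only [zpow_natCast, zpow_zero, mul_one, Units.val_pow_eq_pow_val]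
        exact hna
    · refine hne ((n : ℤ) * b, -((m : ℤ) * a)) ?_ ?_
      · intro h
        have h1 := congrArg Prod.snd h
        simp only [Prod.snd_zero, neg_eq_zero, mul_eq_zero] at h1
        rcases h1 with h1 | h1
        · omega
        · exact ha h1
      · have hn' : V.valuation (ξ : K) ^ (n : ℤ) = V.valuation (p : K) ^ a := by
          rw [map_pow, map_zpow₀] at hna
          rw [zpow_natCast]
          exact hna
        have hm' : V.valuation (η : K) ^ (m : ℤ) = V.valuation (p : K) ^ b := by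
          rw [map_pow, map_zpow₀] at hmb
          rw [zpow_natCast]
          exact hmb
        have hpne : V.valuation (p : K) ≠ 0 := by
          rw [Valuation.ne_zero_iff]
          exact hp0
        simp only [Units.val_mul, Units.val_zpow_eq_zpow_val, map_mul, map_zpow₀]
        rw [zpow_neg, zpow_mul, zpow_mul, hn', hm', ← zpow_mul, ← zpow_mul, mul_comm b a]
        exact mul_inv_cancel₀ (zpow_ne_zero _ hpne)

end Pool.Agent.H28.IP
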