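/-
ROW CvF. Compactness of the space of orders.
PROOF. `X = (ℤ × ℤ → Bool)` with the product topology of discrete spaces is compact (Tychonoff: instances
`Pi.compactSpace`/`Function.compactSpace`, Bool finite discrete). For `c : X` write `pos_c z := c z = true`. The set
`C = {c | IsOrd pos_c}` is closed: it is an intersection of sets depending on finitely many coordinates (clopen).
For `f ∈ I` with `f.coeff 0 = 1` let `U_f = {c | ∀ z ∈ f.coeff.support, z = 0 ∨ c z = true}`: open (finite intersection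
of clopen sets `{c | c z = true}`). By h the sets `U_f` cover `C` (for `c ∈ C` apply h to `pos_c`). By compactness
(`IsCompact.elim_finite_subcover`, `IsClosed.isCompact`) finitely many `f` suffice: let `S` be this finite set
(classical decidable equality on `Lam`). For an order `pos` let `c z = decide (pos z)` (classical).
-/
import Pool.Agent.H28.IQ.Defs

set_option autoImplicit false

namespace Pool.Agent.H28.IP

theorem cov_fin_eval (z : ℤ × ℤ) (b : Bool) : IsClopen {c : ℤ × ℤ → Bool | c z = b} := by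
  have h1 : {c : ℤ × ℤ → Bool | c z = b} = (fun c : ℤ × ℤ → Bool => c z) ⁻¹' {b} := rfl
  rw [h1]
  exact (isClopen_discrete {b}).preimage (continuous_apply z)

theorem cov_fin_closed : IsClosed {c : ℤ × ℤ → Bool | IsOrd (fun z => c z = true)} := by
  have h1 : {c : ℤ × ℤ → Bool | IsOrd (fun z => c z = true)} =
      (⋂ z : ℤ × ℤ, ⋂ w : ℤ × ℤ, {c : ℤ × ℤ → Bool | c z = true → c w = true → c (z + w) = true}) ∩
      ({c : ℤ × ℤ → Bool | ¬ c 0 = true} ∩
        ⋂ z : ℤ × ℤ, {c : ℤ × ℤ → Bool | z ≠ 0 → c z = true ∨ c (-z) = true}) := by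
    ext c
    simp only [IsOrd, Set.mem_ofPred_eq, Set.mem_inter_iff, Set.mem_iInter]
  rw [h1]
  refine IsClosed.inter ?_ (IsClosed.inter ?_ ?_)
  · refine isClosed_iInter fun z => isClosed_iInter fun w => ?_
    have h2 : {c : ℤ × ℤ → Bool | c z = true → c w = true → c (z + w) = true} =
        {c : ℤ × ℤ → Bool | c z = true}ᶜ ∪ ({c : ℤ × ℤ → Bool | c w = true}ᶜ ∪ {c : ℤ × ℤ → Bool | c (z + w) = true}) := by
      ext c
      simp only [Set.mem_ofPred_eq, Set.mem_union, Set.mem_compl_iff]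
      tauto
    rw [h2]
    exact ((cov_fin_eval z true).compl.union ((cov_fin_eval w true).compl.union (cov_fin_eval (z + w) true))).isClosed
  · exact (cov_fin_eval 0 true).compl.isClosed
  · refine isClosed_iInter fun z => ?_
    by_cases hz : z = 0
    · have h3 : {c : ℤ × ℤ → Bool | z ≠ 0 → c z = true ∨ c (-z) = true} = Set.univ := by
        ext c
        simp [hz]
      rw [h3]
      exact isClosed_univ
    · have h3 : {c : ℤ × ℤ → Bool | z ≠ 0 → c z = true ∨ c (-z) = true} =
          {c : ℤ × ℤ → Bool | c z = true} ∪ {c : ℤ × ℤ → Bool | c (-z) = true} := by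
        ext c
        simp [hz]
      rw [h3]
      exact ((cov_fin_eval z true).union (cov_fin_eval (-z) true)).isClosed

theorem cov_fin_open (f : Lam) : IsOpen {c : ℤ × ℤ → Bool | ∀ z ∈ f.coeff.support, z = 0 ∨ c z = true} := by
  have h1 : {c : ℤ × ℤ → Bool | ∀ z ∈ f.coeff.support, z = 0 ∨ c z = true} =
      ⋂ z ∈ f.coeff.support, {c : ℤ × ℤ → Bool | z = 0 ∨ c z = true} := by
    ext c
    simp only [Set.mem_ofPred_eq, Set.mem_iInter]
  rw [h1]
  refine isOpen_biInter_finset fun z _ => ?_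
  by_cases hz : z = 0
  · have h3 : {c : ℤ × ℤ → Bool | z = 0 ∨ c z = true} = Set.univ := by
      ext c
      simp [hz]
    rw [h3]
    exact isOpen_univ
  · have h3 : {c : ℤ × ℤ → Bool | z = 0 ∨ c z = true} = {c : ℤ × ℤ → Bool | c z = true} := by
      ext c
      simp [hz]
    rw [h3]
    exact (cov_fin_eval z true).isOpen

theorem cov_fin {I : Ideal Lam} (h : ∀ pos : ℤ × ℤ → Prop, IsOrd pos →
      ∃ f ∈ I, (∀ z ∈ f.coeff.support, z = 0 ∨ pos z) ∧ f.coeff 0 = 1) :
    ∃ S : Finset Lam, (∀ f ∈ S, f ∈ I) ∧ ∀ pos : ℤ × ℤ → Prop, IsOrd pos →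
      ∃ f ∈ S, (∀ z ∈ f.coeff.support, z = 0 ∨ pos z) ∧ f.coeff 0 = 1 := by
  classical
  have hC : IsCompact {c : ℤ × ℤ → Bool | IsOrd (fun z => c z = true)} := cov_fin_closed.isCompact
  obtain ⟨t, ht⟩ := hC.elim_finite_subcover
    (fun f : {f : Lam // f ∈ I ∧ f.coeff 0 = 1} => {c : ℤ × ℤ → Bool | ∀ z ∈ f.1.coeff.support, z = 0 ∨ c z = true})
    (fun f => cov_fin_open f.1) (by
      intro c hc
      obtain ⟨f, hfI, hf1, hf2⟩ := h (fun z => c z = true) hc
      exact Set.mem_iUnion.mpr ⟨⟨f, hfI, hf2⟩, hf1⟩)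
  refine ⟨t.image Subtype.val, ?_, ?_⟩
  · intro f hf
    obtain ⟨g, _, rfl⟩ := Finset.mem_image.mp hf
    exact g.2.1
  · intro pos hpos
    have h1 : (fun z => decide (pos z)) ∈ {c : ℤ × ℤ → Bool | IsOrd (fun z => c z = true)} := by
      simpa [IsOrd] using hpos
    have h2 := ht h1
    simp only [Set.mem_iUnion, Set.mem_ofPred_eq] at h2
    obtain ⟨g, hg, h3⟩ := h2
    refine ⟨g.1, Finset.mem_image.mpr ⟨g, hg, rfl⟩, ?_, g.2.2⟩
    intro z hz
    have h4 := h3 z hz
    simpa using h4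

end Pool.Agent.H28.IP
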