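/-
ROW CvG. Lists without cancellation.
PROOF. Induction on the support (`Finsupp.induction`, or on the finite set of exponents): for `f = ∑_{z ∈ supp} c_z mo z`
take for each `z` in the support the entry `((z.1.toNat, (-z.1).toNat), (z.2.toNat, (-z.2).toNat), decide (0 ≤ c_z))`
repeated `|c_z|` times (`List.replicate`), and concatenate over the support (`Finset.toList`, `flatMap`). `vz` of
`(n.toNat, (-n).toNat)` is `n`. `pol` of a concatenation is the sum (WlA_pol_app in Pool.Agent.H28.IP.WlA), and the `pol`
of the replicated entry is `c_z mo z`. The entries with exponent 0 are exactly the `|c_0|` copies for `z = 0` (none if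
`0` is not in the support).
-/
import Pool.Agent.H28.IQ.Defs
import Pool.Agent.H28.IP.WlA

set_option autoImplicit false

namespace Pool.Agent.H28.IP

theorem CvG_vz (n : ℤ) : vz (n.toNat, (-n).toNat) = n := by
  simp only [vz]
  omega

theorem CvG_rep (n : ℕ) (e : (ℕ × ℕ) × (ℕ × ℕ) × Bool) :
    pol (List.replicate n e) = n • (cond e.2.2 (mo (vz e.1, vz e.2.1)) (-mo (vz e.1, vz e.2.1))) := by
  induction n with
  | zero =>
    rw [List.replicate_zero, zero_smul]
    rfl
  | succ k ih =>
    rw [List.replicate_succ, WlA_pol_cons, ih, succ_nsmul']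

theorem CvG_mo (n : ℕ) (m : ℤ × ℤ) : n • mo m = AddMonoidAlgebra.single m (n : ℤ) := by
  induction n with
  | zero => simp
  | succ k ih =>
    rw [succ_nsmul, ih, mo, ← AddMonoidAlgebra.single_add]
    push_cast
    rfl

theorem CvG_one (m : ℤ × ℤ) (r : ℤ) :
    pol (List.replicate r.natAbs ((m.1.toNat, (-m.1).toNat), (m.2.toNat, (-m.2).toNat),
      decide (0 ≤ r))) = AddMonoidAlgebra.single m r := by
  rw [CvG_rep]
  simp only [CvG_vz]
  by_cases h : 0 ≤ r
  · rw [decide_eq_true h, cond_true, CvG_mo, Int.natAbs_of_nonneg h]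
  · rw [decide_eq_false h, cond_false, smul_neg, CvG_mo]
    have h1 : ((r.natAbs : ℕ) : ℤ) = -r := by omega
    rw [h1]
    have h2 : (AddMonoidAlgebra.single m (-r) : Lam) = -AddMonoidAlgebra.single m r := by
      rw [← AddMonoidAlgebra.single_neg]
    rw [h2, neg_neg]

theorem pol_nice (f : Lam) : ∃ L : NL, pol L = f ∧
    (∀ e ∈ L, ((vz e.1, vz e.2.1) : ℤ × ℤ) ∈ f.coeff.support) ∧
    (L.filter fun e => decide (((vz e.1, vz e.2.1) : ℤ × ℤ) = 0)).length = (f.coeff 0).natAbs := by
  classical
  refine AddMonoidAlgebra.induction (motive := fun f : Lam => ∃ L : NL, pol L = f ∧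
    (∀ e ∈ L, ((vz e.1, vz e.2.1) : ℤ × ℤ) ∈ f.coeff.support) ∧
    (L.filter fun e => decide (((vz e.1, vz e.2.1) : ℤ × ℤ) = 0)).length = (f.coeff 0).natAbs) f
    ?_ ?_
  · refine ⟨[], rfl, fun e he => absurd he List.not_mem_nil, ?_⟩
    simp
  · rintro m r x hm hr ⟨L, h1, h2, h3⟩
    have hxm : x.coeff m = 0 := by
      rwa [Finsupp.notMem_support_iff] at hm
    refine ⟨List.replicate r.natAbs ((m.1.toNat, (-m.1).toNat), (m.2.toNat, (-m.2).toNat),
      decide (0 ≤ r)) ++ L, ?_, ?_, ?_⟩
    · rw [WlA_pol_app, CvG_one, h1]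
    · intro e he
      rw [AddMonoidAlgebra.coeff_add, AddMonoidAlgebra.coeff_single, Finsupp.mem_support_iff,
        Finsupp.add_apply, Finsupp.single_apply]
      rw [List.mem_append] at he
      rcases he with he | he
      · rw [List.mem_replicate] at he
        rw [he.2]
        simp only [CvG_vz]
        rw [if_pos trivial]
        have h7 : x.coeff (m.1, m.2) = 0 := hxm
        rw [h7, add_zero]
        exact hr
      · have h4 := h2 e he
        have h5 : m ≠ (vz e.1, vz e.2.1) := by
          intro h6
          exact hm (h6 ▸ h4)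
        rw [if_neg h5, zero_add]
        rwa [Finsupp.mem_support_iff] at h4
    · rw [List.filter_append, List.length_append, h3, AddMonoidAlgebra.coeff_add,
        AddMonoidAlgebra.coeff_single, Finsupp.add_apply, Finsupp.single_apply,
        List.filter_replicate]
      simp only [CvG_vz]
      by_cases hm0 : m = 0
      · subst hm0
        rw [if_pos rfl, hxm]
        simp
      · rw [if_neg hm0, if_neg]
        · simp
        · simpa using hm0

end Pool.Agent.H28.IP
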