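/-
ROW CvH. The finite set of directions certificate exists.
PROOF. For every order `pos` there is `f ∈ I` with support in `{0} ∪ pos` and `f.coeff 0 = 1`: otherwise val_of_cone (CvC)
and cone_contra (CvE) give a contradiction. So by cov_fin (CvF) there is a finite set `S ⊆ I` which is
enough. For `f ∈ S` let `L_f` be the list of pol_nice (CvG); `Ls = (S.toList).map L_f`, and `b ≥ 1` with `mx L ≤ b` for all
`L ∈ Ls` (sum of all the `mx` plus 1). `pol L ∈ I` for `L ∈ Ls`. Cov Ls b: let `x ∈ box2 (4 b)`, `χ = vv x ≠ 0`, and suppose that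
no `w ∈ box2 (2 b)` with `vv w ≠ 0` is orthogonal to `χ` (`vz (dotV x w) = χ.1 * (vv w).1 + χ.2 * (vv w).2`: vz_addp,
vz_mulp in Pool.Agent.H28.IP.WlA); so no integer vector `u ≠ 0` with `|u.1|, |u.2| ≤ 2 b` is orthogonal to `χ` (every such
`u` is `vv w` for a `w ∈ box2 (2 b)`: WlB_ints in Pool.Agent.H28.IP.WlB). Let
`pos z := 0 < χ.1 z.1 + χ.2 z.2 ∨ (χ.1 z.1 + χ.2 z.2 = 0 ∧ 0 < χ.1 z.2 - χ.2 z.1)`: IsOrd pos (if both linear forms vanish at
`z` then `z = 0`, because `χ.1 ^ 2 + χ.2 ^ 2 ≠ 0`). Take `f ∈ S` for this order, `L = L_f`. As `f.coeff 0 = 1`, exactly one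
position of `L` has exponent 0; let `e₀` be its entry. For every entry `e` of `L` with exponent `z ≠ 0`: `z` is in the
support so `pos z`; `|z.i| ≤ mx L ≤ b` so `χ · z ≠ 0`, hence `χ · z > 0 = χ · z_{e₀}` and `leE x e₀ e = false`; for exponent 0
`leE x e₀ e = true`. So `L.filter (leE x e₀)` is the list of the entries with exponent 0 (List.filter_congr), of
length 1.
-/
import Pool.Agent.H28.IQ.CvC
import Pool.Agent.H28.IQ.CvE
import Pool.Agent.H28.IQ.CvF
import Pool.Agent.H28.IQ.CvG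
import Pool.Agent.H28.IP.WlB

set_option autoImplicit false

namespace Pool.Agent.H28.IP

theorem CvH_dot (x w : VV) : vz (dotV x w) = (vv x).1 * (vv w).1 + (vv x).2 * (vv w).2 := by
  unfold dotV vv
  rw [vz_addp, vz_mulp, vz_mulp]

theorem CvH_ord {χ : ℤ × ℤ} (h : χ ≠ 0) :
    IsOrd (fun z : ℤ × ℤ => 0 < χ.1 * z.1 + χ.2 * z.2 ∨
      (χ.1 * z.1 + χ.2 * z.2 = 0 ∧ 0 < χ.1 * z.2 - χ.2 * z.1)) := by
  refine ⟨?_, ?_, ?_⟩
  · intro z w hz hw
    simp only [Prod.fst_add, Prod.snd_add, mul_add] at *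
    rcases hz with hz | ⟨hz1, hz2⟩
    · rcases hw with hw | ⟨hw1, hw2⟩
      · left; linarith
      · left; linarith
    · rcases hw with hw | ⟨hw1, hw2⟩
      · left; linarith
      · right; constructor <;> linarith
  · rintro (h1 | ⟨-, h1⟩)
    · simp at h1
    · simp at h1
  · intro z hz
    simp only [Prod.fst_neg, Prod.snd_neg, mul_neg]
    rcases lt_trichotomy (χ.1 * z.1 + χ.2 * z.2) 0 with h1 | h1 | h1
    · right; left; linarith
    · rcases lt_trichotomy (χ.1 * z.2 - χ.2 * z.1) 0 with h2 | h2 | h2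
      · right; right; constructor <;> linarith
      · exfalso
        have h3 : (χ.1 ^ 2 + χ.2 ^ 2) * z.1 = 0 := by linear_combination χ.1 * h1 - χ.2 * h2
        have h4 : (χ.1 ^ 2 + χ.2 ^ 2) * z.2 = 0 := by linear_combination χ.2 * h1 + χ.1 * h2
        have h5 : χ.1 ^ 2 + χ.2 ^ 2 ≠ 0 := by
          intro h6
          apply h
          have h7 : χ.1 = 0 := by nlinarith [sq_nonneg χ.1, sq_nonneg χ.2]
          have h8 : χ.2 = 0 := by nlinarith [sq_nonneg χ.1, sq_nonneg χ.2]
          exact Prod.ext h7 h8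
        apply hz
        exact Prod.ext ((mul_eq_zero.mp h3).resolve_left h5) ((mul_eq_zero.mp h4).resolve_left h5)
      · left; right; exact ⟨h1, h2⟩
    · left; left; exact h1

theorem cov_ex {I : Ideal Lam}
    (hfin : ∀ p : ℕ, p.Prime → Finite (Lam ⧸ (I ⊔ Ideal.span {(p : Lam)}))) :
    ∃ (Ls : List NL) (b : ℕ), (∀ L ∈ Ls, pol L ∈ I) ∧ Cov Ls b := by
  classical
  have h0 : ∀ pos : ℤ × ℤ → Prop, IsOrd pos →
      ∃ f ∈ I, (∀ z ∈ f.coeff.support, z = 0 ∨ pos z) ∧ f.coeff 0 = 1 := by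
    intro pos hord
    by_contra hno
    obtain ⟨p, K, iK, V, ξ, η, hp, h1, h2, h3⟩ := val_of_cone hord hno
    exact cone_contra hfin hord hp V ξ η h1 h2 h3
  obtain ⟨S, hSI, hS⟩ := cov_fin h0
  choose L hL1 hL2 hL3 using pol_nice
  set Ls : List NL := S.toList.map L with hLs
  set b : ℕ := (Ls.map mx).sum + 1 with hb
  have hbm : ∀ M ∈ Ls, mx M ≤ b := by
    intro M hM
    have h1 : mx M ≤ (Ls.map mx).sum :=
      List.single_le_sum (fun _ _ => Nat.zero_le _) _ (List.mem_map.mpr ⟨M, hM, rfl⟩)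
    omega
  refine ⟨Ls, b, ?_, by omega, hbm, ?_⟩
  · intro M hM
    obtain ⟨f, hf, rfl⟩ := List.mem_map.mp hM
    rw [hL1]
    exact hSI f (Finset.mem_toList.mp hf)
  · intro x _ hx
    by_cases hw : ∃ w ∈ box2 (2 * b), vv w ≠ 0 ∧ vz (dotV x w) = 0
    · exact Or.inl hw
    · right
      have horth : ∀ u : ℤ × ℤ, |u.1| ≤ ((2 * b : ℕ) : ℤ) → |u.2| ≤ ((2 * b : ℕ) : ℤ) →
          (vv x).1 * u.1 + (vv x).2 * u.2 = 0 → u = 0 := by
        intro u h1 h2 h3
        by_contra hu
        obtain ⟨a, ha, ha'⟩ := WlB_ints h1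
        obtain ⟨c, hc, hc'⟩ := WlB_ints h2
        apply hw
        refine ⟨(a, c), ?_, ?_, ?_⟩
        · unfold box2
          rw [List.mem_flatMap]
          exact ⟨a, ha, List.mem_map.mpr ⟨c, hc, rfl⟩⟩
        · intro h4
          apply hu
          have h5 : vv (a, c) = u := by
            unfold vv
            exact Prod.ext ha' hc'
          rw [← h5]; exact h4
        · rw [CvH_dot]
          unfold vv
          simp only [ha', hc']
          exact h3
      obtain ⟨f, hf, hfs, hf0⟩ := hS _ (CvH_ord hx)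
      have hlen := hL3 f
      rw [hf0] at hlen
      have hlen1 : ((L f).filter fun e => decide (((vz e.1, vz e.2.1) : ℤ × ℤ) = 0)).length = 1 := by
        rw [hlen]; rfl
      obtain ⟨e0, he0⟩ := List.length_eq_one_iff.mp hlen1
      have he0m : e0 ∈ (L f).filter fun e => decide (((vz e.1, vz e.2.1) : ℤ × ℤ) = 0) := by
        rw [he0]; exact List.mem_singleton_self e0
      rw [List.mem_filter] at he0m
      have he0z : ((vz e0.1, vz e0.2.1) : ℤ × ℤ) = 0 := by simpa using he0m.2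
      have hd0 : vz (dotV x (e0.1, e0.2.1)) = 0 := by
        rw [CvH_dot]
        have h1 : vv (e0.1, e0.2.1) = 0 := he0z
        rw [h1]
        simp
      refine ⟨L f, List.mem_map.mpr ⟨f, Finset.mem_toList.mpr hf, rfl⟩, e0, he0m.1, ?_⟩
      rw [← hlen1]
      congr 1
      apply List.filter_congr
      intro e he
      unfold leE
      rw [decide_eq_decide, hd0, CvH_dot]
      have hes := hL2 f e he
      constructor
      · intro h1
        by_contra hne
        have hpos := (hfs _ hes).resolve_left hne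
        have hbd := pol_supp (L f) _ (by rw [hL1]; exact hes)
        have hmx : mx (L f) ≤ b := hbm _ (List.mem_map.mpr ⟨f, Finset.mem_toList.mpr hf, rfl⟩)
        have hmx' : (mx (L f) : ℤ) ≤ ((2 * b : ℕ) : ℤ) := by exact_mod_cast (by omega : mx (L f) ≤ 2 * b)
        rcases hpos with h2 | ⟨h2, -⟩
        · have h3 : (vv x).1 * (vv (e.1, e.2.1)).1 + (vv x).2 * (vv (e.1, e.2.1)).2
              = (vv x).1 * vz e.1 + (vv x).2 * vz e.2.1 := rfl
          rw [h3] at h1
          exact absurd h2 (not_lt.mpr h1)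
        · exact hne (horth _ (hbd.1.trans hmx') (hbd.2.trans hmx') h2)
      · intro h1
        have h2 : vv (e.1, e.2.1) = 0 := h1
        rw [h2]
        simp

end Pool.Agent.H28.IP
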