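/-
ROW MxA. Matrices as lists.
PROOFS. `toM d A i j = vz (A.getD (i * d + j) (0, 0))`; for `i, j < d` the index `t = i * d + j` is `< d * d`,
`t / d = i`, `t % d = j` (Nat.add_mul_div..., Nat.mod_eq_of_lt). `vz` is additive and multiplicative:
`vz_addp`, `vz_mulp` (Pool.Agent.H28.IP.WlA), so `vz (sump l) = (l.map vz).sum` by induction.
* toM_mul: entry of the mapped range at `t` is the function value (List.getD, List.getElem_map, getElem_range);
  the sum over `List.range d` is `Finset.sum` over `Fin d` (Finset.sum_range, List.sum_range...).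
* toM_scl, toM_add: the same. `negM`: `getD` of a mapped list with default `(0,0) = swap (0,0)`; `vz (swap u) = -vz u`.
* toM_pow: induction, powM d A (n+1) = mulM d A (powM d A n), pow_succ'.
* eqM_iff: `t < d * d` corresponds to `(t / d, t % d)`. toM_get / get_toM: the same.
* trM_eq: Matrix.trace is the sum of the diagonal entries.
-/
import Pool.Agent.H28.IQ.Defs
import Pool.Agent.H28.IP.WlA

set_option autoImplicit false

namespace Pool.Agent.H28.IP

private theorem MxA_lt {d : ℕ} (i j : Fin d) : (i : ℕ) * d + j < d * d := by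
  have hi : (i : ℕ) + 1 ≤ d := i.2
  have hj : (j : ℕ) < d := j.2
  calc (i : ℕ) * d + j < i * d + d := by omega
    _ = (i + 1) * d := by ring
    _ ≤ d * d := Nat.mul_le_mul_right d hi

private theorem MxA_div {d : ℕ} (i j : Fin d) : ((i : ℕ) * d + j) / d = i := by
  have hd : 0 < d := lt_of_le_of_lt (Nat.zero_le _) j.2
  rw [Nat.add_comm, Nat.add_mul_div_right _ _ hd, Nat.div_eq_of_lt j.2, Nat.zero_add]

private theorem MxA_mod {d : ℕ} (i j : Fin d) : ((i : ℕ) * d + j) % d = j := by
  rw [Nat.add_comm, Nat.add_mul_mod_self_right, Nat.mod_eq_of_lt j.2]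

private theorem MxA_get {n t : ℕ} (f : ℕ → ℕ × ℕ) (x : ℕ × ℕ) (ht : t < n) :
    ((List.range n).map f).getD t x = f t := by
  rw [List.getD_eq_getElem _ _ (by simpa using ht)]
  simp

private theorem MxA_ent {d : ℕ} (f : ℕ → ℕ × ℕ) (i j : Fin d) :
    ent d ((List.range (d * d)).map f) i j = f ((i : ℕ) * d + j) := by
  unfold ent
  exact MxA_get f _ (MxA_lt i j)

private theorem MxA_sum (d : ℕ) (f : ℕ → ℤ) : ((List.range d).map f).sum = ∑ k : Fin d, f k := by
  rw [← Finset.sum_range (fun k => f k)]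
  induction d with
  | zero => simp
  | succ n ih => rw [List.range_succ, List.map_append, List.sum_append, ih, Finset.sum_range_succ]; simp

theorem vz_swap (u : ℕ × ℕ) : vz u.swap = -vz u := by
  simp [vz]

theorem vz_sump (l : List (ℕ × ℕ)) : vz (sump l) = (l.map vz).sum := by
  induction l with
  | nil => simp [sump, vz]
  | cons a l ih =>
    have h : sump (a :: l) = addp a (sump l) := rfl
    rw [h, vz_addp, ih, List.map_cons, List.sum_cons]

theorem toM_get {d t : ℕ} (ht : t < d * d) :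
    ∃ i j : Fin d, ∀ A : LM, vz (A.getD t (0, 0)) = toM d A i j := by
  have hd : 0 < d := by
    rcases Nat.eq_zero_or_pos d with h | h
    · subst h; simp at ht
    · exact h
  refine ⟨⟨t / d, Nat.div_lt_of_lt_mul ht⟩, ⟨t % d, Nat.mod_lt _ hd⟩, fun A => ?_⟩
  unfold toM ent
  simp only
  rw [Nat.div_add_mod' t d]

theorem get_toM {d : ℕ} (i j : Fin d) :
    ∃ t < d * d, ∀ A : LM, toM d A i j = vz (A.getD t (0, 0)) :=
  ⟨(i : ℕ) * d + j, MxA_lt i j, fun _ => rfl⟩

theorem toM_mul (d : ℕ) (A B : LM) : toM d (mulM d A B) = toM d A * toM d B := by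
  ext i j
  rw [Matrix.mul_apply]
  unfold toM mulM
  rw [MxA_ent, vz_sump, List.map_map, MxA_div, MxA_mod]
  rw [show (vz ∘ fun k => mulp (ent d A i k) (ent d B k j)) = fun k => vz (ent d A i k) * vz (ent d B k j) from
    funext fun k => vz_mulp _ _]
  exact MxA_sum d _

theorem toM_scl (d c : ℕ) : toM d (sclM d c) = (c : ℤ) • (1 : Matrix (Fin d) (Fin d) ℤ) := by
  ext i j
  unfold toM sclM
  rw [MxA_ent, MxA_div, MxA_mod]
  by_cases h : i = j
  · subst h; simp [vz]
  · have h' : (i : ℕ) ≠ j := fun e => h (Fin.ext e)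
    simp [vz, h, h']

theorem toM_add (d : ℕ) (A B : LM) : toM d (addM d A B) = toM d A + toM d B := by
  ext i j
  rw [Matrix.add_apply]
  unfold toM addM
  rw [MxA_ent, vz_addp]
  rfl

theorem toM_neg (d : ℕ) (A : LM) : toM d (negM A) = -toM d A := by
  ext i j
  rw [Matrix.neg_apply]
  unfold toM negM ent
  rw [← vz_swap]
  congr 1
  have h := List.getD_map (l := A) (n := (i : ℕ) * d + j) (d := ((0 : ℕ), (0 : ℕ))) (Prod.swap)
  exact h

theorem toM_nil (d : ℕ) : toM d [] = 0 := by
  ext i j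
  simp [toM, ent, vz]

theorem toM_pow (d : ℕ) (A : LM) (n : ℕ) : toM d (powM d A n) = toM d A ^ n := by
  induction n with
  | zero =>
    have h : powM d A 0 = sclM d 1 := rfl
    rw [h, toM_scl, pow_zero]; simp
  | succ n ih =>
    have h : powM d A (n + 1) = mulM d A (powM d A n) := rfl
    rw [h, toM_mul, ih, pow_succ']

theorem eqM_iff (d : ℕ) (A B : LM) : eqM d A B ↔ toM d A = toM d B := by
  constructor
  · intro h
    ext i j
    obtain ⟨t, ht, hA⟩ := get_toM i j
    rw [hA, hA]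
    exact h t ht
  · intro h t ht
    obtain ⟨i, j, hA⟩ := toM_get ht
    rw [hA, hA, h]

theorem trM_eq (d : ℕ) (A : LM) : vz (trM d A) = (toM d A).trace := by
  unfold trM
  rw [vz_sump, List.map_map]
  exact MxA_sum d (vz ∘ fun i => ent d A i i)

/-- every integer matrix is the matrix of a list -/
theorem toM_surj {d : ℕ} (M : Matrix (Fin d) (Fin d) ℤ) : ∃ A : LM, toM d A = M := by
  refine ⟨(List.range (d * d)).map fun t => if h : t / d < d ∧ t % d < d then
    ((M ⟨t / d, h.1⟩ ⟨t % d, h.2⟩).toNat, (-(M ⟨t / d, h.1⟩ ⟨t % d, h.2⟩)).toNat) else (0, 0), ?_⟩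
  ext i j
  unfold toM
  rw [MxA_ent]
  have h : ((i : ℕ) * d + j) / d < d ∧ ((i : ℕ) * d + j) % d < d := by
    rw [MxA_div, MxA_mod]; exact ⟨i.2, j.2⟩
  rw [dif_pos h]
  have h1 : (⟨((i : ℕ) * d + j) / d, h.1⟩ : Fin d) = i := Fin.ext (MxA_div i j)
  have h2 : (⟨((i : ℕ) * d + j) % d, h.2⟩ : Fin d) = j := Fin.ext (MxA_mod i j)
  rw [h1, h2]
  simp only [vz]
  omega

end Pool.Agent.H28.IP
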