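/-
ROW MxB. Models and evaluation.
PROOFS. Write `d = D.1`, `m = D.2.1`, `D = (d, m, A, A', B, B')`. By MatOK and eqM_iff, toM_mul, toM_scl:
`toM A * toM A' = m²`, `toM B * toM B' = m²`, `toM A * toM B = toM B * toM A` in `Matrix (Fin d) (Fin d) ℤ`.
Map to ℚ (`Matrix.map` with the ring homomorphism `Int.castRingHom ℚ`, `RingHom.mapMatrix`): `X := m⁻¹ A`
is a unit with inverse `m⁻¹ A'` (one-sided inverse of square matrices: Matrix.mul_eq_one_comm), `Y := m⁻¹ B`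
with inverse `m⁻¹ B'`; they commute. Link: `numM D w = A^(w.1.1) A'^(w.1.2) (B^(w.2.1) B'^(w.2.2))`
(toM_mul, toM_pow) is `m^(dg w) X^(w.1.1) X^(-w.1.2) Y^(w.2.1) Y^(-w.2.2)` and `vz w.1 = w.1.1 - w.1.2`
(zpow_sub, zpow_natCast).
* evm_mo: definition of `evm` on `single z 1` (AddMonoidAlgebra.liftNCRingHom / liftNC_single), as `evr_mo` in GmA.
* link_ev: induction on `L`: `evN D M (e :: L) = addM (mulM (sclM (m^(M - dg e))) (± numM D e)) (evN D M L)`,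
  `mx (e :: L) = dg e + mx L`, so `dg e ≤ M` and `m^(M - dg e) m^(dg e) = m^M`;
  `pol (e :: L) = ± mo (vz e.1, vz e.2.1) + pol L` (WlA_pol_cons in Pool.Agent.H28.IP.WlA), `evm_mo`.
* vanish_iff: eqM_iff, toM_nil, link_ev with `M = mx L`; `m ^ M ≠ 0` in ℚ as `1 ≤ m`; the map of integer
  matrices to rational matrices is injective.
-/
import Pool.Agent.H28.IQ.MxA
import Pool.Agent.H28.IP.EvA

set_option autoImplicit false

namespace Pool.Agent.H28.IP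

theorem evm_mo {R : Type} [Ring R] (X Y : Rˣ) (h : Commute X Y) (z : ℤ × ℤ) :
    evm X Y h (mo z) = ((X ^ z.1 * Y ^ z.2 : Rˣ) : R) := by
  rw [evm, mo, AddMonoidAlgebra.liftNCRingHom_single]
  simp [monc]

/-- the rational matrix of an integer matrix -/
private noncomputable def MxB_phi (d : ℕ) :
    Matrix (Fin d) (Fin d) ℤ →+* Matrix (Fin d) (Fin d) ℚ := (Int.castRingHom ℚ).mapMatrix

private theorem MxB_map (d : ℕ) (M : Matrix (Fin d) (Fin d) ℤ) :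
    M.map (Int.cast : ℤ → ℚ) = MxB_phi d M := rfl

private theorem MxB_smul (d c : ℕ) :
    MxB_phi d ((c : ℤ) • (1 : Matrix (Fin d) (Fin d) ℤ)) = (c : ℚ) • 1 := by
  ext i j
  show ((((c : ℤ) • (1 : Matrix (Fin d) (Fin d) ℤ)) i j : ℤ) : ℚ) =
    ((c : ℚ) • (1 : Matrix (Fin d) (Fin d) ℚ)) i j
  rw [Matrix.smul_apply, Matrix.smul_apply, Matrix.one_apply, Matrix.one_apply]
  by_cases h : i = j
  · simp [h]
  · simp [h]

/-- the unit `m⁻¹ A` -/
private theorem MxB_unit {d m : ℕ} (hm : 1 ≤ m) {a a' : Matrix (Fin d) (Fin d) ℚ}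
    (h : a * a' = ((m * m : ℕ) : ℚ) • 1) :
    ∃ X : (Matrix (Fin d) (Fin d) ℚ)ˣ, a = (m : ℚ) • (X : Matrix (Fin d) (Fin d) ℚ) ∧
      a' = (m : ℚ) • ((X⁻¹ : (Matrix (Fin d) (Fin d) ℚ)ˣ) : Matrix (Fin d) (Fin d) ℚ) := by
  have hm0 : (m : ℚ) ≠ 0 := by
    have : 0 < m := hm
    positivity
  have h1 : ((m : ℚ)⁻¹ • a) * ((m : ℚ)⁻¹ • a') = 1 := by
    rw [smul_mul_smul_comm, h, smul_smul]
    push_cast
    rw [show (m : ℚ)⁻¹ * (m : ℚ)⁻¹ * ((m : ℚ) * m) = 1 by field_simp, one_smul]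
  have h2 : ((m : ℚ)⁻¹ • a') * ((m : ℚ)⁻¹ • a) = 1 := mul_eq_one_comm.1 h1
  refine ⟨⟨(m : ℚ)⁻¹ • a, (m : ℚ)⁻¹ • a', h1, h2⟩, ?_, ?_⟩
  · show a = (m : ℚ) • ((m : ℚ)⁻¹ • a)
    rw [smul_smul, mul_inv_cancel₀ hm0, one_smul]
  · show a' = (m : ℚ) • ((m : ℚ)⁻¹ • a')
    rw [smul_smul, mul_inv_cancel₀ hm0, one_smul]

theorem link_ex {D : MD} (h : MatOK D) :
    ∃ X Y : (Matrix (Fin D.1) (Fin D.1) ℚ)ˣ, Commute X Y ∧ Link D X Y := by
  obtain ⟨hm, hA, hB, hC⟩ := h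
  have hm0 : (D.2.1 : ℚ) ≠ 0 := by
    have : 0 < D.2.1 := hm
    positivity
  rw [eqM_iff, toM_mul, toM_scl] at hA hB
  rw [eqM_iff, toM_mul, toM_mul] at hC
  have hA1 := congrArg (MxB_phi D.1) hA
  have hB1 := congrArg (MxB_phi D.1) hB
  have hC1 := congrArg (MxB_phi D.1) hC
  rw [map_mul, MxB_smul] at hA1 hB1
  rw [map_mul, map_mul] at hC1
  obtain ⟨X, ha, ha'⟩ := MxB_unit hm hA1
  obtain ⟨Y, hb, hb'⟩ := MxB_unit hm hB1
  have hXY : Commute X Y := by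
    refine Units.ext ?_
    rw [Units.val_mul, Units.val_mul]
    rw [ha, hb, smul_mul_smul_comm, smul_mul_smul_comm] at hC1
    have h2 := congrArg (fun M => ((D.2.1 : ℚ) * D.2.1)⁻¹ • M) hC1
    rw [smul_smul, smul_smul, inv_mul_cancel₀ (mul_ne_zero hm0 hm0), one_smul, one_smul] at h2
    exact h2
  refine ⟨X, Y, hXY, hm, fun w => ?_⟩
  have hz : X ^ vz w.1 * Y ^ vz w.2 =
      X ^ w.1.1 * X⁻¹ ^ w.1.2 * (Y ^ w.2.1 * Y⁻¹ ^ w.2.2) := by
    unfold vz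
    rw [zpow_sub, zpow_sub, zpow_natCast, zpow_natCast, zpow_natCast, zpow_natCast, inv_pow,
      inv_pow]
  rw [hz, MxB_map]
  unfold numM
  rw [toM_mul, toM_mul, toM_mul, toM_pow, toM_pow, toM_pow, toM_pow, map_mul, map_mul, map_mul,
    map_pow, map_pow, map_pow, map_pow, ha, ha', hb, hb', smul_pow, smul_pow, smul_pow, smul_pow,
    smul_mul_smul_comm, smul_mul_smul_comm, smul_mul_smul_comm, Units.val_mul, Units.val_mul,
    Units.val_mul, Units.val_pow_eq_pow_val, Units.val_pow_eq_pow_val, Units.val_pow_eq_pow_val,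
    Units.val_pow_eq_pow_val]
  congr 1
  unfold dg
  rw [pow_add, pow_add, pow_add]
  ring

private theorem MxB_mono {D : MD} {X Y : (Matrix (Fin D.1) (Fin D.1) ℚ)ˣ} (hL : Link D X Y)
    (hc : Commute X Y) {w : VV} {M : ℕ} (hM : dg w ≤ M) (b : Bool) :
    MxB_phi D.1 (toM D.1 (mulM D.1 (sclM D.1 (D.2.1 ^ (M - dg w)))
      (cond b (numM D w) (negM (numM D w))))) =
      ((D.2.1 : ℚ) ^ M) • evm X Y hc (cond b (mo (vz w.1, vz w.2)) (-mo (vz w.1, vz w.2))) := by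
  have h1 := hL.2 w
  rw [MxB_map] at h1
  have h2 : ((X ^ vz w.1 * Y ^ vz w.2 : (Matrix (Fin D.1) (Fin D.1) ℚ)ˣ) :
      Matrix (Fin D.1) (Fin D.1) ℚ) = evm X Y hc (mo (vz w.1, vz w.2)) :=
    (evm_mo X Y hc (vz w.1, vz w.2)).symm
  rw [h2] at h1
  rw [toM_mul, toM_scl, map_mul, MxB_smul, smul_mul_assoc, one_mul]
  cases b with
  | true =>
    rw [cond_true, cond_true, h1, smul_smul]
    congr 1
    rw [Nat.cast_pow, ← pow_add, Nat.sub_add_cancel hM]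
  | false =>
    rw [cond_false, cond_false, toM_neg, map_neg, h1, map_neg, smul_neg, smul_neg, smul_smul]
    congr 2
    rw [Nat.cast_pow, ← pow_add, Nat.sub_add_cancel hM]

theorem link_ev {D : MD} {X Y : (Matrix (Fin D.1) (Fin D.1) ℚ)ˣ} (hL : Link D X Y)
    (hc : Commute X Y) {L : NL} {M : ℕ} (hM : mx L ≤ M) :
    (toM D.1 (evN D M L)).map (Int.cast : ℤ → ℚ) = ((D.2.1 : ℚ) ^ M) • evm X Y hc (pol L) := by
  rw [MxB_map]
  induction L with
  | nil =>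
    have h1 : evN D M [] = [] := rfl
    have h2 : pol [] = 0 := rfl
    rw [h1, h2, toM_nil, map_zero, map_zero, smul_zero]
  | cons e L ih =>
    have h0 : mx (e :: L) = dg (e.1, e.2.1) + mx L := by
      unfold mx
      rw [List.map_cons, List.sum_cons]
      rfl
    rw [h0] at hM
    have h1 : evN D M (e :: L) = addM D.1 (mulM D.1 (sclM D.1 (D.2.1 ^ (M - dg (e.1, e.2.1))))
      (cond e.2.2 (numM D (e.1, e.2.1)) (negM (numM D (e.1, e.2.1))))) (evN D M L) := rfl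
    rw [h1, toM_add, map_add, ih (by omega), WlA_pol_cons, map_add, smul_add,
      MxB_mono hL hc (w := (e.1, e.2.1)) (by omega) e.2.2]

theorem vanish_iff {D : MD} {X Y : (Matrix (Fin D.1) (Fin D.1) ℚ)ˣ} (hL : Link D X Y)
    (hc : Commute X Y) {L : NL} : Vanish D L ↔ evm X Y hc (pol L) = 0 := by
  have hm0 : (D.2.1 : ℚ) ^ mx L ≠ 0 := by
    have : 0 < D.2.1 := hL.1
    positivity
  unfold Vanish
  rw [eqM_iff, toM_nil]
  have h1 := link_ev hL hc (le_refl (mx L))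
  constructor
  · intro h
    rw [h, MxB_map, map_zero] at h1
    rcases smul_eq_zero.1 h1.symm with h2 | h2
    · exact absurd h2 hm0
    · exact h2
  · intro h
    rw [h, smul_zero] at h1
    ext i j
    have h2 := congrFun (congrFun h1 i) j
    rw [Matrix.map_apply, Matrix.zero_apply] at h2
    rw [Matrix.zero_apply]
    exact_mod_cast h2

end Pool.Agent.H28.IP
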