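/-
ROW EgA. Common eigenvectors.
PROOF of eigpt. Let `ρ : Matrix (Fin d) (Fin d) ℚ →+* Matrix (Fin d) (Fin d) ℂ` be the map of the entries
(`(algebraMap ℚ ℂ).mapMatrix`), `X' = Units.map ρ X`, `Y' = Units.map ρ Y`: commuting units, and
`M = X' ^ i * Y' ^ j` has the characteristic polynomial in question, so `μ` is an eigenvalue of `M`
(`Matrix.mem_spectrum...`, `Module.End.hasEigenvalue_iff_isRoot_charpoly`, or det (μ - M) = 0 and
`Matrix.exists_mulVec_eq_zero_iff`): `E = {v | M v = μ v} ≠ 0`. `E` is stable under `X'` (commutes with `M`), finite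
dimensional over the algebraically closed field ℂ, so `X'` has an eigenvector in `E`
(`Module.End.exists_eigenvalue` for the restriction `LinearMap.restrict`), with eigenvalue `ξ`;
`E' = {v ∈ E | X' v = ξ v} ≠ 0` is stable under `Y'`, so there is `v ∈ E'`, `v ≠ 0`, `Y' v = η v`. `ξ, η ≠ 0` because
`X', Y'` are units. `X' ^ a v = ξ ^ a v`, `Y' ^ b v = η ^ b v` for all integers `a, b`, so
`μ v = M v = ξ ^ i η ^ j v` and `μ = ξ ^ i η ^ j`. For `f : Lam`: `ρ (evm X Y hc f) v = evr ξ η f • v`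
(additive in `f`; for `f = mo z` by evm_mo (MxB), evr_mo (Pool.Agent.H28.IP.GmA) and the above; lam_ind in
Pool.Agent.H28.IP.EvA). If `evm X Y hc f = 0` then `evr ξ η f • v = 0`, so `evr ξ η f = 0`.
-/
import Pool.Agent.H28.IQ.MxB
import Pool.Agent.H28.IP.GmA

set_option autoImplicit false

namespace Pool.Agent.H28.IP

/-- the action of a rational matrix on `ℂ^d` -/
noncomputable def EgA_phi (d : ℕ) : Matrix (Fin d) (Fin d) ℚ →+* Module.End ℂ (Fin d → ℂ) :=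
  (Matrix.toLinAlgEquiv' (R := ℂ) (n := Fin d) : Matrix (Fin d) (Fin d) ℂ →+*
    Module.End ℂ (Fin d → ℂ)).comp (algebraMap ℚ ℂ).mapMatrix

theorem EgA_step {V : Type} [AddCommGroup V] [Module ℂ V] [FiniteDimensional ℂ V]
    (E : Submodule ℂ V) (hE : ∃ v ∈ E, v ≠ 0) (T : Module.End ℂ V) (hT : ∀ v ∈ E, T v ∈ E) :
    ∃ c : ℂ, ∃ v ∈ E, v ≠ 0 ∧ T v = c • v := by
  obtain ⟨w, hw, hw0⟩ := hE
  have : Nontrivial E := ⟨⟨⟨w, hw⟩, 0, fun h => hw0 (congrArg Subtype.val h)⟩⟩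
  obtain ⟨c, hc⟩ := Module.End.exists_eigenvalue (T.restrict hT)
  obtain ⟨v, hv⟩ := hc.exists_hasEigenvector
  refine ⟨c, v.1, v.2, fun h => hv.2 (Subtype.ext h), ?_⟩
  have h1 := hv.apply_eq_smul
  have h2 := congrArg Subtype.val h1
  exact h2

theorem EgA_zpow {V : Type} [AddCommGroup V] [Module ℂ V] (T : (Module.End ℂ V)ˣ) (c : ℂˣ) (v : V)
    (h : (T : Module.End ℂ V) v = (c : ℂ) • v) (a : ℤ) :
    ((T ^ a : (Module.End ℂ V)ˣ) : Module.End ℂ V) v = ((c ^ a : ℂˣ) : ℂ) • v := by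
  have hinv : ((T⁻¹ : (Module.End ℂ V)ˣ) : Module.End ℂ V) v = ((c⁻¹ : ℂˣ) : ℂ) • v := by
    have h1 : ((T⁻¹ : (Module.End ℂ V)ˣ) : Module.End ℂ V) ((T : Module.End ℂ V) v) = v := by
      rw [← Module.End.mul_apply, ← Units.val_mul, inv_mul_cancel]
      rfl
    rw [h, map_smul] at h1
    have h2 := congrArg (fun w => ((c⁻¹ : ℂˣ) : ℂ) • w) h1
    simp only [smul_smul] at h2
    rw [← Units.val_mul, inv_mul_cancel, Units.val_one, one_smul] at h2
    exact h2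
  induction a using Int.induction_on with
  | zero => rw [zpow_zero, zpow_zero, Units.val_one, Units.val_one, one_smul]; rfl
  | succ n ih =>
    rw [zpow_add_one, zpow_add_one, Units.val_mul, Units.val_mul, Module.End.mul_apply, h, map_smul,
      ih, smul_smul, mul_comm]
  | pred n ih =>
    rw [zpow_sub_one, zpow_sub_one, Units.val_mul, Units.val_mul, Module.End.mul_apply, hinv,
      map_smul, ih, smul_smul, mul_comm]

theorem EgA_ne {V : Type} [AddCommGroup V] [Module ℂ V] (T : (Module.End ℂ V)ˣ) (c : ℂ) (v : V)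
    (hv : v ≠ 0) (h : (T : Module.End ℂ V) v = c • v) : c ≠ 0 := by
  rintro rfl
  rw [zero_smul] at h
  apply hv
  have h1 : ((T⁻¹ : (Module.End ℂ V)ˣ) : Module.End ℂ V) ((T : Module.End ℂ V) v) = v := by
    rw [← Module.End.mul_apply, ← Units.val_mul, inv_mul_cancel]
    rfl
  rw [← h1, h, map_zero]

theorem eigpt {d : ℕ} {X Y : (Matrix (Fin d) (Fin d) ℚ)ˣ} (hc : Commute X Y) (i j : ℤ) {μ : ℂ}
    (hμ : μ ∈ ((((X ^ i * Y ^ j : (Matrix (Fin d) (Fin d) ℚ)ˣ) : Matrix (Fin d) (Fin d) ℚ).map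
      (algebraMap ℚ ℂ)).charpoly).roots) :
    ∃ ξ η : ℂˣ, ((ξ ^ i * η ^ j : ℂˣ) : ℂ) = μ ∧ ∀ f : Lam, evm X Y hc f = 0 → evr ξ η f = 0 := by
  -- the units acting on `ℂ^d`
  obtain ⟨X', hX'⟩ : ∃ X' : (Module.End ℂ (Fin d → ℂ))ˣ, X' = Units.map (EgA_phi d).toMonoidHom X :=
    ⟨_, rfl⟩
  obtain ⟨Y', hY'⟩ : ∃ Y' : (Module.End ℂ (Fin d → ℂ))ˣ, Y' = Units.map (EgA_phi d).toMonoidHom Y :=
    ⟨_, rfl⟩
  have hc' : Commute X' Y' := by
    rw [hX', hY']
    exact hc.map _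
  have hM : ∀ a b : ℤ, EgA_phi d ((X ^ a * Y ^ b : (Matrix (Fin d) (Fin d) ℚ)ˣ) :
      Matrix (Fin d) (Fin d) ℚ) = ((X' ^ a * Y' ^ b : (Module.End ℂ (Fin d → ℂ))ˣ) :
        Module.End ℂ (Fin d → ℂ)) := by
    intro a b
    rw [hX', hY', ← map_zpow, ← map_zpow, ← map_mul]
    rfl
  -- the eigenvalue
  obtain ⟨M, hMdef⟩ : ∃ M : Module.End ℂ (Fin d → ℂ), M =
    ((X' ^ i * Y' ^ j : (Module.End ℂ (Fin d → ℂ))ˣ) : Module.End ℂ (Fin d → ℂ)) := ⟨_, rfl⟩
  have hroot := (Polynomial.mem_roots'.1 hμ).2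
  have hEig : M.HasEigenvalue μ := by
    rw [Module.End.hasEigenvalue_iff_isRoot_charpoly, hMdef, ← hM i j]
    have e : EgA_phi d ((X ^ i * Y ^ j : (Matrix (Fin d) (Fin d) ℚ)ˣ) :
        Matrix (Fin d) (Fin d) ℚ) = Matrix.toLin' (((X ^ i * Y ^ j :
          (Matrix (Fin d) (Fin d) ℚ)ˣ) : Matrix (Fin d) (Fin d) ℚ).map (algebraMap ℚ ℂ)) := rfl
    rw [e, Matrix.charpoly_toLin']
    exact hroot
  obtain ⟨v0, hv0⟩ := hEig.exists_hasEigenvector
  -- the eigenspace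
  have hXM : Commute (X' : Module.End ℂ (Fin d → ℂ)) M := by
    rw [hMdef]
    have h1 : Commute X' (X' ^ i * Y' ^ j) :=
      ((Commute.refl X').zpow_right i).mul_right (hc'.zpow_right j)
    exact congrArg Units.val h1
  have hYM : Commute (Y' : Module.End ℂ (Fin d → ℂ)) M := by
    rw [hMdef]
    have h1 : Commute Y' (X' ^ i * Y' ^ j) :=
      (hc'.symm.zpow_right i).mul_right ((Commute.refl Y').zpow_right j)
    exact congrArg Units.val h1
  have hXY : Commute (X' : Module.End ℂ (Fin d → ℂ)) (Y' : Module.End ℂ (Fin d → ℂ)) :=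
    congrArg Units.val hc'
  have hst : ∀ (S T : Module.End ℂ (Fin d → ℂ)) (c : ℂ), Commute S T →
      ∀ v ∈ Module.End.eigenspace T c, S v ∈ Module.End.eigenspace T c := by
    intro S T c hST v hv
    rw [Module.End.mem_eigenspace_iff] at hv ⊢
    have h1 : T (S v) = S (T v) := by
      rw [← Module.End.mul_apply, ← Module.End.mul_apply, hST.eq]
    rw [h1, hv, map_smul]
  obtain ⟨ξ, v1, hv1E, hv10, hv1⟩ := EgA_step (Module.End.eigenspace M μ) ⟨v0, hv0.1, hv0.2⟩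
    (X' : Module.End ℂ (Fin d → ℂ)) (hst _ _ _ hXM)
  obtain ⟨η, v, hvE, hv0', hv⟩ := EgA_step
    (Module.End.eigenspace M μ ⊓ Module.End.eigenspace (X' : Module.End ℂ (Fin d → ℂ)) ξ)
    ⟨v1, ⟨hv1E, Module.End.mem_eigenspace_iff.2 hv1⟩, hv10⟩ (Y' : Module.End ℂ (Fin d → ℂ))
    (fun v hv => ⟨hst _ _ _ hYM v hv.1, hst _ _ _ hXY.symm v hv.2⟩)
  have hvM : M v = μ • v := Module.End.mem_eigenspace_iff.1 hvE.1
  have hvX : (X' : Module.End ℂ (Fin d → ℂ)) v = ξ • v := Module.End.mem_eigenspace_iff.1 hvE.2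
  have hξ := EgA_ne X' ξ v hv0' hvX
  have hη := EgA_ne Y' η v hv0' hv
  refine ⟨Units.mk0 ξ hξ, Units.mk0 η hη, ?_, ?_⟩
  · have h1 : M v = ((Units.mk0 ξ hξ ^ i * Units.mk0 η hη ^ j : ℂˣ) : ℂ) • v := by
      rw [hMdef, Units.val_mul, Module.End.mul_apply, EgA_zpow Y' (Units.mk0 η hη) v hv j, map_smul,
        EgA_zpow X' (Units.mk0 ξ hξ) v hvX i, smul_smul, Units.val_mul, mul_comm]
    rw [hvM] at h1
    have h2 : (μ - ((Units.mk0 ξ hξ ^ i * Units.mk0 η hη ^ j : ℂˣ) : ℂ)) • v = 0 := by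
      rw [sub_smul, h1, sub_self]
    rcases smul_eq_zero.1 h2 with h3 | h3
    · exact (sub_eq_zero.1 h3).symm
    · exact absurd h3 hv0'
  · have hall : ∀ f : Lam, EgA_phi d (evm X Y hc f) v =
        evr (Units.mk0 ξ hξ) (Units.mk0 η hη) f • v := by
      intro f
      refine lam_ind (p := fun f => EgA_phi d (evm X Y hc f) v =
        evr (Units.mk0 ξ hξ) (Units.mk0 η hη) f • v) ?_ ?_ ?_ ?_ f
      · rw [map_zero, map_zero, map_zero, zero_smul]; rfl
      · intro f g hf hg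
        rw [map_add, map_add, map_add, add_smul, ← hf, ← hg]; rfl
      · intro f hf
        rw [map_neg, map_neg, map_neg, neg_smul, ← hf]; rfl
      · intro z
        rw [evm_mo, evr_mo, hM, Units.val_mul, Module.End.mul_apply,
          EgA_zpow Y' (Units.mk0 η hη) v hv z.2, map_smul,
          EgA_zpow X' (Units.mk0 ξ hξ) v hvX z.1, smul_smul, Units.val_mul, mul_comm]
    intro f hf
    have h1 := hall f
    rw [hf, map_zero] at h1
    have h2 : evr (Units.mk0 ξ hξ) (Units.mk0 η hη) f • v = 0 := h1.symm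
    rcases smul_eq_zero.1 h2 with h3 | h3
    · exact h3
    · exact absurd h3 hv0'

end Pool.Agent.H28.IP
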