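/-
ROW EgB. Large traces give large eigenvalues.
PROOFS. tr_eig: the trace is the sum of the `d` roots of the characteristic polynomial
(`Matrix.trace_eq_sum_roots_charpoly`, the number of roots is `d`: `IsAlgClosed.card_roots_eq_natDegree` /
`Polynomial.splits_iff_card_roots`, `Matrix.charpoly_natDegree_eq_dim`); if all `‖μ‖ ≤ q` then
`‖trace‖ ≤ q d`.
growth_pt: by Link for `sclV n w` (`dg (sclV n w) = n * dg w`, `vz (sclV n w).1 = n * vz w.1`), trM_eq: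
`vz (trM ..) = m ^ (n * dg w) * trace (X ^ (n w.1) Y ^ (n w.2))` in ℚ, so `2 d < |trace|` (`m ≥ 1`); apply
tr_eig with `q = 2` to the complex matrix (trace commutes with the map of the entries) and eigpt (EgA) with
`i = n * vz w.1`, `j = n * vz w.2`: `μ = ξ ^ i η ^ j = (ξ ^ vz w.1 η ^ vz w.2) ^ n` (zpow_mul, mul_zpow).
-/
import Pool.Agent.H28.IQ.EgA

set_option autoImplicit false

namespace Pool.Agent.H28.IP

theorem tr_eig {d : ℕ} (M : Matrix (Fin d) (Fin d) ℂ) {q : ℝ} (h : q * d < ‖M.trace‖) :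
    ∃ μ ∈ M.charpoly.roots, q < ‖μ‖ := by
  by_contra hcon
  push Not at hcon
  have hcard : M.charpoly.roots.card = d := by
    rw [IsAlgClosed.card_roots_eq_natDegree, Matrix.charpoly_natDegree_eq_dim, Fintype.card_fin]
  have h1 : ‖M.charpoly.roots.sum‖ ≤ (M.charpoly.roots.map fun z => ‖z‖).sum := by
    have h0 := norm_multiset_sum_le M.charpoly.roots
    exact h0
  have h2 : (M.charpoly.roots.map fun z => ‖z‖).sum ≤ (M.charpoly.roots.map fun z => ‖z‖).card • q :=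
    Multiset.sum_le_card_nsmul _ _ fun x hx => by
      obtain ⟨z, hz, rfl⟩ := Multiset.mem_map.mp hx
      exact hcon z hz
  rw [Multiset.card_map, hcard, nsmul_eq_mul] at h2
  rw [Matrix.trace_eq_sum_roots_charpoly] at h
  linarith [mul_comm q (d : ℝ)]

theorem growth_pt_vz (n : ℕ) (u : ℕ × ℕ) : vz (n * u.1, n * u.2) = n * vz u := by
  unfold vz
  push_cast
  ring

theorem growth_pt_dg (n : ℕ) (w : VV) : dg (sclV n w) = dg w * n := by
  simp only [dg, sclV]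
  ring

theorem growth_pt {D : MD} {X Y : (Matrix (Fin D.1) (Fin D.1) ℚ)ˣ} (hL : Link D X Y)
    (hc : Commute X Y) {w : VV} {n : ℕ} (h : Growth D w n) :
    ∃ ξ η : ℂˣ, 2 < ‖((ξ ^ vz w.1 * η ^ vz w.2 : ℂˣ) : ℂ)‖ ^ n ∧
      ∀ f : Lam, evm X Y hc f = 0 → evr ξ η f = 0 := by
  obtain ⟨hm, hl⟩ := hL
  have hl' := hl (sclV n w)
  rw [growth_pt_dg] at hl'
  unfold Growth at h
  rw [trM_eq] at h
  set T : ℤ := (toM D.1 (numM D (sclV n w))).trace with hT
  set Z : Matrix (Fin D.1) (Fin D.1) ℚ :=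
    ((X ^ vz (sclV n w).1 * Y ^ vz (sclV n w).2 : (Matrix (Fin D.1) (Fin D.1) ℚ)ˣ) : Matrix (Fin D.1) (Fin D.1) ℚ) with hZ
  have hm0 : (0 : ℚ) < (D.2.1 : ℚ) ^ (dg w * n) := by
    have : (0 : ℚ) < D.2.1 := by exact_mod_cast hm
    positivity
  have h1 : (T : ℚ) = (D.2.1 : ℚ) ^ (dg w * n) * Z.trace := by
    have h2 := congrArg Matrix.trace hl'
    rw [Matrix.trace_smul, smul_eq_mul] at h2
    rw [← h2, hT]
    simp only [Matrix.trace, Matrix.diag_apply, Matrix.map_apply]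
    push_cast
    rfl
  have h3 : (2 * D.1 : ℚ) < |Z.trace| := by
    have h4 : (((2 * D.1 * D.2.1 ^ (dg w * n) : ℕ) : ℤ) : ℚ) < ((|T| : ℤ) : ℚ) := by exact_mod_cast h
    rw [Int.cast_abs, h1, abs_mul, abs_of_pos hm0] at h4
    push_cast at h4
    have h5 : (D.2.1 : ℚ) ^ (dg w * n) * (2 * D.1) < (D.2.1 : ℚ) ^ (dg w * n) * |Z.trace| := by linarith
    exact lt_of_mul_lt_mul_left h5 hm0.le
  have h6 : (2 : ℝ) * (D.1 : ℕ) < ‖(Z.map (algebraMap ℚ ℂ)).trace‖ := by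
    have h7 : (Z.map (algebraMap ℚ ℂ)).trace = ((Z.trace : ℚ) : ℂ) := by
      simp only [Matrix.trace, Matrix.diag_apply, Matrix.map_apply]
      push_cast
      rfl
    rw [h7]
    have h8 : ‖((Z.trace : ℚ) : ℂ)‖ = ((|Z.trace| : ℚ) : ℝ) := by
      rw [Complex.norm_ratCast]
      push_cast
      rfl
    rw [h8]
    exact_mod_cast h3
  obtain ⟨μ, hμ, hμ2⟩ := tr_eig _ h6
  obtain ⟨ξ, η, he, hev⟩ := eigpt hc (vz (sclV n w).1) (vz (sclV n w).2) hμ
  refine ⟨ξ, η, ?_, hev⟩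
  have h9 : (ξ ^ vz (sclV n w).1 * η ^ vz (sclV n w).2 : ℂˣ) = (ξ ^ vz w.1 * η ^ vz w.2) ^ n := by
    have e1 : vz (sclV n w).1 = n * vz w.1 := growth_pt_vz n w.1
    have e2 : vz (sclV n w).2 = n * vz w.2 := growth_pt_vz n w.2
    rw [e1, e2, mul_pow, ← zpow_natCast, ← zpow_natCast, ← zpow_mul, ← zpow_mul, mul_comm (vz w.1), mul_comm (vz w.2)]
  rw [← norm_pow, ← Units.val_pow_eq_pow_val, ← h9, he]
  exact hμ2

end Pool.Agent.H28.IP
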