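/-
ROW EgC. Integral eigenvalues bound the denominators of the powers.
PROOFS.
char_int: over ℂ the characteristic polynomial of `M` is the product of `T - μ` over its roots (it splits), so its
coefficients are integral over ℤ (products of polynomials with integral coefficients have integral coefficients:
`Polynomial.lifts` for the subring `integralClosure ℤ ℂ`, or Vieta), and they are rational numbers
(`Matrix.charpoly_map`), hence integers (`IsIntegrallyClosed ℤ`, `IsIntegrallyClosed.isIntegral_iff`; integrality of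
`algebraMap ℚ ℂ c` gives that of `c`: `isIntegral_algebraMap_iff`). So it is the image of a monic integer polynomial.
pow_span: `T ^ k = q * s + r` with `r` of degree `< d`, `q` as in char_int (`Polynomial.modByMonic`,
`Polynomial.modByMonic_add_div`); evaluate at `M`: `q(M) = 0` (Cayley-Hamilton `Matrix.aeval_self_charpoly`), so
`M ^ k = r(M) = ∑_{j<d} r_j M ^ j` (`Polynomial.aeval_eq_sum_range'`).
-/
import Pool.Agent.H28.IQ.Defs

set_option autoImplicit false

namespace Pool.Agent.H28.IP

theorem EgC_prod (s : Multiset ℂ) (h : ∀ μ ∈ s, IsIntegral ℤ μ) :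
    ∀ i, IsIntegral ℤ (((s.map (fun a => Polynomial.X - Polynomial.C a)).prod).coeff i) := by
  induction s using Multiset.induction_on with
  | empty =>
    intro i
    rw [Multiset.map_zero, Multiset.prod_zero, Polynomial.coeff_one]
    split_ifs
    · exact isIntegral_one
    · exact isIntegral_zero
  | cons a s ih =>
    intro i
    rw [Multiset.map_cons, Multiset.prod_cons, Polynomial.coeff_mul]
    refine IsIntegral.sum _ ?_
    intro x _
    refine IsIntegral.mul ?_ (ih (fun μ hμ => h μ (Multiset.mem_cons_of_mem hμ)) _)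
    rw [Polynomial.coeff_sub, Polynomial.coeff_X, Polynomial.coeff_C]
    refine IsIntegral.sub ?_ ?_
    · split_ifs
      · exact isIntegral_one
      · exact isIntegral_zero
    · split_ifs
      · exact h a (Multiset.mem_cons_self a s)
      · exact isIntegral_zero

theorem char_int {d : ℕ} (M : Matrix (Fin d) (Fin d) ℚ)
    (h : ∀ μ ∈ ((M.map (algebraMap ℚ ℂ)).charpoly).roots, IsIntegral ℤ μ) :
    ∃ q : Polynomial ℤ, q.Monic ∧ q.map (Int.castRingHom ℚ) = M.charpoly := by
  have hmon : M.charpoly.Monic := Matrix.charpoly_monic M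
  have hmap : (M.map (algebraMap ℚ ℂ)).charpoly = M.charpoly.map (algebraMap ℚ ℂ) :=
    Matrix.charpoly_map M (algebraMap ℚ ℂ)
  have hsplit : ((M.map (algebraMap ℚ ℂ)).charpoly).Splits := IsAlgClosed.splits _
  have hprod : (M.map (algebraMap ℚ ℂ)).charpoly
      = (((M.map (algebraMap ℚ ℂ)).charpoly.roots).map (fun a => Polynomial.X - Polynomial.C a)).prod :=
    hsplit.eq_prod_roots_of_monic (Matrix.charpoly_monic _)
  have hcoef : ∀ i, M.charpoly.coeff i ∈ Set.range (Int.castRingHom ℚ) := by
    intro i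
    have h1 := EgC_prod _ h i
    rw [← hprod, hmap, Polynomial.coeff_map] at h1
    have h2 : IsIntegral ℤ (M.charpoly.coeff i) :=
      (isIntegral_algebraMap_iff (algebraMap ℚ ℂ).injective).mp h1
    obtain ⟨y, hy⟩ := IsIntegrallyClosed.isIntegral_iff.mp h2
    exact ⟨y, hy⟩
  obtain ⟨q, hq1, -, hq3⟩ := Polynomial.lifts_and_natDegree_eq_and_monic
    ((Polynomial.lifts_iff_coeff_lifts M.charpoly).mpr hcoef) hmon
  exact ⟨q, hq3, hq1⟩

theorem pow_span {d : ℕ} (M : Matrix (Fin d) (Fin d) ℚ)
    (h : ∀ μ ∈ ((M.map (algebraMap ℚ ℂ)).charpoly).roots, IsIntegral ℤ μ) (k : ℕ) :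
    ∃ c : ℕ → ℤ, M ^ k = ∑ j ∈ Finset.range d, (c j : ℚ) • M ^ j := by
  classical
  rcases Nat.eq_zero_or_pos d with hd | hd
  · subst hd
    exact ⟨fun _ => 0, Subsingleton.elim _ _⟩
  obtain ⟨q, hq, hqm⟩ := char_int M h
  have hdeg : q.natDegree = d := by
    rw [← hq.natDegree_map (Int.castRingHom ℚ), hqm, Matrix.charpoly_natDegree_eq_dim,
      Fintype.card_fin]
  have hq0 : Polynomial.aeval M q = 0 := by
    have h1 := Polynomial.aeval_map_algebraMap ℚ M q
    rw [← h1]
    have h2 : q.map (algebraMap ℤ ℚ) = M.charpoly := hqm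
    rw [h2]
    exact Matrix.aeval_self_charpoly M
  set r : Polynomial ℤ := (Polynomial.X ^ k) %ₘ q with hr
  have hrdeg : r.natDegree < d := by
    rw [← hdeg]
    apply Polynomial.natDegree_modByMonic_lt _ hq
    intro h1
    rw [h1, Polynomial.natDegree_one] at hdeg
    omega
  have hdiv : r + q * ((Polynomial.X ^ k) /ₘ q) = Polynomial.X ^ k :=
    Polynomial.modByMonic_add_div _ _
  have h3 := congrArg (Polynomial.aeval M) hdiv
  rw [map_add, map_mul, hq0, zero_mul, add_zero, map_pow, Polynomial.aeval_X] at h3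
  refine ⟨fun j => r.coeff j, ?_⟩
  rw [← h3, Polynomial.aeval_eq_sum_range' hrdeg]
  refine Finset.sum_congr rfl fun j _ => ?_
  rw [Int.cast_smul_eq_zsmul]

end Pool.Agent.H28.IP
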