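/-
ROW EgD. `NonInt` gives a point with a non-integral value.
PROOF. Write `d = D.1`, `m = D.2.1`, `U = X ^ vz w.1 * Y ^ vz w.2`. Suppose that for every `(ξ, η)` which kills the
`f` with `evm X Y hc f = 0` both `ξ^{w}` and its inverse are integral over ℤ. By eigpt (EgA, for `(vz w.1, vz w.2)`
and for `(-vz w.1, -vz w.2)`) all eigenvalues of `U` and of `U⁻¹` (over ℂ) are integral over ℤ. By pow_span (EgC)
`U ^ k` is a combination with integer coefficients of the `U ^ j`, `j < d`, and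
`m ^ (dg w * d) • U ^ j = m ^ (dg w * (d - j)) • (m ^ (dg w * j) • U ^ j)` is an integer matrix by Link for `sclV j w`
(`dg (sclV j w) = j * dg w`). So `m ^ (dg w * d) • U ^ k = N` is an integer matrix for all `k`, and for `k ≥ d`
`numM D (sclV k w) = m ^ (dg w * k) U ^ k = m ^ (dg w * (k - d)) N`: every entry is divisible by
`m ^ (dg w * (k - d))` (toM_get for the entries). The same for `U⁻¹` with `negV w` (`vz (swap u) = - vz u`,
`dg (negV w) = dg w`). This contradicts NonInt.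
-/
import Pool.Agent.H28.IQ.EgA
import Pool.Agent.H28.IQ.EgC

set_option autoImplicit false

namespace Pool.Agent.H28.IP

theorem nonint_pt_dg (k : ℕ) (u : VV) : dg (sclV k u) = dg u * k := by
  simp only [dg, sclV]
  ring

theorem nonint_pt_vz1 (k : ℕ) (u : VV) : vz (sclV k u).1 = vz u.1 * k := by
  simp only [vz, sclV]
  push_cast
  ring

theorem nonint_pt_vz2 (k : ℕ) (u : VV) : vz (sclV k u).2 = vz u.2 * k := by
  simp only [vz, sclV]
  push_cast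
  ring

theorem nonint_pt_link {D : MD} {X Y : (Matrix (Fin D.1) (Fin D.1) ℚ)ˣ} (hL : Link D X Y)
    (hc : Commute X Y) (u : VV) (k : ℕ) (a b : Fin D.1) :
    ((toM D.1 (numM D (sclV k u)) a b : ℤ) : ℚ) = (D.2.1 : ℚ) ^ (dg u * k) *
      ((((X ^ vz u.1 * Y ^ vz u.2 : (Matrix (Fin D.1) (Fin D.1) ℚ)ˣ) :
        Matrix (Fin D.1) (Fin D.1) ℚ)) ^ k) a b := by
  have h1 := hL.2 (sclV k u)
  rw [nonint_pt_dg, nonint_pt_vz1, nonint_pt_vz2] at h1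
  have h2 : X ^ (vz u.1 * (k : ℤ)) * Y ^ (vz u.2 * (k : ℤ)) = (X ^ vz u.1 * Y ^ vz u.2) ^ k := by
    rw [(hc.zpow_zpow (vz u.1) (vz u.2)).mul_pow, zpow_mul, zpow_mul, zpow_natCast, zpow_natCast]
  rw [h2] at h1
  have h3 := congrFun (congrFun h1 a) b
  rw [Matrix.map_apply, Matrix.smul_apply, Units.val_pow_eq_pow_val, smul_eq_mul] at h3
  exact h3

theorem nonint_pt_core {D : MD} {X Y : (Matrix (Fin D.1) (Fin D.1) ℚ)ˣ} (hL : Link D X Y)
    (hc : Commute X Y) (u : VV)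
    (hsp : ∀ k : ℕ, ∃ c : ℕ → ℤ,
      (((X ^ vz u.1 * Y ^ vz u.2 : (Matrix (Fin D.1) (Fin D.1) ℚ)ˣ) : Matrix (Fin D.1) (Fin D.1) ℚ)) ^ k =
      ∑ j ∈ Finset.range D.1, (c j : ℚ) •
        (((X ^ vz u.1 * Y ^ vz u.2 : (Matrix (Fin D.1) (Fin D.1) ℚ)ˣ) : Matrix (Fin D.1) (Fin D.1) ℚ)) ^ j)
    {k t : ℕ} (hk : D.1 ≤ k) (ht : t < D.1 * D.1) :
    ((D.2.1 ^ (dg u * (k - D.1)) : ℕ) : ℤ) ∣ vz ((numM D (sclV k u)).getD t (0, 0)) := by
  obtain ⟨a, b, hab⟩ := toM_get ht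
  rw [hab]
  obtain ⟨c, hck⟩ := hsp k
  have hlink := fun j : ℕ => nonint_pt_link hL hc u j a b
  generalize (((X ^ vz u.1 * Y ^ vz u.2 : (Matrix (Fin D.1) (Fin D.1) ℚ)ˣ) : Matrix (Fin D.1) (Fin D.1) ℚ)) = V
    at hlink hck
  refine ⟨∑ j ∈ Finset.range D.1, c j * (D.2.1 : ℤ) ^ (dg u * (D.1 - j)) * toM D.1 (numM D (sclV j u)) a b, ?_⟩
  have hQ : ((toM D.1 (numM D (sclV k u)) a b : ℤ) : ℚ) = (((D.2.1 ^ (dg u * (k - D.1)) : ℕ) : ℤ) : ℚ) *
      ((∑ j ∈ Finset.range D.1, c j * (D.2.1 : ℤ) ^ (dg u * (D.1 - j)) *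
        toM D.1 (numM D (sclV j u)) a b : ℤ) : ℚ) := by
    rw [hlink k, hck, Matrix.sum_apply, Finset.mul_sum]
    push_cast
    rw [Finset.mul_sum]
    refine Finset.sum_congr rfl fun j hj => ?_
    have hj' : j < D.1 := Finset.mem_range.mp hj
    rw [hlink j, Matrix.smul_apply, smul_eq_mul]
    have h1 : dg u * k = dg u * (k - D.1) + dg u * (D.1 - j) + dg u * j := by
      rw [← Nat.mul_add, ← Nat.mul_add]
      congr 1
      omega
    rw [h1, pow_add, pow_add]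
    ring
  exact_mod_cast hQ

theorem nonint_pt {D : MD} {X Y : (Matrix (Fin D.1) (Fin D.1) ℚ)ˣ} (hL : Link D X Y)
    (hc : Commute X Y) {w : VV} (h : NonInt D w) :
    ∃ ξ η : ℂˣ, (¬ IsIntegral ℤ ((ξ ^ vz w.1 * η ^ vz w.2 : ℂˣ) : ℂ) ∨
        ¬ IsIntegral ℤ (((ξ ^ vz w.1 * η ^ vz w.2)⁻¹ : ℂˣ) : ℂ)) ∧
      ∀ f : Lam, evm X Y hc f = 0 → evr ξ η f = 0 := by
  by_contra hcon
  push Not at hcon
  have hI : ∀ ξ η : ℂˣ, (∀ f : Lam, evm X Y hc f = 0 → evr ξ η f = 0) →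
      IsIntegral ℤ ((ξ ^ vz w.1 * η ^ vz w.2 : ℂˣ) : ℂ) ∧
        IsIntegral ℤ (((ξ ^ vz w.1 * η ^ vz w.2)⁻¹ : ℂˣ) : ℂ) := by
    intro ξ η h0
    by_contra hn
    rw [not_and_or] at hn
    obtain ⟨f, hf, hf2⟩ := hcon ξ η hn
    exact hf2 (h0 f hf)
  have hs1 := fun k : ℕ => pow_span
    (((X ^ vz w.1 * Y ^ vz w.2 : (Matrix (Fin D.1) (Fin D.1) ℚ)ˣ) : Matrix (Fin D.1) (Fin D.1) ℚ))
    (fun μ hμ => by
      obtain ⟨ξ, η, h1, h2⟩ := eigpt hc (vz w.1) (vz w.2) hμ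
      rw [← h1]
      exact (hI ξ η h2).1) k
  have hv1 : vz (negV w).1 = -vz w.1 := by
    simp [negV, vz_swap]
  have hv2 : vz (negV w).2 = -vz w.2 := by
    simp [negV, vz_swap]
  have hdg : dg (negV w) = dg w := by
    simp only [dg, negV, Prod.fst_swap, Prod.snd_swap]
    ring
  have hs2 := fun k : ℕ => pow_span
    (((X ^ vz (negV w).1 * Y ^ vz (negV w).2 : (Matrix (Fin D.1) (Fin D.1) ℚ)ˣ) : Matrix (Fin D.1) (Fin D.1) ℚ))
    (fun μ hμ => by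
      obtain ⟨ξ, η, h1, h2⟩ := eigpt hc (vz (negV w).1) (vz (negV w).2) hμ
      have h3 : ξ ^ vz (negV w).1 * η ^ vz (negV w).2 = (ξ ^ vz w.1 * η ^ vz w.2)⁻¹ := by
        rw [hv1, hv2, mul_inv, zpow_neg, zpow_neg]
      rw [← h1, h3]
      exact (hI ξ η h2).2) k
  obtain ⟨k, t, hk, ht, hor⟩ := h
  rcases hor with h | h
  · exact h (nonint_pt_core hL hc w hs1 hk ht)
  · have := nonint_pt_core hL hc (negV w) hs2 hk ht
    rw [hdg] at this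
    exact h this

end Pool.Agent.H28.IP
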