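/-
ROW EgE. Bounded denominators.
PROOFS. Write `d = D.1`, `m = D.2.1`, `U = X ^ vz w.1 * Y ^ vz w.2`.
bdd_of_not: for `k < d` we have `m ^ (dg w * d) U ^ k = m ^ (dg w * (d - k)) (m ^ (dg w * k) U ^ k)`, an integer
matrix by Link for `sclV k w` (`dg (sclV k w) = k * dg w`, values `k * vz w.1`, `k * vz w.2`; `X`, `Y` commute). For
`k ≥ d`: all the entries of `numM D (sclV k w) = m ^ (dg w * k) U ^ k` are divisible by `m ^ (dg w * (k - d))`
(negation of NonInt; get_toM), and `dg w * k = dg w * (k - d) + dg w * d`, `m ≥ 1`. The same for the inverse with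
`negV w`.
int_of_bdd: the additive group `S` of the rational matrices `A` with `n • A` an integer matrix is a finitely
generated ℤ-module (isomorphic to the integer matrices by `A ↦ n • A`), and contains all the powers of `M`, so the
subalgebra `ℤ[M]` is a finitely generated ℤ-module (ℤ is Noetherian) and `M` is integral over ℤ
(`IsIntegral.of_mem_of_fg`, `Algebra.adjoin ℤ {M}`): `q(M) = 0` for a monic integer polynomial `q`. If `μ` is a root
of the characteristic polynomial over ℂ, then `M v = μ v` for some `v ≠ 0` (as in EgA), so `q(μ) v = q(M) v = 0`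
and `q(μ) = 0`.
-/
import Pool.Agent.H28.IQ.MxB

set_option autoImplicit false

namespace Pool.Agent.H28.IP

theorem bdd_of_not_dg (k : ℕ) (w : VV) : dg (sclV k w) = k * dg w := by
  unfold dg sclV
  ring

theorem bdd_of_not_neg (w : VV) : dg (negV w) = dg w := by
  unfold dg negV
  simp only [Prod.fst_swap, Prod.snd_swap]
  ring

theorem bdd_of_not_vz (k : ℕ) (u : ℕ × ℕ) : vz (k * u.1, k * u.2) = k * vz u := by
  unfold vz
  push_cast
  ring

theorem bdd_of_not_sw (u : ℕ × ℕ) : vz u.swap = -vz u := by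
  unfold vz
  simp only [Prod.fst_swap, Prod.snd_swap]
  ring

/-- the power of the unit as the unit of the multiple -/
theorem bdd_of_not_pow {d : ℕ} {X Y : (Matrix (Fin d) (Fin d) ℚ)ˣ} (hc : Commute X Y) (w : VV) (k : ℕ) :
    (X ^ vz w.1 * Y ^ vz w.2) ^ k = X ^ vz (sclV k w).1 * Y ^ vz (sclV k w).2 := by
  rw [(hc.zpow_zpow _ _).mul_pow]
  show _ = X ^ vz (k * w.1.1, k * w.1.2) * Y ^ vz (k * w.2.1, k * w.2.2)
  rw [bdd_of_not_vz, bdd_of_not_vz, mul_comm (k : ℤ), mul_comm (k : ℤ), zpow_mul, zpow_mul, zpow_natCast,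
    zpow_natCast]

theorem bdd_of_not_inv {d : ℕ} {X Y : (Matrix (Fin d) (Fin d) ℚ)ˣ} (hc : Commute X Y) (w : VV) :
    (X ^ vz w.1 * Y ^ vz w.2)⁻¹ = X ^ vz (negV w).1 * Y ^ vz (negV w).2 := by
  show _ = X ^ vz w.1.swap * Y ^ vz w.2.swap
  rw [bdd_of_not_sw, bdd_of_not_sw, mul_inv_rev, zpow_neg, zpow_neg]
  exact ((hc.zpow_zpow _ _).inv_inv).eq.symm

theorem bdd_of_not_map {d : ℕ} (c : ℤ) (N : Matrix (Fin d) (Fin d) ℤ) :
    (c • N).map (Int.cast : ℤ → ℚ) = (c : ℚ) • N.map (Int.cast : ℤ → ℚ) := by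
  ext i j
  rw [Matrix.map_apply, Matrix.smul_apply, Matrix.smul_apply, Matrix.map_apply, smul_eq_mul, smul_eq_mul,
    Int.cast_mul]

theorem bdd_of_not_one {D : MD} {X Y : (Matrix (Fin D.1) (Fin D.1) ℚ)ˣ} (hL : Link D X Y)
    (hc : Commute X Y) (w : VV) (k : ℕ)
    (h : D.1 ≤ k → ∀ t < D.1 * D.1,
      ((D.2.1 ^ (dg w * (k - D.1)) : ℕ) : ℤ) ∣ vz ((numM D (sclV k w)).getD t (0, 0))) :
    ∃ N : Matrix (Fin D.1) (Fin D.1) ℤ, ((D.2.1 : ℚ) ^ (dg w * D.1)) •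
      (((X ^ vz w.1 * Y ^ vz w.2) ^ k : (Matrix (Fin D.1) (Fin D.1) ℚ)ˣ) :
        Matrix (Fin D.1) (Fin D.1) ℚ) = N.map (Int.cast : ℤ → ℚ) := by
  obtain ⟨hm, hl⟩ := hL
  have hlk := hl (sclV k w)
  rw [bdd_of_not_dg, ← bdd_of_not_pow hc] at hlk
  have hm0 : (D.2.1 : ℚ) ≠ 0 := by
    have : 0 < D.2.1 := hm
    positivity
  rcases lt_or_ge k D.1 with hk | hk
  · refine ⟨((D.2.1 : ℤ) ^ (dg w * (D.1 - k))) • toM D.1 (numM D (sclV k w)), ?_⟩
    rw [bdd_of_not_map, hlk, smul_smul]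
    congr 1
    push_cast
    rw [← pow_add]
    congr 1
    obtain ⟨e, he⟩ := Nat.exists_eq_add_of_le hk.le
    rw [he, Nat.add_sub_cancel_left]
    ring
  · obtain ⟨e, he⟩ := Nat.exists_eq_add_of_le hk
    have he' : k - D.1 = e := by omega
    rw [he'] at h
    have hdiv : ∀ i j, ((D.2.1 ^ (dg w * e) : ℕ) : ℤ) ∣ toM D.1 (numM D (sclV k w)) i j := by
      intro i j
      obtain ⟨t, ht, hg⟩ := get_toM i j
      rw [hg]
      exact h hk t ht
    choose N hN using hdiv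
    refine ⟨N, ?_⟩
    have hN' : toM D.1 (numM D (sclV k w)) = ((D.2.1 ^ (dg w * e) : ℕ) : ℤ) • (Matrix.of N) := by
      ext i j
      rw [hN i j]
      simp
    rw [hN', bdd_of_not_map] at hlk
    have hc0 : ((D.2.1 : ℚ) ^ (dg w * e)) ≠ 0 := pow_ne_zero _ hm0
    have e1 : (D.2.1 : ℚ) ^ (k * dg w) = ((D.2.1 : ℚ) ^ (dg w * e)) * (D.2.1 : ℚ) ^ (dg w * D.1) := by
      rw [← pow_add]
      congr 1
      rw [he]
      ring
    rw [e1, mul_smul, Int.cast_natCast, Nat.cast_pow] at hlk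
    have := smul_right_injective _ hc0 hlk
    exact this.symm

theorem bdd_of_not {D : MD} {X Y : (Matrix (Fin D.1) (Fin D.1) ℚ)ˣ} (hL : Link D X Y)
    (hc : Commute X Y) {w : VV} (h : ¬ NonInt D w) (k : ℕ) :
    (∃ N : Matrix (Fin D.1) (Fin D.1) ℤ, ((D.2.1 : ℚ) ^ (dg w * D.1)) •
      (((X ^ vz w.1 * Y ^ vz w.2) ^ k : (Matrix (Fin D.1) (Fin D.1) ℚ)ˣ) :
        Matrix (Fin D.1) (Fin D.1) ℚ) = N.map (Int.cast : ℤ → ℚ)) ∧
    ∃ N : Matrix (Fin D.1) (Fin D.1) ℤ, ((D.2.1 : ℚ) ^ (dg w * D.1)) •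
      ((((X ^ vz w.1 * Y ^ vz w.2)⁻¹) ^ k : (Matrix (Fin D.1) (Fin D.1) ℚ)ˣ) :
        Matrix (Fin D.1) (Fin D.1) ℚ) = N.map (Int.cast : ℤ → ℚ) := by
  unfold NonInt at h
  push Not at h
  refine ⟨bdd_of_not_one hL hc w k fun hk t ht => (h k t hk ht).1, ?_⟩
  have h2 := bdd_of_not_one hL hc (negV w) k fun hk t ht => by
    rw [bdd_of_not_neg]
    exact (h k t hk ht).2
  rw [bdd_of_not_neg, ← bdd_of_not_inv hc] at h2
  exact h2

theorem int_of_bdd_int {d : ℕ} {M : Matrix (Fin d) (Fin d) ℚ} {n : ℚ} (hn : n ≠ 0)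
    (h : ∀ k : ℕ, ∃ N : Matrix (Fin d) (Fin d) ℤ, n • M ^ k = N.map (Int.cast : ℤ → ℚ)) :
    IsIntegral ℤ M := by
  let f : Matrix (Fin d) (Fin d) ℤ →ₗ[ℤ] Matrix (Fin d) (Fin d) ℚ :=
    { toFun := fun N => n⁻¹ • N.map (Int.cast : ℤ → ℚ)
      map_add' := fun A B => by
        ext i j
        simp [mul_add]
      map_smul' := fun c A => by
        rw [bdd_of_not_map, smul_comm, RingHom.id_apply, Int.cast_smul_eq_zsmul] }
  have hfg : (Subalgebra.toSubmodule (Algebra.adjoin ℤ {M})).FG := by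
    have hr : (LinearMap.range f).FG := by
      rw [← Submodule.map_top]
      exact Submodule.FG.map f Module.Finite.fg_top
    refine Submodule.FG.of_le hr ?_
    rw [Algebra.adjoin_eq_span, Submodule.span_le]
    intro A hA
    obtain ⟨k, rfl⟩ := Submonoid.mem_closure_singleton.mp hA
    obtain ⟨N, hN⟩ := h k
    refine ⟨N, ?_⟩
    show n⁻¹ • N.map (Int.cast : ℤ → ℚ) = M ^ k
    rw [← hN, smul_smul, inv_mul_cancel₀ hn, one_smul]
  exact IsIntegral.of_mem_of_fg _ hfg M (Algebra.self_mem_adjoin_singleton ℤ M)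

theorem int_of_bdd {d : ℕ} {M : Matrix (Fin d) (Fin d) ℚ} {n : ℚ} (hn : n ≠ 0)
    (h : ∀ k : ℕ, ∃ N : Matrix (Fin d) (Fin d) ℤ, n • M ^ k = N.map (Int.cast : ℤ → ℚ)) :
    ∀ μ ∈ ((M.map (algebraMap ℚ ℂ)).charpoly).roots, IsIntegral ℤ μ := by
  intro μ hμ
  have h1 := int_of_bdd_int hn h
  have h2 : IsIntegral ℤ (M.map (algebraMap ℚ ℂ)) :=
    h1.map ((algebraMap ℚ ℂ).mapMatrix : Matrix (Fin d) (Fin d) ℚ →+* Matrix (Fin d) (Fin d) ℂ).toIntAlgHom
  have h3 : IsIntegral ℤ (Matrix.toLin' (M.map (algebraMap ℚ ℂ))) :=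
    h2.map (((Matrix.toLinAlgEquiv' : Matrix (Fin d) (Fin d) ℂ ≃ₐ[ℂ] _) :
      Matrix (Fin d) (Fin d) ℂ →+* ((Fin d → ℂ) →ₗ[ℂ] (Fin d → ℂ))).toIntAlgHom)
  have hroot : (LinearMap.charpoly (Matrix.toLin' (M.map (algebraMap ℚ ℂ)))).IsRoot μ := by
    rw [Matrix.charpoly_toLin']
    exact (Polynomial.mem_roots'.mp hμ).2
  generalize Matrix.toLin' (M.map (algebraMap ℚ ℂ)) = f at h3 hroot
  have hev : Module.End.HasEigenvalue f μ := (Module.End.hasEigenvalue_iff_isRoot_charpoly f μ).mpr hroot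
  obtain ⟨v, hv⟩ := hev.exists_hasEigenvector
  obtain ⟨q, hq, hq0⟩ := h3
  refine ⟨q, hq, ?_⟩
  have h4 := Module.End.aeval_apply_of_hasEigenvector (p := q.map (algebraMap ℤ ℂ)) hv
  rw [Polynomial.aeval_map_algebraMap, Polynomial.aeval_def, hq0, LinearMap.zero_apply] at h4
  have h5 := (smul_eq_zero.mp h4.symm).resolve_right hv.2
  rwa [Polynomial.eval_map] at h5

end Pool.Agent.H28.IP
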