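/-
ROW EgF. Traces of powers are unbounded when there is an eigenvalue of absolute value > 1.
PROOF. `trace (M ^ n) = ∑ ν ^ n` over the multiset of roots of the characteristic polynomial (over ℂ: `M` is
triangularisable; Mathlib: `Matrix.trace_eq_sum_roots_charpoly` together with the roots of the characteristic
polynomial of `M ^ n`, e.g. `Matrix.roots_charpoly_pow` / `Matrix.trace_pow_eq...` / `Matrix.charpoly` of `aeval`;
search for a lemma on `(M ^ n).trace` or `aeval_charpoly` roots; if none: `Module.End`/Jordan, or the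
generating function; or upper triangular form `Matrix.exists_..._blockTriangular`, `Matrix.schur_triangulation`).
Let `S` be the finite set of roots, `c ν ≥ 1` the multiplicities. Choose a polynomial `q` over ℂ with `q μ = 1` and
`q ν = 0` for the other `ν ∈ S` (Lagrange.basis). Suppose `‖trace (M ^ n)‖ ≤ B` for all `n`. With the coefficients
`q_l`: `∑_l q_l trace (M ^ (n + l)) = ∑_ν c ν ν ^ n q ν = c μ μ ^ n`, so `‖μ‖ ^ n ≤ B ∑ ‖q_l‖` for all `n`, which is
false as `‖μ‖ > 1` (tendsto_pow_atTop_atTop_of_one_lt / one_lt.. `exists n, C < ‖μ‖ ^ n`: pow_unbounded_of_one_lt).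
-/
import Pool.Agent.H28.IQ.Defs

set_option autoImplicit false

namespace Pool.Agent.H28.IP

open Polynomial in
theorem EgF_det {n : ℕ} (H : Matrix (Fin n) (Fin n) ℂ)
    (p : ℂ[X]) : (aeval H p).det = (H.charpoly.roots.map fun x => p.eval x).prod := by
  have hsp : H.charpoly.Splits := IsAlgClosed.splits _
  have hcard : Multiset.card H.charpoly.roots = n := by
    rw [← hsp.natDegree_eq_card_roots, Matrix.charpoly_natDegree_eq_dim, Fintype.card_fin]
  have hlin : ∀ z : ℂ, (aeval H (X - C z)).det =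
      (H.charpoly.roots.map fun x => (X - C z : ℂ[X]).eval x).prod := by
    intro z
    have h1 := hsp.eval_eq_prod_roots_of_monic H.charpoly_monic z
    rw [Matrix.eval_charpoly] at h1
    have h2 : aeval H (X - C z) = -(Matrix.scalar (Fin n) z - H) := by
      rw [map_sub, aeval_X, aeval_C, neg_sub]
      rfl
    have h3 : (H.charpoly.roots.map fun x => (X - C z : ℂ[X]).eval x) =
        H.charpoly.roots.map (fun x => (-1) * (z - x)) := by
      apply Multiset.map_congr rfl
      intro x _
      simp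
    rw [h2, Matrix.det_neg, h1, h3, Multiset.prod_map_mul, Fintype.card_fin]
    simp [hcard]
  have hp : p.Splits := IsAlgClosed.splits _
  have hmul : ∀ m : Multiset ℂ, (aeval H (m.map fun z => X - C z).prod).det =
      (H.charpoly.roots.map fun x => (m.map fun z => (X - C z : ℂ[X])).prod.eval x).prod := by
    intro m
    induction m using Multiset.induction_on with
    | empty => simp
    | cons z m ih =>
      rw [Multiset.map_cons, Multiset.prod_cons, map_mul, Matrix.det_mul, ih, hlin z]
      simp only [eval_mul, Multiset.prod_map_mul]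
  conv_lhs => rw [hp.eq_prod_roots]
  rw [map_mul, Matrix.det_mul, hmul, aeval_C]
  have h4 : ((algebraMap ℂ (Matrix (Fin n) (Fin n) ℂ)) p.leadingCoeff).det = p.leadingCoeff ^ n := by
    have : (algebraMap ℂ (Matrix (Fin n) (Fin n) ℂ)) p.leadingCoeff =
        p.leadingCoeff • (1 : Matrix (Fin n) (Fin n) ℂ) := Algebra.algebraMap_eq_smul_one _
    rw [this, Matrix.det_smul, Matrix.det_one, mul_one, Fintype.card_fin]
  have h5 : (H.charpoly.roots.map fun x => p.eval x) = H.charpoly.roots.map (fun x =>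
      p.leadingCoeff * ((p.roots.map fun z => (X - C z : ℂ[X])).prod.eval x)) := by
    apply Multiset.map_congr rfl
    intro x _
    conv_lhs => rw [hp.eq_prod_roots]
    rw [eval_mul, eval_C]
  rw [h4, h5, Multiset.prod_map_mul]
  simp [hcard]

open Polynomial in
theorem trace_pow_roots {d : ℕ} (M : Matrix (Fin d) (Fin d) ℂ) (n : ℕ) :
    (M ^ n).trace = (M.charpoly.roots.map fun ν => ν ^ n).sum := by
  have h1 : (M ^ n).charpoly = ((M.charpoly.roots.map fun x => x ^ n).map fun y => X - C y).prod := by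
    apply Polynomial.funext
    intro z
    rw [Matrix.eval_charpoly]
    have h2 := EgF_det M (C z - X ^ n)
    have h3 : aeval M (C z - X ^ n) = Matrix.scalar (Fin d) z - M ^ n := by
      rw [map_sub, aeval_C, map_pow, aeval_X]
      rfl
    rw [h3] at h2
    rw [h2, eval_multiset_prod, Multiset.map_map, Multiset.map_map]
    congr 1
    apply Multiset.map_congr rfl
    intro x _
    simp
  rw [Matrix.trace_eq_sum_roots_charpoly, h1, roots_multiset_prod_X_sub_C]

open Polynomial in
theorem EgF_poly (S : Finset ℂ) (μ : ℂ) : ∃ q : ℂ[X], q.eval μ = 1 ∧ ∀ ν ∈ S, ν ≠ μ → q.eval ν = 0 := by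
  classical
  refine ⟨∏ ν ∈ S.erase μ, (C (μ - ν)⁻¹ * (X - C ν)), ?_, ?_⟩
  · rw [eval_prod]
    refine Finset.prod_eq_one fun ν hν => ?_
    have : μ - ν ≠ 0 := sub_ne_zero.2 (Finset.ne_of_mem_erase hν).symm
    rw [eval_mul, eval_C, eval_sub, eval_X, eval_C, inv_mul_cancel₀ this]
  · intro ν hν hne
    rw [eval_prod]
    refine Finset.prod_eq_zero (Finset.mem_erase.2 ⟨hne, hν⟩) ?_
    simp

open Polynomial in
theorem tr_unbdd {d : ℕ} (M : Matrix (Fin d) (Fin d) ℂ) {μ : ℂ} (hμ : μ ∈ M.charpoly.roots)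
    (h1 : 1 < ‖μ‖) (B : ℝ) : ∃ n : ℕ, B < ‖(M ^ n).trace‖ := by
  classical
  by_contra hcon
  push Not at hcon
  obtain ⟨q, hq1, hq0⟩ := EgF_poly M.charpoly.roots.toFinset μ
  have key : ∀ n : ℕ, ∑ l ∈ q.support, q.coeff l * (M ^ (n + l)).trace =
      (M.charpoly.roots.count μ : ℂ) * μ ^ n := by
    intro n
    have h2 : ∀ l, (M ^ (n + l)).trace = ∑ ν ∈ M.charpoly.roots.toFinset,
        (M.charpoly.roots.count ν : ℂ) * ν ^ (n + l) := by
      intro l
      rw [trace_pow_roots, Finset.sum_multiset_map_count]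
      exact Finset.sum_congr rfl fun ν _ => nsmul_eq_mul _ _
    simp only [h2, Finset.mul_sum]
    rw [Finset.sum_comm]
    have h3 : ∀ ν, ∑ l ∈ q.support, q.coeff l * ((M.charpoly.roots.count ν : ℂ) * ν ^ (n + l)) =
        (M.charpoly.roots.count ν : ℂ) * ν ^ n * q.eval ν := by
      intro ν
      rw [eval_eq_sum, Polynomial.sum, Finset.mul_sum]
      refine Finset.sum_congr rfl fun l _ => ?_
      rw [pow_add]
      ring
    simp only [h3]
    rw [Finset.sum_eq_single μ]
    · rw [hq1, mul_one]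
    · intro ν hν hne
      rw [hq0 ν hν hne, mul_zero]
    · intro hn
      exact absurd (Multiset.mem_toFinset.2 hμ) hn
  have hcount : (1 : ℝ) ≤ (M.charpoly.roots.count μ : ℝ) := by
    exact_mod_cast Multiset.one_le_count_iff_mem.2 hμ
  obtain ⟨n, hn⟩ := pow_unbounded_of_one_lt (∑ l ∈ q.support, ‖q.coeff l‖ * B) h1
  have h4 : ‖μ‖ ^ n ≤ ‖(M.charpoly.roots.count μ : ℂ) * μ ^ n‖ := by
    rw [norm_mul, norm_pow, Complex.norm_natCast]
    nlinarith [pow_nonneg (norm_nonneg μ) n]
  rw [← key n] at h4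
  have h5 : ‖∑ l ∈ q.support, q.coeff l * (M ^ (n + l)).trace‖ ≤ ∑ l ∈ q.support, ‖q.coeff l‖ * B := by
    refine (norm_sum_le _ _).trans (Finset.sum_le_sum fun l _ => ?_)
    rw [norm_mul]
    exact mul_le_mul_of_nonneg_left (hcon _) (norm_nonneg _)
  linarith

end Pool.Agent.H28.IP
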