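/-
ROW EgG. Kronecker's theorem.
PROOF. Suppose that all roots `μ` have `‖μ‖ ≤ 1`. By char_int (EgC) the characteristic polynomial of `U` is the image
of a monic `q` over ℤ, so its complex version `q.map (Int.castRingHom ℂ)` has Mahler measure
`∏ max 1 ‖μ‖ = 1` (`Polynomial.mahlerMeasure_eq_leadingCoeff_mul_prod_roots`). The roots are nonzero because `U` is
invertible (0 is not an eigenvalue: the constant coefficient is ± det). By
`Polynomial.pow_eq_one_of_mahlerMeasure_eq_one` (Mathlib/NumberTheory/MahlerMeasure.lean) each root `μ` satisfies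
`μ ^ n = 1` for some `n ≥ 1`; let `h` be the product of these `n`, so `μ ^ h = 1` for all the roots. Over ℂ each
factor `T - μ` of the characteristic polynomial divides `T ^ h - 1` (`Polynomial.dvd_iff_isRoot`), so the
product of the `d` factors divides `(T ^ h - 1) ^ d`, and by Cayley-Hamilton (`Matrix.aeval_self_charpoly`)
`(U ^ h - 1) ^ d = 0` over ℂ, hence over ℚ (the map of the entries is injective and a ring homomorphism). (`d = 0`:
matrices without entries are equal.)
-/
import Pool.Agent.H28.IQ.EgC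

set_option autoImplicit false

namespace Pool.Agent.H28.IP

theorem kron {d : ℕ} (U : (Matrix (Fin d) (Fin d) ℚ)ˣ)
    (h : ∀ μ ∈ (((U : Matrix (Fin d) (Fin d) ℚ).map (algebraMap ℚ ℂ)).charpoly).roots,
      IsIntegral ℤ μ) :
    (∃ μ ∈ (((U : Matrix (Fin d) (Fin d) ℚ).map (algebraMap ℚ ℂ)).charpoly).roots, 1 < ‖μ‖) ∨
      ∃ h : ℕ, 1 ≤ h ∧ ((U : Matrix (Fin d) (Fin d) ℚ) ^ h - 1) ^ d = 0 := by
  by_cases hall : ∀ μ ∈ (((U : Matrix (Fin d) (Fin d) ℚ).map (algebraMap ℚ ℂ)).charpoly).roots, ‖μ‖ ≤ 1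
  swap
  · left
    push Not at hall
    exact hall
  right
  obtain ⟨q, hq, hqm⟩ := char_int (U : Matrix (Fin d) (Fin d) ℚ) h
  set A : Matrix (Fin d) (Fin d) ℂ := (U : Matrix (Fin d) (Fin d) ℚ).map (algebraMap ℚ ℂ) with hA
  have hAq : A.charpoly = q.map (Int.castRingHom ℂ) := by
    rw [hA, Matrix.charpoly_map, ← hqm, Polynomial.map_map]
    congr 1
  have hM : (q.map (Int.castRingHom ℂ)).mahlerMeasure = 1 := by
    rw [Polynomial.mahlerMeasure_eq_leadingCoeff_mul_prod_roots, ← hAq, (Matrix.charpoly_monic A).leadingCoeff,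
      norm_one, one_mul]
    refine Multiset.prod_eq_one fun x hx => ?_
    obtain ⟨μ, hμ, rfl⟩ := Multiset.mem_map.mp hx
    exact max_eq_left (hall μ hμ)
  have hdet : A.det ≠ 0 := by
    have h1 : A = (algebraMap ℚ ℂ).mapMatrix (U : Matrix (Fin d) (Fin d) ℚ) := rfl
    rw [h1, ← RingHom.map_det]
    have h2 : ((U : Matrix (Fin d) (Fin d) ℚ)).det ≠ 0 := by
      have := (Matrix.isUnit_iff_isUnit_det (U : Matrix (Fin d) (Fin d) ℚ)).mp U.isUnit
      exact this.ne_zero
    exact (map_ne_zero (algebraMap ℚ ℂ)).mpr h2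
  have hroot0 : ∀ μ ∈ A.charpoly.roots, μ ≠ 0 := by
    intro μ hμ h0
    apply hdet
    rw [Matrix.det_eq_prod_roots_charpoly]
    exact Multiset.prod_eq_zero (h0 ▸ hμ)
  have hn : ∀ μ ∈ A.charpoly.roots, ∃ n : ℕ, 0 < n ∧ μ ^ n = 1 := by
    intro μ hμ
    refine Polynomial.pow_eq_one_of_mahlerMeasure_eq_one hM (hroot0 μ hμ) ?_
    rw [Polynomial.mem_aroots', ← Polynomial.eval_map_algebraMap]
    have h1 : q.map (algebraMap ℤ ℂ) = A.charpoly := by rw [hAq]; rfl
    rw [h1]
    exact ⟨(Matrix.charpoly_monic A).ne_zero, Polynomial.isRoot_of_mem_roots hμ⟩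
  choose! n hn0 hn1 using hn
  have hh1 : ∀ μ ∈ A.charpoly.roots, μ ^ (∏ μ ∈ A.charpoly.roots.toFinset, n μ) = 1 := by
    intro μ hμ
    obtain ⟨k, hk⟩ := Finset.dvd_prod_of_mem n (Multiset.mem_toFinset.mpr hμ)
    rw [hk, pow_mul, hn1 μ hμ, one_pow]
  refine ⟨∏ μ ∈ A.charpoly.roots.toFinset, n μ, ?_, ?_⟩
  · exact Finset.prod_pos fun μ hμ => hn0 μ (Multiset.mem_toFinset.mp hμ)
  generalize (∏ μ ∈ A.charpoly.roots.toFinset, n μ) = m at hh1
  have hsplit : A.charpoly = (A.charpoly.roots.map (fun a => Polynomial.X - Polynomial.C a)).prod :=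
    ((IsAlgClosed.splits A.charpoly).eq_prod_roots_of_monic (Matrix.charpoly_monic A))
  have hcard : A.charpoly.roots.card = d := by
    rw [← (IsAlgClosed.splits A.charpoly).natDegree_eq_card_roots, Matrix.charpoly_natDegree_eq_dim, Fintype.card_fin]
  have hdvd : A.charpoly ∣ (Polynomial.X ^ m - 1) ^ d := by
    have h1 : (A.charpoly.roots.map (fun a => Polynomial.X - Polynomial.C a)).prod ∣
        (A.charpoly.roots.map (fun _ => (Polynomial.X ^ m - 1 : Polynomial ℂ))).prod := by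
      refine Multiset.prod_dvd_prod_of_dvd _ _ fun μ hμ => ?_
      rw [Polynomial.dvd_iff_isRoot]
      simp [hh1 μ hμ]
    rw [← hsplit, Multiset.map_const', Multiset.prod_replicate, hcard] at h1
    exact h1
  have hAz : (A ^ m - 1) ^ d = 0 := by
    obtain ⟨r, hr⟩ := hdvd
    have h1 := congrArg (Polynomial.aeval A) hr
    rw [map_mul, Matrix.aeval_self_charpoly, zero_mul, map_pow, map_sub, map_pow, Polynomial.aeval_X, map_one] at h1
    exact h1
  have hinj : Function.Injective ((algebraMap ℚ ℂ).mapMatrix : Matrix (Fin d) (Fin d) ℚ →+* Matrix (Fin d) (Fin d) ℂ) := by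
    intro M N hMN
    ext i j
    have h1 := congrFun (congrFun hMN i) j
    exact (algebraMap ℚ ℂ).injective h1
  apply hinj
  rw [map_pow, map_sub, map_pow, map_one, map_zero]
  exact hAz

end Pool.Agent.H28.IP
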