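/-
ROW EgH. The three cases.
PROOFS. Write `d = D.1`, `m = D.2.1 ≥ 1`, `U = X ^ vz w.1 * Y ^ vz w.2`.
unip_iff: eqM_iff, toM_pow, toM_add, toM_neg, toM_scl, toM_nil (MxA), Link for `sclV h w` (`dg (sclV h w) = h * dg w`,
values `h * vz w.1`, `h * vz w.2`, so the unit is `U ^ h` as `X`, `Y` commute): the matrix in Unip is
`(m ^ (dg w * h) (U ^ h - 1)) ^ d` (over ℚ, injective map) `= m ^ (dg w * h * d) (U ^ h - 1) ^ d`.
unip_mul: `U ^ (h q) - 1 = (U ^ h - 1) (1 + U ^ h + ... )` commuting (`sub_dvd_pow_sub_pow`/`geom_sum`), Commute.mul_pow.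
tri: by bdd_of_not (EgE, first part) and int_of_bdd with `n = m ^ (dg w * d) ≠ 0` all eigenvalues of `U` are integral
over ℤ; kron (EgG): either `(U ^ h - 1) ^ d = 0` with `h ≥ 1` (unip_iff), or some eigenvalue `μ` has `‖μ‖ > 1`, and by
tr_unbdd (EgF) `‖trace (U ^ n)‖ > 2 d` for some `n` (trace and powers commute with the map of the entries), and
`vz (trM (numM D (sclV n w))) = m ^ (dg w * n) trace (U ^ n)` (trM_eq, Link), so Growth D w n (the complex norm of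
a rational number is its absolute value).
-/
import Pool.Agent.H28.IQ.EgE
import Pool.Agent.H28.IQ.EgF
import Pool.Agent.H28.IQ.EgG

set_option autoImplicit false

namespace Pool.Agent.H28.IP

theorem EgH_dg (h : ℕ) (w : VV) : dg (sclV h w) = dg w * h := by
  unfold dg sclV
  ring

theorem EgH_link {D : MD} {X Y : (Matrix (Fin D.1) (Fin D.1) ℚ)ˣ} (hL : Link D X Y)
    (hc : Commute X Y) (w : VV) (h : ℕ) : (toM D.1 (numM D (sclV h w))).map (Int.cast : ℤ → ℚ) =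
    ((D.2.1 : ℚ) ^ (dg w * h)) •
      (((X ^ vz w.1 * Y ^ vz w.2) ^ h : (Matrix (Fin D.1) (Fin D.1) ℚ)ˣ) :
        Matrix (Fin D.1) (Fin D.1) ℚ) := by
  have h1 := hL.2 (sclV h w)
  have e1 : vz (sclV h w).1 = vz w.1 * h := by
    simp only [vz, sclV]
    push_cast
    ring
  have e2 : vz (sclV h w).2 = vz w.2 * h := by
    simp only [vz, sclV]
    push_cast
    ring
  rw [EgH_dg, e1, e2] at h1
  rw [h1, (hc.zpow_zpow (vz w.1) (vz w.2)).mul_pow h, zpow_mul, zpow_mul, zpow_natCast, zpow_natCast]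

theorem EgH_inj (d : ℕ) : Function.Injective
    ((Int.castRingHom ℚ).mapMatrix : Matrix (Fin d) (Fin d) ℤ →+* Matrix (Fin d) (Fin d) ℚ) := by
  intro M N hMN
  ext i j
  have h1 : ((M i j : ℤ) : ℚ) = ((N i j : ℤ) : ℚ) := congrFun (congrFun hMN i) j
  exact_mod_cast h1

theorem unip_iff {D : MD} {X Y : (Matrix (Fin D.1) (Fin D.1) ℚ)ˣ} (hL : Link D X Y)
    (hc : Commute X Y) {w : VV} {h : ℕ} : Unip D w h ↔
      ((((X ^ vz w.1 * Y ^ vz w.2) ^ h : (Matrix (Fin D.1) (Fin D.1) ℚ)ˣ) :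
        Matrix (Fin D.1) (Fin D.1) ℚ) - 1) ^ D.1 = 0 := by
  unfold Unip
  rw [eqM_iff, toM_pow, toM_add, toM_neg, toM_scl, toM_nil, ← map_eq_zero_iff _ (EgH_inj D.1),
    map_pow, map_add, map_neg, map_zsmul, map_one]
  have h1 : (Int.castRingHom ℚ).mapMatrix (toM D.1 (numM D (sclV h w))) =
      (toM D.1 (numM D (sclV h w))).map (Int.cast : ℤ → ℚ) := rfl
  rw [h1, EgH_link hL hc w h]
  have h2 : ((D.2.1 : ℚ) ^ (dg w * h)) •
      (((X ^ vz w.1 * Y ^ vz w.2) ^ h : (Matrix (Fin D.1) (Fin D.1) ℚ)ˣ) :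
        Matrix (Fin D.1) (Fin D.1) ℚ) +
      -((((D.2.1 ^ (dg w * h) : ℕ) : ℤ)) • (1 : Matrix (Fin D.1) (Fin D.1) ℚ)) =
      ((D.2.1 : ℚ) ^ (dg w * h)) •
      ((((X ^ vz w.1 * Y ^ vz w.2) ^ h : (Matrix (Fin D.1) (Fin D.1) ℚ)ˣ) :
        Matrix (Fin D.1) (Fin D.1) ℚ) - 1) := by
    rw [smul_sub, ← sub_eq_add_neg, natCast_zsmul]
    congr 1
    rw [← Nat.cast_pow, Nat.cast_smul_eq_nsmul]
  rw [h2, smul_pow, smul_eq_zero]
  have hm : (D.2.1 : ℚ) ≠ 0 := by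
    have := hL.1
    exact_mod_cast (by omega : D.2.1 ≠ 0)
  constructor
  · rintro (h3 | h3)
    · exact absurd h3 (pow_ne_zero _ (pow_ne_zero _ hm))
    · exact h3
  · exact Or.inr

theorem unip_mul {D : MD} {X Y : (Matrix (Fin D.1) (Fin D.1) ℚ)ˣ} (hL : Link D X Y)
    (hc : Commute X Y) {w : VV} {h : ℕ} (q : ℕ) (hu : Unip D w h) : Unip D w (h * q) := by
  rw [unip_iff hL hc] at hu ⊢
  obtain ⟨A, hA⟩ : ∃ A : Matrix (Fin D.1) (Fin D.1) ℚ, A =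
    (((X ^ vz w.1 * Y ^ vz w.2) ^ h : (Matrix (Fin D.1) (Fin D.1) ℚ)ˣ) : Matrix (Fin D.1) (Fin D.1) ℚ) :=
    ⟨_, rfl⟩
  rw [← hA] at hu
  rw [pow_mul, Units.val_pow_eq_pow_val, ← hA, ← mul_geom_sum A q]
  have hcm : Commute (A - 1) (∑ i ∈ Finset.range q, A ^ i) := by
    show _ * _ = _ * _
    rw [mul_geom_sum, geom_sum_mul]
  rw [hcm.mul_pow, hu, zero_mul]

theorem tri {D : MD} {X Y : (Matrix (Fin D.1) (Fin D.1) ℚ)ˣ} (hL : Link D X Y)
    (hc : Commute X Y) {w : VV} (h : ¬ NonInt D w) :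
    (∃ n, Growth D w n) ∨ ∃ h, 1 ≤ h ∧ Unip D w h := by
  have hm1 : 1 ≤ D.2.1 := hL.1
  have hm : (D.2.1 : ℚ) ≠ 0 := by exact_mod_cast (by omega : D.2.1 ≠ 0)
  obtain ⟨U, hU⟩ : ∃ U : (Matrix (Fin D.1) (Fin D.1) ℚ)ˣ, U = X ^ vz w.1 * Y ^ vz w.2 := ⟨_, rfl⟩
  have hint := int_of_bdd (M := (U : Matrix (Fin D.1) (Fin D.1) ℚ)) (n := (D.2.1 : ℚ) ^ (dg w * D.1))
    (pow_ne_zero _ hm) (fun k => by
      obtain ⟨N, hN⟩ := (bdd_of_not hL hc h k).1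
      refine ⟨N, ?_⟩
      rw [← hN, ← Units.val_pow_eq_pow_val, hU])
  rcases kron U hint with ⟨μ, hμ, h1⟩ | ⟨k, hk, h1⟩
  · left
    obtain ⟨n, hn⟩ := tr_unbdd _ hμ h1 (2 * D.1)
    refine ⟨n, ?_⟩
    unfold Growth
    rw [trM_eq]
    obtain ⟨t, ht⟩ : ∃ t : ℤ, t = (toM D.1 (numM D (sclV n w))).trace := ⟨_, rfl⟩
    rw [← ht]
    obtain ⟨s, hs⟩ : ∃ s : ℚ, s = ((U : Matrix (Fin D.1) (Fin D.1) ℚ) ^ n).trace := ⟨_, rfl⟩
    have h2 : (t : ℚ) = (D.2.1 : ℚ) ^ (dg w * n) * s := by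
      have h3 := congrArg Matrix.trace (EgH_link hL hc w n)
      rw [Matrix.trace_smul, ← hU, Units.val_pow_eq_pow_val, ← hs, smul_eq_mul] at h3
      rw [← h3, ht]
      simp only [Matrix.trace, Matrix.diag, Matrix.map_apply]
      push_cast
      rfl
    have h4 : (((U : Matrix (Fin D.1) (Fin D.1) ℚ).map (algebraMap ℚ ℂ)) ^ n).trace = (s : ℂ) := by
      have h5 : ((U : Matrix (Fin D.1) (Fin D.1) ℚ).map (algebraMap ℚ ℂ)) ^ n =
          ((U : Matrix (Fin D.1) (Fin D.1) ℚ) ^ n).map (algebraMap ℚ ℂ) :=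
        (map_pow (algebraMap ℚ ℂ).mapMatrix (U : Matrix (Fin D.1) (Fin D.1) ℚ) n).symm
      rw [h5, hs]
      simp only [Matrix.trace, Matrix.diag, Matrix.map_apply]
      push_cast
      rfl
    rw [h4] at hn
    have h6 : ‖(s : ℂ)‖ = ((|s| : ℚ) : ℝ) := by
      have h7 : (s : ℂ) = ((s : ℝ) : ℂ) := by push_cast; rfl
      rw [h7, Complex.norm_real, Real.norm_eq_abs, Rat.cast_abs]
    rw [h6] at hn
    have h8 : (2 * D.1 : ℚ) < |s| := by exact_mod_cast hn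
    have h9 : ((2 * D.1 * D.2.1 ^ (dg w * n) : ℕ) : ℚ) < ((|t| : ℤ) : ℚ) := by
      rw [Int.cast_abs, h2, abs_mul, abs_of_nonneg (by positivity)]
      push_cast
      have h10 : (0 : ℚ) < (D.2.1 : ℚ) ^ (dg w * n) := by positivity
      nlinarith
    exact_mod_cast h9
  · right
    refine ⟨k, hk, ?_⟩
    rw [unip_iff hL hc, ← hU, Units.val_pow_eq_pow_val]
    exact h1

end Pool.Agent.H28.IP
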