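/-
ROW FgA. Polycyclic groups have finitely generated subgroups.
PROOF. Let `H ≤ G`. The set `A = {m ∈ Lam ⧸ Ann a b | m = f mod Ann, ev a b f ∈ H}` is an additive subgroup (`FbD_P` in
Pool.Agent.H28.IP.FbD, FbD_mem), finitely generated as a subgroup of the finitely generated abelian group
`Lam ⧸ Ann a b` (ℤ Noetherian). The set of `(i, j)` such that `ev a b f * (a ^ i * b ^ j) ∈ H` for some `f` is a subgroup of
`ℤ²` (modulo the relations; see FbD_E), generated by two elements (FbD_Z2). So `H` is generated by two elements and the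
`ev a b f_s`, `s` in a finite set of generators of `A`. This is the argument in the proof of `fin_rank` in
Pool.Agent.H28.IP.FbD (there with a bound on the number of generators): every `h ∈ H` is `ev a b f (a ^ i b ^ j)` (nf in
EvB). Alternative proof: `commutator G` is an abelian group, a quotient of `Lam ⧸ Ann` via `ev` (ev_surj), so finitely
generated; its subgroups are finitely generated; `G ⧸ commutator G` is a finitely generated abelian group, so its
subgroups are finitely generated; `H` is an extension of `H ∩ commutator G` by a subgroup of the quotient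
(`Subgroup.fg` of extensions, `Group.fg_of_surjective...`).
-/
import Pool.Agent.H28.IQ.Defs
import Pool.Agent.H28.IP.FbD

set_option autoImplicit false

namespace Pool.Agent.H28.IP

theorem noeth {G : Type} [Group G] [Metab G] {a b : G} (hg : Gen2 a b)
    (h : Module.Finite ℤ (Lam ⧸ Ann a b)) (H : Subgroup G) : H.FG := by
  classical
  obtain ⟨z₁, hz₁, z₂, hz₂, hZ⟩ := FbD_Z2 (FbD_E a b H)
  obtain ⟨h₁, hh₁, e₁⟩ := hz₁
  obtain ⟨h₂, hh₂, e₂⟩ := hz₂
  have key : ∀ s : G, s ∈ H → ∃ (k l : ℤ) (f : Lam), s = ev a b f * (h₁ ^ k * h₂ ^ l) := by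
    intro s hs
    obtain ⟨f, i, j, hf⟩ := nf hg s
    have h1 : Abelianization.of s = Abelianization.of a ^ i * Abelianization.of b ^ j := by
      rw [hf, map_mul, FbD_ker.1 (ev_mem a b f), one_mul, map_mul, map_zpow, map_zpow]
    have h2 : (i, j) ∈ FbD_E a b H := ⟨s, hs, h1⟩
    obtain ⟨k, l, hkl⟩ := hZ _ h2
    have h3 : Abelianization.of (s * (h₁ ^ k * h₂ ^ l)⁻¹) = 1 := by
      have hi : i = z₁.1 * k + z₂.1 * l := by
        have := congrArg Prod.fst hkl
        simp only [Prod.fst_add, Prod.smul_fst, smul_eq_mul] at this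
        rw [this]
        ring
      have hj : j = z₁.2 * k + z₂.2 * l := by
        have := congrArg Prod.snd hkl
        simp only [Prod.snd_add, Prod.smul_snd, smul_eq_mul] at this
        rw [this]
        ring
      rw [map_mul, map_inv, mul_inv_eq_one, h1, map_mul, map_zpow, map_zpow, e₁, e₂, mul_zpow,
        mul_zpow, ← zpow_mul, ← zpow_mul, ← zpow_mul, ← zpow_mul, hi, hj, zpow_add, zpow_add]
      exact mul_mul_mul_comm _ _ _ _
    obtain ⟨f', hf'⟩ := ev_surj hg (FbD_ker.2 h3)
    refine ⟨k, l, f', ?_⟩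
    rw [hf']
    group
  haveI : IsNoetherian ℤ (Lam ⧸ Ann a b) := isNoetherian_of_isNoetherianRing_of_finite ℤ _
  have hfg : (AddSubgroup.toIntSubmodule (FbD_P a b H)).FG := IsNoetherian.noetherian _
  have hfg' : (FbD_P a b H).FG := by
    rw [Submodule.fg_iff_addSubgroup_fg] at hfg
    exact hfg
  obtain ⟨S', hS'⟩ := hfg'
  have hmk : Function.Surjective (Ideal.Quotient.mk (Ann a b)) := Ideal.Quotient.mk_surjective
  choose g hgg using hmk
  have hgH : ∀ σ ∈ S', ev a b (g σ) ∈ H := by
    intro σ hσ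
    have h1 : σ ∈ AddSubgroup.closure (S' : Set (Lam ⧸ Ann a b)) :=
      AddSubgroup.subset_closure hσ
    rw [hS', ← hgg σ] at h1
    exact FbD_mem.1 h1
  have hmem : ∀ x ∈ insert h₁ (insert h₂ (S'.image fun σ => ev a b (g σ))),
      x ∈ Subgroup.closure ((insert h₁ (insert h₂ (S'.image fun σ => ev a b (g σ))) :
        Finset G) : Set G) := fun x hx => Subgroup.subset_closure (Finset.mem_coe.2 hx)
  refine ⟨insert h₁ (insert h₂ (S'.image fun σ => ev a b (g σ))), le_antisymm ?_ ?_⟩
  · rw [Subgroup.closure_le]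
    intro x hx
    rw [Finset.mem_coe, Finset.mem_insert, Finset.mem_insert, Finset.mem_image] at hx
    rcases hx with rfl | rfl | ⟨σ, hσ, rfl⟩
    · exact hh₁
    · exact hh₂
    · exact hgH σ hσ
  · set H' : Subgroup G := Subgroup.closure ((insert h₁ (insert h₂
      (S'.image fun σ => ev a b (g σ))) : Finset G) : Set G) with hH'
    have m1 : h₁ ∈ H' := hmem _ (Finset.mem_insert_self _ _)
    have m2 : h₂ ∈ H' := hmem _ (Finset.mem_insert_of_mem (Finset.mem_insert_self _ _))
    have m3 : ∀ σ ∈ S', ev a b (g σ) ∈ H' := fun σ hσ =>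
      hmem _ (Finset.mem_insert_of_mem (Finset.mem_insert_of_mem (Finset.mem_image_of_mem _ hσ)))
    have m4 : AddSubgroup.closure (S' : Set (Lam ⧸ Ann a b)) ≤ FbD_P a b H' := by
      rw [AddSubgroup.closure_le]
      intro σ hσ
      have h1 := FbD_mem.2 (m3 σ (Finset.mem_coe.1 hσ))
      rw [hgg σ] at h1
      exact h1
    rw [hS'] at m4
    intro s hs
    obtain ⟨k, l, f, hf⟩ := key s hs
    have hfH : ev a b f ∈ H := by
      have h2 : ev a b f = s * (h₁ ^ k * h₂ ^ l)⁻¹ := by
        rw [eq_mul_inv_iff_mul_eq]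
        exact hf.symm
      rw [h2]
      exact H.mul_mem hs (H.inv_mem (H.mul_mem (H.zpow_mem hh₁ _) (H.zpow_mem hh₂ _)))
    have h2 := FbD_mem.1 (m4 (FbD_mem.2 hfH))
    rw [hf]
    exact H'.mul_mem h2 (H'.mul_mem (H'.zpow_mem m1 _) (H'.zpow_mem m2 _))

end Pool.Agent.H28.IP
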