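/-
ROW FgB. If `x`, `y` and their inverses are integral, the module is finitely generated.
PROOF. `d = D.1`, `m = D.2.1 ≥ 1`. By bdd_of_not (EgE) for `w = ((1,0),(0,0))` (`dg w = 1`, the unit is `X`) and
`((0,0),(1,0))` (the unit is `Y`), for every integer `i` the matrices `m ^ d X ^ i` and `m ^ d Y ^ i` are integer matrices
(nonnegative and negative powers), so `m ^ (2 d) X ^ i Y ^ j` is an integer matrix for all `i, j`, and so is
`m ^ (2 d) evm X Y hc f` for every `f` (lam_ind, evm_mo). So the image `E` of `evm X Y hc : Lam → Matrix` is contained in the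
ℤ-module of the `A` with `m ^ (2 d) A` integral, which is finitely generated; ℤ is Noetherian so `E` is a finitely
generated ℤ-module. By hker `evm X Y hc` vanishes on `I` (`n = 1`) and induces a surjective additive map `Lam ⧸ I → E` whose
kernel is the set of torsion elements, finite by hT (if `n f ∈ I` then `(n : ℤ) • f̄ = 0`), so a finitely generated
ℤ-module. An extension of finitely generated modules is finitely generated (`Module.Finite.of_submodule_quotient` or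
`Submodule.fg_of_fg_map_of_fg_inf_ker`).
-/
import Pool.Agent.H28.IQ.EgE

set_option autoImplicit false

namespace Pool.Agent.H28.IP

/-- a bounded multiple of an integer power is an integer matrix -/
theorem fg_of_not_pow {d : ℕ} {n : ℚ} {U : (Matrix (Fin d) (Fin d) ℚ)ˣ}
    (h : ∀ k : ℕ, (∃ N : Matrix (Fin d) (Fin d) ℤ, n •
        ((U ^ k : (Matrix (Fin d) (Fin d) ℚ)ˣ) : Matrix (Fin d) (Fin d) ℚ) = N.map (Int.cast : ℤ → ℚ)) ∧
      ∃ N : Matrix (Fin d) (Fin d) ℤ, n •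
        (((U⁻¹) ^ k : (Matrix (Fin d) (Fin d) ℚ)ˣ) : Matrix (Fin d) (Fin d) ℚ) = N.map (Int.cast : ℤ → ℚ))
    (i : ℤ) : ∃ N : Matrix (Fin d) (Fin d) ℤ, n •
        ((U ^ i : (Matrix (Fin d) (Fin d) ℚ)ˣ) : Matrix (Fin d) (Fin d) ℚ) = N.map (Int.cast : ℤ → ℚ) := by
  obtain ⟨k, rfl | rfl⟩ := Int.eq_nat_or_neg i
  · rw [zpow_natCast]
    exact (h k).1
  · rw [zpow_neg, zpow_natCast, ← inv_pow]
    exact (h k).2

theorem fg_of_not_mul {d : ℕ} (A B : Matrix (Fin d) (Fin d) ℤ) :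
    (A * B).map (Int.cast : ℤ → ℚ) = A.map (Int.cast : ℤ → ℚ) * B.map (Int.cast : ℤ → ℚ) :=
  map_mul ((Int.castRingHom ℚ).mapMatrix : Matrix (Fin d) (Fin d) ℤ →+* Matrix (Fin d) (Fin d) ℚ) A B

theorem fg_of_not {D : MD} {I : Ideal Lam} {X Y : (Matrix (Fin D.1) (Fin D.1) ℚ)ˣ}
    (hL : Link D X Y) (hc : Commute X Y)
    (hker : ∀ f : Lam, evm X Y hc f = 0 ↔ ∃ n : ℕ, n ≠ 0 ∧ (n : Lam) * f ∈ I)
    (hT : {m : Lam ⧸ I | ∃ n : ℤ, n ≠ 0 ∧ n • m = 0}.Finite)
    (h1 : ¬ NonInt D ((1, 0), (0, 0))) (h2 : ¬ NonInt D ((0, 0), (1, 0))) :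
    Module.Finite ℤ (Lam ⧸ I) := by
  classical
  have hm0 : (D.2.1 : ℚ) ≠ 0 := by
    have : 0 < D.2.1 := hL.1
    positivity
  set n : ℚ := (D.2.1 : ℚ) ^ D.1 with hn
  have hn0 : n ≠ 0 := pow_ne_zero _ hm0
  have hX : ∀ i : ℤ, ∃ N : Matrix (Fin D.1) (Fin D.1) ℤ, n •
      ((X ^ i : (Matrix (Fin D.1) (Fin D.1) ℚ)ˣ) : Matrix (Fin D.1) (Fin D.1) ℚ) = N.map (Int.cast : ℤ → ℚ) := by
    refine fg_of_not_pow fun k => ?_
    have h := bdd_of_not hL hc h1 k
    have e1 : dg ((1, 0), (0, 0)) = 1 := rfl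
    have e2 : vz ((1, 0) : ℕ × ℕ) = 1 := rfl
    have e3 : vz ((0, 0) : ℕ × ℕ) = 0 := rfl
    simp only [e1, e2, e3, zpow_one, zpow_zero, mul_one, one_mul] at h
    exact h
  have hY : ∀ i : ℤ, ∃ N : Matrix (Fin D.1) (Fin D.1) ℤ, n •
      ((Y ^ i : (Matrix (Fin D.1) (Fin D.1) ℚ)ˣ) : Matrix (Fin D.1) (Fin D.1) ℚ) = N.map (Int.cast : ℤ → ℚ) := by
    refine fg_of_not_pow fun k => ?_
    have h := bdd_of_not hL hc h2 k
    have e1 : dg ((0, 0), (1, 0)) = 1 := rfl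
    have e2 : vz ((1, 0) : ℕ × ℕ) = 1 := rfl
    have e3 : vz ((0, 0) : ℕ × ℕ) = 0 := rfl
    simp only [e1, e2, e3, zpow_one, zpow_zero, one_mul] at h
    exact h
  let f : Matrix (Fin D.1) (Fin D.1) ℤ →ₗ[ℤ] Matrix (Fin D.1) (Fin D.1) ℚ :=
    { toFun := fun N => (n * n)⁻¹ • N.map (Int.cast : ℤ → ℚ)
      map_add' := fun A B => by
        ext i j
        simp [mul_add]
      map_smul' := fun c A => by
        rw [bdd_of_not_map, smul_comm, RingHom.id_apply, Int.cast_smul_eq_zsmul] }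
  have hfr : (LinearMap.range f).FG := by
    rw [← Submodule.map_top]
    exact Submodule.FG.map f Module.Finite.fg_top
  have hev : ∀ g : Lam, evm X Y hc g ∈ LinearMap.range f := by
    intro g
    refine lam_ind (p := fun g => evm X Y hc g ∈ LinearMap.range f) ?_ ?_ ?_ ?_ g
    · rw [map_zero]
      exact Submodule.zero_mem _
    · intro g g' hg hg'
      rw [map_add]
      exact Submodule.add_mem _ hg hg'
    · intro g hg
      rw [map_neg]
      exact Submodule.neg_mem _ hg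
    · intro z
      rw [evm_mo]
      obtain ⟨A, hA⟩ := hX z.1
      obtain ⟨B, hB⟩ := hY z.2
      refine ⟨A * B, ?_⟩
      show (n * n)⁻¹ • (A * B).map (Int.cast : ℤ → ℚ) = _
      rw [fg_of_not_mul, ← hA, ← hB, smul_mul_smul_comm, smul_smul, inv_mul_cancel₀ (mul_ne_zero hn0 hn0), one_smul,
        Units.val_mul]
  have h0 : ∀ a : Lam, a ∈ I → evm X Y hc a = 0 := by
    intro a ha
    refine (hker a).mpr ⟨1, one_ne_zero, ?_⟩
    rw [Nat.cast_one, one_mul]
    exact ha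
  let φ : Lam ⧸ I →+* Matrix (Fin D.1) (Fin D.1) ℚ := Ideal.Quotient.lift I (evm X Y hc) h0
  let g : Lam ⧸ I →ₗ[ℤ] Matrix (Fin D.1) (Fin D.1) ℚ :=
    { toFun := φ
      map_add' := map_add φ
      map_smul' := fun c x => by
        rw [RingHom.id_apply, map_zsmul φ c x] }
  have hgr : ∀ x, g x ∈ LinearMap.range f := by
    intro x
    obtain ⟨a, rfl⟩ := Ideal.Quotient.mk_surjective x
    show φ (Ideal.Quotient.mk I a) ∈ _
    exact hev a
  have hker' : ∀ x, g x = 0 → ∃ k : ℤ, k ≠ 0 ∧ k • x = 0 := by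
    intro x hx
    obtain ⟨a, rfl⟩ := Ideal.Quotient.mk_surjective x
    have h3 : evm X Y hc a = 0 := hx
    obtain ⟨k, hk, hka⟩ := (hker a).mp h3
    refine ⟨k, by exact_mod_cast hk, ?_⟩
    rw [natCast_zsmul, nsmul_eq_mul, ← map_natCast (Ideal.Quotient.mk I), ← map_mul, Ideal.Quotient.eq_zero_iff_mem]
    exact hka
  refine ⟨Submodule.fg_of_fg_map_of_fg_inf_ker g ?_ ?_⟩
  · refine Submodule.FG.of_le hfr ?_
    rintro _ ⟨x, _, rfl⟩
    exact hgr x
  · rw [top_inf_eq]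
    have hfin : ((LinearMap.ker g : Submodule ℤ (Lam ⧸ I)) : Set (Lam ⧸ I)).Finite := by
      refine hT.subset fun x hx => ?_
      exact hker' x hx
    exact ⟨hfin.toFinset, by rw [Set.Finite.coe_toFinset, Submodule.span_eq]⟩

end Pool.Agent.H28.IP
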