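/-
ROW FmA. The families.
PROOFS. actz_fam, dt_fam_eq: expand the definitions (`actz (fam m w w' k) z = actz m z + (k * det2 w' z) w`;
`dt (fam m w w' k) = dt m + k * det2 (actz m w') w`), ring. vm_famN: `vz` of addp, subp, mulp (vz_addp, vz_mulp in
Pool.Agent.H28.IP.WlA, `vz (subp u v) = vz u - vz v`). dt_fam: if `actz m w' = ± w` then `det2 (actz m w') (c w) = 0`.
fam_param: `α = det2 (actz φ z') z`, `β = det2 w (actz φ z')`: by cramer (BdB) `actz φ z' = α w + β z`, and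
`β = ± det2 (actz φ w') (actz φ z') = ± dt φ * det2 w' z' = ± 1` (det2_act). Let `α = α₀ + k t` with `0 ≤ α₀ < k` (`α₀ = α % k`,
`t = α / k`). For all `u`: `u = det2 u z' • w' + det2 w' u • z'` (cramer), so
`actz φ u = det2 u z' • actz φ w' + det2 w' u • (α w + β z) = M u + t * det2 w' u • (k w)` with
`M u = det2 u z' • (ε w) + det2 w' u • (α₀ w + β z)`, `ε = ± 1`. Let `m` be the matrix of the linear map `M`:
`m = ((M (1,0)).1, (M (1,0)).2, (M (0,1)).1, (M (0,1)).2)`. Then `φ = fam m (k w) w' t` (compare the values at `(1,0)` and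
`(0,1)`), `actz m w' = ε w = actz φ w'` (`det2 w' w' = 0`), `dt m = dt φ` by dt_fam, and the entries of `M e` are at most
`2 b₂ * 2 b₁ + 2 b₂ * (k * 2 b₁ + 2 b₁) = 4 b₁ b₂ (k + 2)`.
-/
import Pool.Agent.H28.IQ.BdB
import Pool.Agent.H28.IP.WlA

set_option autoImplicit false

namespace Pool.Agent.H28.IP

theorem actz_fam (m : ℤ × ℤ × ℤ × ℤ) (w w' : ℤ × ℤ) (k : ℤ) (z : ℤ × ℤ) :
    actz (fam m w w' k) z = actz m z + (k * det2 w' z) • w := by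
  ext
  · simp only [actz, fam, det2, Prod.smul_fst, Prod.fst_add, smul_eq_mul]
    ring
  · simp only [actz, fam, det2, Prod.smul_snd, Prod.snd_add, smul_eq_mul]
    ring

theorem dt_fam_eq (m : ℤ × ℤ × ℤ × ℤ) (w w' : ℤ × ℤ) (k : ℤ) :
    dt (fam m w w' k) = dt m + k * det2 (actz m w') w := by
  simp only [dt, fam, det2, actz]
  ring

theorem dt_fam {m : ℤ × ℤ × ℤ × ℤ} {w w' : ℤ × ℤ} (h : actz m w' = w ∨ actz m w' = -w)
    (c k : ℤ) : dt (fam m (c • w) w' k) = dt m := by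
  rw [dt_fam_eq]
  have : det2 (actz m w') (c • w) = 0 := by
    rcases h with h | h <;> rw [h] <;>
      simp only [det2, Prod.smul_fst, Prod.smul_snd, smul_eq_mul, Prod.fst_neg, Prod.snd_neg] <;>
      ring
  rw [this]
  ring

theorem FmA_subp (u v : ℕ × ℕ) : vz (subp u v) = vz u - vz v := by
  simp only [vz, subp]
  push_cast
  ring

theorem vm_famN (m : MP) (w w' : VV) (k : ℕ × ℕ) :
    vm (famN m w w' k) = fam (vm m) (vv w) (vv w') (vz k) := by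
  simp only [vm, famN, fam, vv, FmA_subp, vz_addp, vz_mulp]

theorem vv_sclV (k : ℕ) (w : VV) : vv (sclV k w) = (k : ℤ) • vv w := by
  ext
  · simp only [vv, sclV, vz, Prod.smul_fst, smul_eq_mul]
    push_cast
    ring
  · simp only [vv, sclV, vz, Prod.smul_snd, smul_eq_mul]
    push_cast
    ring

theorem FmA_bound {b₁ b₂ k : ℕ} {a b c d ε α β : ℤ} (ha : |a| ≤ ((2 * b₂ : ℕ) : ℤ))
    (hb : |b| ≤ ((2 * b₂ : ℕ) : ℤ)) (hc : |c| ≤ ((2 * b₁ : ℕ) : ℤ))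
    (hd : |d| ≤ ((2 * b₁ : ℕ) : ℤ)) (hε : |ε| = 1) (hβ : |β| = 1) (hα : |α| ≤ (k : ℤ)) :
    |a * (ε * c) + b * (α * c + β * d)| ≤ ((4 * b₁ * b₂ * (k + 2) : ℕ) : ℤ) := by
  have h1 : |a * (ε * c)| ≤ ((2 * b₂ : ℕ) : ℤ) * ((2 * b₁ : ℕ) : ℤ) := by
    rw [abs_mul, abs_mul, hε, one_mul]
    exact mul_le_mul ha hc (abs_nonneg _) (by positivity)
  have h2 : |α * c + β * d| ≤ (k : ℤ) * ((2 * b₁ : ℕ) : ℤ) + ((2 * b₁ : ℕ) : ℤ) := by
    refine (abs_add_le _ _).trans ?_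
    rw [abs_mul, abs_mul, hβ, one_mul]
    exact add_le_add (mul_le_mul hα hc (abs_nonneg _) (by positivity)) hd
  have h3 : |b * (α * c + β * d)| ≤
      ((2 * b₂ : ℕ) : ℤ) * ((k : ℤ) * ((2 * b₁ : ℕ) : ℤ) + ((2 * b₁ : ℕ) : ℤ)) := by
    rw [abs_mul]
    exact mul_le_mul hb h2 (abs_nonneg _) (by positivity)
  refine (abs_add_le _ _).trans ((add_le_add h1 h3).trans (le_of_eq ?_))
  push_cast
  ring

theorem fam_param {φ : ℤ × ℤ × ℤ × ℤ} (hφ : dt φ = 1 ∨ dt φ = -1) {w z w' z' : ℤ × ℤ}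
    {b₁ b₂ k : ℕ} (hk : 1 ≤ k)
    (hw : |w.1| ≤ ((2 * b₁ : ℕ) : ℤ) ∧ |w.2| ≤ ((2 * b₁ : ℕ) : ℤ))
    (hz : |z.1| ≤ ((2 * b₁ : ℕ) : ℤ) ∧ |z.2| ≤ ((2 * b₁ : ℕ) : ℤ))
    (hw' : |w'.1| ≤ ((2 * b₂ : ℕ) : ℤ) ∧ |w'.2| ≤ ((2 * b₂ : ℕ) : ℤ))
    (hz' : |z'.1| ≤ ((2 * b₂ : ℕ) : ℤ) ∧ |z'.2| ≤ ((2 * b₂ : ℕ) : ℤ))
    (hwz : det2 w z = 1) (hwz' : det2 w' z' = 1) (he : actz φ w' = w ∨ actz φ w' = -w) :
    ∃ (m : ℤ × ℤ × ℤ × ℤ) (t : ℤ), φ = fam m ((k : ℤ) • w) w' t ∧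
      (dt m = 1 ∨ dt m = -1) ∧ (actz m w' = w ∨ actz m w' = -w) ∧
      (|m.1| ≤ ((4 * b₁ * b₂ * (k + 2) : ℕ) : ℤ) ∧ |m.2.1| ≤ ((4 * b₁ * b₂ * (k + 2) : ℕ) : ℤ)) ∧
      |m.2.2.1| ≤ ((4 * b₁ * b₂ * (k + 2) : ℕ) : ℤ) ∧
        |m.2.2.2| ≤ ((4 * b₁ * b₂ * (k + 2) : ℕ) : ℤ) := by
  obtain ⟨ε, hε, hW⟩ : ∃ ε : ℤ, (ε = 1 ∨ ε = -1) ∧ actz φ w' = ε • w := by
    rcases he with h | h
    · exact ⟨1, Or.inl rfl, by rw [h, one_smul]⟩
    · exact ⟨-1, Or.inr rfl, by rw [h, neg_smul, one_smul]⟩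
  set α := det2 (actz φ z') z with hα
  set β := det2 w (actz φ z') with hβ
  have hZ : actz φ z' = α • w + β • z := by
    have := cramer w z (actz φ z')
    rwa [hwz, one_smul] at this
  have hεβ : ε * β = dt φ := by
    have h1 := det2_act φ w' z'
    rw [hwz', mul_one, hW] at h1
    rw [← h1, hβ]
    simp only [det2, Prod.smul_fst, Prod.smul_snd, smul_eq_mul]
    ring
  have hβ1 : β = 1 ∨ β = -1 := by
    rcases hε with h | h <;> rcases hφ with h' | h' <;> rw [h, h'] at hεβ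
    · left; linarith
    · right; linarith
    · right; linarith
    · left; linarith
  have hk0 : (0 : ℤ) < k := by exact_mod_cast hk
  set α₀ := α % (k : ℤ) with hα₀
  set t := α / (k : ℤ) with ht
  have hαt : α = α₀ + k * t := (Int.emod_add_mul_ediv α k).symm
  have hα0 : 0 ≤ α₀ := Int.emod_nonneg _ hk0.ne'
  have hα1 : α₀ < k := Int.emod_lt_of_pos _ hk0
  have hα2 : |α₀| ≤ (k : ℤ) := by
    rw [abs_of_nonneg hα0]
    exact hα1.le
  have hε1 : |ε| = 1 := by rcases hε with h | h <;> rw [h] <;> norm_num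
  have hβ2 : |β| = 1 := by rcases hβ1 with h | h <;> rw [h] <;> norm_num
  -- coordinates
  have hW1 : φ.1 * w'.1 + φ.2.2.1 * w'.2 = ε * w.1 := by
    have := congrArg Prod.fst hW
    simpa [actz] using this
  have hW2 : φ.2.1 * w'.1 + φ.2.2.2 * w'.2 = ε * w.2 := by
    have := congrArg Prod.snd hW
    simpa [actz] using this
  have hZ1 : φ.1 * z'.1 + φ.2.2.1 * z'.2 = α * w.1 + β * z.1 := by
    have := congrArg Prod.fst hZ
    simpa [actz] using this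
  have hZ2 : φ.2.1 * z'.1 + φ.2.2.2 * z'.2 = α * w.2 + β * z.2 := by
    have := congrArg Prod.snd hZ
    simpa [actz] using this
  have hd : w'.1 * z'.2 - w'.2 * z'.1 = 1 := hwz'
  obtain ⟨m, hm⟩ : ∃ m : ℤ × ℤ × ℤ × ℤ, m =
      (z'.2 * (ε * w.1) + -w'.2 * (α₀ * w.1 + β * z.1),
        z'.2 * (ε * w.2) + -w'.2 * (α₀ * w.2 + β * z.2),
        -z'.1 * (ε * w.1) + w'.1 * (α₀ * w.1 + β * z.1),
        -z'.1 * (ε * w.2) + w'.1 * (α₀ * w.2 + β * z.2)) := ⟨_, rfl⟩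
  have hfam : φ = fam m ((k : ℤ) • w) w' t := by
    have e1 : φ.1 = m.1 - t * (w'.2 * ((k : ℤ) * w.1)) := by
      rw [hm]
      simp only
      linear_combination (-φ.1) * hd + z'.2 * hW1 - w'.2 * hZ1 - w'.2 * w.1 * hαt
    have e2 : φ.2.1 = m.2.1 - t * (w'.2 * ((k : ℤ) * w.2)) := by
      rw [hm]
      simp only
      linear_combination (-φ.2.1) * hd + z'.2 * hW2 - w'.2 * hZ2 - w'.2 * w.2 * hαt
    have e3 : φ.2.2.1 = m.2.2.1 + t * (w'.1 * ((k : ℤ) * w.1)) := by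
      rw [hm]
      simp only
      linear_combination (-φ.2.2.1) * hd - z'.1 * hW1 + w'.1 * hZ1 + w'.1 * w.1 * hαt
    have e4 : φ.2.2.2 = m.2.2.2 + t * (w'.1 * ((k : ℤ) * w.2)) := by
      rw [hm]
      simp only
      linear_combination (-φ.2.2.2) * hd - z'.1 * hW2 + w'.1 * hZ2 + w'.1 * w.2 * hαt
    have : fam m ((k : ℤ) • w) w' t = (m.1 - t * (w'.2 * ((k : ℤ) * w.1)),
        m.2.1 - t * (w'.2 * ((k : ℤ) * w.2)), m.2.2.1 + t * (w'.1 * ((k : ℤ) * w.1)),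
        m.2.2.2 + t * (w'.1 * ((k : ℤ) * w.2))) := rfl
    rw [this, ← e1, ← e2, ← e3, ← e4]
  have hmw : actz m w' = ε • w := by
    rw [hm]
    ext
    · simp only [actz, Prod.smul_fst, smul_eq_mul]
      linear_combination (ε * w.1) * hd
    · simp only [actz, Prod.smul_snd, smul_eq_mul]
      linear_combination (ε * w.2) * hd
  have hmw' : actz m w' = w ∨ actz m w' = -w := by
    rcases hε with h | h
    · left
      rw [hmw, h, one_smul]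
    · right
      rw [hmw, h, neg_smul, one_smul]
  refine ⟨m, t, hfam, ?_, hmw', ?_⟩
  · have h1 := dt_fam hmw' (k : ℤ) t
    rw [← hfam] at h1
    rwa [← h1]
  · rw [hm]
    refine ⟨⟨?_, ?_⟩, ?_, ?_⟩
    · exact FmA_bound hz'.2 (by rw [abs_neg]; exact hw'.2) hw.1 hz.1 hε1 hβ2 hα2
    · exact FmA_bound hz'.2 (by rw [abs_neg]; exact hw'.2) hw.2 hz.2 hε1 hβ2 hα2
    · exact FmA_bound (by rw [abs_neg]; exact hz'.1) hw'.1 hw.1 hz.1 hε1 hβ2 hα2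
    · exact FmA_bound (by rw [abs_neg]; exact hz'.1) hw'.1 hw.2 hz.2 hε1 hβ2 hα2

end Pool.Agent.H28.IP
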