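/-
ROW FmB. Soundness of the periodic obstruction.
PROOFS. fqp_hom: the tables `T` define permutations of `Fin k` for the generators `< P.1` (IsRep), extended by 1 to
the other generators, and a homomorphism `GN P →* Equiv.Perm (Fin k)` killing the relators, under which `cl P w` acts
by `actw T w`: this is in the proof of `fq_sound` (Pool.Agent.H28.IP.RfB; reuse its auxiliary statements, or repeat it).
`r` acts trivially on all states, `w` moves `s`.
famP_sound: let `J = {f | π (ev a b f) = 1}`; it is closed under addition and negation (ev_add, ev_neg in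
Pool.Agent.H28.IP.EvA) and under multiplication by `mo z` (ev_conj: `ev a b (mo (i, j) * f)` is the conjugate of `ev a b f`
by `a ^ i * b ^ j`), hence by every polynomial (lam_ind): an ideal. `mo w - 1 ∈ J`, so `mo (t w) - 1 ∈ J` for all
`t : ℤ` (the class of `mo w` in `Lam ⧸ J` is 1, and `mo (t w)` is its power; for negative `t` multiply by `mo (t w)`).
For each `z`: `act (fam m w w' k) (mo z) - act m (mo z) = mo (actz m z) (mo (t w) - 1)` with `t = k det2 w' z` (act_mo in
Pool.Agent.H28.IP.ChB; actz_fam in FmA; mo_add), in `J`; so `act (fam m w w' k) N - act m N ∈ J` for all `N` (lam_ind), and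
`π (ev a b (act (fam m w w' k) N)) = π (ev a b (act m N)) ≠ 1` (ev_sub/ev_add).
-/
import Pool.Agent.H28.IQ.FmA
import Pool.Agent.H28.IP.RfB
import Pool.Agent.H28.IP.ChB

set_option autoImplicit false

namespace Pool.Agent.H28.IP

theorem fqp_hom {P : Pres} {r w : Word} (h : FQp P r w) :
    ∃ (Q : Type) (_ : Group Q) (π : GN P →* Q), π (cl P r) = 1 ∧ π (cl P w) ≠ 1 := by
  obtain ⟨k, T, ⟨hlen, hst, hrel⟩, hr, s, hs, hws⟩ := h
  have hdef : ∀ i, P.1 ≤ i → ∀ (b : Bool) (s : ℕ), stp T (i, b) s = s := by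
    intro i hi b s
    have h1 : T.getD i ([], []) = ([], []) := List.getD_eq_default _ _ (by omega)
    unfold stp
    show cond b ((T.getD i ([], [])).1.getD s s) ((T.getD i ([], [])).2.getD s s) = s
    rw [h1]
    cases b <;> simp
  let σ : ℕ → Equiv.Perm (Fin k) := fun i =>
    if hi : i < P.1 then
      { toFun := fun s => ⟨stp T (i, true) s, (hst i hi s s.2).1⟩
        invFun := fun s => ⟨stp T (i, false) s, (hst i hi s s.2).2.1⟩
        left_inv := fun s => Fin.ext (hst i hi s s.2).2.2.1
        right_inv := fun s => Fin.ext (hst i hi s s.2).2.2.2 }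
    else 1
  have hσt : ∀ (i : ℕ) (s : Fin k), ((σ i) s : ℕ) = stp T (i, true) s := by
    intro i s
    by_cases hi : i < P.1
    · simp only [σ, dif_pos hi]; rfl
    · simp only [σ, dif_neg hi]
      rw [hdef i (by omega)]; rfl
  have hσf : ∀ (i : ℕ) (s : Fin k), ((σ i)⁻¹ s : ℕ) = stp T (i, false) s := by
    intro i s
    by_cases hi : i < P.1
    · simp only [σ, dif_pos hi]; rfl
    · simp only [σ, dif_neg hi]
      rw [hdef i (by omega)]; rfl
  have hact : ∀ (w : Word) (s : Fin k),
      ((FreeGroup.lift σ (FreeGroup.mk w)) s : ℕ) = actw T w s := by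
    intro w
    induction w with
    | nil => intro s; simp [actw, FreeGroup.lift_mk]
    | cons l w ih =>
      intro s
      have h1 : FreeGroup.lift σ (FreeGroup.mk (l :: w))
          = cond l.2 (σ l.1) (σ l.1)⁻¹ * FreeGroup.lift σ (FreeGroup.mk w) := by
        simp [FreeGroup.lift_mk]
      rw [h1, Equiv.Perm.mul_apply]
      have h2 : actw T (l :: w) s = stp T l (actw T w s) := rfl
      rw [h2, ← ih s]
      obtain ⟨i, b⟩ := l
      cases b
      · exact hσf i _
      · exact hσt i _
  have hker : ∀ r ∈ relN P, FreeGroup.lift σ r = 1 := by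
    rintro r (⟨u, hu, rfl⟩ | ⟨i, hi, rfl⟩)
    · ext s
      rw [hact, hrel u hu s s.2]; rfl
    · rw [FreeGroup.lift_apply_of]
      simp only [σ, dif_neg (show ¬ i < P.1 by omega)]
  have hcl : ∀ u : Word, PresentedGroup.toGroup hker (cl P u) = FreeGroup.lift σ (FreeGroup.mk u) :=
    fun u => rfl
  refine ⟨Equiv.Perm (Fin k), inferInstance, PresentedGroup.toGroup hker, ?_, ?_⟩
  · rw [hcl]
    ext s
    rw [hact, hr s s.2]; rfl
  · rw [hcl]
    intro h3
    apply hws
    have h4 := hact w ⟨s, hs⟩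
    rw [h3] at h4
    exact h4.symm

theorem FmB_mul {G Q : Type} [Group G] [Metab G] [Group Q] (π : G →* Q) {a b : G} {f : Lam}
    (hf : π (ev a b f) = 1) (g : Lam) : π (ev a b (g * f)) = 1 := by
  induction g using lam_ind with
  | h0 => rw [zero_mul, ev_zero, map_one]
  | hadd g h hg hh => rw [add_mul, ev_add, map_mul, hg, hh, mul_one]
  | hneg g hg => rw [neg_mul, ev_neg, map_inv, hg, inv_one]
  | hmo z =>
    obtain ⟨i, j⟩ := z
    rw [← ev_conj, map_mul, map_mul, hf, mul_one, ← map_mul, mul_inv_cancel, map_one]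

theorem FmB_pow {G Q : Type} [Group G] [Metab G] [Group Q] (π : G →* Q) {a b : G} {w : ℤ × ℤ}
    (h1 : π (ev a b (mo w - 1)) = 1) (t : ℤ) : π (ev a b (mo (t • w) - 1)) = 1 := by
  have hnat : ∀ n : ℕ, π (ev a b (mo ((n : ℤ) • w) - 1)) = 1 := by
    intro n
    induction n with
    | zero => rw [Nat.cast_zero, zero_smul, mo_zero, sub_self, ev_zero, map_one]
    | succ n ih =>
      have e : mo (((n + 1 : ℕ) : ℤ) • w) - 1 =
          mo ((n : ℤ) • w) * (mo w - 1) + (mo ((n : ℤ) • w) - 1) := by
        rw [Nat.cast_succ, add_smul, one_smul, mo_add]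
        ring
      rw [e, ev_add, map_mul, ih, FmB_mul π h1, mul_one]
  rcases Int.eq_nat_or_neg t with ⟨n, rfl | rfl⟩
  · exact hnat n
  · have e : mo (-(n : ℤ) • w) - 1 = (-mo (-(n : ℤ) • w)) * (mo ((n : ℤ) • w) - 1) := by
      have e2 : mo (-(n : ℤ) • w) * mo ((n : ℤ) • w) = 1 := by
        rw [← mo_add, ← add_smul, neg_add_cancel, zero_smul, mo_zero]
      linear_combination e2
    rw [e]
    exact FmB_mul π (hnat n) _

theorem famP_sound {G Q : Type} [Group G] [Metab G] [Group Q] (π : G →* Q) {a b : G}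
    {w w' : ℤ × ℤ} {m : ℤ × ℤ × ℤ × ℤ} {N : Lam} (h1 : π (ev a b (mo w - 1)) = 1)
    (h2 : π (ev a b (act m N)) ≠ 1) (k : ℤ) : π (ev a b (act (fam m w w' k) N)) ≠ 1 := by
  have key : ∀ f : Lam, π (ev a b (act (fam m w w' k) f - act m f)) = 1 := by
    intro f
    induction f using lam_ind with
    | h0 => rw [map_zero, map_zero, sub_zero, ev_zero, map_one]
    | hadd f g hf hg =>
      rw [map_add, map_add, add_sub_add_comm, ev_add, map_mul, hf, hg, mul_one]
    | hneg f hf =>
      rw [map_neg, map_neg, neg_sub_neg, ← neg_sub, ev_neg, map_inv, hf, inv_one]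
    | hmo z =>
      have e : act (fam m w w' k) (mo z) - act m (mo z) =
          mo (actz m z) * (mo ((k * det2 w' z) • w) - 1) := by
        rw [act_mo, act_mo, actz_fam, mo_add, mul_sub, mul_one]
      rw [e]
      exact FmB_mul π (FmB_pow π h1 _) _
  intro h3
  apply h2
  have h4 := key N
  rw [ev_sub, map_mul, h3, one_mul, map_inv, inv_eq_one] at h4
  exact h4

end Pool.Agent.H28.IP
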