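/-
ROW FmC. Completeness of the tables with a relation.
PROOF. As `fq_complete` (Pool.Agent.H28.IP.RfC; reuse its proof): `G = GN P` acts on the finite set `Q` by
left multiplication through `π`; number `Q` by `Fin k`, `T_i = (table of π (cl P [(i, true)]), table of the inverse)` for
`i < P.1`. Every word `w` acts on `{0, …, k - 1}` as `π (cl P w)`. `w` moves the number of `1 ∈ Q`; `r` acts trivially on
all states because `π (cl P r) = 1`.
-/
import Pool.Agent.H28.IQ.Defs
import Pool.Agent.H28.IP.RfC

set_option autoImplicit false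

namespace Pool.Agent.H28.IP

theorem fqp_complete {P : Pres} {Q : Type} [Group Q] [Finite Q] (π : GN P →* Q) {r w : Word}
    (h1 : π (cl P r) = 1) (h2 : π (cl P w) ≠ 1) : FQp P r w := by
  classical
  obtain ⟨k, ⟨e⟩⟩ := Finite.exists_equiv_fin Q
  set q : ℕ → Q := fun i => π (cl P [(i, true)]) with hq
  set f : Q → List ℕ := fun x => List.ofFn fun s : Fin k => (e (x * e.symm s) : ℕ) with hf
  set T : List (List ℕ × List ℕ) :=
    (List.range P.1).map (fun i => (f (q i), f (q i)⁻¹)) with hT
  have hfx : ∀ (x : Q) (s : Fin k), (f x).getD (s : ℕ) (s : ℕ) = (e (x * e.symm s) : ℕ) := by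
    intro x s
    rw [hf]
    simp [List.getD_eq_getElem?_getD]
  have hq1 : ∀ i, P.1 ≤ i → q i = 1 := by
    intro i hi
    have h1 : cl P [(i, true)] = 1 := by
      unfold cl
      exact RfC_one (Or.inr ⟨i, hi, rfl⟩)
    rw [hq]
    show π (cl P [(i, true)]) = 1
    rw [h1, map_one]
  have hTlen : T.length = P.1 := by rw [hT]; simp
  have hstp : ∀ (l : ℕ × Bool) (s : Fin k), stp T l (s : ℕ) = (e (π (cl P [l]) * e.symm s) : ℕ) := by
    rintro ⟨i, b⟩ s
    have hb : π (cl P [(i, b)]) = cond b (q i) (q i)⁻¹ := by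
      cases b
      · rw [RfC_false, map_inv]; rfl
      · rfl
    rw [hb]
    unfold stp
    by_cases hi : i < P.1
    · have h1 : T.getD i ([], []) = (f (q i), f (q i)⁻¹) := by
        rw [List.getD_eq_getElem?_getD, hT, List.getElem?_map, List.getElem?_range hi]
        rfl
      simp only [h1]
      cases b
      · simp only [cond_false]
        exact hfx _ s
      · simp only [cond_true]
        exact hfx _ s
    · have h1 : T.getD i ([], []) = ([], []) := by
        rw [List.getD_eq_getElem?_getD, List.getElem?_eq_none (by omega)]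
        rfl
      simp only [h1]
      rw [hq1 i (by omega)]
      cases b <;> simp
  have hact : ∀ (w : Word) (s : Fin k), actw T w (s : ℕ) = (e (π (cl P w) * e.symm s) : ℕ) := by
    intro w s
    induction w with
    | nil =>
      have h1 : cl P [] = 1 := by
        unfold cl
        exact map_one _
      rw [h1, map_one, one_mul, Equiv.apply_symm_apply]
      rfl
    | cons l w ih =>
      have h1 : actw T (l :: w) (s : ℕ) = stp T l (actw T w s) := rfl
      rw [h1, ih, hstp, RfC_cons P l w, map_mul π, Equiv.symm_apply_apply, mul_assoc]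
  refine ⟨k, T, ⟨hTlen, ?_, ?_⟩, ?_, ?_⟩
  · intro i hi s hs
    have h1 := hstp (i, true) ⟨s, hs⟩
    have h2 := hstp (i, false) ⟨s, hs⟩
    simp only at h1 h2
    refine ⟨by rw [h1]; exact (e _).2, by rw [h2]; exact (e _).2, ?_, ?_⟩
    · rw [h1, hstp, RfC_false, map_inv, Equiv.symm_apply_apply, inv_mul_cancel_left,
        Equiv.apply_symm_apply]
    · rw [h2, hstp, RfC_false, map_inv, Equiv.symm_apply_apply, mul_inv_cancel_left,
        Equiv.apply_symm_apply]
  · intro r hr s hs
    have h1 := hact r ⟨s, hs⟩
    have h2 : cl P r = 1 := by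
      unfold cl
      exact RfC_one (Or.inl ⟨r, hr, rfl⟩)
    rw [h2, map_one, one_mul, Equiv.apply_symm_apply] at h1
    exact h1
  · intro s hs
    have h3 := hact r ⟨s, hs⟩
    rw [h1, one_mul, Equiv.apply_symm_apply] at h3
    exact h3
  · refine ⟨(e 1 : ℕ), (e 1).2, ?_⟩
    rw [hact, Equiv.symm_apply_apply, mul_one]
    intro h4
    exact h2 (e.injective (Fin.ext h4))


end Pool.Agent.H28.IP
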