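/-
ROW FmD. A finite quotient which detects the torsion, with uniform period.
PROOF. `I = Ann a b`, `R = Lam ⧸ I`. The set of torsion elements of `R` is finite (tors_fin in Pool.Agent.H28.IP.FbC with
fin_nat in Pool.Agent.H28.IP.ExP). For each torsion element `t ≠ 0` of `R`, `t = f mod I`, `f ∉ I`, there is by lam_rf
(Pool.Agent.H28.IP.RfD) an ideal `J_t ≥ I` with `f ∉ J_t` and `Lam ⧸ J_t` finite. Let `F` be the intersection of these
finitely many ideals (and of one `J ≥ I` with finite quotient, e.g. `I ⊔ span {2}` so that `F` has finite index if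
there is no `t`): `Lam ⧸ F` is finite (it embeds in the finite product of the `Lam ⧸ J_t`), `I ≤ F`, and every torsion
`f ∉ I` (i.e. `n f ∈ I`, `n ≠ 0`) is not in `F` (`F ≤ J_t`; `f - f' ∈ I ≤ J_t` for the representative `f'`). Let `q` be the order
of the finite group `(Lam ⧸ F)ˣ`: `mo (q w) ≡ (mo w) ^ q ≡ 1 mod F` for all `w` (the class of `mo w` is a unit, with
inverse that of `mo (-w)`).
Let `κ : GJ (Ann a b) →* GJ F` (gjMap_exists in Pool.Agent.H28.IP.GmB) and `ψ : GJ (Ann a b) ≃* G` (psi_iso in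
Pool.Agent.H28.IP.Psi, `ψ al = a`, `ψ be = b`), `κ' = κ ∘ ψ⁻¹ : G →* GJ F`, `κ' a = al`, `κ' b = be` (components of `κ`). So
`κ' (ev a b f) = ev al be f = ⟨0, 0, f mod F⟩` (ev_map in EvA, gam_ev in GmA, evr_mk in GmB). For a torsion `f ∉ I` it
is `≠ 1`; by gam_fin (Pool.Agent.H28.IP.RfE; `Lam ⧸ F` finite) there are a finite group `Q` and `π' : GJ F →* Q` with
`π' (κ' (ev a b f)) ≠ 1`; `π = π' ∘ κ'`. And `κ' (ev a b (mo (q w) - 1)) = ⟨0, 0, 0⟩ = 1`.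
-/
import Pool.Agent.H28.IQ.Defs
import Pool.Agent.H28.IP.FbC
import Pool.Agent.H28.IP.ExP
import Pool.Agent.H28.IP.RfD
import Pool.Agent.H28.IP.RfE
import Pool.Agent.H28.IP.Psi
import Pool.Agent.H28.IP.GmB

set_option autoImplicit false

namespace Pool.Agent.H28.IP

theorem FmD_inf {F J : Ideal Lam} (hF : Finite (Lam ⧸ F)) (hJ : Finite (Lam ⧸ J)) : Finite (Lam ⧸ (F ⊓ J)) := by
  refine Finite.of_injective (fun x : Lam ⧸ (F ⊓ J) =>
    ((Ideal.Quotient.factor (inf_le_left : F ⊓ J ≤ F) x, Ideal.Quotient.factor (inf_le_right : F ⊓ J ≤ J) x) :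
      (Lam ⧸ F) × (Lam ⧸ J))) ?_
  intro x z hxz
  obtain ⟨f, rfl⟩ := Ideal.Quotient.mk_surjective x
  obtain ⟨g, rfl⟩ := Ideal.Quotient.mk_surjective z
  have h1 := congrArg Prod.fst hxz
  have h2 := congrArg Prod.snd hxz
  simp only [Ideal.Quotient.factor_mk] at h1 h2
  rw [Ideal.Quotient.eq] at h1 h2 ⊢
  exact ⟨h1, h2⟩

theorem FmD_ideal {I : Ideal Lam} (h2 : Finite (Lam ⧸ (I ⊔ Ideal.span {((2 : ℕ) : Lam)})))
    (s : Finset (Lam ⧸ I)) : ∃ F : Ideal Lam, I ≤ F ∧ Finite (Lam ⧸ F) ∧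
      ∀ t ∈ s, t ≠ 0 → ∀ f : Lam, Ideal.Quotient.mk I f = t → f ∉ F := by
  classical
  induction s using Finset.induction_on with
  | empty => exact ⟨_, le_sup_left, h2, fun t ht => absurd ht (Finset.notMem_empty t)⟩
  | insert t s hts ih =>
    obtain ⟨F, hIF, hFf, hF⟩ := ih
    by_cases ht : t = 0
    · refine ⟨F, hIF, hFf, fun u hu hu0 => ?_⟩
      rcases Finset.mem_insert.mp hu with h | h
      · exact absurd (h.trans ht) hu0
      · exact hF u h hu0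
    · obtain ⟨f0, hf0⟩ := Ideal.Quotient.mk_surjective t
      have hf0I : f0 ∉ I := by
        intro h
        apply ht
        rw [← hf0]
        exact Ideal.Quotient.eq_zero_iff_mem.mpr h
      obtain ⟨J, hIJ, hfJ, hJf⟩ := lam_rf I hf0I
      refine ⟨F ⊓ J, le_inf hIF hIJ, FmD_inf hFf hJf, fun u hu hu0 f hf hfF => ?_⟩
      rcases Finset.mem_insert.mp hu with h | h
      · apply hfJ
        rw [h, ← hf0, Ideal.Quotient.eq] at hf
        have h3 := J.sub_mem hfF.2 (hIJ hf)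
        have e : f - (f - f0) = f0 := by ring
        rwa [e] at h3
      · exact hF u h hu0 f hf hfF.1

theorem FmD_per {F : Ideal Lam} (hF : Finite (Lam ⧸ F)) :
    ∃ q : ℕ, 1 ≤ q ∧ ∀ w : ℤ × ℤ, mo ((q : ℤ) • w) - 1 ∈ F := by
  refine ⟨Nat.card (Lam ⧸ F)ˣ, Nat.card_pos, fun w => ?_⟩
  have hmul : ∀ z : ℤ × ℤ, mo z * mo (-z) = 1 := by
    intro z
    rw [mo, mo, AddMonoidAlgebra.single_mul_single, add_neg_cancel, one_mul]
    rfl
  set u : (Lam ⧸ F)ˣ := ⟨Ideal.Quotient.mk F (mo w), Ideal.Quotient.mk F (mo (-w)),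
    by rw [← map_mul, hmul, map_one],
    by rw [← map_mul, mul_comm, hmul, map_one]⟩ with hu
  have h1 : u ^ Nat.card (Lam ⧸ F)ˣ = 1 := pow_card_eq_one'
  have h2 := congrArg (fun t : (Lam ⧸ F)ˣ => (t : Lam ⧸ F)) h1
  simp only [Units.val_pow_eq_pow_val, Units.val_one] at h2
  have h3 : (u : Lam ⧸ F) = Ideal.Quotient.mk F (mo w) := rfl
  rw [h3, ← map_pow] at h2
  have h4 : mo w ^ Nat.card (Lam ⧸ F)ˣ = mo (((Nat.card (Lam ⧸ F)ˣ : ℕ) : ℤ) • w) := by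
    rw [mo, mo, AddMonoidAlgebra.single_pow, one_pow, natCast_zsmul]
  rw [h4] at h2
  rw [← Ideal.Quotient.eq_zero_iff_mem, map_sub, h2, map_one, sub_self]

theorem per_quot {G : Type} [Group G] [Metab G] {a b : G} (hg : Gen2 a b) (hf : AbFree a b)
    (hfin : ∀ p : ℕ, p.Prime → Finite (Lam ⧸ (Ann a b ⊔ Ideal.span {(p : Lam)}))) :
    ∃ q : ℕ, 1 ≤ q ∧ ∀ f : Lam, (∃ n : ℕ, n ≠ 0 ∧ (n : Lam) * f ∈ Ann a b) → f ∉ Ann a b →
      ∃ (Q : Type) (_ : Group Q) (_ : Finite Q) (π : G →* Q), π (ev a b f) ≠ 1 ∧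
        ∀ w : ℤ × ℤ, π (ev a b (mo ((q : ℤ) • w) - 1)) = 1 := by
  have hN : ∀ n : ℕ, n ≠ 0 → Finite (Lam ⧸ (Ann a b ⊔ Ideal.span {(n : Lam)})) := fun n hn => fin_nat hfin hn
  have hT := tors_fin hN
  obtain ⟨F, hIF, hFf, hF⟩ := FmD_ideal (hN 2 two_ne_zero) hT.toFinset
  obtain ⟨q, hq1, hq⟩ := FmD_per hFf
  obtain ⟨κ, hκ⟩ := gjMap_exists hIF
  obtain ⟨ψ, hψa, hψb⟩ := psi_iso hg hf
  have ka : κ (ψ.symm a) = al := by
    have e : ψ.symm a = al := (MulEquiv.symm_apply_eq ψ).mpr hψa.symm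
    rw [e]
    obtain ⟨h1, h2, h3⟩ := hκ al
    refine Gam.ext h1 h2 ?_
    rw [h3]
    exact map_zero _
  have kb : κ (ψ.symm b) = be := by
    have e : ψ.symm b = be := (MulEquiv.symm_apply_eq ψ).mpr hψb.symm
    rw [e]
    obtain ⟨h1, h2, h3⟩ := hκ be
    refine Gam.ext h1 h2 ?_
    rw [h3]
    exact map_zero _
  have kev : ∀ f : Lam, (κ.comp ψ.symm.toMonoidHom) (ev a b f) = ⟨0, 0, Ideal.Quotient.mk F f⟩ := by
    intro f
    rw [ev_map]
    have e1 : (κ.comp ψ.symm.toMonoidHom) a = al := ka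
    have e2 : (κ.comp ψ.symm.toMonoidHom) b = be := kb
    rw [e1, e2, gam_ev, evr_mk]
  refine ⟨q, hq1, fun f hft hfI => ?_⟩
  obtain ⟨n, hn, hnf⟩ := hft
  have hf0 : Ideal.Quotient.mk (Ann a b) f ≠ 0 := fun h => hfI (Ideal.Quotient.eq_zero_iff_mem.mp h)
  have hfT : Ideal.Quotient.mk (Ann a b) f ∈ hT.toFinset := by
    rw [Set.Finite.mem_toFinset]
    refine ⟨(n : ℤ), by exact_mod_cast hn, ?_⟩
    rw [natCast_zsmul, nsmul_eq_mul, ← map_natCast (Ideal.Quotient.mk (Ann a b)), ← map_mul]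
    exact Ideal.Quotient.eq_zero_iff_mem.mpr hnf
  have hfF : f ∉ F := hF _ hfT hf0 f rfl
  have hne : (κ.comp ψ.symm.toMonoidHom) (ev a b f) ≠ 1 := by
    rw [kev]
    intro h
    apply hfF
    have h3 := congrArg Gam.r h
    exact Ideal.Quotient.eq_zero_iff_mem.mp h3
  obtain ⟨Q, iQ, fQ, π, hπ⟩ := gam_fin (R := Lam ⧸ F) hne
  refine ⟨Q, iQ, fQ, π.comp (κ.comp ψ.symm.toMonoidHom), hπ, fun w => ?_⟩
  rw [MonoidHom.comp_apply, kev]
  have e : Ideal.Quotient.mk F (mo ((q : ℤ) • w) - 1) = 0 := Ideal.Quotient.eq_zero_iff_mem.mpr (hq w)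
  rw [e]
  exact map_one π

end Pool.Agent.H28.IP
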