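/-
ROW FmE. Polynomial sequences on ℤ.
PROOFS. `fwdDiff 1 g k = g (k + 1) - g k` (Mathlib/Algebra/Group/ForwardDiff.lean).
dl_zero: induction on `d`. `d = 0`: `g = 0`. Step: `g' = fwdDiff 1 g` satisfies the hypothesis for `d` (`Function.iterate_succ`;
`g' k = g (k + 1) - g k = 0` for `k < d`), so `g' = 0` and `g (k + 1) = g k` for all integers `k`; `g 0 = 0`; so `g = 0` (Int.induction_on).
dl_poly: Newton's formula: let `c_i = (fwdDiff 1)^[i] g 0`, `i < d`, and `P = ∑_{i<d} c_i binom(T, i)` with
`binom(T, i) = T (T - 1) ⋯ (T - i + 1) / i!` a polynomial over ℚ of degree `i`; `g - P` satisfies the hypothesis of dl_zero (the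
`d`-th difference of a polynomial of degree `< d` is 0: `Polynomial.fwdDiff_iter_eq_zero_of_degree_lt` or dl_pv; the values at
`k < d`, k natural, agree: `shift_eq_sum_fwdDiff_iter` / `fwdDiff_iter_eq_sum_shift`). Alternative: interpolate `g` at
`0, …, d - 1` by a polynomial of degree `< d` (`Lagrange.interpolate`), then dl_zero for the difference. Multiply by a common
denominator `E ≥ 1` of the coefficients: `E g(k) = ∑_{i<d} F_i k ^ i` with integers `F_i`; `F = [F_0, …, F_{d-1}]` as pairs
`(F_i.toNat, (-F_i).toNat)`; `pv` is Horner's scheme: `pv (F.map vz) k = ∑ F_i k ^ i`.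
dl_pv: `pv F` is a polynomial of degree `< d` in `k`: induction on `F`, or Polynomial.fwdDiff_iter_eq_zero_of_degree_lt.
pv_root: `k = 0` is clear. Write `F = 0 :: … :: 0 :: c :: F'` with `c ≠ 0` the first nonzero coefficient, preceded by `i`
zeros: `pv F k = k ^ i (c + k pv F' k)`. So `c = - k pv F' k`, `k ∣ c`, `|k| ≤ |c| ≤ sum` (induction on `F`).
pv_vz: `vz (pvN F k) = pv (F.map vz) (vz k)` by induction (vz_addp, vz_mulp). mxF_ge: `|vz c| ≤ c.1 + c.2`.
-/
import Pool.Agent.H28.IQ.Defs
import Pool.Agent.H28.IP.WlA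

set_option autoImplicit false

namespace Pool.Agent.H28.IP

theorem dl_zero {A : Type} [AddCommGroup A] {d : ℕ} {g : ℤ → A}
    (h : (fwdDiff (1 : ℤ))^[d] g = 0) (h0 : ∀ k : ℕ, k < d → g k = 0) : g = 0 := by
  induction d generalizing g with
  | zero => exact h
  | succ d ih =>
    rw [Function.iterate_succ_apply] at h
    have h1 : fwdDiff (1 : ℤ) g = 0 := by
      refine ih h fun k hk => ?_
      have h2 := h0 (k + 1) (by omega)
      have h3 := h0 k (by omega)
      push_cast at h2
      rw [fwdDiff, h2, h3, sub_zero]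
    have h2 : ∀ k : ℤ, g (k + 1) = g k := by
      intro k
      have h3 := congrFun h1 k
      rw [fwdDiff, Pi.zero_apply] at h3
      exact sub_eq_zero.1 h3
    have h00 : g 0 = 0 := by
      have h3 := h0 0 (Nat.succ_pos d)
      rwa [Nat.cast_zero] at h3
    funext k
    rw [Pi.zero_apply]
    induction k using Int.induction_on with
    | zero => exact h00
    | succ n hn => rw [h2]; exact hn
    | pred n hn =>
      have h3 := h2 (-(n : ℤ) - 1)
      rw [sub_add_cancel] at h3
      rw [← h3]
      exact hn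

/-- the value as a sum -/
private theorem FmE_sum (F : List ℤ) (k : ℤ) : ∀ d : ℕ, F.length ≤ d →
    pv F k = ∑ i ∈ Finset.range d, F.getD i 0 * k ^ i := by
  induction F with
  | nil =>
    intro d _
    symm
    refine Finset.sum_eq_zero fun i _ => ?_
    simp
  | cons c F ih =>
    intro d hd
    rw [List.length_cons] at hd
    obtain ⟨e, rfl⟩ : ∃ e, d = e + 1 := ⟨d - 1, by omega⟩
    have h1 : pv (c :: F) k = c + k * pv F k := rfl
    rw [h1, ih e (by omega), Finset.sum_range_succ', Finset.mul_sum, add_comm]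
    congr 1
    · refine Finset.sum_congr rfl fun i _ => ?_
      rw [List.getD_cons_succ]
      ring
    · simp

private theorem FmE_cast (f : ℤ → ℤ) (n : ℕ) :
    (fwdDiff (1 : ℤ))^[n] (fun k : ℤ => (f k : ℚ)) =
      fun k : ℤ => (((fwdDiff (1 : ℤ))^[n] f k : ℤ) : ℚ) := by
  induction n generalizing f with
  | zero => rfl
  | succ n ih =>
    rw [Function.iterate_succ_apply, Function.iterate_succ_apply, ← ih]
    congr 1
    funext k
    simp only [fwdDiff]
    push_cast
    ring

theorem dl_pv {F : List ℤ} {d : ℕ} (h : F.length ≤ d) :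
    (fwdDiff (1 : ℤ))^[d] (fun k : ℤ => (pv F k : ℚ)) = 0 := by
  rw [FmE_cast]
  have h1 : (pv F : ℤ → ℤ) = fun k : ℤ => ∑ i ∈ Finset.range d, F.getD i 0 * k ^ i := by
    funext k
    exact FmE_sum F k d h
  rw [h1, fwdDiff_iter_sum_mul_pow_eq_zero]
  funext k
  simp

/-- a common denominator -/
private theorem FmE_den (a : ℕ → ℚ) (d : ℕ) :
    ∃ (E : ℕ) (z : ℕ → ℤ), E ≠ 0 ∧ ∀ i < d, (z i : ℚ) = (E : ℚ) * a i := by
  induction d with
  | zero => exact ⟨1, fun _ => 0, one_ne_zero, fun i hi => absurd hi (Nat.not_lt_zero i)⟩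
  | succ d ih =>
    obtain ⟨E, z, hE, hz⟩ := ih
    refine ⟨E * (a d).den, fun i => if i = d then E * (a d).num else z i * (a d).den,
      Nat.mul_ne_zero hE (a d).den_nz, fun i hi => ?_⟩
    have hden : ((a d).den : ℚ) ≠ 0 := by exact_mod_cast (a d).den_nz
    by_cases h : i = d
    · subst h
      simp only [if_true]
      push_cast
      rw [mul_assoc, Rat.den_mul_eq_num]
    · simp only [h, if_false]
      push_cast
      rw [hz i (by omega)]
      ring

theorem dl_poly {d : ℕ} {g : ℤ → ℚ} (h : (fwdDiff (1 : ℤ))^[d] g = 0) :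
    ∃ (E : ℕ) (F : List (ℕ × ℕ)), E ≠ 0 ∧ F.length ≤ d ∧
      ∀ k : ℤ, (E : ℚ) * g k = (pv (F.map vz) k : ℚ) := by
  classical
  have hinj : Set.InjOn (fun k : ℕ => (k : ℚ)) (Finset.range d : Set ℕ) :=
    fun a _ b _ hab => Nat.cast_injective hab
  obtain ⟨P, hPd, hPe⟩ : ∃ P : Polynomial ℚ, P.degree < (d : WithBot ℕ) ∧
      ∀ k : ℕ, k < d → P.eval (k : ℚ) = g k := by
    refine ⟨Lagrange.interpolate (Finset.range d) (fun k : ℕ => (k : ℚ)) (fun k : ℕ => g k), ?_,
      fun k hk => ?_⟩
    · have h1 := Lagrange.degree_interpolate_lt (fun k : ℕ => g k) hinj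
      rwa [Finset.card_range] at h1
    · exact Lagrange.eval_interpolate_at_node (fun k : ℕ => g k) hinj (Finset.mem_range.2 hk)
  have hPs : ∀ x : ℚ, P.eval x = ∑ i ∈ Finset.range d, P.coeff i * x ^ i := by
    intro x
    rw [Polynomial.eval_eq_sum, Polynomial.sum_def]
    have hsub : P.support ⊆ Finset.range d := by
      intro i hi
      rw [Finset.mem_range]
      by_contra hcon
      push Not at hcon
      exact (Polynomial.mem_support_iff.1 hi)
        (Polynomial.coeff_eq_zero_of_degree_lt (lt_of_lt_of_le hPd (by exact_mod_cast hcon)))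
    refine Finset.sum_subset hsub fun i _ hi => ?_
    rw [Polynomial.notMem_support_iff.1 hi, zero_mul]
  obtain ⟨E, z, hE, hz⟩ := FmE_den (fun i => P.coeff i) d
  refine ⟨E, (List.range d).map fun i => ((z i).toNat, (-(z i)).toNat), hE, by simp, ?_⟩
  have hF : ((List.range d).map fun i => ((z i).toNat, (-(z i)).toNat)).map vz =
      (List.range d).map z := by
    rw [List.map_map]
    refine List.map_congr_left fun i _ => ?_
    simp only [Function.comp, vz]
    omega
  rw [hF]
  have hlen : ((List.range d).map z).length ≤ d := by simp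
  have hval : ∀ k : ℤ, (pv ((List.range d).map z) k : ℚ) = (E : ℚ) * P.eval (k : ℚ) := by
    intro k
    rw [FmE_sum _ k d hlen, hPs, Finset.mul_sum]
    push_cast
    refine Finset.sum_congr rfl fun i hi => ?_
    have hi' : i < d := Finset.mem_range.1 hi
    have h1 : ((List.range d).map z).getD i 0 = z i := by
      rw [List.getD_eq_getElem _ _ (by simpa using hi')]
      simp
    rw [h1, hz i hi']
    ring
  have hz0 : (fun k : ℤ => (E : ℚ) * g k - (pv ((List.range d).map z) k : ℚ)) = 0 := by
    refine dl_zero (d := d) ?_ fun k hk => ?_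
    · have h1 : (fun k : ℤ => (E : ℚ) * g k - (pv ((List.range d).map z) k : ℚ)) =
          (E : ℚ) • g + (-1 : ℚ) • fun k : ℤ => (pv ((List.range d).map z) k : ℚ) := by
        funext k
        simp only [Pi.add_apply, Pi.smul_apply, smul_eq_mul]
        ring
      rw [h1, fwdDiff_iter_add, fwdDiff_iter_const_smul, fwdDiff_iter_const_smul, h, dl_pv hlen,
        smul_zero, smul_zero, add_zero]
    · rw [hval, Int.cast_natCast, hPe k hk, sub_self]
  intro k
  have h1 := congrFun hz0 k
  simp only [Pi.zero_apply] at h1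
  linarith

theorem pv_root {F : List ℤ} (hF : ∃ c ∈ F, c ≠ 0) {k : ℤ} (h : pv F k = 0) :
    k.natAbs ≤ (F.map Int.natAbs).sum := by
  induction F with
  | nil =>
    obtain ⟨c, hc, _⟩ := hF
    exact absurd hc (by simp)
  | cons c F ih =>
    have h1 : pv (c :: F) k = c + k * pv F k := rfl
    rw [h1] at h
    rw [List.map_cons, List.sum_cons]
    by_cases hc : c = 0
    · subst hc
      rw [zero_add] at h
      rcases mul_eq_zero.1 h with h2 | h2
      · subst h2; simp
      · obtain ⟨b, hb, hb0⟩ := hF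
        rcases List.mem_cons.1 hb with h3 | h3
        · exact absurd h3 hb0
        · have h4 := ih ⟨b, h3, hb0⟩ h2
          omega
    · have hdvd : k ∣ c := ⟨-pv F k, by linarith⟩
      have h2 := Nat.le_of_dvd (Int.natAbs_pos.2 hc) (Int.natAbs_dvd_natAbs.2 hdvd)
      omega

theorem pv_vz (F : List (ℕ × ℕ)) (k : ℕ × ℕ) : vz (pvN F k) = pv (F.map vz) (vz k) := by
  induction F with
  | nil => rfl
  | cons c F ih =>
    have h1 : pvN (c :: F) k = addp c (mulp k (pvN F k)) := rfl
    have h2 : pv ((c :: F).map vz) (vz k) = vz c + vz k * pv (F.map vz) (vz k) := rfl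
    rw [h1, h2, vz_addp, vz_mulp, ih]

theorem mxF_ge (F : List (ℕ × ℕ)) : ((F.map vz).map Int.natAbs).sum ≤ mxF F := by
  induction F with
  | nil => exact le_refl _
  | cons c F ih =>
    have h1 : mxF (c :: F) = c.1 + c.2 + mxF F := rfl
    rw [h1, List.map_cons, List.map_cons, List.sum_cons]
    have h2 : (vz c).natAbs ≤ c.1 + c.2 := by
      unfold vz
      omega
    omega

end Pool.Agent.H28.IP
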