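/-
ROW FmF. Values along a family are polynomial in the parameter.
PROOF. Both sides are additive in `f` (fwdDiff_iter_add; `act`, `evm` are ring homomorphisms), so by lam_ind
(Pool.Agent.H28.IP.EvA) we may take `f = mo z` (the case `-f`: fwdDiff of the negative). By act_mo (ChB) and actz_fam
(FmA) `act (fam m w w' k) (mo z) = mo (actz m z + (k s) w)`, `s = det2 w' z`, so the value is `C U ^ (k s)` with the units
`C = X ^ (actz m z).1 Y ^ (actz m z).2`, `U = X ^ w.1 Y ^ w.2` (evm_mo; `X`, `Y` commute). Claim by induction on `d`: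
`(fwdDiff 1)^[d] (k ↦ C U ^ (k s)) = (k ↦ C (U ^ s - 1) ^ d U ^ (k s))`, since
`A U ^ ((k + 1) s) - A U ^ (k s) = A (U ^ s - 1) U ^ (k s)` for every `A`. Finally `(U ^ s - 1) ^ d = 0`: `U ^ s - 1 = (U - 1) T` with
`T` commuting with `U` (`s ≥ 0`: geometric sum; `s < 0`: `U ^ s - 1 = - U ^ s (U ^ (-s) - 1)`), Commute.mul_pow, hU.
-/
import Pool.Agent.H28.IQ.FmA
import Pool.Agent.H28.IQ.MxB
import Pool.Agent.H28.IP.ChB

set_option autoImplicit false

namespace Pool.Agent.H28.IP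

theorem FmF_comm {R : Type} [Ring R] (U : Rˣ) (j : ℤ) :
    Commute ((U : R) - 1) ((U ^ j : Rˣ) : R) := by
  have h1 : Commute (U : R) ((U ^ j : Rˣ) : R) := by
    have h := congrArg (Units.val) ((Commute.refl U).zpow_right j).eq
    rw [Units.val_mul, Units.val_mul] at h
    exact h
  exact h1.sub_left (Commute.one_left _)

theorem FmF_fac {R : Type} [Ring R] (U : Rˣ) (s : ℤ) :
    ∃ T : R, ((U ^ s : Rˣ) : R) - 1 = ((U : R) - 1) * T ∧ Commute ((U : R) - 1) T := by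
  induction s using Int.induction_on with
  | zero => exact ⟨0, by simp, Commute.zero_right _⟩
  | succ i ih =>
    obtain ⟨T, h1, h2⟩ := ih
    refine ⟨((U ^ (i : ℤ) : Rˣ) : R) + T, ?_, (FmF_comm U _).add_right h2⟩
    rw [mul_add, ← h1, (FmF_comm U (i : ℤ)).eq, zpow_add_one, Units.val_mul, mul_sub, mul_one]
    abel
  | pred i ih =>
    obtain ⟨T, h1, h2⟩ := ih
    refine ⟨T - ((U ^ (-(i : ℤ) - 1) : Rˣ) : R), ?_, h2.sub_right (FmF_comm U _)⟩
    rw [mul_sub, ← h1, (FmF_comm U (-(i : ℤ) - 1)).eq, mul_sub, mul_one, ← Units.val_mul, ← zpow_add_one,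
      sub_add_cancel]
    abel

theorem FmF_nil {R : Type} [Ring R] (U : Rˣ) (s : ℤ) {n : ℕ} (hU : ((U : R) - 1) ^ n = 0) :
    (((U ^ s : Rˣ) : R) - 1) ^ n = 0 := by
  obtain ⟨T, h1, h2⟩ := FmF_fac U s
  rw [h1, h2.mul_pow, hU, zero_mul]

theorem FmF_iter {R : Type} [Ring R] (C : R) (U : Rˣ) (s : ℤ) (n : ℕ) :
    (fwdDiff (1 : ℤ))^[n] (fun k : ℤ => C * ((U ^ (k * s) : Rˣ) : R)) =
      fun k : ℤ => C * (((U ^ s : Rˣ) : R) - 1) ^ n * ((U ^ (k * s) : Rˣ) : R) := by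
  induction n with
  | zero =>
    funext k
    simp
  | succ n ih =>
    rw [Function.iterate_succ_apply', ih]
    funext k
    rw [fwdDiff]
    have e : (k + 1) * s = s + k * s := by ring
    rw [e, zpow_add, Units.val_mul, pow_succ]
    noncomm_ring

theorem FmF_val {R : Type} [Ring R] {X Y : Rˣ} (hc : Commute X Y) (z w : ℤ × ℤ) (k s : ℤ) :
    ((X ^ (z + (k * s) • w).1 * Y ^ (z + (k * s) • w).2 : Rˣ) : R) =
      ((X ^ z.1 * Y ^ z.2 : Rˣ) : R) * (((X ^ w.1 * Y ^ w.2) ^ (k * s) : Rˣ) : R) := by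
  rw [← Units.val_mul]
  congr 1
  rw [(hc.zpow_zpow w.1 w.2).mul_zpow, ← zpow_mul, ← zpow_mul]
  have e1 : (z + (k * s) • w).1 = z.1 + w.1 * (k * s) := by
    simp only [Prod.fst_add, Prod.smul_fst, smul_eq_mul]; ring
  have e2 : (z + (k * s) • w).2 = z.2 + w.2 * (k * s) := by
    simp only [Prod.snd_add, Prod.smul_snd, smul_eq_mul]; ring
  rw [e1, e2, zpow_add, zpow_add, mul_assoc, mul_assoc, ← mul_assoc (X ^ _) (Y ^ _) (Y ^ _),
    (hc.zpow_zpow (w.1 * (k * s)) z.2).eq, mul_assoc]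

theorem FmF_it_add {R : Type} [Ring R] (f g : ℤ → R) (n : ℕ) :
    (fwdDiff (1 : ℤ))^[n] (fun k => f k + g k) =
      (fwdDiff (1 : ℤ))^[n] f + (fwdDiff (1 : ℤ))^[n] g :=
  fwdDiff_iter_add 1 f g n

theorem FmF_it_neg {R : Type} [Ring R] (f : ℤ → R) (n : ℕ) :
    (fwdDiff (1 : ℤ))^[n] (fun k => - f k) = fun k => - (fwdDiff (1 : ℤ))^[n] f k := by
  induction n with
  | zero => rfl
  | succ n ih =>
    rw [Function.iterate_succ_apply', ih]
    funext k
    rw [Function.iterate_succ_apply', fwdDiff, fwdDiff]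
    abel

theorem fam_dl {d n : ℕ} {X Y : (Matrix (Fin d) (Fin d) ℚ)ˣ} (hc : Commute X Y)
    (m : ℤ × ℤ × ℤ × ℤ) (w w' : ℤ × ℤ)
    (hU : (((X ^ w.1 * Y ^ w.2 : (Matrix (Fin d) (Fin d) ℚ)ˣ) : Matrix (Fin d) (Fin d) ℚ) - 1) ^ n
      = 0) (f : Lam) :
    (fwdDiff (1 : ℤ))^[n] (fun k : ℤ => evm X Y hc (act (fam m w w' k) f)) = 0 := by
  refine lam_ind (p := fun f => (fwdDiff (1 : ℤ))^[n]
    (fun k : ℤ => evm X Y hc (act (fam m w w' k) f)) = 0) ?_ ?_ ?_ ?_ f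
  · have h : (fun k : ℤ => evm X Y hc (act (fam m w w' k) 0)) = fun k : ℤ => (0 : Matrix (Fin d) (Fin d) ℚ) *
        (((X ^ (0 : ℤ)) ^ (k * 0) : (Matrix (Fin d) (Fin d) ℚ)ˣ) : Matrix (Fin d) (Fin d) ℚ) := by
      funext k
      rw [map_zero, map_zero, zero_mul]
    show (fwdDiff (1 : ℤ))^[n] (fun k : ℤ => evm X Y hc (act (fam m w w' k) 0)) = 0
    rw [h, FmF_iter]
    funext k
    rw [zero_mul, zero_mul]
    rfl
  · intro f g hf hg
    have h : (fun k : ℤ => evm X Y hc (act (fam m w w' k) (f + g))) =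
        fun k : ℤ => evm X Y hc (act (fam m w w' k) f) + evm X Y hc (act (fam m w w' k) g) := by
      funext k
      rw [map_add, map_add]
    show (fwdDiff (1 : ℤ))^[n] (fun k : ℤ => evm X Y hc (act (fam m w w' k) (f + g))) = 0
    rw [h, FmF_it_add, hf, hg, add_zero]
  · intro f hf
    have h : (fun k : ℤ => evm X Y hc (act (fam m w w' k) (-f))) =
        fun k : ℤ => - evm X Y hc (act (fam m w w' k) f) := by
      funext k
      rw [map_neg, map_neg]
    show (fwdDiff (1 : ℤ))^[n] (fun k : ℤ => evm X Y hc (act (fam m w w' k) (-f))) = 0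
    rw [h, FmF_it_neg, hf]
    funext k
    show -(0 : Matrix (Fin d) (Fin d) ℚ) = 0
    rw [neg_zero]
  · intro z
    have h : (fun k : ℤ => evm X Y hc (act (fam m w w' k) (mo z))) =
        fun k : ℤ => ((X ^ (actz m z).1 * Y ^ (actz m z).2 : (Matrix (Fin d) (Fin d) ℚ)ˣ) :
          Matrix (Fin d) (Fin d) ℚ) *
          (((X ^ w.1 * Y ^ w.2) ^ (k * det2 w' z) : (Matrix (Fin d) (Fin d) ℚ)ˣ) :
            Matrix (Fin d) (Fin d) ℚ) := by
      funext k
      rw [act_mo, evm_mo, actz_fam]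
      exact FmF_val hc _ _ _ _
    show (fwdDiff (1 : ℤ))^[n] (fun k : ℤ => evm X Y hc (act (fam m w w' k) (mo z))) = 0
    rw [h, FmF_iter, FmF_nil _ _ hU]
    funext k
    rw [mul_zero, zero_mul]
    rfl

end Pool.Agent.H28.IP
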