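/-
ROW FmG. Soundness of the polynomial obstruction.
PROOF. Let `N, t, E, F` be the data of FamQ, `(i, j)` the entry of the position `t` (toM_get in MxA), `m₀ = D.2.1 ≥ 1`,
`V k = evm X Y hc (act (fam (vm m) (vv w) (vv w') k) (pol N))`, `g k = E * V k i j - pv (F.map vz) k : ℚ`. By fam_dl (FmF) with
`n = D.1` (entries: apply the additive map `A ↦ A i j`; fwdDiff commutes with it) and dl_pv (FmE) the `D.1`-th
difference of `g` is 0. For a natural `k < D.1`: `act (vm (famN m w w' (k, 0))) (pol N) = pol (actl (famN m w w' (k, 0)) N)`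
(pol_actl in Pool.Agent.H28.IP.WlA), vm_famN (FmA, `vz (k, 0) = k`), and link_ev (MxB) with `M = mx (actl .. N)`:
`vz (entry t of evN ..) = m₀ ^ M * V k i j`; so the equation in FamQ gives `E m₀ ^ M V k i j = pv .. k m₀ ^ M`, `g k = 0` (pv_vz).
By dl_zero `g = 0`. For the given `k`: `V k = 0` by hI, so `pv (F.map vz) k = 0`, and `|k| ≤ mxF F` by pv_root and mxF_ge (the
nonzero coefficient is given). So there is `k' ∈ ints (mxF F)` with `vz k' = k` (WlB_ints in Pool.Agent.H28.IP.WlB).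
-/
import Pool.Agent.H28.IQ.FmE
import Pool.Agent.H28.IQ.FmF
import Pool.Agent.H28.IP.WlB

set_option autoImplicit false

namespace Pool.Agent.H28.IP

/-- the entries of the iterated differences -/
private theorem FmG_ent {d : ℕ} (V : ℤ → Matrix (Fin d) (Fin d) ℚ) (i j : Fin d) (n : ℕ) :
    (fwdDiff (1 : ℤ))^[n] (fun k => V k i j) = fun k => ((fwdDiff (1 : ℤ))^[n] V) k i j := by
  induction n with
  | zero => rfl
  | succ n ih =>
    rw [Function.iterate_succ_apply', Function.iterate_succ_apply', ih]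
    funext k
    simp only [fwdDiff, Matrix.sub_apply]

private theorem FmG_zero (g : ℤ → ℚ) (E : ℚ) (V p : ℤ → ℚ) (n : ℕ)
    (hg : ∀ k, g k = E * V k - p k) (hV : (fwdDiff (1 : ℤ))^[n] V = 0)
    (hp : (fwdDiff (1 : ℤ))^[n] p = 0) : (fwdDiff (1 : ℤ))^[n] g = 0 := by
  have h1 : g = E • V + (-1 : ℚ) • p := by
    funext k
    rw [hg k]
    simp only [Pi.add_apply, Pi.smul_apply, smul_eq_mul]
    ring
  rw [h1, fwdDiff_iter_add, fwdDiff_iter_const_smul, fwdDiff_iter_const_smul, hV, hp]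
  simp

theorem famQ_sound {D : MD} {X Y : (Matrix (Fin D.1) (Fin D.1) ℚ)ˣ} (hL : Link D X Y)
    (hc : Commute X Y) {P₁ : Pres} {A₁ B₁ : Word} {P₂ : Pres} {A₂ B₂ : Word} {w w' : VV} {m : MP}
    (hU : (((X ^ vz w.1 * Y ^ vz w.2 : (Matrix (Fin D.1) (Fin D.1) ℚ)ˣ) :
      Matrix (Fin D.1) (Fin D.1) ℚ) - 1) ^ D.1 = 0)
    (h : FamQ D P₁ A₁ B₁ P₂ A₂ B₂ w w' m) {k : ℤ}
    (hI : ∀ N : NL, InN P₂ (subst [A₂, B₂] (wl N)) →
      evm X Y hc (act (fam (vm m) (vv w) (vv w') k) (pol N)) = 0) :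
    ∃ k' : ℕ × ℕ, vz k' = k ∧ NImS P₁ A₁ B₁ P₂ A₂ B₂ (famN m w w' k') := by
  obtain ⟨N, t, E, F, hN, ht, hF, hne, hev, hint⟩ := h
  obtain ⟨i, j, hij⟩ := toM_get ht
  have hm0 : (D.2.1 : ℚ) ≠ 0 := by
    have : 0 < D.2.1 := hL.1
    positivity
  have h1 := fam_dl hc (vm m) (vv w) (vv w') hU (pol N)
  have h2 : (fwdDiff (1 : ℤ))^[D.1]
      (fun k => evm X Y hc (act (fam (vm m) (vv w) (vv w') k) (pol N)) i j) = 0 := by
    rw [FmG_ent (fun k => evm X Y hc (act (fam (vm m) (vv w) (vv w') k) (pol N))) i j D.1, h1]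
    rfl
  have h3 : (fwdDiff (1 : ℤ))^[D.1] (fun k : ℤ => (pv (F.map vz) k : ℚ)) = 0 :=
    dl_pv (by rw [List.length_map]; exact hF)
  have h4 : (fwdDiff (1 : ℤ))^[D.1] (fun k : ℤ => (E : ℚ) *
      evm X Y hc (act (fam (vm m) (vv w) (vv w') k) (pol N)) i j - (pv (F.map vz) k : ℚ)) = 0 :=
    FmG_zero _ (E : ℚ) _ _ D.1 (fun k => rfl) h2 h3
  have h5 : (fun k : ℤ => (E : ℚ) *
      evm X Y hc (act (fam (vm m) (vv w) (vv w') k) (pol N)) i j - (pv (F.map vz) k : ℚ)) = 0 := by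
    refine dl_zero h4 fun k hk => ?_
    have h6 := hev k hk
    have h7 := link_ev hL hc (le_refl (mx (actl (famN m w w' (k, 0)) N)))
    rw [pol_actl, vm_famN] at h7
    have hk0 : vz ((k, 0) : ℕ × ℕ) = (k : ℤ) := by simp [vz]
    rw [hk0] at h7
    have h8 := congrFun (congrFun h7 i) j
    rw [Matrix.map_apply, Matrix.smul_apply, smul_eq_mul, ← hij] at h8
    have h9 : ((E : ℤ) : ℚ) * ((vz ((evN D (mx (actl (famN m w w' (k, 0)) N))
        (actl (famN m w w' (k, 0)) N)).getD t (0, 0)) : ℤ) : ℚ) =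
        ((pv (F.map vz) k : ℤ) : ℚ) * (D.2.1 : ℚ) ^ mx (actl (famN m w w' (k, 0)) N) := by
      rw [pv_vz, hk0] at h6
      have h10 := congrArg (Int.cast : ℤ → ℚ) h6
      push_cast at h10
      push_cast
      exact h10
    rw [h8] at h9
    have hpow : (D.2.1 : ℚ) ^ mx (actl (famN m w w' (k, 0)) N) ≠ 0 := pow_ne_zero _ hm0
    have h10 : (D.2.1 : ℚ) ^ mx (actl (famN m w w' (k, 0)) N) * ((E : ℚ) *
        evm X Y hc (act (fam (vm m) (vv w) (vv w') (k : ℤ)) (pol N)) i j -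
          (pv (F.map vz) (k : ℤ) : ℚ)) = 0 := by
      push_cast at h9
      linear_combination h9
    exact (mul_eq_zero.1 h10).resolve_left hpow
  have h6 := congrFun h5 k
  have h7 := congrFun (congrFun (hI N hN) i) j
  simp only [Matrix.zero_apply] at h7
  simp only [h7, mul_zero, zero_sub, Pi.zero_apply, neg_eq_zero, Int.cast_eq_zero] at h6
  have hne' : ∃ c ∈ F.map vz, c ≠ 0 := by
    obtain ⟨c, hc1, hc2⟩ := hne
    exact ⟨vz c, List.mem_map_of_mem hc1, hc2⟩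
  have h8 := pv_root hne' h6
  have h9 : |k| ≤ ((mxF F : ℕ) : ℤ) := by
    have h10 := h8.trans (mxF_ge F)
    rw [Int.abs_eq_natAbs]
    exact_mod_cast h10
  obtain ⟨u, hu, hu'⟩ := WlB_ints h9
  exact ⟨u, hu', hint u hu⟩

end Pool.Agent.H28.IP
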