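/-
ROW FmH. Completeness of the polynomial obstruction.
PROOF. `V k = evm X Y hc (act (fam (vm m) (vv w) (vv w') k) (pol N))`. Choose an entry `(i, j)` with `V t i j ≠ 0`, and the
position `t₀ < D.1 * D.1` of the entry (get_toM in MxA). `g k = V k i j : ℚ` satisfies `(fwdDiff 1)^[D.1] g = 0` by fam_dl
(FmF, hU). dl_poly (FmE) gives `E ≠ 0` and `F`, `F.length ≤ D.1`, `E g k = pv (F.map vz) k` for all `k`. Some `c ∈ F` has
`vz c ≠ 0`, else `pv (F.map vz) = 0` while `E g t ≠ 0`. For `k < D.1`: pol_actl (Pool.Agent.H28.IP.WlA), vm_famN (FmA), link_ev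
(MxB) with `M = mx (actl ..)`: `E * vz (entry) = E m₀ ^ M g k = pv .. k * m₀ ^ M = vz (pvN F (k, 0)) * m₀ ^ M` (pv_vz), first in ℚ,
then in ℤ. The last condition is hS.
-/
import Pool.Agent.H28.IQ.FmE
import Pool.Agent.H28.IQ.FmF
import Pool.Agent.H28.IP.WlB

set_option autoImplicit false

namespace Pool.Agent.H28.IP

theorem FmH_dl {A B : Type} [AddCommGroup A] [AddCommGroup B] (φ : A →+ B) (g : ℤ → A) (n : ℕ) :
    (fwdDiff (1 : ℤ))^[n] (fun k => φ (g k)) = fun k => φ ((fwdDiff (1 : ℤ))^[n] g k) := by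
  induction n with
  | zero => rfl
  | succ n ih =>
    rw [Function.iterate_succ', Function.comp_apply, ih, Function.iterate_succ',
      Function.comp_apply]
    funext k
    simp only [fwdDiff, map_sub]

theorem FmH_pv (F : List (ℕ × ℕ)) (h : ∀ c ∈ F, vz c = 0) (k : ℤ) : pv (F.map vz) k = 0 := by
  induction F with
  | nil => rfl
  | cons c F ih =>
    have h1 : pv ((c :: F).map vz) k = vz c + k * pv (F.map vz) k := rfl
    rw [h1, h c List.mem_cons_self, ih (fun d hd => h d (List.mem_cons_of_mem _ hd))]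
    ring

theorem famQ_complete {D : MD} {X Y : (Matrix (Fin D.1) (Fin D.1) ℚ)ˣ} (hL : Link D X Y)
    (hc : Commute X Y) {P₁ : Pres} {A₁ B₁ : Word} {P₂ : Pres} {A₂ B₂ : Word} {w w' : VV} {m : MP}
    (hU : (((X ^ vz w.1 * Y ^ vz w.2 : (Matrix (Fin D.1) (Fin D.1) ℚ)ˣ) :
      Matrix (Fin D.1) (Fin D.1) ℚ) - 1) ^ D.1 = 0)
    {N : NL} (hN : InN P₂ (subst [A₂, B₂] (wl N))) {t : ℤ}
    (hV : evm X Y hc (act (fam (vm m) (vv w) (vv w') t) (pol N)) ≠ 0)
    (hS : ∀ k : ℕ × ℕ, NImS P₁ A₁ B₁ P₂ A₂ B₂ (famN m w w' k)) :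
    FamQ D P₁ A₁ B₁ P₂ A₂ B₂ w w' m := by
  obtain ⟨i, j, hij⟩ : ∃ i j : Fin D.1,
      evm X Y hc (act (fam (vm m) (vv w) (vv w') t) (pol N)) i j ≠ 0 := by
    by_contra hcon
    push Not at hcon
    exact hV (Matrix.ext fun i j => hcon i j)
  have hdl := fam_dl hc (vm m) (vv w) (vv w') hU (pol N)
  let φ : Matrix (Fin D.1) (Fin D.1) ℚ →+ ℚ :=
    { toFun := fun M => M i j
      map_zero' := rfl
      map_add' := fun _ _ => rfl }
  have hg : (fwdDiff (1 : ℤ))^[D.1] (fun k : ℤ =>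
      evm X Y hc (act (fam (vm m) (vv w) (vv w') k) (pol N)) i j) = 0 := by
    have h1 := FmH_dl φ (fun k : ℤ => evm X Y hc (act (fam (vm m) (vv w) (vv w') k) (pol N))) D.1
    rw [hdl] at h1
    exact h1
  obtain ⟨E, F, hE, hF, hEF⟩ := dl_poly hg
  obtain ⟨t₀, ht₀, htM⟩ := get_toM i j
  refine ⟨N, t₀, E, F, hN, ht₀, hF, ?_, ?_, fun k _ => hS k⟩
  · by_contra hcon
    push Not at hcon
    have h1 := hEF t
    rw [FmH_pv F hcon t, Int.cast_zero] at h1
    rcases mul_eq_zero.1 h1 with h2 | h2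
    · exact hE (by exact_mod_cast h2)
    · exact hij h2
  · intro k _
    obtain ⟨L, hLdef⟩ : ∃ L : NL, L = actl (famN m w w' (k, 0)) N := ⟨_, rfl⟩
    rw [← hLdef]
    have h1 := link_ev hL hc (le_refl (mx L))
    have h2 : pol L = act (fam (vm m) (vv w) (vv w') (k : ℤ)) (pol N) := by
      rw [hLdef, pol_actl, vm_famN]
      congr 2
    rw [h2] at h1
    have h3 := congrFun (congrFun h1 i) j
    rw [Matrix.map_apply, Matrix.smul_apply, htM, smul_eq_mul] at h3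
    have h4 := hEF (k : ℤ)
    have h5 := pv_vz F (k, 0)
    have h6 : vz (k, 0) = (k : ℤ) := by simp [vz]
    rw [h6] at h5
    rw [← h5] at h4
    have h7 : ((E : ℤ) : ℚ) * ((vz ((evN D (mx L) L).getD t₀ (0, 0)) : ℤ) : ℚ) =
        ((vz (pvN F (k, 0)) : ℤ) : ℚ) * (((D.2.1 ^ mx L : ℕ) : ℤ) : ℚ) := by
      rw [h3]
      push_cast
      linear_combination ((D.2.1 : ℚ) ^ mx L) * h4
    exact_mod_cast h7

end Pool.Agent.H28.IP
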