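/-
ROW Hpf. Surjections in both directions.
PROOFS. act_bij: `actz φ` is a bijection of `ℤ²` (inverse matrix, `dt φ = ± 1`; BoxA_inj in Pool.Agent.H28.IP.BoxA for
injectivity), so `act φ` (mapDomain) is a bijection; or: `act φ ∘ act φ' = id` for the inverse matrix `φ'` on monomials (act_mo,
lam_ind).
hopf: `θ = (act ψ).comp (act φ)` is a bijective ring endomorphism of `Lam` with `θ I₂ ⊆ I₂`. The ideals
`I₂ ≤ θ⁻¹ I₂ ≤ θ⁻² I₂ ≤ …` (`Ideal.comap` of iterates) stabilise (`Lam` is Noetherian: lam_noeth in Pool.Agent.H28.IP.MxF,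
`monotone_stabilizes_iff_noetherian`): `θ⁻ⁿ I₂ = θ⁻ⁿ⁻¹ I₂`, i.e. `θ ^ (n + 1) g ∈ I₂ ↔ θ ^ n g ∈ I₂` for all `g`; as `θ ^ n` is
surjective, `θ f ∈ I₂ → f ∈ I₂`. If `act φ f ∈ I₁` then `θ f = act ψ (act φ f) ∈ I₂` by h2, so `f ∈ I₂`. The converse is h1.
fin_surj: `act φ` induces a surjective additive map `Lam ⧸ I₂ → Lam ⧸ I₁` (`Ideal.quotientMap`), `Module.Finite.of_surjective`.
-/
import Pool.Agent.H28.IQ.Defs
import Pool.Agent.H28.IP.MxF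
import Pool.Agent.H28.IP.ChB
import Pool.Agent.H28.IP.BoxA

set_option autoImplicit false

namespace Pool.Agent.H28.IP

/-- the inverse matrix -/
def Hpf_inv (φ : ℤ × ℤ × ℤ × ℤ) : ℤ × ℤ × ℤ × ℤ :=
  (dt φ * φ.2.2.2, -(dt φ * φ.2.1), -(dt φ * φ.2.2.1), dt φ * φ.1)

theorem Hpf_l {φ : ℤ × ℤ × ℤ × ℤ} (hφ : dt φ = 1 ∨ dt φ = -1) (z : ℤ × ℤ) :
    actz (Hpf_inv φ) (actz φ z) = z := by
  have h : dt φ * dt φ = 1 := by rcases hφ with h | h <;> rw [h] <;> norm_num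
  ext
  · simp only [actz, Hpf_inv]
    have : dt φ = φ.1 * φ.2.2.2 - φ.2.1 * φ.2.2.1 := rfl
    linear_combination z.1 * h + z.1 * dt φ * (-this)
  · simp only [actz, Hpf_inv]
    have : dt φ = φ.1 * φ.2.2.2 - φ.2.1 * φ.2.2.1 := rfl
    linear_combination z.2 * h + z.2 * dt φ * (-this)

theorem Hpf_r {φ : ℤ × ℤ × ℤ × ℤ} (hφ : dt φ = 1 ∨ dt φ = -1) (z : ℤ × ℤ) :
    actz φ (actz (Hpf_inv φ) z) = z := by
  apply BoxA_inj (m := Hpf_inv φ)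
  · have h : dt φ * dt φ = 1 := by rcases hφ with h | h <;> rw [h] <;> norm_num
    have : dt (Hpf_inv φ) = dt φ := by
      have e : dt φ = φ.1 * φ.2.2.2 - φ.2.1 * φ.2.2.1 := rfl
      show (dt φ * φ.2.2.2) * (dt φ * φ.1) - (-(dt φ * φ.2.1)) * (-(dt φ * φ.2.2.1)) = dt φ
      linear_combination (φ.1 * φ.2.2.2 - φ.2.1 * φ.2.2.1) * h - e
    rw [this]; exact hφ
  · exact Hpf_l hφ _

theorem Hpf_comp {φ ψ : ℤ × ℤ × ℤ × ℤ} (h : ∀ z, actz φ (actz ψ z) = z) (f : Lam) :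
    act φ (act ψ f) = f := by
  refine lam_ind (p := fun f => act φ (act ψ f) = f) ?_ ?_ ?_ ?_ f
  · rw [map_zero, map_zero]
  · intro f g hf hg
    rw [map_add, map_add, hf, hg]
  · intro f hf
    rw [map_neg, map_neg, hf]
  · intro z
    rw [act_mo, act_mo, h]

theorem act_bij {φ : ℤ × ℤ × ℤ × ℤ} (hφ : dt φ = 1 ∨ dt φ = -1) :
    Function.Bijective (act φ) :=
  ⟨fun f g h => by
    rw [← Hpf_comp (φ := Hpf_inv φ) (ψ := φ) (Hpf_l hφ) f, h, Hpf_comp (Hpf_l hφ) g],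
    fun f => ⟨act (Hpf_inv φ) f, Hpf_comp (Hpf_r hφ) f⟩⟩

theorem Hpf_stab {R : Type} [CommRing R] [IsNoetherianRing R] {I : Ideal R} {θ : R →+* R}
    (hs : Function.Surjective θ) (h : ∀ f ∈ I, θ f ∈ I) (f : R) (hf : θ f ∈ I) : f ∈ I := by
  have hmono : Monotone fun n : ℕ => I.comap (θ ^ n) := by
    refine monotone_nat_of_le_succ fun n g hg => ?_
    rw [Ideal.mem_comap] at hg ⊢
    rw [pow_succ', RingHom.mul_def, RingHom.comp_apply]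
    exact h _ hg
  obtain ⟨n, hn⟩ := monotone_stabilizes_iff_noetherian.mpr
    (inferInstance : IsNoetherian R R) ⟨_, hmono⟩
  have hsn : Function.Surjective (θ ^ n : R →+* R) := by
    clear hn
    induction n with
    | zero => intro g; exact ⟨g, rfl⟩
    | succ n ih =>
      intro g
      obtain ⟨g1, h1⟩ := hs g
      obtain ⟨g2, h2⟩ := ih g1
      refine ⟨g2, ?_⟩
      rw [pow_succ', RingHom.mul_def, RingHom.comp_apply, h2, h1]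
  obtain ⟨g, rfl⟩ := hsn f
  have e := hn (n + 1) (Nat.le_succ n)
  have : g ∈ I.comap (θ ^ (n + 1)) := by
    rw [Ideal.mem_comap, pow_succ', RingHom.mul_def, RingHom.comp_apply]
    exact hf
  have h2 : g ∈ I.comap (θ ^ n) := by
    have e' : I.comap (θ ^ n) = I.comap (θ ^ (n + 1)) := e
    rw [e']; exact this
  exact h2

theorem hopf {I₁ I₂ : Ideal Lam} {φ ψ : ℤ × ℤ × ℤ × ℤ} (hφ : dt φ = 1 ∨ dt φ = -1)
    (hψ : dt ψ = 1 ∨ dt ψ = -1) (h1 : ∀ f ∈ I₂, act φ f ∈ I₁) (h2 : ∀ f ∈ I₁, act ψ f ∈ I₂)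
    (f : Lam) : f ∈ I₂ ↔ act φ f ∈ I₁ := by
  refine ⟨h1 f, fun h => ?_⟩
  refine Hpf_stab (I := I₂) (θ := (act ψ).comp (act φ))
    ((act_bij hψ).2.comp (act_bij hφ).2) (fun g hg => h2 _ (h1 g hg)) f (h2 _ h)

theorem fin_surj {I₁ I₂ : Ideal Lam} {φ : ℤ × ℤ × ℤ × ℤ} (hφ : dt φ = 1 ∨ dt φ = -1)
    (h1 : ∀ f ∈ I₂, act φ f ∈ I₁) (h2 : Module.Finite ℤ (Lam ⧸ I₂)) :
    Module.Finite ℤ (Lam ⧸ I₁) := by
  have hs : Function.Surjective (Ideal.quotientMap I₁ (act φ) (I := I₂) h1) :=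
    Ideal.quotientMap_surjective (act_bij hφ).2
  exact Module.Finite.of_surjective
    (Ideal.quotientMap I₁ (act φ) (I := I₂) h1).toAddMonoidHom.toIntLinearMap hs

end Pool.Agent.H28.IP
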