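import Pool.Agent.H28.IP.Main2
import Pool.Agent.H28.IQ.EgB
import Pool.Agent.H28.IQ.EgD
import Pool.Agent.H28.IQ.EgH
import Pool.Agent.H28.IQ.CvB
import Pool.Agent.H28.IQ.BdA
import Pool.Agent.H28.IQ.BdC
import Pool.Agent.H28.IQ.BdD
import Pool.Agent.H28.IQ.FmB
import Pool.Agent.H28.IQ.FmG

set_option autoImplicit false

namespace Pool.Agent.H28.IP

/-- evaluation at the point `P ∘ φ` -/
theorem evr_act {K : Type} [Field K] (ξ η : Kˣ) (φ : ℤ × ℤ × ℤ × ℤ) (f : Lam) :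
    evr (ξ ^ φ.1 * η ^ φ.2.1) (ξ ^ φ.2.2.1 * η ^ φ.2.2.2) f = evr ξ η (act φ f) := by
  refine lam_ind (p := fun f => evr (ξ ^ φ.1 * η ^ φ.2.1) (ξ ^ φ.2.2.1 * η ^ φ.2.2.2) f =
    evr ξ η (act φ f)) ?_ ?_ ?_ ?_ f
  · simp
  · intro f g hf hg
    rw [map_add, map_add, map_add, hf, hg]
  · intro f hf
    rw [map_neg, map_neg, map_neg, hf]
  · intro z
    rw [act_mo, evr_mo, evr_mo]
    congr 1
    show (ξ ^ φ.1 * η ^ φ.2.1) ^ z.1 * (ξ ^ φ.2.2.1 * η ^ φ.2.2.2) ^ z.2 =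
      ξ ^ (φ.1 * z.1 + φ.2.2.1 * z.2) * η ^ (φ.2.1 * z.1 + φ.2.2.2 * z.2)
    rw [mul_zpow, mul_zpow, ← zpow_mul, ← zpow_mul, ← zpow_mul, ← zpow_mul, zpow_add, zpow_add]
    exact mul_mul_mul_comm _ _ _ _

theorem ints_le {K : ℕ} {u : ℕ × ℕ} (h : u ∈ ints K) : |vz u| ≤ (K : ℤ) := by
  unfold ints at h
  rw [List.mem_flatMap] at h
  obtain ⟨n, hn, h⟩ := h
  rw [List.mem_range] at hn
  simp only [List.mem_cons, List.not_mem_nil, or_false] at h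
  rcases h with rfl | rfl
  · unfold vz
    simp only [Nat.cast_zero, sub_zero]
    rw [abs_of_nonneg (by omega)]
    omega
  · unfold vz
    simp only [Nat.cast_zero, zero_sub, abs_neg]
    rw [abs_of_nonneg (by omega)]
    omega

theorem box2_mem {K : ℕ} {z : ℤ × ℤ} (h1 : |z.1| ≤ (K : ℤ)) (h2 : |z.2| ≤ (K : ℤ)) :
    ∃ w ∈ box2 K, vv w = z := by
  obtain ⟨u, hu, hu'⟩ := WlB_ints h1
  obtain ⟨v, hv, hv'⟩ := WlB_ints h2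
  refine ⟨(u, v), ?_, ?_⟩
  · unfold box2
    rw [List.mem_flatMap]
    exact ⟨u, hu, List.mem_map.2 ⟨v, hv, rfl⟩⟩
  · unfold vv
    rw [hu', hv']

theorem vz_detV (w z : VV) : vz (detV w z) = det2 (vv w) (vv z) := by
  unfold detV det2 vv
  have h : ∀ u v : ℕ × ℕ, vz (subp u v) = vz u - vz v := by
    intro u v
    unfold subp vz
    push_cast
    ring
  rw [h, vz_mulp, vz_mulp]

/-- soundness, semantic form -/
theorem nj_core {D : MD} {P₁ : Pres} {A₁ B₁ : Word} {P₂ : Pres} {A₂ B₂ : Word}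
    [Metab (GN P₁)] [Metab (GN P₂)]
    {X Y : (Matrix (Fin D.1) (Fin D.1) ℚ)ˣ} (hL : Link D X Y) (hc : Commute X Y)
    (hI : ∀ f, ev (cl P₁ A₁) (cl P₁ B₁) f = 1 → evm X Y hc f = 0)
    {φ : ℤ × ℤ × ℤ × ℤ} (hφ : dt φ = 1 ∨ dt φ = -1)
    (hev : ∀ f, ev (cl P₂ A₂) (cl P₂ B₂) f = 1 → ev (cl P₁ A₁) (cl P₁ B₁) (act φ f) = 1)
    (h : NJ2 D P₁ A₁ B₁ P₂ A₂ B₂) : False := by
  obtain ⟨c₁, c₂, b₁, b₂, K, Ls₁, Ls₂, ⟨hPB₁, hPB₂⟩, ⟨hLs₁, hLs₂⟩, ⟨hC₁, hC₂⟩, hK, hN, hW, hm⟩ := h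
  -- words in the annihilators
  have hin₁ : ∀ N : NL, InN P₁ (subst [A₁, B₁] (wl N)) ↔
      ev (cl P₁ A₁) (cl P₁ B₁) (pol N) = 1 := fun N => by rw [← cl_wl, cl_one]
  have hin₂ : ∀ N : NL, InN P₂ (subst [A₂, B₂] (wl N)) ↔
      ev (cl P₂ A₂) (cl P₂ B₂) (pol N) = 1 := fun N => by rw [← cl_wl, cl_one]
  -- no small matrix
  have hNIm : ∀ m : MP, vm m = φ → ¬ NImS P₁ A₁ B₁ P₂ A₂ B₂ m := by
    rintro m rfl ⟨N, n1, n2⟩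
    refine fq_sound n2 ?_
    rw [hin₁, pol_actl]
    exact hev _ ((hin₂ N).1 n1)
  have hbig : ¬ ((|φ.1| ≤ (K : ℤ) ∧ |φ.2.1| ≤ (K : ℤ)) ∧ |φ.2.2.1| ≤ (K : ℤ) ∧
      |φ.2.2.2| ≤ (K : ℤ)) := by
    rintro ⟨⟨h1, h2⟩, h3, h4⟩
    obtain ⟨m, hmb, hmm⟩ := box_mem h1 h2 h3 h4
    exact hNIm m hmm (hm m hmb (by rw [hmm]; exact hφ))
  -- points of `I₁`
  have key : ∀ (ξ η : ℂˣ), (∀ f, evm X Y hc f = 0 → evr ξ η f = 0) →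
      (∀ f, ev (cl P₁ A₁) (cl P₁ B₁) f = 1 → evr ξ η f = 0) ∧
      ∀ f, ev (cl P₂ A₂) (cl P₂ B₂) f = 1 →
        evr (ξ ^ φ.1 * η ^ φ.2.1) (ξ ^ φ.2.2.1 * η ^ φ.2.2.2) f = 0 := by
    intro ξ η hP
    refine ⟨fun f hf => hP f (hI f hf), fun f hf => ?_⟩
    rw [evr_act]
    exact hP _ (hI _ (hev f hf))
  -- directions of valuations
  have hdir : ∀ (ξ η : ℂˣ), (∀ f, evm X Y hc f = 0 → evr ξ η f = 0) →
      ∀ (V : ValuationSubring ℂ), (∃ z : ℤ × ℤ, evr ξ η (mo z) ∉ V) →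
      ∃ w z w' z' : ℤ × ℤ, det2 w z = 1 ∧ det2 w' z' = 1 ∧
        ((|w.1| ≤ ((2 * b₁ : ℕ) : ℤ) ∧ |w.2| ≤ ((2 * b₁ : ℕ) : ℤ)) ∧
        (|z.1| ≤ ((2 * b₁ : ℕ) : ℤ) ∧ |z.2| ≤ ((2 * b₁ : ℕ) : ℤ))) ∧
        ((|w'.1| ≤ ((2 * b₂ : ℕ) : ℤ) ∧ |w'.2| ≤ ((2 * b₂ : ℕ) : ℤ)) ∧
        (|z'.1| ≤ ((2 * b₂ : ℕ) : ℤ) ∧ |z'.2| ≤ ((2 * b₂ : ℕ) : ℤ))) ∧
        (evr ξ η (mo w) ∈ V ∧ evr ξ η (mo (-w)) ∈ V) ∧
        (actz φ w' = w ∨ actz φ w' = -w) := by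
    intro ξ η hP V hnt
    obtain ⟨k1, k2⟩ := key ξ η hP
    obtain ⟨w, z, hwz, hw, hz, hu1, hu2⟩ := dir V ξ η hC₁ (fun L hL => k1 _ ((hin₁ L).1 (hLs₁ L hL)))
    obtain ⟨w', z', hwz', hw', hz', hu1', hu2'⟩ := dir V (ξ ^ φ.1 * η ^ φ.2.1)
      (ξ ^ φ.2.2.1 * η ^ φ.2.2.2) hC₂ (fun L hL => k2 _ ((hin₂ L).1 (hLs₂ L hL)))
    rw [evr_act, act_mo] at hu1' hu2'
    have hneg : actz φ (-w') = -actz φ w' := (actH φ).map_neg w'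
    rw [hneg] at hu2'
    have hdet := dir_unique V ξ η hnt hu1 hu2 hu1' hu2'
    refine ⟨w, z, w', z', hwz, hwz', ⟨hw, hz⟩, ⟨hw', hz'⟩, ⟨hu1, hu2⟩, ?_⟩
    rcases hφ with h1 | h1
    · refine prim_line hwz (u := actz φ w') (z' := actz φ z') ?_ hdet
      rw [det2_act, h1, hwz', one_mul]
    · refine prim_line hwz (u := actz φ w') (z' := -actz φ z') ?_ hdet
      have h2 : det2 (actz φ w') (-actz φ z') = -det2 (actz φ w') (actz φ z') := by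
        unfold det2
        simp only [Prod.fst_neg, Prod.snd_neg]
        ring
      rw [h2, det2_act, h1, hwz']
      norm_num
  -- non-integral values give valuations
  have hval : ∀ w : VV, NonInt D w → ∃ (ξ η : ℂˣ) (V : ValuationSubring ℂ),
      (∀ f, evm X Y hc f = 0 → evr ξ η f = 0) ∧
      (evr ξ η (mo (vv w)) ∉ V ∨ evr ξ η (mo (-vv w)) ∉ V) := by
    intro w hw
    obtain ⟨ξ, η, hor, hP⟩ := nonint_pt hL hc hw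
    rcases hor with h1 | h1
    · obtain ⟨V, hV⟩ := exists_val h1
      refine ⟨ξ, η, V, hP, Or.inl ?_⟩
      rw [evr_mo]
      exact hV
    · obtain ⟨V, hV⟩ := exists_val h1
      refine ⟨ξ, η, V, hP, Or.inr ?_⟩
      rw [evr_mo]
      have h2 : ξ ^ (-vv w).1 * η ^ (-vv w).2 = (ξ ^ vz w.1 * η ^ vz w.2)⁻¹ := by
        show ξ ^ (-vz w.1) * η ^ (-vz w.2) = _
        rw [zpow_neg, zpow_neg, mul_inv]
      rw [h2]
      exact hV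
  -- the first valuation
  obtain ⟨ξ₀, η₀, V₀, hP₀, hnt₀⟩ : ∃ (ξ η : ℂˣ) (V : ValuationSubring ℂ),
      (∀ f, evm X Y hc f = 0 → evr ξ η f = 0) ∧ ∃ z : ℤ × ℤ, evr ξ η (mo z) ∉ V := by
    rcases hN with h1 | h1
    · obtain ⟨ξ, η, V, h2, h3 | h3⟩ := hval _ h1
      · exact ⟨ξ, η, V, h2, _, h3⟩
      · exact ⟨ξ, η, V, h2, _, h3⟩
    · obtain ⟨ξ, η, V, h2, h3 | h3⟩ := hval _ h1
      · exact ⟨ξ, η, V, h2, _, h3⟩
      · exact ⟨ξ, η, V, h2, _, h3⟩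
  obtain ⟨w, z, w', z', hwz, hwz', ⟨sw, sz⟩, ⟨sw', sz'⟩, hu, he⟩ := hdir ξ₀ η₀ hP₀ V₀ hnt₀
  obtain ⟨wv, hwv, rfl⟩ := box2_mem sw.1 sw.2
  obtain ⟨zv, hzv, rfl⟩ := box2_mem sz.1 sz.2
  obtain ⟨wv', hwv', rfl⟩ := box2_mem sw'.1 sw'.2
  obtain ⟨zv', hzv', rfl⟩ := box2_mem sz'.1 sz'.2
  rcases hW wv hwv ⟨zv, hzv, by rw [vz_detV]; exact hwz⟩ with h1 | ⟨n, h1, h2⟩ | h1
  · -- a second direction
    obtain ⟨ξ₁, η₁, V₁, hP₁, hnt₁⟩ := hval _ h1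
    have hnt₁' : ∃ z : ℤ × ℤ, evr ξ₁ η₁ (mo z) ∉ V₁ := by
      rcases hnt₁ with h | h
      · exact ⟨_, h⟩
      · exact ⟨_, h⟩
    obtain ⟨w₁, z₁, w₁', z₁', hwz₁, hwz₁', ⟨sw₁, sz₁⟩, ⟨sw₁', sz₁'⟩, hu₁, he₁⟩ :=
      hdir ξ₁ η₁ hP₁ V₁ hnt₁'
    have hd : det2 (vv wv) w₁ ≠ 0 := by
      intro h0
      have h3 : w₁ = vv wv ∨ w₁ = -vv wv := prim_line hwz hwz₁ h0
      rcases h3 with h3 | h3
      · rw [h3] at hu₁
        rcases hnt₁ with h | h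
        · exact h hu₁.1
        · exact h hu₁.2
      · rw [h3, neg_neg] at hu₁
        rcases hnt₁ with h | h
        · exact h hu₁.2
        · exact h hu₁.1
    obtain ⟨⟨g1, g2⟩, g3, g4⟩ := two_bound hφ sw sw₁ sw' sw₁' hd he he₁
    have hK' : ((8 * b₁ * b₂ : ℕ) : ℤ) ≤ (K : ℤ) := by exact_mod_cast hK
    exact hbig ⟨⟨g1.trans hK', g2.trans hK'⟩, g3.trans hK', g4.trans hK'⟩
  · -- growth
    obtain ⟨ξ₁, η₁, hg, hP₁⟩ := growth_pt hL hc h1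
    obtain ⟨k1, k2⟩ := key ξ₁ η₁ hP₁
    obtain ⟨Lx₁, Ly₁, ⟨p1, p2⟩, ⟨p3, p4⟩, ⟨p5, p6⟩, p7, p8⟩ := hPB₁
    obtain ⟨Lx₂, Ly₂, ⟨q1, q2⟩, ⟨q3, q4⟩, ⟨q5, q6⟩, q7, q8⟩ := hPB₂
    have c7 : (Lx₁.length : ℝ) ≤ 2 ^ c₁ := by exact_mod_cast p7
    have c8 : (Ly₁.length : ℝ) ≤ 2 ^ c₁ := by exact_mod_cast p8
    have d7 : (Lx₂.length : ℝ) ≤ 2 ^ c₂ := by exact_mod_cast q7
    have d8 : (Ly₂.length : ℝ) ≤ 2 ^ c₂ := by exact_mod_cast q8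
    have e1 := poly_bound_x p3 p5 (k1 _ ((hin₁ _).1 p1))
    have e2 := poly_bound_y p4 p6 (k1 _ ((hin₁ _).1 p2))
    have e3 := poly_bound_x q3 q5 (k2 _ ((hin₂ _).1 q1))
    have e4 := poly_bound_y q4 q6 (k2 _ ((hin₂ _).1 q2))
    obtain ⟨⟨g1, g2⟩, g3, g4⟩ := growth_bound hφ sw sz sw' hwz he hg
      ⟨e1.1.trans c7, e1.2.trans c7⟩ ⟨e2.1.trans c8, e2.2.trans c8⟩
      ⟨e3.1.trans d7, e3.2.trans d7⟩ ⟨e4.1.trans d8, e4.2.trans d8⟩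
    have hK' : (((n * (c₂ + 8 * b₁ * b₂ * c₁) + 2 * b₂) * (2 * b₁) : ℕ) : ℤ) ≤ (K : ℤ) := by
      exact_mod_cast h2
    exact hbig ⟨⟨g1.trans hK', g2.trans hK'⟩, g3.trans hK', g4.trans hK'⟩
  · -- the family
    obtain ⟨k, hk, hU, hF⟩ := h1 wv' hwv' ⟨zv', hzv', by rw [vz_detV]; exact hwz'⟩
    obtain ⟨m, t, hmt, hdm, hmw, ⟨s1, s2⟩, s3, s4⟩ :=
      fam_param hφ hk sw sz sw' sz' hwz hwz' he
    obtain ⟨mv, hmv, rfl⟩ := box_mem s1 s2 s3 s4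
    have hUU := (unip_iff hL hc).1 hU
    have hsc : vv (sclV k wv) = (k : ℤ) • vv wv := vv_sclV k wv
    rcases hF mv hmv hdm hmw with ⟨N, n1, n2⟩ | hQ
    · obtain ⟨Q, iQ, π, r1, r2⟩ := fqp_hom n2
      have r1' : π (ev (cl P₁ A₁) (cl P₁ B₁) (mo (vv (sclV k wv)) - 1)) = 1 := by
        have e1 : pol [((sclV k wv).1, (sclV k wv).2, true), ((0, 0), (0, 0), false)] =
            mo (vv (sclV k wv)) - 1 := by
          rw [WlA_pol_cons, WlA_pol_cons]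
          show mo (vz (sclV k wv).1, vz (sclV k wv).2) + (-mo (vz (0, 0), vz (0, 0)) + 0) = _
          have e2 : ((vz (0, 0), vz (0, 0)) : ℤ × ℤ) = 0 := rfl
          rw [e2, mo_zero, add_zero, sub_eq_add_neg]
          rfl
        rw [← e1, ← cl_wl]
        exact r1
      have r2' : π (ev (cl P₁ A₁) (cl P₁ B₁) (act (vm mv) (pol N))) ≠ 1 := by
        rw [← pol_actl, ← cl_wl]
        exact r2
      have r3 := famP_sound π (w' := vv wv') r1' r2' t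
      rw [hsc, ← hmt, hev _ ((hin₂ N).1 n1), map_one] at r3
      exact r3 rfl
    · obtain ⟨k', hk', hS⟩ := famQ_sound hL hc (k := t) (by
          show (((X ^ (vv (sclV k wv)).1 * Y ^ (vv (sclV k wv)).2 :
            (Matrix (Fin D.1) (Fin D.1) ℚ)ˣ) : Matrix (Fin D.1) (Fin D.1) ℚ) - 1) ^ D.1 = 0
          have e1 : X ^ (vv (sclV k wv)).1 * Y ^ (vv (sclV k wv)).2 =
              (X ^ vz wv.1 * Y ^ vz wv.2) ^ k := by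
            rw [hsc]
            show X ^ ((k : ℤ) • vz wv.1) * Y ^ ((k : ℤ) • vz wv.2) = _
            rw [(hc.zpow_zpow _ _).mul_pow, smul_eq_mul, smul_eq_mul, mul_comm (k : ℤ),
              mul_comm (k : ℤ), zpow_mul, zpow_mul, zpow_natCast, zpow_natCast]
          rw [e1]
          exact hUU) hQ (by
          intro N hN
          rw [hsc, ← hmt]
          exact hI _ (hev _ ((hin₂ N).1 hN)))
      refine hNIm _ ?_ hS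
      rw [vm_famN, hk', hsc, hmt]

theorem nj_sound {P₁ P₂ : Pres} [Metab (GN P₁)] [Metab (GN P₂)] (h : NJ P₁ P₂) :
    ¬ Nonempty (GN P₁ ≃* GN P₂) := by
  rintro ⟨σ⟩
  obtain ⟨A₁, B₁, W₁, A₂, B₂, W₂, Js, hG₁, hG₂, hM, hcase⟩ := h
  obtain ⟨θ, hA, hB⟩ := homM_sound hG₁.1 hM
  have hf₁ : AbFree (cl P₁ A₁) (cl P₁ B₁) := by
    apply abfree_map θ
    rw [hA, hB]
    exact gam_abfree
  have hg₁ := genW_gen hG₁
  have hg₂ := genW_gen hG₂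
  have hgσ : Gen2 (σ (cl P₁ A₁)) (σ (cl P₁ B₁)) := gen2_equiv σ hg₁
  have hfσ : AbFree (σ (cl P₁ A₁)) (σ (cl P₁ B₁)) := by
    apply abfree_map σ.symm.toMonoidHom
    show AbFree (σ.symm (σ (cl P₁ A₁))) (σ.symm (σ (cl P₁ B₁)))
    rw [σ.symm_apply_apply, σ.symm_apply_apply]
    exact hf₁
  obtain ⟨hf₂, m, hm, ha, hb⟩ := change hgσ hg₂ hfσ
  have hev : ∀ f : Lam, ev (cl P₂ A₂) (cl P₂ B₂) f = 1 ↔
      ev (cl P₁ A₁) (cl P₁ B₁) (act m f) = 1 := by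
    intro f
    rw [change_ev hgσ hg₂ ha hb]
    have h1 := ev_map σ.toMonoidHom (cl P₁ A₁) (cl P₁ B₁) (act m f)
    have h2 : ev (σ (cl P₁ A₁)) (σ (cl P₁ B₁)) (act m f) = σ (ev (cl P₁ A₁) (cl P₁ B₁) (act m f)) :=
      h1.symm
    rw [h2, map_eq_one_iff σ σ.injective]
  rcases hcase with ⟨u, v, huv, hmem⟩ | ⟨D, hD, hV, hJ⟩
  · rw [cl_sub2] at hmem
    have h1 : (FreeGroup.mk (zp 0 u ++ zp 1 v) : FreeGroup ℕ) =
        FreeGroup.mk (zp 0 u) * FreeGroup.mk (zp 1 v) := FreeGroup.mul_mk.symm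
    rw [h1, map_mul, lift_zp, lift_zp] at hmem
    have h2 := hf₂ _ _ hmem
    rcases huv with h3 | h3
    · exact h3 h2.1
    · exact h3 h2.2
  · obtain ⟨X, Y, hc, hL⟩ := link_ex hD
    refine nj_core hL hc ?_ hm (fun f hf => (hev f).1 hf) hJ
    intro f hf
    have h4 := ev_map θ (cl P₁ A₁) (cl P₁ B₁) f
    rw [hf, map_one, hA, hB] at h4
    have h5 := mem_Ann.2 h4.symm
    rw [gj_ann] at h5
    have h6 : idl Js ≤ RingHom.ker (evm X Y hc) := by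
      unfold idl
      rw [Ideal.span_le]
      rintro _ ⟨L, hLJ, rfl⟩
      exact (vanish_iff hL hc).1 (hV L hLJ)
    exact h6 h5

end Pool.Agent.H28.IP
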