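/-
ROW MoA. The regular representation of the rational algebra of Lam / I.
-/
import Pool.Agent.H28.IQ.MxB
import Pool.Agent.H28.IP.CmF

set_option autoImplicit false

namespace Pool.Agent.H28.IP

open TensorProduct in
theorem MoA_fin {M : Type} [AddCommGroup M] (E : Finset M)
    (hE : ∀ m : M, ∃ n : ℤ, n ≠ 0 ∧ n • m ∈ AddSubgroup.closure (E : Set M)) :
    Module.Finite ℚ (ℚ ⊗[ℤ] M) := by
  classical
  refine ⟨⟨E.image (fun e => (1 : ℚ) ⊗ₜ[ℤ] e), ?_⟩⟩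
  rw [eq_top_iff]
  intro t _
  set P : Submodule ℚ (ℚ ⊗[ℤ] M) :=
    Submodule.span ℚ ((E.image (fun e => (1 : ℚ) ⊗ₜ[ℤ] e) : Finset (ℚ ⊗[ℤ] M)) : Set (ℚ ⊗[ℤ] M))
  have h1 : ∀ m ∈ AddSubgroup.closure (E : Set M), (1 : ℚ) ⊗ₜ[ℤ] m ∈ P := by
    intro m hm
    induction hm using AddSubgroup.closure_induction with
    | mem e he =>
      refine Submodule.subset_span ?_
      rw [Finset.mem_coe, Finset.mem_image]
      exact ⟨e, he, rfl⟩
    | zero => rw [TensorProduct.tmul_zero]; exact P.zero_mem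
    | add a b _ _ ha hb => rw [TensorProduct.tmul_add]; exact P.add_mem ha hb
    | neg a _ ha => rw [TensorProduct.tmul_neg]; exact P.neg_mem ha
  have h2 : ∀ m : M, (1 : ℚ) ⊗ₜ[ℤ] m ∈ P := by
    intro m
    obtain ⟨n, hn, hm⟩ := hE m
    have h3 := h1 _ hm
    rw [TensorProduct.tmul_smul] at h3
    have h4 : ((n : ℚ)⁻¹) • (n • ((1 : ℚ) ⊗ₜ[ℤ] m)) = (1 : ℚ) ⊗ₜ[ℤ] m := by
      rw [← Int.cast_smul_eq_zsmul ℚ n, smul_smul, inv_mul_cancel₀ (by exact_mod_cast hn), one_smul]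
    rw [← h4]
    exact P.smul_mem _ h3
  induction t using TensorProduct.induction_on with
  | zero => exact P.zero_mem
  | tmul q m =>
    have h5 : q ⊗ₜ[ℤ] m = q • ((1 : ℚ) ⊗ₜ[ℤ] m) := by
      rw [TensorProduct.smul_tmul', smul_eq_mul, mul_one]
    rw [h5]
    exact P.smul_mem _ (h2 m)
  | add a b ha hb => exact P.add_mem (ha trivial) (hb trivial)

open TensorProduct in
theorem MoA_inj {M : Type} [AddCommGroup M] (m : M) :
    (1 : ℚ) ⊗ₜ[ℤ] m = 0 ↔ ∃ n : ℕ, n ≠ 0 ∧ n • m = 0 := by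
  have h := IsLocalizedModule.eq_zero_iff (nonZeroDivisors ℤ) (TensorProduct.mk ℤ ℚ M 1) (m := m)
  rw [TensorProduct.mk_apply] at h
  rw [h]
  constructor
  · rintro ⟨s, hs⟩
    refine ⟨s.1.natAbs, by simpa using nonZeroDivisors.coe_ne_zero s, ?_⟩
    have h1 : (s.1 : ℤ) • m = 0 := hs
    rcases Int.natAbs_eq s.1 with h2 | h2
    · rw [h2] at h1; simpa using h1
    · rw [h2] at h1
      rw [neg_smul, neg_eq_zero] at h1
      simpa using h1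
  · rintro ⟨n, hn, hm⟩
    refine ⟨⟨(n : ℤ), mem_nonZeroDivisors_of_ne_zero (by exact_mod_cast hn)⟩, ?_⟩
    show (n : ℤ) • m = 0
    simpa using hm

theorem MoA_rep {A : Type} [CommRing A] [Algebra ℚ A] [Module.Finite ℚ A] (θ : Lam →+* A) :
    ∃ (d : ℕ) (X Y : (Matrix (Fin d) (Fin d) ℚ)ˣ) (hc : Commute X Y),
      ∀ f : Lam, evm X Y hc f = 0 ↔ θ f = 0 := by
  let b : Module.Basis (Fin (Module.finrank ℚ A)) ℚ A := Module.finBasis ℚ A
  let Φ : Lam →+* Matrix (Fin (Module.finrank ℚ A)) (Fin (Module.finrank ℚ A)) ℚ :=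
    ((Algebra.leftMulMatrix b : A →ₐ[ℚ] _) : A →+* _).comp θ
  have hc : Commute (Units.map (Φ : Lam →* Matrix (Fin (Module.finrank ℚ A)) (Fin (Module.finrank ℚ A)) ℚ) XL) (Units.map (Φ : Lam →* Matrix (Fin (Module.finrank ℚ A)) (Fin (Module.finrank ℚ A)) ℚ) YL) := by
    show Units.map (Φ : Lam →* Matrix (Fin (Module.finrank ℚ A)) (Fin (Module.finrank ℚ A)) ℚ) XL * Units.map (Φ : Lam →* Matrix (Fin (Module.finrank ℚ A)) (Fin (Module.finrank ℚ A)) ℚ) YL =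
      Units.map (Φ : Lam →* Matrix (Fin (Module.finrank ℚ A)) (Fin (Module.finrank ℚ A)) ℚ) YL * Units.map (Φ : Lam →* Matrix (Fin (Module.finrank ℚ A)) (Fin (Module.finrank ℚ A)) ℚ) XL
    rw [← map_mul, ← map_mul, mul_comm]
  refine ⟨Module.finrank ℚ A, _, _, hc, fun f => ?_⟩
  have h1 : evm _ _ hc f = Φ f := by
    refine lam_ind (p := fun f => evm _ _ hc f = Φ f) ?_ ?_ ?_ ?_ f
    · rw [map_zero, map_zero]
    · intro f g hf hg
      rw [map_add, map_add, hf, hg]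
    · intro f hf
      rw [map_neg, map_neg, hf]
    · intro z
      rw [evm_mo, ← map_zpow, ← map_zpow, ← map_mul]
      show Φ ((XL ^ z.1 * YL ^ z.2 : Lamˣ) : Lam) = _
      congr 1
      rw [Units.val_mul, pow_XL, pow_YL, ← mo_add]
      simp
  rw [h1]
  show (Algebra.leftMulMatrix b) (θ f) = 0 ↔ _
  rw [map_eq_zero_iff _ (Algebra.leftMulMatrix_injective b)]

open TensorProduct in
theorem model_ex {I : Ideal Lam} (hE : ∃ E : Finset (Lam ⧸ I), ∀ m : Lam ⧸ I, ∃ n : ℤ, n ≠ 0 ∧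
      n • m ∈ AddSubgroup.closure (E : Set (Lam ⧸ I))) :
    ∃ (d : ℕ) (X Y : (Matrix (Fin d) (Fin d) ℚ)ˣ) (hc : Commute X Y),
      ∀ f : Lam, evm X Y hc f = 0 ↔ ∃ n : ℕ, n ≠ 0 ∧ (n : Lam) * f ∈ I := by
  obtain ⟨E, hE⟩ := hE
  have hf : Module.Finite ℚ (ℚ ⊗[ℤ] (Lam ⧸ I)) := MoA_fin E hE
  obtain ⟨d, X, Y, hc, h⟩ := MoA_rep (A := ℚ ⊗[ℤ] (Lam ⧸ I))
    ((Algebra.TensorProduct.includeRight (R := ℤ) (A := ℚ) (B := Lam ⧸ I)).toRingHom.comp
      (Ideal.Quotient.mk I))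
  refine ⟨d, X, Y, hc, fun f => ?_⟩
  rw [h f]
  show (1 : ℚ) ⊗ₜ[ℤ] (Ideal.Quotient.mk I f) = 0 ↔ _
  rw [MoA_inj]
  refine exists_congr fun n => and_congr_right fun _ => ?_
  rw [← Ideal.Quotient.eq_zero_iff_mem, map_mul, map_natCast, nsmul_eq_mul]

end Pool.Agent.H28.IP
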