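/-
ROW MoB. Numerical models.
PROOF. Let `m ≥ 1` be a common denominator of the entries of `X, X⁻¹, Y, Y⁻¹` (product of the denominators), and
`A, A', B, B'` lists (toM_surj in MxA) with `toM A = m X`, `toM A' = m X⁻¹`, `toM B = m Y`, `toM B' = m Y⁻¹` (after the map
to ℚ). `D = (d, m, A, A', B, B')`, so `D.1 = d` by definition; take `X' = X`, `Y' = Y`. MatOK: eqM_iff, toM_mul, toM_scl
and injectivity of the map of integer matrices to rational ones. Link: toM_mul, toM_pow: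
`numM D w = (m X) ^ a (m X⁻¹) ^ a' ((m Y) ^ b (m Y⁻¹) ^ b') = m ^ (a + a' + b + b') X ^ (a - a') Y ^ (b - b')`.
model: rat_span (Pool.Agent.H28.IP.FbA) with elim_x (Pool.Agent.H28.IP.FaE) and elim_y (Pool.Agent.H28.IP.FaD) gives
the hypothesis of model_ex (MoA).
-/
import Pool.Agent.H28.IQ.MoA
import Pool.Agent.H28.IP.FbA
import Pool.Agent.H28.IP.FaD

set_option autoImplicit false

namespace Pool.Agent.H28.IP

theorem MoB_den {d : ℕ} {ι : Type} [Fintype ι] (M : ι → Matrix (Fin d) (Fin d) ℚ) :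
    ∃ m : ℕ, 1 ≤ m ∧ ∀ t, ∃ A : Matrix (Fin d) (Fin d) ℤ,
      A.map (Int.cast : ℤ → ℚ) = (m : ℚ) • M t := by
  classical
  refine ⟨∏ p : ι × Fin d × Fin d, (M p.1 p.2.1 p.2.2).den,
    Finset.prod_pos fun p _ => Rat.den_pos _, fun t => ?_⟩
  have h : ∀ i j, ∃ z : ℤ, (z : ℚ) =
      ((∏ p : ι × Fin d × Fin d, (M p.1 p.2.1 p.2.2).den : ℕ) : ℚ) * M t i j := by
    intro i j
    obtain ⟨c, hc⟩ : (M t i j).den ∣ ∏ p : ι × Fin d × Fin d, (M p.1 p.2.1 p.2.2).den :=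
      Finset.dvd_prod_of_mem (fun p : ι × Fin d × Fin d => (M p.1 p.2.1 p.2.2).den)
        (Finset.mem_univ (t, i, j))
    refine ⟨(c : ℤ) * (M t i j).num, ?_⟩
    rw [hc]
    push_cast
    have h1 : ((M t i j).den : ℚ) * M t i j = (M t i j).num := Rat.den_mul_eq_num _
    rw [← h1]
    ring
  choose z hz using h
  refine ⟨Matrix.of z, ?_⟩
  ext i j
  simp only [Matrix.map_apply, Matrix.of_apply, Matrix.smul_apply, smul_eq_mul]
  exact hz i j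

theorem model_num {d : ℕ} {X Y : (Matrix (Fin d) (Fin d) ℚ)ˣ} (hc : Commute X Y) :
    ∃ D : MD, MatOK D ∧ ∃ (X' Y' : (Matrix (Fin D.1) (Fin D.1) ℚ)ˣ) (hc' : Commute X' Y'),
      Link D X' Y' ∧ ∀ f : Lam, evm X' Y' hc' f = 0 ↔ evm X Y hc f = 0 := by
  obtain ⟨m, hm, hM⟩ := MoB_den (d := d) (ι := Fin 4)
    ![(X : Matrix (Fin d) (Fin d) ℚ), ((X⁻¹ : (Matrix (Fin d) (Fin d) ℚ)ˣ) : Matrix (Fin d) (Fin d) ℚ),
      (Y : Matrix (Fin d) (Fin d) ℚ), ((Y⁻¹ : (Matrix (Fin d) (Fin d) ℚ)ˣ) : Matrix (Fin d) (Fin d) ℚ)]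
  obtain ⟨A0, hA0⟩ := hM 0
  obtain ⟨A1, hA1⟩ := hM 1
  obtain ⟨A2, hA2⟩ := hM 2
  obtain ⟨A3, hA3⟩ := hM 3
  obtain ⟨A, rfl⟩ := toM_surj A0
  obtain ⟨A', rfl⟩ := toM_surj A1
  obtain ⟨B, rfl⟩ := toM_surj A2
  obtain ⟨B', rfl⟩ := toM_surj A3
  let φ : Matrix (Fin d) (Fin d) ℤ →+* Matrix (Fin d) (Fin d) ℚ := (Int.castRingHom ℚ).mapMatrix
  have hφ : ∀ M : Matrix (Fin d) (Fin d) ℤ, φ M = M.map (Int.cast : ℤ → ℚ) := fun M => rfl
  have hinj : Function.Injective φ := fun M N h => by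
    ext i j
    have h2 : (M i j : ℚ) = (N i j : ℚ) := congrFun (congrFun h i) j
    exact_mod_cast h2
  have eA : φ (toM d A) = (m : ℚ) • (X : Matrix (Fin d) (Fin d) ℚ) := hA0
  have eA' : φ (toM d A') = (m : ℚ) • ((X⁻¹ : (Matrix (Fin d) (Fin d) ℚ)ˣ) : Matrix (Fin d) (Fin d) ℚ) := hA1
  have eB : φ (toM d B) = (m : ℚ) • (Y : Matrix (Fin d) (Fin d) ℚ) := hA2
  have eB' : φ (toM d B') = (m : ℚ) • ((Y⁻¹ : (Matrix (Fin d) (Fin d) ℚ)ˣ) : Matrix (Fin d) (Fin d) ℚ) := hA3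
  have escl : φ (toM d (sclM d (m * m))) = ((m : ℚ) * m) • (1 : Matrix (Fin d) (Fin d) ℚ) := by
    rw [toM_scl, map_zsmul, map_one]
    ext i j
    simp [Matrix.smul_apply]
  refine ⟨(d, m, A, A', B, B'), ⟨hm, ?_, ?_, ?_⟩, X, Y, hc, ⟨hm, ?_⟩, fun f => Iff.rfl⟩
  · refine (eqM_iff d _ _).2 (hinj ?_)
    rw [toM_mul, map_mul, eA, eA', escl, smul_mul_smul_comm, Units.mul_inv]
  · refine (eqM_iff d _ _).2 (hinj ?_)
    rw [toM_mul, map_mul, eB, eB', escl, smul_mul_smul_comm, Units.mul_inv]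
  · refine (eqM_iff d _ _).2 (hinj ?_)
    rw [toM_mul, toM_mul, map_mul, map_mul, eA, eB, smul_mul_smul_comm, smul_mul_smul_comm,
      ← Units.val_mul, ← Units.val_mul, hc.eq]
  · intro w
    show (toM d (mulM d (mulM d (powM d A w.1.1) (powM d A' w.1.2))
      (mulM d (powM d B w.2.1) (powM d B' w.2.2)))).map (Int.cast : ℤ → ℚ) =
      ((m : ℚ) ^ dg w) • ((X ^ vz w.1 * Y ^ vz w.2 : (Matrix (Fin d) (Fin d) ℚ)ˣ) : Matrix (Fin d) (Fin d) ℚ)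
    rw [← hφ, toM_mul, toM_mul, toM_mul, toM_pow, toM_pow, toM_pow, toM_pow]
    simp only [map_mul, map_pow]
    rw [eA, eA', eB, eB', smul_pow, smul_pow, smul_pow, smul_pow, smul_mul_smul_comm,
      smul_mul_smul_comm, smul_mul_smul_comm]
    have hz : ∀ (Z : (Matrix (Fin d) (Fin d) ℚ)ˣ) (u : ℕ × ℕ),
        ((Z ^ vz u : (Matrix (Fin d) (Fin d) ℚ)ˣ) : Matrix (Fin d) (Fin d) ℚ) =
        (Z : Matrix (Fin d) (Fin d) ℚ) ^ u.1 *
          ((Z⁻¹ : (Matrix (Fin d) (Fin d) ℚ)ˣ) : Matrix (Fin d) (Fin d) ℚ) ^ u.2 := by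
      intro Z u
      rw [← Units.val_pow_eq_pow_val, ← Units.val_pow_eq_pow_val, ← Units.val_mul]
      congr 1
      rw [show vz u = (u.1 : ℤ) - u.2 from rfl, zpow_sub, zpow_natCast, zpow_natCast, inv_pow]
    rw [Units.val_mul, hz, hz]
    congr 1
    unfold dg
    ring

theorem model {I : Ideal Lam}
    (hfin : ∀ p : ℕ, p.Prime → Finite (Lam ⧸ (I ⊔ Ideal.span {(p : Lam)}))) :
    ∃ D : MD, MatOK D ∧ ∃ (X Y : (Matrix (Fin D.1) (Fin D.1) ℚ)ˣ) (hc : Commute X Y),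
      Link D X Y ∧ ∀ f : Lam, evm X Y hc f = 0 ↔ ∃ n : ℕ, n ≠ 0 ∧ (n : Lam) * f ∈ I := by
  obtain ⟨a, ha, hx⟩ := elim_x hfin
  obtain ⟨b, hb, hy⟩ := elim_y hfin
  obtain ⟨d, X, Y, hc, h⟩ := model_ex (I := I) (rat_span ha hb hx hy)
  obtain ⟨D, hD, X', Y', hc', hl, hv⟩ := model_num hc
  exact ⟨D, hD, X', Y', hc', hl, fun f => (hv f).trans (h f)⟩

end Pool.Agent.H28.IP
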