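/-
ROW PbE. The one-variable relations exist.
PROOF. `I = Ann (cl P A) (cl P B)`. By elim_x (Pool.Agent.H28.IP.FaE) there is `d ≠ 0` over ℤ with `f = aeval (mo (1, 0)) d ∈ I`.
`f = ∑ d_i mo (i, 0)` (`mo (1,0) ^ i = mo (i, 0)`), so `f.coeff (i, 0) = d_i` and all exponents in the support have second
component 0; `f ≠ 0`. Let `Lx` be the list of pol_nice (CvG) for `f`: `pol Lx = f`, every entry has `vz e.2.1 = 0`, and
`pol Lx` has a nonzero coefficient (`(0 : ℤ) ∣ c ↔ c = 0`). `InN P (subst [A, B] (wl Lx))` because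
`cl P (subst [A, B] (wl Lx)) = ev (cl P A) (cl P B) (pol Lx)` (cl_sub2 in Pool.Agent.H28.IP.GwA and wl_ev in WlA, as in cl_wl
of Pool.Agent.H28.IP.Main2) `= 1` (mem_Ann in EvA), and cl_one (Pool.Agent.H28.IP.NcB). The same with elim_y
(Pool.Agent.H28.IP.FaD) for `Ly`. Take `c` with `2 ^ c ≥` both lengths (`n < 2 ^ n`).
-/
import Pool.Agent.H28.IQ.CvG
import Pool.Agent.H28.IP.FaD
import Pool.Agent.H28.IP.GwA
import Pool.Agent.H28.IP.NcB

set_option autoImplicit false

namespace Pool.Agent.H28.IP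

theorem PbE_co (u : ℤ × ℤ) (hu : ∀ i j : ℕ, (i : ℤ) • u = (j : ℤ) • u → i = j)
    (d : Polynomial ℤ) : ∀ n : ℕ, (Polynomial.aeval (mo u) d).coeff ((n : ℤ) • u) = d.coeff n := by
  intro n
  induction d using Polynomial.induction_on' with
  | add p q hp hq => rw [map_add, Polynomial.coeff_add, ← hp, ← hq]; rfl
  | monomial m a =>
    have h1 : Polynomial.aeval (mo u) (Polynomial.monomial m a) =
        (AddMonoidAlgebra.single (m • u) a : Lam) := by
      rw [Polynomial.aeval_monomial]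
      unfold mo
      rw [AddMonoidAlgebra.single_pow, one_pow, Algebra.algebraMap_eq_smul_one]
      rw [smul_mul_assoc, one_mul, AddMonoidAlgebra.smul_single, smul_eq_mul, mul_one]
    rw [h1, Polynomial.coeff_monomial, AddMonoidAlgebra.coeff_single, Finsupp.single_apply]
    by_cases h : m = n
    · subst h
      rw [if_pos rfl, if_pos (natCast_zsmul u m).symm]
    · rw [if_neg h, if_neg]
      intro h2
      exact h (hu m n (by rw [← h2, natCast_zsmul]))

theorem PbE_su (u : ℤ × ℤ) (d : Polynomial ℤ) : ∀ z ∈ (Polynomial.aeval (mo u) d).coeff.support,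
    ∃ n : ℕ, z = (n : ℤ) • u := by
  intro z hz
  by_contra hne
  push Not at hne
  apply Finsupp.mem_support_iff.1 hz
  clear hz
  induction d using Polynomial.induction_on' with
  | add p q hp hq =>
    rw [map_add]
    show (Polynomial.aeval (mo u) p).coeff z + (Polynomial.aeval (mo u) q).coeff z = 0
    rw [hp, hq, add_zero]
  | monomial m a =>
    have h1 : Polynomial.aeval (mo u) (Polynomial.monomial m a) =
        (AddMonoidAlgebra.single (m • u) a : Lam) := by
      rw [Polynomial.aeval_monomial]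
      unfold mo
      rw [AddMonoidAlgebra.single_pow, one_pow, Algebra.algebraMap_eq_smul_one]
      rw [smul_mul_assoc, one_mul, AddMonoidAlgebra.smul_single, smul_eq_mul, mul_one]
    rw [h1, AddMonoidAlgebra.coeff_single, Finsupp.single_apply, if_neg]
    intro h2
    exact hne m (by rw [← h2, natCast_zsmul])

theorem PbE_one {P : Pres} [Metab (GN P)] {A B : Word} (u : ℤ × ℤ)
    (hu : ∀ i j : ℕ, (i : ℤ) • u = (j : ℤ) • u → i = j) {d : Polynomial ℤ} (hd : d ≠ 0)
    (hI : Polynomial.aeval (mo u) d ∈ Ann (cl P A) (cl P B)) :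
    ∃ L : NL, InN P (subst [A, B] (wl L)) ∧ (∀ e ∈ L, ∃ n : ℕ, ((vz e.1, vz e.2.1) : ℤ × ℤ) = (n : ℤ) • u) ∧
      ∃ z, ¬ ((0 : ℕ) : ℤ) ∣ (pol L).coeff z := by
  obtain ⟨L, h1, h2, -⟩ := pol_nice (Polynomial.aeval (mo u) d)
  refine ⟨L, ?_, fun e he => PbE_su u d _ (h2 e he), ?_⟩
  · rw [← cl_one, cl_sub2, wl_ev]
    show ev (cl P A) (cl P B) (pol L) = 1
    rw [h1]
    exact mem_Ann.1 hI
  · have h3 : ∃ n, d.coeff n ≠ 0 := by
      by_contra h
      push Not at h
      exact hd (Polynomial.ext (fun n => by rw [h n, Polynomial.coeff_zero]))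
    obtain ⟨n, hn⟩ := h3
    refine ⟨(n : ℤ) • u, ?_⟩
    rw [h1, PbE_co u hu, Nat.cast_zero, zero_dvd_iff]
    exact hn

theorem pb_ex {P : Pres} [Metab (GN P)] {A B : Word}
    (hfin : ∀ p : ℕ, p.Prime →
      Finite (Lam ⧸ (Ann (cl P A) (cl P B) ⊔ Ideal.span {(p : Lam)}))) : ∃ c, PB P A B c := by
  obtain ⟨d, hd, hI⟩ := elim_x hfin
  obtain ⟨d', hd', hI'⟩ := elim_y hfin
  obtain ⟨Lx, x1, x2, x3⟩ := PbE_one (1, 0) (by
    intro i j h
    have := congrArg Prod.fst h
    simpa using this) hd hI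
  obtain ⟨Ly, y1, y2, y3⟩ := PbE_one (0, 1) (by
    intro i j h
    have := congrArg Prod.snd h
    simpa using this) hd' hI'
  refine ⟨Lx.length + Ly.length, Lx, Ly, ⟨x1, y1⟩, ⟨?_, ?_⟩, ⟨x3, y3⟩, ?_, ?_⟩
  · intro e he
    obtain ⟨n, hn⟩ := x2 e he
    have := congrArg Prod.snd hn
    simpa using this
  · intro e he
    obtain ⟨n, hn⟩ := y2 e he
    have := congrArg Prod.fst hn
    simpa using this
  · exact (Nat.lt_two_pow_self).le.trans (Nat.pow_le_pow_right (by norm_num) (Nat.le_add_right _ _))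
  · exact (Nat.lt_two_pow_self).le.trans (Nat.pow_le_pow_right (by norm_num) (Nat.le_add_left _ _))


end Pool.Agent.H28.IP
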