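import Pool.Agent.H28.IQ.MainA
import Pool.Agent.H28.IQ.MoB
import Pool.Agent.H28.IQ.CvH
import Pool.Agent.H28.IQ.PbE
import Pool.Agent.H28.IQ.FmC
import Pool.Agent.H28.IQ.FmD
import Pool.Agent.H28.IQ.FmH
import Pool.Agent.H28.IQ.FgA
import Pool.Agent.H28.IQ.FgB

set_option autoImplicit false

namespace Pool.Agent.H28.IP

/-- from `hno` to a certificate for one matrix -/
theorem nims_of {P₁ P₂ : Pres} [Metab (GN P₁)] [Metab (GN P₂)] {A₁ B₁ A₂ B₂ : Word}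
    (hg₁ : Gen2 (cl P₁ A₁) (cl P₁ B₁)) (hf₁ : AbFree (cl P₁ A₁) (cl P₁ B₁)) {m : MP}
    (hno : ¬ ∀ f ∈ Ann (cl P₂ A₂) (cl P₂ B₂), act (vm m) f ∈ Ann (cl P₁ A₁) (cl P₁ B₁)) :
    NImS P₁ A₁ B₁ P₂ A₂ B₂ m := by
  push Not at hno
  obtain ⟨f, hf, hf'⟩ := hno
  obtain ⟨N, rfl⟩ := pol_surj f
  refine ⟨N, ?_, ?_⟩
  · rw [← cl_one, cl_wl]
    exact mem_Ann.1 hf
  · rw [mem_Ann, ← pol_actl, ← cl_wl] at hf'
    obtain ⟨Q, iQ, fQ, π, hπ⟩ := metab_rf hg₁ hf₁ hf'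
    exact fq_complete π hπ

theorem fam_complete {D : MD} {X Y : (Matrix (Fin D.1) (Fin D.1) ℚ)ˣ} (hL : Link D X Y)
    (hc : Commute X Y) {P₁ P₂ : Pres} [Metab (GN P₁)] [Metab (GN P₂)] {A₁ B₁ A₂ B₂ : Word}
    (hg₁ : Gen2 (cl P₁ A₁) (cl P₁ B₁)) (hf₁ : AbFree (cl P₁ A₁) (cl P₁ B₁))
    (hker : ∀ f : Lam, evm X Y hc f = 0 ↔
      ∃ n : ℕ, n ≠ 0 ∧ (n : Lam) * f ∈ Ann (cl P₁ A₁) (cl P₁ B₁))
    {q : ℕ} (hq : 1 ≤ q) (hper : ∀ f : Lam,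
      (∃ n : ℕ, n ≠ 0 ∧ (n : Lam) * f ∈ Ann (cl P₁ A₁) (cl P₁ B₁)) →
      f ∉ Ann (cl P₁ A₁) (cl P₁ B₁) →
      ∃ (Q : Type) (_ : Group Q) (_ : Finite Q) (π : GN P₁ →* Q),
        π (ev (cl P₁ A₁) (cl P₁ B₁) f) ≠ 1 ∧
        ∀ w : ℤ × ℤ, π (ev (cl P₁ A₁) (cl P₁ B₁) (mo ((q : ℤ) • w) - 1)) = 1)
    (hno : ∀ m : ℤ × ℤ × ℤ × ℤ, (dt m = 1 ∨ dt m = -1) →
      ¬ ∀ f ∈ Ann (cl P₂ A₂) (cl P₂ B₂), act m f ∈ Ann (cl P₁ A₁) (cl P₁ B₁))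
    {w : VV} {h : ℕ} (hh : 1 ≤ h) (hU : Unip D w h) (K : ℕ) (w' : VV) :
    Fam D P₁ A₁ B₁ P₂ A₂ B₂ K w w' := by
  refine ⟨h * q, Nat.mul_pos hh hq, unip_mul hL hc q hU, ?_⟩
  intro m _ hdm hmw
  have hsc : vv (sclV (h * q) w) = ((h * q : ℕ) : ℤ) • vv w := vv_sclV _ w
  have hdf : ∀ k : ℕ × ℕ, dt (vm (famN m (sclV (h * q) w) w' k)) = 1 ∨
      dt (vm (famN m (sclV (h * q) w) w' k)) = -1 := by
    intro k
    rw [vm_famN, hsc, dt_fam hmw]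
    exact hdm
  by_cases hex : ∃ (N : NL) (t : ℤ), InN P₂ (subst [A₂, B₂] (wl N)) ∧
      evm X Y hc (act (fam (vm m) (vv (sclV (h * q) w)) (vv w') t) (pol N)) ≠ 0
  · right
    obtain ⟨N, t, hN, hV⟩ := hex
    refine famQ_complete hL hc ?_ hN hV (fun k => nims_of hg₁ hf₁ (hno _ (hdf k)))
    have h1 := (unip_iff hL hc).1 (unip_mul hL hc q hU)
    have e1 : X ^ vz (sclV (h * q) w).1 * Y ^ vz (sclV (h * q) w).2 =
        (X ^ vz w.1 * Y ^ vz w.2) ^ (h * q) := by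
      show X ^ (vv (sclV (h * q) w)).1 * Y ^ (vv (sclV (h * q) w)).2 = _
      rw [hsc]
      show X ^ (((h * q : ℕ) : ℤ) • vz w.1) * Y ^ (((h * q : ℕ) : ℤ) • vz w.2) = _
      rw [(hc.zpow_zpow _ _).mul_pow, smul_eq_mul, smul_eq_mul, mul_comm ((h * q : ℕ) : ℤ),
        mul_comm ((h * q : ℕ) : ℤ), zpow_mul, zpow_mul, zpow_natCast, zpow_natCast]
    rw [e1]
    exact h1
  · left
    push Not at hex
    have h1 := hno (vm m) hdm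
    push Not at h1
    obtain ⟨f, hf, hf'⟩ := h1
    obtain ⟨N, rfl⟩ := pol_surj f
    have hN : InN P₂ (subst [A₂, B₂] (wl N)) := by
      rw [← cl_one, cl_wl]
      exact mem_Ann.1 hf
    have h0 := hex N 0 hN
    have e0 : fam (vm m) (vv (sclV (h * q) w)) (vv w') 0 = vm m := by
      unfold fam
      simp
    rw [e0] at h0
    obtain ⟨Q, iQ, fQ, π, p1, p2⟩ := hper _ ((hker _).1 h0) hf'
    refine ⟨N, hN, ?_⟩
    refine fqp_complete π ?_ ?_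
    · have e1 : pol [((sclV (h * q) w).1, (sclV (h * q) w).2, true), ((0, 0), (0, 0), false)] =
          mo (vv (sclV (h * q) w)) - 1 := by
        rw [WlA_pol_cons, WlA_pol_cons]
        show mo (vz (sclV (h * q) w).1, vz (sclV (h * q) w).2) + (-mo (vz (0, 0), vz (0, 0)) + 0) = _
        have e2 : ((vz (0, 0), vz (0, 0)) : ℤ × ℤ) = 0 := rfl
        rw [e2, mo_zero, add_zero, sub_eq_add_neg]
        rfl
      rw [cl_wl, e1, hsc]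
      have e3 : ((h * q : ℕ) : ℤ) • vv w = (q : ℤ) • ((h : ℤ) • vv w) := by
        rw [smul_smul]
        congr 1
        push_cast
        ring
      rw [e3]
      exact p2 _
    · rw [cl_wl, pol_actl]
      exact p1

theorem exists_K {α : Type} (l : List α) (A C : α → Prop) (G : α → ℕ → Prop) (g : ℕ → ℕ)
    (K₀ : ℕ) (h : ∀ w ∈ l, A w ∨ (∃ n, G w n) ∨ C w) :
    ∃ K, K₀ ≤ K ∧ ∀ w ∈ l, A w ∨ (∃ n, G w n ∧ g n ≤ K) ∨ C w := by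
  induction l with
  | nil => exact ⟨K₀, le_refl _, fun w hw => by simp at hw⟩
  | cons x l ih =>
    obtain ⟨K, hK, hl⟩ := ih (fun w hw => h w (List.mem_cons_of_mem _ hw))
    have mono : ∀ K', K ≤ K' → ∀ w ∈ l, A w ∨ (∃ n, G w n ∧ g n ≤ K') ∨ C w := by
      intro K' hKK w hw
      rcases hl w hw with h1 | ⟨n, h1, h2⟩ | h1
      · exact Or.inl h1
      · exact Or.inr (Or.inl ⟨n, h1, h2.trans hKK⟩)
      · exact Or.inr (Or.inr h1)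
    rcases h x List.mem_cons_self with h1 | ⟨n, h1⟩ | h1
    · refine ⟨K, hK, fun w hw => ?_⟩
      rcases List.mem_cons.1 hw with rfl | hw
      · exact Or.inl h1
      · exact hl w hw
    · refine ⟨K + g n, by omega, fun w hw => ?_⟩
      rcases List.mem_cons.1 hw with rfl | hw
      · exact Or.inr (Or.inl ⟨n, h1, by omega⟩)
      · exact mono _ (by omega) w hw
    · refine ⟨K, hK, fun w hw => ?_⟩
      rcases List.mem_cons.1 hw with rfl | hw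
      · exact Or.inr (Or.inr h1)
      · exact hl w hw

theorem idl_fg (I : Ideal Lam) : ∃ Js : List NL, idl Js = I := by
  have hI : I.FG := (isNoetherianRing_iff_ideal_fg Lam).1 inferInstance I
  obtain ⟨S, hS⟩ := hI
  choose g hg using pol_surj
  refine ⟨S.toList.map g, ?_⟩
  unfold idl
  rw [← hS]
  congr 1
  ext f
  simp only [List.mem_map, Finset.mem_toList, Set.mem_setOf_eq, Finset.mem_coe]
  constructor
  · rintro ⟨L, ⟨f', hf', rfl⟩, rfl⟩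
    rw [hg]
    exact hf'
  · intro hf
    exact ⟨g f, ⟨f, hf, rfl⟩, (hg f).symm⟩

theorem nj_complete {P₁ P₂ : Pres} [Metab (GN P₁)] [Metab (GN P₂)] {a₁ b₁ : GN P₁}
    {a₂ b₂ : GN P₂} (hg₁ : Gen2 a₁ b₁) (hg₂ : Gen2 a₂ b₂) (hf₁ : AbFree a₁ b₁)
    (hfin₁ : ∀ p : ℕ, p.Prime → Finite (Lam ⧸ (Ann a₁ b₁ ⊔ Ideal.span {(p : Lam)})))
    (hfin₂ : ∀ p : ℕ, p.Prime → Finite (Lam ⧸ (Ann a₂ b₂ ⊔ Ideal.span {(p : Lam)})))
    (hnf : ¬ Module.Finite ℤ (Lam ⧸ Ann a₁ b₁))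
    (hno : ∀ m : ℤ × ℤ × ℤ × ℤ, (dt m = 1 ∨ dt m = -1) →
      ¬ ∀ f ∈ Ann a₂ b₂, act m f ∈ Ann a₁ b₁) : NJ P₁ P₂ := by
  obtain ⟨A₁, B₁, W₁, hG₁, rfl, rfl⟩ := genW_exists hg₁
  obtain ⟨A₂, B₂, W₂, hG₂, rfl, rfl⟩ := genW_exists hg₂
  obtain ⟨Js, hJs⟩ := idl_fg (Ann (cl P₁ A₁) (cl P₁ B₁))
  have hM : HomM P₁ Js A₁ B₁ W₁ := by
    obtain ⟨ψ, hψa, hψb⟩ := psi_iso hg₁ hf₁
    obtain ⟨κ, hκ⟩ := gjMap_exists (le_of_eq hJs.symm)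
    refine homM_complete hG₁ (κ.comp ψ.symm.toMonoidHom) ?_ ?_
    · show κ (ψ.symm (cl P₁ A₁)) = al
      have h1 : ψ.symm (cl P₁ A₁) = al := ψ.symm_apply_eq.2 hψa.symm
      rw [h1]
      obtain ⟨h2, h3, h4⟩ := hκ al
      ext
      · rw [h2]; rfl
      · rw [h3]; rfl
      · rw [h4]
        show Ideal.Quotient.factor _ 0 = 0
        exact map_zero _
    · show κ (ψ.symm (cl P₁ B₁)) = be
      have h1 : ψ.symm (cl P₁ B₁) = be := ψ.symm_apply_eq.2 hψb.symm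
      rw [h1]
      obtain ⟨h2, h3, h4⟩ := hκ be
      ext
      · rw [h2]; rfl
      · rw [h3]; rfl
      · rw [h4]
        show Ideal.Quotient.factor _ 0 = 0
        exact map_zero _
  refine ⟨A₁, B₁, W₁, A₂, B₂, W₂, Js, hG₁, hG₂, hM, Or.inr ?_⟩
  obtain ⟨D, hD, X, Y, hc, hL, hker⟩ := model hfin₁
  refine ⟨D, hD, ?_, ?_⟩
  · intro L hLJ
    rw [vanish_iff hL hc, hker]
    refine ⟨1, one_ne_zero, ?_⟩
    rw [Nat.cast_one, one_mul, ← hJs]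
    exact Ideal.subset_span ⟨L, hLJ, rfl⟩
  obtain ⟨c₁, hc₁⟩ := pb_ex hfin₁
  obtain ⟨c₂, hc₂⟩ := pb_ex hfin₂
  obtain ⟨Ls₁, b₁, hLs₁, hCv₁⟩ := cov_ex hfin₁
  obtain ⟨Ls₂, b₂, hLs₂, hCv₂⟩ := cov_ex hfin₂
  obtain ⟨q, hq, hper⟩ := per_quot hg₁ hf₁ hfin₁
  have hT := tors_fin (I := Ann (cl P₁ A₁) (cl P₁ B₁)) (fun n hn => fin_nat hfin₁ hn)
  obtain ⟨K, hK₀, hK⟩ := exists_K (box2 (2 * b₁)) (fun w => NonInt D w)
    (fun w => ∀ w' : VV, Fam D P₁ A₁ B₁ P₂ A₂ B₂ (4 * b₁ * b₂) w w')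
    (fun w n => Growth D w n)
    (fun n => (n * (c₂ + 8 * b₁ * b₂ * c₁) + 2 * b₂) * (2 * b₁)) (8 * b₁ * b₂) (by
      intro w _
      by_cases h1 : NonInt D w
      · exact Or.inl h1
      · right
        rcases tri hL hc h1 with h2 | ⟨h, hh, hU⟩
        · exact Or.inl h2
        · exact Or.inr fun w' => fam_complete hL hc hg₁ hf₁ hker hq hper hno hh hU _ w')
  refine ⟨c₁, c₂, b₁, b₂, K, Ls₁, Ls₂, ⟨hc₁, hc₂⟩, ⟨?_, ?_⟩, ⟨hCv₁, hCv₂⟩, hK₀, ?_, ?_, ?_⟩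
  · intro L hL'
    rw [← cl_one, cl_wl]
    exact mem_Ann.1 (hLs₁ L hL')
  · intro L hL'
    rw [← cl_one, cl_wl]
    exact mem_Ann.1 (hLs₂ L hL')
  · by_contra hcon
    push Not at hcon
    exact hnf (fg_of_not hL hc hker hT hcon.1 hcon.2)
  · intro w hw _
    rcases hK w hw with h1 | h1 | h1
    · exact Or.inl h1
    · exact Or.inr (Or.inl h1)
    · exact Or.inr (Or.inr fun w' _ _ => h1 w')
  · intro m _ hm
    exact nims_of hg₁ hf₁ (hno _ hm)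

end Pool.Agent.H28.IP
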