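/-
ROW ZaE. Primitive relations.
PROOF. `L = {(i, j) | a ^ i * b ^ j ∈ commutator G}` is a subgroup of `ℤ²` (`a ^ i b ^ j` in the abelian group
`Abelianization G`), so `L = ℤ z₁ + ℤ z₂` (FbD_Z2 in Pool.Agent.H28.IP.FbD). By h no prime divides all the four coordinates of
`z₁, z₂`. Claim: `L` contains `(i, j)` with `gcd i j = 1`. Let `Δ = det2 z₁ z₂`.
If `Δ ≠ 0`: for a prime `p ∣ Δ`, `z₁ + t z₂ ≢ 0 mod p` for all but at most one class of `t` mod `p` if `z₂ ≢ 0 mod p`, and for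
all `t` if `z₂ ≡ 0 mod p` (then `z₁ ≢ 0`). So by the Chinese remainder theorem there is `t` with `z₁ + t z₂ ≢ 0 mod p` for all the
primes `p ∣ Δ`; a common prime divisor `p` of the coordinates of `z₁ + t z₂` divides `det2 (z₁ + t z₂) z₂ = Δ`, so there is
none. (If `Δ ≠ 0` one can also take `t` as the product of the primes `p ∣ Δ` with `p ∤ z₁`, as in the usual
argument: for `p ∣ Δ` with `z₁ ≡ 0 mod p` we have `z₂ ≢ 0` and `p ∤ t`; for `p ∣ Δ` with `z₁ ≢ 0 mod p` we have `p ∣ t`.)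
If `Δ = 0`: `z₁, z₂` are multiples of one vector `v` with `gcd v = 1` (or both zero, impossible), `z₁ = k v`, `z₂ = l v`,
`gcd k l = 1` since a common prime would divide all coordinates, so `v ∈ L`.
Now let `(i, j) ∈ L` with `gcd i j = 1`, `r i + s j = 1` (Int.gcd_eq_gcd_ab / `Int.isCoprime_iff_gcd_eq_one`), and
`m = (s, -r, i, j)`: `dt m = s j - (-r) i = 1`. By lift_gl2 (Pool.Agent.H28.IP.Lif) there are `a', b'` with Gen2 and
`b' * (a ^ i * b ^ j)⁻¹ ∈ commutator G`, so `b' ∈ commutator G`.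
-/
import Pool.Agent.H28.IQ.Defs
import Pool.Agent.H28.IP.FbD
import Pool.Agent.H28.IP.Lif

set_option autoImplicit false

namespace Pool.Agent.H28.IP

theorem ZaE_cop {i j : ℤ} (h : ∀ p : ℕ, p.Prime → ¬ ((p : ℤ) ∣ i ∧ (p : ℤ) ∣ j)) : IsCoprime i j := by
  rw [Int.isCoprime_iff_gcd_eq_one]
  by_contra hne
  obtain ⟨p, hp, hd⟩ := Nat.exists_prime_and_dvd hne
  exact h p hp ⟨(Int.natCast_dvd_natCast.2 hd).trans (Int.gcd_dvd_left i j),
    (Int.natCast_dvd_natCast.2 hd).trans (Int.gcd_dvd_right i j)⟩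

/-- a subgroup of `ℤ²` which is not contained in `pℤ²` for any prime `p` contains a primitive vector -/
theorem ZaE_vec (L : AddSubgroup (ℤ × ℤ))
    (h : ∀ p : ℕ, p.Prime → ∃ z ∈ L, ¬ ((p : ℤ) ∣ z.1 ∧ (p : ℤ) ∣ z.2)) :
    ∃ z ∈ L, IsCoprime z.1 z.2 := by
  obtain ⟨z₁, h₁, z₂, h₂, hL⟩ := FbD_Z2 L
  -- no prime divides both vectors
  have hp : ∀ p : ℕ, p.Prime → ((p : ℤ) ∣ z₁.1 ∧ (p : ℤ) ∣ z₁.2) → ((p : ℤ) ∣ z₂.1 ∧ (p : ℤ) ∣ z₂.2) → False := by
    intro p hp h3 h4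
    obtain ⟨z, hz, hn⟩ := h p hp
    obtain ⟨k, l, rfl⟩ := hL z hz
    apply hn
    simp only [Prod.fst_add, Prod.smul_fst, Prod.snd_add, Prod.smul_snd, smul_eq_mul]
    exact ⟨dvd_add (h3.1.mul_left k) (h4.1.mul_left l), dvd_add (h3.2.mul_left k) (h4.2.mul_left l)⟩
  by_cases hΔ : z₁.1 * z₂.2 - z₁.2 * z₂.1 = 0
  · by_cases hz : z₁ = 0
    · refine ⟨z₂, h₂, ZaE_cop fun p hpp hd => hp p hpp ?_ hd⟩
      rw [hz]
      exact ⟨dvd_zero _, dvd_zero _⟩
    · -- the gcd of the first vector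
      have hg0 : (Int.gcd z₁.1 z₁.2 : ℤ) ≠ 0 := by
        intro h0
        have h1 : Int.gcd z₁.1 z₁.2 = 0 := by exact_mod_cast h0
        rw [Int.gcd_eq_zero_iff] at h1
        exact hz (Prod.ext h1.1 h1.2)
      set g : ℤ := (Int.gcd z₁.1 z₁.2 : ℤ) with hg
      obtain ⟨x, hx⟩ : g ∣ z₁.1 := Int.gcd_dvd_left _ _
      obtain ⟨y, hy⟩ : g ∣ z₁.2 := Int.gcd_dvd_right _ _
      have hbez : g = z₁.1 * Int.gcdA z₁.1 z₁.2 + z₁.2 * Int.gcdB z₁.1 z₁.2 := Int.gcd_eq_gcd_ab _ _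
      set r := Int.gcdA z₁.1 z₁.2
      set s := Int.gcdB z₁.1 z₁.2
      have hrs : r * x + s * y = 1 := by
        apply mul_left_cancel₀ hg0
        rw [hx, hy] at hbez
        linear_combination -hbez
      -- the second vector
      have hd : x * z₂.2 = y * z₂.1 := by
        apply mul_left_cancel₀ hg0
        rw [hx, hy] at hΔ
        linear_combination hΔ
      set l : ℤ := r * z₂.1 + s * z₂.2 with hl
      have e1 : z₂.1 = l * x := by
        rw [hl]
        linear_combination (-z₂.1) * hrs - s * hd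
      have e2 : z₂.2 = l * y := by
        rw [hl]
        linear_combination (-z₂.2) * hrs + r * hd
      have hgl : IsCoprime g l := by
        refine ZaE_cop fun p hpp hd => hp p hpp ?_ ?_
        · rw [hx, hy]
          exact ⟨hd.1.mul_right _, hd.1.mul_right _⟩
        · rw [e1, e2]
          exact ⟨hd.2.mul_right _, hd.2.mul_right _⟩
      obtain ⟨u, v, huv⟩ := hgl
      refine ⟨u • z₁ + v • z₂, L.add_mem (L.zsmul_mem h₁ u) (L.zsmul_mem h₂ v), ?_⟩
      have f1 : (u • z₁ + v • z₂).1 = x := by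
        simp only [Prod.fst_add, Prod.smul_fst, smul_eq_mul]
        rw [hx, e1]
        linear_combination x * huv
      have f2 : (u • z₁ + v • z₂).2 = y := by
        simp only [Prod.snd_add, Prod.smul_snd, smul_eq_mul]
        rw [hy, e2]
        linear_combination y * huv
      rw [f1, f2]
      exact ⟨r, s, hrs⟩
  · -- the product of the primes which divide the determinant but not the first vector
    set Δ := z₁.1 * z₂.2 - z₁.2 * z₂.1 with hΔd
    set P : Finset ℕ := Δ.natAbs.primeFactors.filter (fun p => ¬ ((p : ℤ) ∣ z₁.1 ∧ (p : ℤ) ∣ z₁.2)) with hP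
    set t : ℤ := ((∏ p ∈ P, p : ℕ) : ℤ) with ht
    refine ⟨z₁ + t • z₂, L.add_mem h₁ (L.zsmul_mem h₂ t), ZaE_cop fun p hpp hd => ?_⟩
    simp only [Prod.fst_add, Prod.smul_fst, Prod.snd_add, Prod.smul_snd, smul_eq_mul] at hd
    obtain ⟨d1, d2⟩ := hd
    have hpΔ : (p : ℤ) ∣ Δ := by
      have : Δ = (z₁.1 + t * z₂.1) * z₂.2 - (z₁.2 + t * z₂.2) * z₂.1 := by rw [hΔd]; ring
      rw [this]
      exact dvd_sub (d1.mul_right _) (d2.mul_right _)
    have hpm : p ∈ Δ.natAbs.primeFactors := by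
      rw [Nat.mem_primeFactors]
      exact ⟨hpp, Int.natCast_dvd.1 hpΔ, by simpa using hΔ⟩
    have hpi : Prime (p : ℤ) := Nat.prime_iff_prime_int.1 hpp
    by_cases hz : (p : ℤ) ∣ z₁.1 ∧ (p : ℤ) ∣ z₁.2
    · have hpt : ¬ (p : ℤ) ∣ t := by
        intro h5
        rw [ht, Int.natCast_dvd_natCast, Prime.dvd_finsetProd_iff hpp.prime] at h5
        obtain ⟨q, hq, hpq⟩ := h5
        rw [hP, Finset.mem_filter, Nat.mem_primeFactors] at hq
        have : p = q := (Nat.prime_dvd_prime_iff_eq hpp hq.1.1).1 hpq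
        subst this
        exact hq.2 hz
      refine hp p hpp hz ⟨?_, ?_⟩
      · have := (dvd_add_right hz.1).1 d1
        exact (hpi.dvd_or_dvd this).resolve_left hpt
      · have := (dvd_add_right hz.2).1 d2
        exact (hpi.dvd_or_dvd this).resolve_left hpt
    · have hpt : (p : ℤ) ∣ t := by
        rw [ht, Int.natCast_dvd_natCast]
        exact Finset.dvd_prod_of_mem _ (Finset.mem_filter.2 ⟨hpm, hz⟩)
      apply hz
      exact ⟨(dvd_add_left (hpt.mul_right _)).1 d1, (dvd_add_left (hpt.mul_right _)).1 d2⟩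

/-- the relations of a pair modulo the derived subgroup -/
def ZaE_L {G : Type} [Group G] (a b : G) : AddSubgroup (ℤ × ℤ) where
  carrier := {z | Abelianization.of a ^ z.1 * Abelianization.of b ^ z.2 = 1}
  zero_mem' := by simp
  add_mem' := by
    intro z w hz hw
    simp only [Set.mem_ofPred_eq, Prod.fst_add, Prod.snd_add, zpow_add] at hz hw ⊢
    rw [mul_mul_mul_comm, hz, hw, one_mul]
  neg_mem' := by
    intro z hz
    simp only [Set.mem_ofPred_eq, Prod.fst_neg, Prod.snd_neg, zpow_neg] at hz ⊢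
    rw [← mul_inv, hz, inv_one]

theorem ZaE_mem {G : Type} [Group G] {a b : G} {z : ℤ × ℤ} :
    z ∈ ZaE_L a b ↔ a ^ z.1 * b ^ z.2 ∈ commutator G := by
  rw [FbD_ker, map_mul, map_zpow, map_zpow]
  exact Iff.rfl

theorem prim_rel {G : Type} [Group G] {a b : G} (hg : Gen2 a b)
    (h : ∀ p : ℕ, p.Prime → ∃ i j : ℤ, a ^ i * b ^ j ∈ commutator G ∧
      ¬ ((p : ℤ) ∣ i ∧ (p : ℤ) ∣ j)) :
    ∃ a' b' : G, Gen2 a' b' ∧ b' ∈ commutator G := by
  obtain ⟨z, hz, r, s, hrs⟩ := ZaE_vec (ZaE_L a b) (fun p hp => by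
    obtain ⟨i, j, h1, h2⟩ := h p hp
    exact ⟨(i, j), ZaE_mem.2 h1, h2⟩)
  have hdt : dt (s, -r, z.1, z.2) = 1 := by
    unfold dt
    linear_combination hrs
  obtain ⟨a', b', h1, _, h3⟩ := lift_gl2 hg (m := (s, -r, z.1, z.2)) (Or.inl hdt)
  refine ⟨a', b', h1, ?_⟩
  have h4 := Subgroup.mul_mem _ h3 (ZaE_mem.1 hz)
  rwa [inv_mul_cancel_right] at h4

end Pool.Agent.H28.IP
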