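/-
ROW TfA. Torsion-free abelianisation: the two cases.
PROOF. Suppose `¬ AbFree a b`: there is `(i, j) ≠ (0, 0)` with `a ^ i * b ^ j ∈ commutator G`. For a prime `p` write
`(i, j) = p ^ s (i', j')` with `p` not dividing both `i'` and `j'` (`s` minimal multiplicity; the nonzero coordinate bounds
`s`). In `Abelianization G`: `(a ^ i' b ^ j') ^ (p ^ s) = a ^ i b ^ j = 1`, i.e. `(a ^ i' * b ^ j') ^ (p ^ s) ∈ commutator G`, so by ht
`a ^ i' * b ^ j' ∈ commutator G`. By prim_rel (ZaE) there are `a', b'` with Gen2 and `b' ∈ commutator G`. If `a' ^ k ∈ commutator G`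
with `k ≠ 0` then (with the natural number `|k|`; inverses) by ht `a' ∈ commutator G`, so `commutator G` contains the
generators, `commutator G = ⊤`; then `G` is abelian (Metab), so `commutator G = ⊥`, and `G` is trivial; all its subgroups are
finitely generated (`⊥`), contradicting hn.
-/
import Pool.Agent.H28.IQ.ZaE

set_option autoImplicit false

namespace Pool.Agent.H28.IP

theorem TfA_mem {G : Type} [Group G] (x : G) :
    x ∈ commutator G ↔ (Abelianization.of x : Abelianization G) = 1 := by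
  have h := Abelianization.ker_of G
  rw [← h, MonoidHom.mem_ker]

theorem TfA_pow {G : Type} [Group G] (a b : G) (i j : ℤ) (n : ℕ)
    (h : a ^ (i * n) * b ^ (j * n) ∈ commutator G) : (a ^ i * b ^ j) ^ n ∈ commutator G := by
  rw [TfA_mem] at h ⊢
  rw [map_pow, map_mul, map_zpow, map_zpow, mul_pow, ← zpow_natCast, ← zpow_natCast,
    ← zpow_mul, ← zpow_mul]
  rw [map_mul, map_zpow, map_zpow] at h
  exact h

theorem TfA_triv {G : Type} [Group G] [Metab G] {a b : G} (hg : Gen2 a b)
    (ha : a ∈ commutator G) (hb : b ∈ commutator G) (H : Subgroup G) : H.FG := by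
  have h1 : commutator G = ⊤ := by
    rw [eq_top_iff, ← (hg : Subgroup.closure {a, b} = ⊤), Subgroup.closure_le]
    intro x hx
    rcases hx with rfl | hx
    · exact ha
    · rw [Set.mem_singleton_iff] at hx
      rw [hx]
      exact hb
  have h2 : ∀ x y : G, x * y = y * x := fun x y =>
    Metab.comm x (h1 ▸ Subgroup.mem_top x) y (h1 ▸ Subgroup.mem_top y)
  have h3 : commutator G = ⊥ := by
    rw [eq_bot_iff, commutator_def, Subgroup.commutator_le]
    intro x _ y _
    rw [Subgroup.mem_bot, commutatorElement_eq_one_iff_mul_comm]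
    exact h2 x y
  have h4 : H = ⊥ := by
    rw [eq_bot_iff, ← h3, h1]
    exact le_top
  rw [h4]
  exact ⟨∅, by simp⟩

theorem tf_cases {G : Type} [Group G] [Metab G] {a b : G} (hg : Gen2 a b) (ht : TFab G)
    (hn : ∃ H : Subgroup G, ¬ H.FG) : AbFree a b ∨ ∃ a' b' : G, Gen2 a' b' ∧
      b' ∈ commutator G ∧ ∀ k : ℤ, a' ^ k ∈ commutator G → k = 0 := by
  by_cases hf : AbFree a b
  · exact Or.inl hf
  right
  unfold AbFree at hf
  push Not at hf
  obtain ⟨i, j, hij, hne⟩ := hf
  have h0 : 0 < Int.gcd i j := by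
    rw [Int.gcd_pos_iff]
    by_cases hi : i = 0
    · exact Or.inr (hne hi)
    · exact Or.inl hi
  obtain ⟨i', j', hg1, hi, hj⟩ := Int.exists_gcd_one h0
  have h1 : a ^ i' * b ^ j' ∈ commutator G := by
    refine ht _ (Int.gcd i j) h0.ne' (TfA_pow a b i' j' _ ?_)
    rw [← hi, ← hj]
    exact hij
  obtain ⟨a', b', hg', hb'⟩ := prim_rel hg (fun p hp => ⟨i', j', h1, fun hd => by
    have h2 : (p : ℤ) ∣ (Int.gcd i' j' : ℤ) := Int.dvd_coe_gcd hd.1 hd.2
    rw [hg1] at h2
    have h3 : p ∣ 1 := by exact_mod_cast h2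
    exact hp.one_lt.ne' (Nat.dvd_one.1 h3)⟩)
  refine ⟨a', b', hg', hb', ?_⟩
  intro k hk
  by_contra hk0
  have h4 : a' ^ k.natAbs ∈ commutator G := by
    rcases Int.natAbs_eq k with h | h
    · rw [h, zpow_natCast] at hk
      exact hk
    · rw [h, zpow_neg, zpow_natCast] at hk
      exact (Subgroup.inv_mem_iff _).1 hk
  have h5 := ht a' k.natAbs (Int.natAbs_ne_zero.2 hk0) h4
  obtain ⟨H, hH⟩ := hn
  exact hH (TfA_triv hg' h5 hb' H)

end Pool.Agent.H28.IP
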