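/-
ROW ZaA. Homomorphisms to cyclic groups.
PROOFS. `vz (xs E w)` is the sum over the letters `(i, s)` of `w` of `± vz (E.getD i (0, 0))` (vz_addp in
Pool.Agent.H28.IP.WlA; `vz (swap u) = - vz u`), so with `χ₀ : FreeGroup ℕ →* Multiplicative (ZMod n)`,
`χ₀ = FreeGroup.lift (fun i => ofAdd ((vz (E.getD i (0,0)) : ℤ) : ZMod n))`:
`χ₀ (FreeGroup.mk w) = ofAdd (vz (xs E w))` (induction on `w`, FreeGroup.lift_mk). hz_hom: `χ₀` kills `relN P`: the
relators by HZ (`ZMod.intCast_zmod_eq_zero_iff_dvd`/`ZMod.intCast_cast..`; for n = 0 too), and `of i`, `P.1 ≤ i`, as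
`E.getD i (0, 0) = (0, 0)` for `i ≥ E.length`. So it factors over `GN P` (PresentedGroup.toGroup).
hz_ex: choose integers `e_i` with image `χ (cl P [(i, true)])` in `ZMod n` for `i < P.1` (`ZMod.intCast_surjective`; for
`n = 0` too), `E` the list of the pairs `(e_i.toNat, (-e_i).toNat)`, `i < P.1`. For `i ≥ P.1` `cl P [(i, true)] = 1` (GwA_ge in
Pool.Agent.H28.IP.GwA). So the formula holds for letters, hence for words (GwA_app, GwA_inv); for `r ∈ P.2`
`cl P r = 1`, so `n ∣ vz (xs E r)`.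
-/
import Pool.Agent.H28.IQ.Defs
import Pool.Agent.H28.IP.WlA
import Pool.Agent.H28.IP.GwA

set_option autoImplicit false

namespace Pool.Agent.H28.IP

theorem hz_lift (E : List (ℕ × ℕ)) (n : ℕ) (w : Word) :
    FreeGroup.lift (fun i => Multiplicative.ofAdd ((vz (E.getD i (0, 0)) : ℤ) : ZMod n)) (FreeGroup.mk w) =
      Multiplicative.ofAdd ((vz (xs E w) : ℤ) : ZMod n) := by
  rw [FreeGroup.lift_mk]
  induction w with
  | nil =>
    have h1 : xs E [] = (0, 0) := rfl
    rw [h1]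
    simp [vz]
  | cons l w ih =>
    have h1 : xs E (l :: w) = addp (cond l.2 (E.getD l.1 (0, 0)) (E.getD l.1 (0, 0)).swap) (xs E w) := rfl
    rw [List.map_cons, List.prod_cons, ih, h1, vz_addp]
    rcases l with ⟨i, b⟩
    cases b
    · have h2 : vz ((E.getD i (0, 0)).swap) = -vz (E.getD i (0, 0)) := by
        simp only [vz, Prod.fst_swap, Prod.snd_swap]
        ring
      simp only [cond_false]
      rw [h2]
      push_cast
      rw [ofAdd_add, ofAdd_neg]
    · simp only [cond_true]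
      push_cast
      rw [ofAdd_add]

theorem hz_dvd (n : ℕ) (a : ℤ) : Multiplicative.ofAdd ((a : ℤ) : ZMod n) = 1 ↔ (n : ℤ) ∣ a := by
  rw [ofAdd_eq_one, CharP.intCast_eq_zero_iff (ZMod n) n a]

theorem hz_hom {P : Pres} {E : List (ℕ × ℕ)} {n : ℕ} (h : HZ P E n) :
    ∃ χ : GN P →* Multiplicative (ZMod n), ∀ w : Word,
      χ (cl P w) = Multiplicative.ofAdd ((vz (xs E w) : ℤ) : ZMod n) := by
  have hrel : ∀ r ∈ relN P,
      FreeGroup.lift (fun i => Multiplicative.ofAdd ((vz (E.getD i (0, 0)) : ℤ) : ZMod n)) r = 1 := by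
    rintro r (⟨w, hw, rfl⟩ | ⟨i, hi, rfl⟩)
    · rw [hz_lift, hz_dvd]
      exact h.2 w hw
    · rw [FreeGroup.lift_apply_of]
      have h1 : E.getD i (0, 0) = (0, 0) := by
        rw [List.getD_eq_getElem?_getD, List.getElem?_eq_none (h.1.trans hi)]
        rfl
      rw [h1]
      simp [vz]
  refine ⟨PresentedGroup.toGroup hrel, fun w => ?_⟩
  rw [← hz_lift]
  rfl

theorem hz_ex {P : Pres} {n : ℕ} (χ : GN P →* Multiplicative (ZMod n)) :
    ∃ E : List (ℕ × ℕ), HZ P E n ∧ ∀ w : Word,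
      χ (cl P w) = Multiplicative.ofAdd ((vz (xs E w) : ℤ) : ZMod n) := by
  have hsur : ∀ i : ℕ, ∃ e : ℤ, (e : ZMod n) = Multiplicative.toAdd (χ (cl P [(i, true)])) := fun i =>
    ZMod.intCast_surjective _
  choose e he using hsur
  have hE : ∃ E : List (ℕ × ℕ), E.length = P.1 ∧ ∀ i : ℕ,
      Multiplicative.ofAdd ((vz (E.getD i (0, 0)) : ℤ) : ZMod n) = χ (cl P [(i, true)]) := by
    refine ⟨(List.range P.1).map fun i => ((e i).toNat, (-e i).toNat), by simp, fun i => ?_⟩
    by_cases hi : i < P.1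
    · have h1 : ((List.range P.1).map fun i => ((e i).toNat, (-e i).toNat)).getD i (0, 0) =
          ((e i).toNat, (-e i).toNat) := by
        rw [List.getD_eq_getElem?_getD]
        simp [hi]
      rw [h1]
      have h2 : vz ((e i).toNat, (-e i).toNat) = e i := by
        simp only [vz]
        omega
      rw [h2, he i]
      rfl
    · have h1 : ((List.range P.1).map fun i => ((e i).toNat, (-e i).toNat)).getD i (0, 0) = (0, 0) := by
        rw [List.getD_eq_getElem?_getD, List.getElem?_eq_none (by simpa using hi)]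
        rfl
      rw [h1, GwA_ge P (by omega), map_one]
      simp [vz]
  obtain ⟨E, hlen, hEi⟩ := hE
  have hcomp : χ.comp (PresentedGroup.mk (relN P)) =
      FreeGroup.lift (fun i => Multiplicative.ofAdd ((vz (E.getD i (0, 0)) : ℤ) : ZMod n)) := by
    apply FreeGroup.ext_hom
    intro i
    rw [FreeGroup.lift_apply_of, hEi i]
    rfl
  have hw : ∀ w : Word, χ (cl P w) = Multiplicative.ofAdd ((vz (xs E w) : ℤ) : ZMod n) := by
    intro w
    rw [← hz_lift, ← hcomp]
    rfl
  refine ⟨E, ⟨hlen.le, fun r hr => ?_⟩, hw⟩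
  have h1 : cl P r = 1 := PresentedGroup.one_of_mem (Or.inl ⟨r, hr, rfl⟩)
  have h2 := hw r
  rw [h1, map_one] at h2
  exact (hz_dvd n _).mp h2.symm

end Pool.Agent.H28.IP
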