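/-
ROW ZaB. Groups with infinite cyclic abelianisation are determined by the annihilator.
PROOFS. cyc_nf: by nf (Pool.Agent.H28.IP.EvB) `g = ev a b f * (a ^ i * b ^ j)`; `a ^ i * b ^ j = (a ^ i * b ^ j * a ^ (-i)) * a ^ i`
and `a ^ i * b ^ j * a ^ (-i) ∈ commutator G` (normal, `b` in it), `= ev a b f'` by ev_surj; ev_add (EvA).
cyc_unique: `a ^ (i - i') = (ev a b f)⁻¹ * ev a b f' ∈ commutator G` (ev_mem), so `i = i'`, and then `ev a b f = ev a b f'`.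
cyc_mul: `a ^ i * ev a b f' * a ^ (-i) = ev a b (mo (i, 0) * f')` (ev_conj with `j = 0`), ev_add.
iso_cyc: by cyc_nf and cyc_unique define `Θ : G → G₂`, `Θ (ev a b f * a ^ i) = ev a₂ b₂ f * a₂ ^ i` (choose `f, i` for each
`g`); well defined: if `ev a b f = ev a b f'` then `ev a b (f - f') = 1` (ev_sub), so `ev a₂ b₂ (f - f') = 1` by h. It is a
homomorphism by cyc_mul (for both groups), injective by cyc_unique in `G₂` and h, surjective by cyc_nf in `G₂`: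
`MulEquiv.ofBijective`.
-/
import Pool.Agent.H28.IQ.Defs
import Pool.Agent.H28.IP.EvB

set_option autoImplicit false

namespace Pool.Agent.H28.IP

theorem cyc_nf {G : Type} [Group G] [Metab G] {a b : G} (hg : Gen2 a b) (hb : b ∈ commutator G)
    (g : G) : ∃ (f : Lam) (i : ℤ), g = ev a b f * a ^ i := by
  obtain ⟨f, i, j, h⟩ := nf hg g
  have hc : a ^ i * b ^ j * (a ^ i)⁻¹ ∈ commutator G :=
    (inferInstance : (commutator G).Normal).conj_mem _ (Subgroup.zpow_mem _ hb j) (a ^ i)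
  obtain ⟨f', hf'⟩ := ev_surj hg hc
  refine ⟨f + f', i, ?_⟩
  rw [ev_add, hf', h]
  group

theorem cyc_unique {G : Type} [Group G] [Metab G] {a b : G}
    (ha : ∀ k : ℤ, a ^ k ∈ commutator G → k = 0) {f f' : Lam} {i i' : ℤ}
    (h : ev a b f * a ^ i = ev a b f' * a ^ i') : i = i' ∧ ev a b f = ev a b f' := by
  have h1 : a ^ (i - i') = (ev a b f)⁻¹ * ev a b f' := by
    rw [zpow_sub, mul_inv_eq_iff_eq_mul, mul_assoc, ← h, inv_mul_cancel_left]
  have h2 : a ^ (i - i') ∈ commutator G := by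
    rw [h1]
    exact Subgroup.mul_mem _ (Subgroup.inv_mem _ (ev_mem a b f)) (ev_mem a b f')
  have h3 : i = i' := sub_eq_zero.1 (ha _ h2)
  refine ⟨h3, ?_⟩
  rw [h3] at h
  exact mul_right_cancel h

theorem cyc_mul {G : Type} [Group G] [Metab G] (a b : G) (f f' : Lam) (i i' : ℤ) :
    (ev a b f * a ^ i) * (ev a b f' * a ^ i') = ev a b (f + mo (i, 0) * f') * a ^ (i + i') := by
  have h := ev_conj a b i 0 f'
  rw [zpow_zero, mul_one] at h
  rw [ev_add, ← h, zpow_add]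
  group

theorem iso_cyc {G G₂ : Type} [Group G] [Metab G] [Group G₂] [Metab G₂] {a b : G} {a₂ b₂ : G₂}
    (hg : Gen2 a b) (hb : b ∈ commutator G) (ha : ∀ k : ℤ, a ^ k ∈ commutator G → k = 0)
    (hg₂ : Gen2 a₂ b₂) (hb₂ : b₂ ∈ commutator G₂) (ha₂ : ∀ k : ℤ, a₂ ^ k ∈ commutator G₂ → k = 0)
    (h : ∀ f, ev a₂ b₂ f = 1 ↔ ev a b f = 1) : Nonempty (G ≃* G₂) := by
  choose F I hFI using cyc_nf hg hb
  have key : ∀ f f' : Lam, ev a b f = ev a b f' ↔ ev a₂ b₂ f = ev a₂ b₂ f' := by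
    intro f f'
    rw [← mul_inv_eq_one, ← ev_sub, ← h, ev_sub, mul_inv_eq_one]
  obtain ⟨Θ, hΘdef⟩ : ∃ Θ : G → G₂, ∀ g, Θ g = ev a₂ b₂ (F g) * a₂ ^ I g := ⟨_, fun _ => rfl⟩
  have hΘ : ∀ (f : Lam) (i : ℤ), Θ (ev a b f * a ^ i) = ev a₂ b₂ f * a₂ ^ i := by
    intro f i
    obtain ⟨h1, h2⟩ := cyc_unique ha (hFI (ev a b f * a ^ i))
    rw [hΘdef, ← h1, ← (key _ _).1 h2]
  have hmul : ∀ g g' : G, Θ (g * g') = Θ g * Θ g' := by
    intro g g'
    have h1 : Θ (g * g') = Θ ((ev a b (F g) * a ^ I g) * (ev a b (F g') * a ^ I g')) := by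
      rw [← hFI g, ← hFI g']
    rw [h1, cyc_mul, hΘ, ← cyc_mul, ← hΘdef, ← hΘdef]
  have hinj : Function.Injective Θ := by
    intro g g' hgg
    rw [hΘdef, hΘdef] at hgg
    obtain ⟨h1, h2⟩ := cyc_unique ha₂ hgg
    rw [hFI g, hFI g', h1, (key _ _).2 h2]
  have hsurj : Function.Surjective Θ := by
    intro y
    obtain ⟨f, i, hy⟩ := cyc_nf hg₂ hb₂ y
    exact ⟨ev a b f * a ^ i, by rw [hΘ, hy]⟩
  exact ⟨MulEquiv.ofBijective (MonoidHom.mk' Θ hmul) ⟨hinj, hsurj⟩⟩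

end Pool.Agent.H28.IP
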