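/-
ROW ZaC. Residual finiteness, infinite cyclic abelianisation.
PROOF. Let `J = Ann a b`, `f ∉ J` (mem_Ann in EvA). By lam_rf (Pool.Agent.H28.IP.RfD) there is an ideal `J₀ ≥ J`, `f ∉ J₀`, with
`R₀ = Lam ⧸ J₀` finite. Let `u = mo (1, 0) mod J₀`, a unit of `R₀` (inverse `mo (-1, 0)`). For `g ∈ G`, `g = ev a b h * a ^ k`
(cyc_nf in ZaB) let `π g : R₀ → R₀`, `s ↦ h mod J₀ + u ^ k s`, a permutation of `R₀` (`u ^ k` is a unit). Well defined:
`k` is unique and `ev a b h = ev a b h'` gives `h - h' ∈ J ≤ J₀` (cyc_unique, ev_sub). It is a homomorphism to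
`Equiv.Perm R₀` by cyc_mul: `(h, k)(h', k') = (h + mo (k, 0) h', k + k')` and `mo (k, 0) ≡ u ^ k`. `π (ev a b f)` is the
translation by the class of `f`, which is nonzero. `Equiv.Perm R₀` is finite.
-/
import Pool.Agent.H28.IQ.ZaB
import Pool.Agent.H28.IP.RfD

set_option autoImplicit false

namespace Pool.Agent.H28.IP

theorem ZaC_XL (k : ℤ) : ((XL ^ k : Lamˣ) : Lam) = mo (k, 0) := by
  induction k using Int.induction_on with
  | zero =>
    rw [zpow_zero, Units.val_one]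
    exact mo_zero.symm
  | succ i ih =>
    rw [zpow_add_one, Units.val_mul, ih]
    have h : ((XL : Lamˣ) : Lam) = mo (1, 0) := rfl
    rw [h, ← mo_add]
    congr 1
  | pred i ih =>
    rw [zpow_sub_one, Units.val_mul, ih]
    have h : ((XL⁻¹ : Lamˣ) : Lam) = mo (-1, 0) := rfl
    rw [h, ← mo_add]
    congr 1

theorem ZaC_XJ (J : Ideal Lam) (k : ℤ) :
    ((XJ J ^ k : (Lam ⧸ J)ˣ) : Lam ⧸ J) = Ideal.Quotient.mk J (mo (k, 0)) := by
  rw [← ZaC_XL]
  unfold XJ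
  rw [← map_zpow]
  rfl

/-- affine permutations -/
def ZaC_aff {R : Type} [CommRing R] (c : R) (v : Rˣ) : Equiv.Perm R where
  toFun s := c + v * s
  invFun s := ((v⁻¹ : Rˣ) : R) * (s - c)
  left_inv s := by
    show ((v⁻¹ : Rˣ) : R) * (c + v * s - c) = s
    rw [add_sub_cancel_left, ← mul_assoc, Units.inv_mul, one_mul]
  right_inv s := by
    show c + v * (((v⁻¹ : Rˣ) : R) * (s - c)) = s
    rw [← mul_assoc, Units.mul_inv, one_mul, add_sub_cancel]

theorem ZaC_aff_mul {R : Type} [CommRing R] (c c' : R) (v v' : Rˣ) :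
    ZaC_aff c v * ZaC_aff c' v' = ZaC_aff (c + v * c') (v * v') := by
  ext s
  show c + v * (c' + v' * s) = c + v * c' + ((v * v' : Rˣ) : R) * s
  rw [Units.val_mul]
  ring

theorem rf_cyc {G : Type} [Group G] [Metab G] {a b : G} (hg : Gen2 a b) (hb : b ∈ commutator G)
    (ha : ∀ k : ℤ, a ^ k ∈ commutator G → k = 0) {f : Lam} (hf : ev a b f ≠ 1) :
    ∃ (Q : Type) (_ : Group Q) (_ : Finite Q) (π : G →* Q), π (ev a b f) ≠ 1 := by
  have hfJ : f ∉ Ann a b := fun h => hf (mem_Ann.1 h)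
  obtain ⟨J₀, hJ, hf0, hfin⟩ := lam_rf (Ann a b) hfJ
  choose h k hk using fun g => cyc_nf hg hb g
  have hw : ∀ (g : G) (F : Lam) (i : ℤ), g = ev a b F * a ^ i →
      ZaC_aff (Ideal.Quotient.mk J₀ (h g)) (XJ J₀ ^ k g) =
        ZaC_aff (Ideal.Quotient.mk J₀ F) (XJ J₀ ^ i) := by
    intro g F i hgF
    have h1 : ev a b (h g) * a ^ k g = ev a b F * a ^ i := (hk g).symm.trans hgF
    obtain ⟨h2, h3⟩ := cyc_unique ha h1
    have h4 : h g - F ∈ J₀ := by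
      apply hJ
      rw [mem_Ann, ev_sub, h3, mul_inv_cancel]
    rw [h2, (Ideal.Quotient.mk_eq_mk_iff_sub_mem (h g) F).2 h4]
  refine ⟨Equiv.Perm (Lam ⧸ J₀), inferInstance, inferInstance,
    MonoidHom.mk' (fun g => ZaC_aff (Ideal.Quotient.mk J₀ (h g)) (XJ J₀ ^ k g)) ?_, ?_⟩
  · intro g g'
    have h1 : g * g' = ev a b (h g + mo (k g, 0) * h g') * a ^ (k g + k g') := by
      rw [← cyc_mul, ← hk g, ← hk g']
    rw [hw (g * g') _ _ h1, ZaC_aff_mul, map_add, map_mul, ZaC_XJ, zpow_add]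
  · intro h1
    have h2 : ev a b f = ev a b f * a ^ (0 : ℤ) := by
      rw [zpow_zero, mul_one]
    have h3 : ZaC_aff (Ideal.Quotient.mk J₀ f) (XJ J₀ ^ (0 : ℤ)) = 1 := by
      rw [← hw (ev a b f) f 0 h2]
      exact h1
    have h4 := congrArg (fun e : Equiv.Perm (Lam ⧸ J₀) => e 0) h3
    have h5 : Ideal.Quotient.mk J₀ f + ((XJ J₀ ^ (0 : ℤ) : (Lam ⧸ J₀)ˣ) : Lam ⧸ J₀) * 0 = 0 := h4
    rw [mul_zero, add_zero, Ideal.Quotient.eq_zero_iff_mem] at h5
    exact hf0 h5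

end Pool.Agent.H28.IP
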