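/-
ROW ZaG. Abelianisations, elementary facts.
PROOFS. Work in `Abelianization G` (`g ∈ commutator G ↔ Abelianization.of g = 1`: Abelianization.ker_of), which is
generated by the images of `a`, `b`: every `g ∈ G` satisfies `g * (a ^ i * b ^ j)⁻¹ ∈ commutator G` for some `i, j`
(induction on the closure, or nf in Pool.Agent.H28.IP.EvB for metabelian groups).
chi_p: define `e g = ofAdd (i : ZMod p)`, `f g = ofAdd (j : ZMod p)` for `g ≡ a ^ i b ^ j mod commutator G`; well defined since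
`a ^ (i - i') b ^ (j - j') ∈ commutator G` implies `p ∣ i - i'` and `p ∣ j - j'` by h. (The group `Abelianization G` is the
quotient of `ℤ²` by the relations; compare `exists_chi` in Pool.Agent.H28.IP.Chi.)
cyc_gen: `b ∈ commutator G`. cyc_change: `a' ≡ a ^ k`, `a ≡ a' ^ l` (cyc_gen twice), so `a ^ (1 - k l) ∈ commutator G`, `k l = 1`,
`k = ± 1` (Int.eq_one_or_neg_one_of_mul_eq_one). exp_ab: `g ≡ a ^ i b ^ j`, `g ^ n ≡ (a ^ n) ^ i (b ^ n) ^ j`.
comm_equiv: an isomorphism maps `commutator G` onto `commutator H` (Subgroup.map_commutator).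
-/
import Pool.Agent.H28.IQ.Defs

set_option autoImplicit false

namespace Pool.Agent.H28.IP

theorem ZaG_mem {G : Type} [Group G] (x : G) :
    x ∈ commutator G ↔ Abelianization.of x = 1 := by
  rw [← MonoidHom.mem_ker, Abelianization.ker_of]

theorem ZaG_nf {G : Type} [Group G] {a b : G} (hg : Gen2 a b) (g : G) :
    ∃ i j : ℤ, Abelianization.of g = Abelianization.of a ^ i * Abelianization.of b ^ j := by
  have hmem : g ∈ Subgroup.closure {a, b} := by
    rw [show Subgroup.closure {a, b} = ⊤ from hg]; trivial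
  induction hmem using Subgroup.closure_induction with
  | mem x hx =>
    rcases hx with rfl | hx
    · exact ⟨1, 0, by simp⟩
    · rw [Set.mem_singleton_iff] at hx
      subst hx
      exact ⟨0, 1, by simp⟩
  | one => exact ⟨0, 0, by simp⟩
  | mul x y _ _ hx hy =>
    obtain ⟨i, j, h1⟩ := hx
    obtain ⟨k, l, h2⟩ := hy
    refine ⟨i + k, j + l, ?_⟩
    rw [map_mul, h1, h2, zpow_add, zpow_add]
    exact mul_mul_mul_comm _ _ _ _
  | inv x _ hx =>
    obtain ⟨i, j, h1⟩ := hx
    refine ⟨-i, -j, ?_⟩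
    rw [map_inv, h1, mul_inv, zpow_neg, zpow_neg]

theorem chi_p {G : Type} [Group G] {a b : G} (hg : Gen2 a b) (p : ℕ)
    (h : ∀ i j : ℤ, a ^ i * b ^ j ∈ commutator G → (p : ℤ) ∣ i ∧ (p : ℤ) ∣ j) :
    ∃ e f : G →* Multiplicative (ZMod p), e a = Multiplicative.ofAdd 1 ∧ e b = 1 ∧
      f a = 1 ∧ f b = Multiplicative.ofAdd 1 := by
  classical
  choose i j hij using ZaG_nf hg
  have huniq : ∀ (k l k' l' : ℤ), Abelianization.of a ^ k * Abelianization.of b ^ l =
      Abelianization.of a ^ k' * Abelianization.of b ^ l' →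
      ((k : ZMod p) = k' ∧ (l : ZMod p) = l') := by
    intro k l k' l' e
    have h1 : Abelianization.of (a ^ (k - k') * b ^ (l - l')) = 1 := by
      rw [map_mul, map_zpow, map_zpow, zpow_sub, zpow_sub]
      calc Abelianization.of a ^ k * (Abelianization.of a ^ k')⁻¹ *
            (Abelianization.of b ^ l * (Abelianization.of b ^ l')⁻¹)
          = (Abelianization.of a ^ k * Abelianization.of b ^ l) *
              (Abelianization.of a ^ k' * Abelianization.of b ^ l')⁻¹ := by
            rw [mul_inv]; exact mul_mul_mul_comm _ _ _ _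
        _ = 1 := by rw [e, mul_inv_cancel]
    have h2 := h _ _ ((ZaG_mem _).mpr h1)
    constructor
    · have := (ZMod.intCast_zmod_eq_zero_iff_dvd (k - k') p).mpr h2.1
      rw [Int.cast_sub, sub_eq_zero] at this
      exact this
    · have := (ZMod.intCast_zmod_eq_zero_iff_dvd (l - l') p).mpr h2.2
      rw [Int.cast_sub, sub_eq_zero] at this
      exact this
  have hone := huniq (i 1) (j 1) 0 0 (by rw [← hij 1]; simp)
  have hmul : ∀ x y, _ := fun x y => huniq (i (x * y)) (j (x * y)) (i x + i y) (j x + j y) (by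
      rw [← hij (x * y), map_mul, hij x, hij y, zpow_add, zpow_add]
      exact mul_mul_mul_comm _ _ _ _)
  have hA := huniq (i a) (j a) 1 0 (by rw [← hij a]; simp)
  have hB := huniq (i b) (j b) 0 1 (by rw [← hij b]; simp)
  have e1 : ∀ x y, Multiplicative.ofAdd ((i (x * y) : ℤ) : ZMod p) =
      Multiplicative.ofAdd ((i x : ℤ) : ZMod p) * Multiplicative.ofAdd ((i y : ℤ) : ZMod p) := by
    intro x y
    rw [(hmul x y).1, ← ofAdd_add, Int.cast_add]
  have e2 : ∀ x y, Multiplicative.ofAdd ((j (x * y) : ℤ) : ZMod p) =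
      Multiplicative.ofAdd ((j x : ℤ) : ZMod p) * Multiplicative.ofAdd ((j y : ℤ) : ZMod p) := by
    intro x y
    rw [(hmul x y).2, ← ofAdd_add, Int.cast_add]
  refine ⟨⟨⟨fun g => Multiplicative.ofAdd ((i g : ℤ) : ZMod p), by rw [hone.1]; simp⟩, e1⟩,
    ⟨⟨fun g => Multiplicative.ofAdd ((j g : ℤ) : ZMod p), by rw [hone.2]; simp⟩, e2⟩,
    ?_, ?_, ?_, ?_⟩
  · show Multiplicative.ofAdd ((i a : ℤ) : ZMod p) = _
    rw [hA.1]; simp
  · show Multiplicative.ofAdd ((i b : ℤ) : ZMod p) = _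
    rw [hB.1]; simp
  · show Multiplicative.ofAdd ((j a : ℤ) : ZMod p) = _
    rw [hA.2]; simp
  · show Multiplicative.ofAdd ((j b : ℤ) : ZMod p) = _
    rw [hB.2]; simp

theorem cyc_gen {G : Type} [Group G] {a b : G} (hg : Gen2 a b) (hb : b ∈ commutator G) (g : G) :
    ∃ k : ℤ, g * (a ^ k)⁻¹ ∈ commutator G := by
  obtain ⟨i, j, h⟩ := ZaG_nf hg g
  refine ⟨i, ?_⟩
  rw [ZaG_mem] at hb ⊢
  rw [map_mul, map_inv, map_zpow, h, hb]
  simp

theorem cyc_change {G : Type} [Group G] {a b a' b' : G} (hg : Gen2 a b)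
    (hb : b ∈ commutator G) (ha : ∀ k : ℤ, a ^ k ∈ commutator G → k = 0) (hg' : Gen2 a' b')
    (hb' : b' ∈ commutator G) : ∃ k : ℤ, (k = 1 ∨ k = -1) ∧ a' * (a ^ k)⁻¹ ∈ commutator G := by
  obtain ⟨k, hk⟩ := cyc_gen hg hb a'
  obtain ⟨l, hl⟩ := cyc_gen hg' hb' a
  refine ⟨k, ?_, hk⟩
  rw [ZaG_mem, map_mul, map_inv, map_zpow, mul_inv_eq_one] at hk hl
  have h1 : a ^ (1 - k * l) ∈ commutator G := by
    rw [ZaG_mem, map_zpow, zpow_sub, zpow_one, zpow_mul, ← hk, ← hl, mul_inv_cancel]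
  have h2 := ha _ h1
  have h3 : k * l = 1 := by linarith
  exact Int.eq_one_or_neg_one_of_mul_eq_one h3

theorem exp_ab {G : Type} [Group G] {a b : G} (hg : Gen2 a b) {n : ℕ}
    (ha : a ^ n ∈ commutator G) (hb : b ^ n ∈ commutator G) (g : G) : g ^ n ∈ commutator G := by
  obtain ⟨i, j, h⟩ := ZaG_nf hg g
  rw [ZaG_mem, map_pow] at ha hb ⊢
  rw [h, mul_pow, ← zpow_natCast, ← zpow_natCast, ← zpow_mul, ← zpow_mul, mul_comm i, mul_comm j,
    zpow_mul, zpow_mul, zpow_natCast, zpow_natCast, ha, hb]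
  simp

theorem comm_equiv {G H : Type} [Group G] [Group H] (σ : G ≃* H) {g : G} :
    σ g ∈ commutator H ↔ g ∈ commutator G := by
  have key : ∀ {G H : Type} [Group G] [Group H] (σ : G →* H) {g : G},
      g ∈ commutator G → σ g ∈ commutator H := by
    intro G H _ _ σ g hg
    have h1 : σ g ∈ (commutator G).map σ := Subgroup.mem_map_of_mem _ hg
    have h2 : (commutator G).map σ ≤ commutator H := by
      rw [commutator_def, Subgroup.map_commutator, commutator_def]
      exact Subgroup.commutator_mono le_top le_top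
    exact h2 h1
  refine ⟨fun h => ?_, fun h => key σ.toMonoidHom h⟩
  have := key σ.symm.toMonoidHom h
  simpa using this

end Pool.Agent.H28.IP
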