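import Pool.Agent.H28.IQ.MainB
import Pool.Agent.H28.IQ.ZaA
import Pool.Agent.H28.IQ.ZaC
import Pool.Agent.H28.IQ.ZaG
import Pool.Agent.H28.IQ.TfA

set_option autoImplicit false

namespace Pool.Agent.H28.IP

theorem cl_zp0 (P : Pres) (A B : Word) (n : ℕ) : cl P (subst [A, B] (zp 0 (n, 0))) = cl P A ^ n := by
  rw [cl_sub2, lift_zp]
  show cl P A ^ (((n : ℤ)) - ((0 : ℕ) : ℤ)) = _
  rw [Nat.cast_zero, sub_zero, zpow_natCast]

theorem cl_zp1 (P : Pres) (A B : Word) (n : ℕ) : cl P (subst [A, B] (zp 1 (n, 0))) = cl P B ^ n := by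
  rw [cl_sub2, lift_zp]
  show cl P B ^ (((n : ℤ)) - ((0 : ℕ) : ℤ)) = _
  rw [Nat.cast_zero, sub_zero, zpow_natCast]

/-- a homomorphism to an abelian group kills the commutator subgroup -/
theorem hom_comm {G A : Type} [Group G] [CommGroup A] (χ : G →* A) {g : G}
    (h : g ∈ commutator G) : χ g = 1 :=
  MonoidHom.mem_ker.1 (Abelianization.commutator_subset_ker χ h)

theorem nz_sound {P₁ P₂ : Pres} [Metab (GN P₁)] [Metab (GN P₂)] (h : NZ P₁ P₂) :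
    ¬ Nonempty (GN P₁ ≃* GN P₂) := by
  rintro ⟨σ⟩
  obtain ⟨A₁, B₁, W₁, E, hG₁, hB₁, hE, hA₁, hcase⟩ := h
  have hg₁ := genW_gen hG₁
  obtain ⟨χ, hχ⟩ := hz_hom hE
  have ha₁ : ∀ k : ℤ, cl P₁ A₁ ^ k ∈ commutator (GN P₁) → k = 0 := by
    intro k hk
    have h1 := hom_comm χ hk
    rw [map_zpow, hχ, ← ofAdd_zsmul, ← ofAdd_zero] at h1
    have h2 : k • ((vz (xs E A₁) : ℤ) : ZMod 0) = 0 := Multiplicative.ofAdd.injective h1
    have h3 : k * vz (xs E A₁) = 0 := by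
      have : (((k * vz (xs E A₁) : ℤ)) : ZMod 0) = 0 := by
        push_cast
        simpa [zsmul_eq_mul] using h2
      simpa using this
    rcases mul_eq_zero.1 h3 with h4 | h4
    · exact h4
    · exact absurd h4 hA₁
  have hgσ : Gen2 (σ (cl P₁ A₁)) (σ (cl P₁ B₁)) := gen2_equiv σ hg₁
  have hbσ : σ (cl P₁ B₁) ∈ commutator (GN P₂) := (comm_equiv σ).2 hB₁
  have haσ : ∀ k : ℤ, σ (cl P₁ A₁) ^ k ∈ commutator (GN P₂) → k = 0 := by
    intro k hk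
    rw [← map_zpow, comm_equiv] at hk
    exact ha₁ k hk
  rcases hcase with ⟨A₂, B₂, W₂, hG₂, hNC⟩ | ⟨A₂, B₂, W₂, hG₂, hB₂, hN1, hN2⟩
  · have hg₂ := genW_gen hG₂
    rcases hNC with ⟨n, hn, h1, h2⟩ | ⟨p, E, F, hp, hE, hF, e1, e2, f1, f2⟩
    · rw [cl_zp0] at h1
      rw [cl_zp1] at h2
      have h3 := exp_ab hg₂ h1 h2 (σ (cl P₁ A₁))
      have h4 := haσ n (by rw [zpow_natCast]; exact h3)
      omega
    · obtain ⟨χe, he⟩ := hz_hom hE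
      obtain ⟨χf, hf⟩ := hz_hom hF
      have : Fact p.Prime := ⟨hp⟩
      obtain ⟨k, hk⟩ := cyc_gen hgσ hbσ (cl P₂ A₂)
      obtain ⟨l, hl⟩ := cyc_gen hgσ hbσ (cl P₂ B₂)
      have gk : ∀ (χ : GN P₂ →* Multiplicative (ZMod p)) (g : GN P₂) (k : ℤ),
          g * (σ (cl P₁ A₁) ^ k)⁻¹ ∈ commutator (GN P₂) →
          Multiplicative.toAdd (χ g) = (k : ZMod p) * Multiplicative.toAdd (χ (σ (cl P₁ A₁))) := by
        intro χ g k hk
        have h1 := hom_comm χ hk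
        rw [map_mul, map_inv, map_zpow, mul_inv_eq_one] at h1
        rw [h1, toAdd_zpow, zsmul_eq_mul]
      have x1 := gk χe _ k hk
      have x2 := gk χf _ k hk
      have x3 := gk χf _ l hl
      rw [he, toAdd_ofAdd] at x1
      rw [hf, toAdd_ofAdd] at x2 x3
      have y1 : ((vz (xs E A₂) : ℤ) : ZMod p) = 1 := by
        have := (ZMod.intCast_zmod_eq_zero_iff_dvd _ p).2 e1
        push_cast at this
        linear_combination this
      have y2 : ((vz (xs F A₂) : ℤ) : ZMod p) = 0 := (ZMod.intCast_zmod_eq_zero_iff_dvd _ p).2 f1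
      have y3 : ((vz (xs F B₂) : ℤ) : ZMod p) = 1 := by
        have := (ZMod.intCast_zmod_eq_zero_iff_dvd _ p).2 f2
        push_cast at this
        linear_combination this
      rw [y1] at x1
      rw [y2] at x2
      rw [y3] at x3
      have hk0 : (k : ZMod p) ≠ 0 := by
        intro h0
        rw [h0, zero_mul] at x1
        exact one_ne_zero x1
      have h5 : Multiplicative.toAdd (χf (σ (cl P₁ A₁))) = 0 := by
        rcases mul_eq_zero.1 x2.symm with h6 | h6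
        · exact absurd h6 hk0
        · exact h6
      rw [h5, mul_zero] at x3
      exact one_ne_zero x3
  · have hg₂ := genW_gen hG₂
    obtain ⟨k, hk, hak⟩ := cyc_change hgσ hbσ haσ hg₂ hB₂
    have hev : ∀ f : Lam, ev (cl P₂ A₂) (cl P₂ B₂) f = 1 ↔
        ev (cl P₁ A₁) (cl P₁ B₁) (act (k, 0, 0, 1) f) = 1 := by
      intro f
      rw [change_ev hgσ hg₂ (m := (k, 0, 0, 1)) (by
          show cl P₂ A₂ * (σ (cl P₁ A₁) ^ k * σ (cl P₁ B₁) ^ (0 : ℤ))⁻¹ ∈ _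
          rw [zpow_zero, mul_one]
          exact hak) (by
          show cl P₂ B₂ * (σ (cl P₁ A₁) ^ (0 : ℤ) * σ (cl P₁ B₁) ^ (1 : ℤ))⁻¹ ∈ _
          rw [zpow_zero, one_mul, zpow_one]
          exact Subgroup.mul_mem _ hB₂ (Subgroup.inv_mem _ hbσ))]
      have h1 := ev_map σ.toMonoidHom (cl P₁ A₁) (cl P₁ B₁) (act (k, 0, 0, 1) f)
      have h2 : ev (σ (cl P₁ A₁)) (σ (cl P₁ B₁)) (act (k, 0, 0, 1) f) =
        σ (ev (cl P₁ A₁) (cl P₁ B₁) (act (k, 0, 0, 1) f)) := h1.symm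
      rw [h2, map_eq_one_iff σ σ.injective]
    have hfin : ∀ m : MP, vm m = (k, 0, 0, 1) → ¬ NIm P₁ A₁ B₁ P₂ A₂ B₂ m := by
      rintro m hmm ⟨N, hN⟩
      have h3 : cl P₂ (subst [A₂, B₂] (wl N)) = 1 ↔
          cl P₁ (subst [A₁, B₁] (wl (actl m N))) = 1 := by
        rw [cl_wl, cl_wl, pol_actl, hmm]
        exact hev _
      rw [cl_one, cl_one] at h3
      rcases hN with ⟨n1, n2⟩ | ⟨n1, n2⟩
      · exact fq_sound n2 (h3.1 n1)
      · exact fq_sound n1 (h3.2 n2)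
    rcases hk with rfl | rfl
    · exact hfin _ rfl hN1
    · exact hfin _ rfl hN2

/-- the comparison of annihilators for groups with infinite cyclic abelianisation -/
theorem nim_cyc {P₁ P₂ : Pres} [Metab (GN P₁)] [Metab (GN P₂)] {A₁ B₁ A₂ B₂ : Word}
    (hg₁ : Gen2 (cl P₁ A₁) (cl P₁ B₁)) (hb₁ : cl P₁ B₁ ∈ commutator (GN P₁))
    (ha₁ : ∀ k : ℤ, cl P₁ A₁ ^ k ∈ commutator (GN P₁) → k = 0)
    (hg₂ : Gen2 (cl P₂ A₂) (cl P₂ B₂)) (hb₂ : cl P₂ B₂ ∈ commutator (GN P₂))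
    (ha₂ : ∀ k : ℤ, cl P₂ A₂ ^ k ∈ commutator (GN P₂) → k = 0)
    (hiso : ¬ Nonempty (GN P₁ ≃* GN P₂)) {k : ℤ} (hk : k = 1 ∨ k = -1) {m : MP}
    (hm : vm m = (k, 0, 0, 1)) : NIm P₁ A₁ B₁ P₂ A₂ B₂ m := by
  have hgk : Gen2 (cl P₁ A₁ ^ k) (cl P₁ B₁) := by
    rcases hk with rfl | rfl
    · rw [zpow_one]
      exact hg₁
    · unfold Gen2 at *
      rw [zpow_neg_one, eq_top_iff, ← hg₁, Subgroup.closure_le]
      rintro x (rfl | hx)
      · have h1 : (cl P₁ A₁)⁻¹ ∈ Subgroup.closure {(cl P₁ A₁)⁻¹, cl P₁ B₁} :=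
          Subgroup.subset_closure (Or.inl rfl)
        have h2 := Subgroup.inv_mem _ h1
        rw [inv_inv] at h2
        exact h2
      · rw [Set.mem_singleton_iff] at hx
        rw [hx]
        exact Subgroup.subset_closure (Or.inr rfl)
  have hak : ∀ l : ℤ, (cl P₁ A₁ ^ k) ^ l ∈ commutator (GN P₁) → l = 0 := by
    intro l hl
    rw [← zpow_mul] at hl
    have h1 := ha₁ _ hl
    rcases hk with rfl | rfl
    · omega
    · omega
  have h1 : ¬ ∀ f, ev (cl P₂ A₂) (cl P₂ B₂) f = 1 ↔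
      ev (cl P₁ A₁) (cl P₁ B₁) (act (k, 0, 0, 1) f) = 1 := by
    intro h2
    refine hiso (iso_cyc hgk hb₁ hak hg₂ hb₂ ha₂ fun f => ?_)
    rw [h2 f]
    rw [change_ev hg₁ hgk (m := (k, 0, 0, 1)) (by
        show cl P₁ A₁ ^ k * (cl P₁ A₁ ^ k * cl P₁ B₁ ^ (0 : ℤ))⁻¹ ∈ _
        rw [zpow_zero, mul_one, mul_inv_cancel]
        exact Subgroup.one_mem _) (by
        show cl P₁ B₁ * (cl P₁ A₁ ^ (0 : ℤ) * cl P₁ B₁ ^ (1 : ℤ))⁻¹ ∈ _
        rw [zpow_zero, one_mul, zpow_one, mul_inv_cancel]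
        exact Subgroup.one_mem _)]
  push Not at h1
  obtain ⟨g, hgg⟩ := h1
  obtain ⟨N, rfl⟩ := pol_surj g
  refine ⟨N, ?_⟩
  rcases hgg with ⟨g1, g2⟩ | ⟨g1, g2⟩
  · left
    obtain ⟨Q, iQ, fQ, π, hπ⟩ := rf_cyc hg₁ hb₁ ha₁ g2
    rw [← hm, ← pol_actl, ← cl_wl] at hπ
    rw [← cl_wl] at g1
    exact ⟨cl_one.1 g1, fq_complete π hπ⟩
  · right
    obtain ⟨Q, iQ, fQ, π, hπ⟩ := rf_cyc hg₂ hb₂ ha₂ g1
    rw [← cl_wl] at hπ
    rw [← hm, ← pol_actl, ← cl_wl] at g2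
    exact ⟨fq_complete π hπ, cl_one.1 g2⟩

theorem nz_complete {P₁ P₂ : Pres} [Metab (GN P₁)] [Metab (GN P₂)] {a₁ b₁ : GN P₁}
    {a₂ b₂ : GN P₂} (hg₁ : Gen2 a₁ b₁) (hb₁ : b₁ ∈ commutator (GN P₁))
    (ha₁ : ∀ k : ℤ, a₁ ^ k ∈ commutator (GN P₁) → k = 0) (hg₂ : Gen2 a₂ b₂)
    (hiso : ¬ Nonempty (GN P₁ ≃* GN P₂)) : NZ P₁ P₂ := by
  obtain ⟨A₁, B₁, W₁, hG₁, rfl, rfl⟩ := genW_exists hg₁
  obtain ⟨χ, hχa, hχb⟩ := exists_chi hg₁ 1 0 (by
    intro i j hij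
    have h1 : cl P₁ A₁ ^ i ∈ commutator (GN P₁) := by
      have h2 : cl P₁ A₁ ^ i = (cl P₁ A₁ ^ i * cl P₁ B₁ ^ j) * (cl P₁ B₁ ^ j)⁻¹ := by group
      rw [h2]
      exact Subgroup.mul_mem _ hij (Subgroup.inv_mem _ (Subgroup.zpow_mem _ hb₁ _))
    rw [ha₁ i h1]
    ring)
  obtain ⟨E, hE, hEw⟩ := hz_ex (n := 0) (P := P₁) χ
  have hEA : vz (xs E A₁) ≠ 0 := by
    have h2 : (1 : ℤ) = vz (xs E A₁) := Multiplicative.ofAdd.injective (hχa.symm.trans (hEw A₁))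
    rw [← h2]
    exact one_ne_zero
  refine ⟨A₁, B₁, W₁, E, hG₁, hb₁, hE, hEA, ?_⟩
  by_cases h1 : ∃ n : ℕ, 1 ≤ n ∧ ∀ g : GN P₂, g ^ n ∈ commutator (GN P₂)
  · left
    obtain ⟨n, hn, h2⟩ := h1
    obtain ⟨A₂, B₂, W₂, hG₂, rfl, rfl⟩ := genW_exists hg₂
    refine ⟨A₂, B₂, W₂, hG₂, Or.inl ⟨n, hn, ?_, ?_⟩⟩
    · rw [cl_zp0]
      exact h2 _
    · rw [cl_zp1]
      exact h2 _
  · by_cases h2 : ∃ a' b' : GN P₂, Gen2 a' b' ∧ b' ∈ commutator (GN P₂)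
    · right
      obtain ⟨a', b', hg', hb'⟩ := h2
      obtain ⟨A₂, B₂, W₂, hG₂, rfl, rfl⟩ := genW_exists hg'
      have ha' : ∀ k : ℤ, cl P₂ A₂ ^ k ∈ commutator (GN P₂) → k = 0 := by
        intro k hk
        by_contra hk0
        apply h1
        refine ⟨k.natAbs, Int.natAbs_pos.2 hk0, fun g => exp_ab hg' ?_ ?_ g⟩
        · rcases Int.natAbs_eq k with h3 | h3
          · rw [← zpow_natCast, ← h3]
            exact hk
          · have h4 : ((k.natAbs : ℕ) : ℤ) = -k := by omega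
            rw [← zpow_natCast, h4, zpow_neg]
            exact Subgroup.inv_mem _ hk
        · exact Subgroup.pow_mem _ hb' _
      exact ⟨A₂, B₂, W₂, hG₂, hb', nim_cyc hg₁ hb₁ ha₁ hg' hb' ha' hiso (Or.inl rfl) rfl,
        nim_cyc hg₁ hb₁ ha₁ hg' hb' ha' hiso (Or.inr rfl) rfl⟩
    · left
      obtain ⟨A₂, B₂, W₂, hG₂, rfl, rfl⟩ := genW_exists hg₂
      have h3 : ¬ ∀ p : ℕ, p.Prime → ∃ i j : ℤ, cl P₂ A₂ ^ i * cl P₂ B₂ ^ j ∈ commutator (GN P₂) ∧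
          ¬ ((p : ℤ) ∣ i ∧ (p : ℤ) ∣ j) := fun h => h2 (prim_rel hg₂ h)
      push Not at h3
      obtain ⟨p, hp, h4⟩ := h3
      obtain ⟨e, f, ea, eb, fa, fb⟩ := chi_p hg₂ p (fun i j hij => h4 i j hij)
      obtain ⟨E, hE, hEw⟩ := hz_ex e
      obtain ⟨F, hF, hFw⟩ := hz_ex f
      have cast0 : ∀ z : ℤ, (1 : Multiplicative (ZMod p)) = Multiplicative.ofAdd (z : ZMod p) →
          (p : ℤ) ∣ z := by
        intro z hz
        have : (0 : ZMod p) = (z : ZMod p) := Multiplicative.ofAdd.injective hz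
        exact (ZMod.intCast_zmod_eq_zero_iff_dvd _ p).1 this.symm
      have cast1 : ∀ z : ℤ, (Multiplicative.ofAdd (1 : ZMod p)) = Multiplicative.ofAdd (z : ZMod p) →
          (p : ℤ) ∣ z - 1 := by
        intro z hz
        have : (1 : ZMod p) = (z : ZMod p) := Multiplicative.ofAdd.injective hz
        apply (ZMod.intCast_zmod_eq_zero_iff_dvd _ p).1
        push_cast
        rw [← this]
        ring
      refine ⟨A₂, B₂, W₂, hG₂, Or.inr ⟨p, E, F, hp, hE, hF, cast1 _ ?_, cast0 _ ?_, cast0 _ ?_,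
        cast1 _ ?_⟩⟩
      · rw [← ea]
        exact hEw A₂
      · rw [← eb]
        exact hEw B₂
      · rw [← fa]
        exact hFw A₂
      · rw [← fb]
        exact hFw B₂

end Pool.Agent.H28.IP
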