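/-
ROW PrA. Primitive recursiveness of the matrix operations.
PROOFS. Everything is built from `List.range`, `List.map`, `List.foldr`, `List.getD` and arithmetic on pairs
(`Primrec.list_range`, `Primrec.list_map`, `Primrec.list_foldr`, `Primrec.list_getD`, `Primrec.nat_div`,
`Primrec.nat_mod`, `Primrec.nat_rec`, `Primrec.ite`, `Primrec.eq`); `addp`, `mulp` are primitive recursive (WdB_addp,
WdB_mulp in Pool.Agent.H28.IP.WdB); `powM` is a `Nat.rec` (`Primrec.nat_rec'`).
-/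
import Pool.Agent.H28.IQ.Defs
import Pool.Agent.H28.IP.WdB

set_option autoImplicit false

namespace Pool.Agent.H28.IP

theorem pr_ent : Primrec fun x : ℕ × LM × ℕ × ℕ => ent x.1 x.2.1 x.2.2.1 x.2.2.2 := by
  unfold ent
  have d : Primrec (fun x : ℕ × LM × ℕ × ℕ => x.1) := Primrec.fst
  have A : Primrec (fun x : ℕ × LM × ℕ × ℕ => x.2.1) := Primrec.fst.comp Primrec.snd
  have i : Primrec (fun x : ℕ × LM × ℕ × ℕ => x.2.2.1) :=
    Primrec.fst.comp (Primrec.snd.comp Primrec.snd)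
  have j : Primrec (fun x : ℕ × LM × ℕ × ℕ => x.2.2.2) :=
    Primrec.snd.comp (Primrec.snd.comp Primrec.snd)
  exact (Primrec.list_getD (0, 0)).comp A (Primrec.nat_add.comp (Primrec.nat_mul.comp i d) j)

theorem pr_sump : Primrec sump := by
  unfold sump
  exact Primrec.list_foldr Primrec.id (Primrec.const (0, 0))
    (WdB_addp.comp (Primrec.fst.comp Primrec.snd) (Primrec.snd.comp Primrec.snd)).to₂

theorem PrA_dd {α : Type} [Primcodable α] {f : α → ℕ} (hf : Primrec f) :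
    Primrec (fun x => List.range (f x * f x)) :=
  Primrec.list_range.comp (Primrec.nat_mul.comp hf hf)

theorem pr_mulM : Primrec fun x : ℕ × LM × LM => mulM x.1 x.2.1 x.2.2 := by
  unfold mulM
  refine Primrec.list_map (PrA_dd Primrec.fst) ?_
  refine pr_sump.comp (Primrec.list_map (Primrec.list_range.comp (Primrec.fst.comp Primrec.fst)) ?_)
  have d : Primrec (fun q : ((ℕ × LM × LM) × ℕ) × ℕ => q.1.1.1) :=
    Primrec.fst.comp (Primrec.fst.comp Primrec.fst)
  have A : Primrec (fun q : ((ℕ × LM × LM) × ℕ) × ℕ => q.1.1.2.1) :=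
    Primrec.fst.comp (Primrec.snd.comp (Primrec.fst.comp Primrec.fst))
  have B : Primrec (fun q : ((ℕ × LM × LM) × ℕ) × ℕ => q.1.1.2.2) :=
    Primrec.snd.comp (Primrec.snd.comp (Primrec.fst.comp Primrec.fst))
  have t : Primrec (fun q : ((ℕ × LM × LM) × ℕ) × ℕ => q.1.2) := Primrec.snd.comp Primrec.fst
  have k : Primrec (fun q : ((ℕ × LM × LM) × ℕ) × ℕ => q.2) := Primrec.snd
  have e1 : Primrec (fun q : ((ℕ × LM × LM) × ℕ) × ℕ => ent q.1.1.1 q.1.1.2.1 (q.1.2 / q.1.1.1) q.2) :=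
    pr_ent.comp (d.pair (A.pair ((Primrec.nat_div.comp t d).pair k)))
  have e2 : Primrec (fun q : ((ℕ × LM × LM) × ℕ) × ℕ => ent q.1.1.1 q.1.1.2.2 q.2 (q.1.2 % q.1.1.1)) :=
    pr_ent.comp (d.pair (B.pair (k.pair (Primrec.nat_mod.comp t d))))
  exact (WdB_mulp.comp e1 e2).to₂

theorem pr_sclM : Primrec fun x : ℕ × ℕ => sclM x.1 x.2 := by
  unfold sclM
  refine Primrec.list_map (PrA_dd Primrec.fst) ?_
  have d : Primrec (fun q : (ℕ × ℕ) × ℕ => q.1.1) := Primrec.fst.comp Primrec.fst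
  have c : Primrec (fun q : (ℕ × ℕ) × ℕ => q.1.2) := Primrec.snd.comp Primrec.fst
  have t : Primrec (fun q : (ℕ × ℕ) × ℕ => q.2) := Primrec.snd
  refine Primrec.ite ?_ (c.pair (Primrec.const 0)) (Primrec.const (0, 0))
  exact Primrec.eq.comp (Primrec.nat_div.comp t d) (Primrec.nat_mod.comp t d)

theorem pr_addM : Primrec fun x : ℕ × LM × LM => addM x.1 x.2.1 x.2.2 := by
  unfold addM
  refine Primrec.list_map (PrA_dd Primrec.fst) ?_
  have A : Primrec (fun q : (ℕ × LM × LM) × ℕ => q.1.2.1) :=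
    Primrec.fst.comp (Primrec.snd.comp Primrec.fst)
  have B : Primrec (fun q : (ℕ × LM × LM) × ℕ => q.1.2.2) :=
    Primrec.snd.comp (Primrec.snd.comp Primrec.fst)
  have t : Primrec (fun q : (ℕ × LM × LM) × ℕ => q.2) := Primrec.snd
  exact (WdB_addp.comp ((Primrec.list_getD (0, 0)).comp A t) ((Primrec.list_getD (0, 0)).comp B t)).to₂

theorem pr_negM : Primrec negM := by
  unfold negM
  refine Primrec.list_map Primrec.id ?_
  exact (Primrec.pair (Primrec.snd.comp Primrec.snd) (Primrec.fst.comp Primrec.snd)).to₂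

theorem pr_powM : Primrec fun x : ℕ × LM × ℕ => powM x.1 x.2.1 x.2.2 := by
  unfold powM
  have c : Primrec (fun x : ℕ × LM × ℕ => sclM x.1 1) :=
    pr_sclM.comp (Primrec.fst.pair (Primrec.const 1))
  refine Primrec.nat_rec' (h := fun (x : ℕ × LM × ℕ) (q : ℕ × LM) => mulM x.1 x.2.1 q.2)
    (Primrec.snd.comp Primrec.snd) c ?_
  have d : Primrec (fun q : (ℕ × LM × ℕ) × ℕ × LM => q.1.1) := Primrec.fst.comp Primrec.fst
  have A : Primrec (fun q : (ℕ × LM × ℕ) × ℕ × LM => q.1.2.1) :=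
    Primrec.fst.comp (Primrec.snd.comp Primrec.fst)
  have R : Primrec (fun q : (ℕ × LM × ℕ) × ℕ × LM => q.2.2) := Primrec.snd.comp Primrec.snd
  exact (pr_mulM.comp (d.pair (A.pair R))).to₂

theorem pr_trM : Primrec fun x : ℕ × LM => trM x.1 x.2 := by
  unfold trM
  refine pr_sump.comp (Primrec.list_map (Primrec.list_range.comp Primrec.fst) ?_)
  have d : Primrec (fun q : (ℕ × LM) × ℕ => q.1.1) := Primrec.fst.comp Primrec.fst
  have A : Primrec (fun q : (ℕ × LM) × ℕ => q.1.2) := Primrec.snd.comp Primrec.fst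
  have t : Primrec (fun q : (ℕ × LM) × ℕ => q.2) := Primrec.snd
  exact (pr_ent.comp (d.pair (A.pair (t.pair t)))).to₂

end Pool.Agent.H28.IP
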