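/-
ROW PrB. Primitive recursiveness of models, vectors, families.
PROOFS. Compositions of the functions of PrA, of `addp`, `mulp`, `subp` (WdB_addp, WdB_mulp in Pool.Agent.H28.IP.WdB;
WdC_subp in WdC), `ints` (WdB_ints), `List.flatMap` (`Primrec.list_flatMap`), `List.foldr` (`Primrec.list_foldr`), the power of
natural numbers (`Primrec.nat_rec` or an existing lemma for `^`), `List.sum`-like folds (WdB_sum), `Bool` cond
(`Primrec.cond`).
-/
import Pool.Agent.H28.IQ.PrA
import Pool.Agent.H28.IP.WdC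

set_option autoImplicit false

namespace Pool.Agent.H28.IP

theorem PrB_add {α : Type} [Primcodable α] {f g : α → ℕ × ℕ} (hf : Primrec f) (hg : Primrec g) :
    Primrec fun a => addp (f a) (g a) := WdB_addp.comp hf hg

theorem PrB_mulM {α : Type} [Primcodable α] {d : α → ℕ} {A B : α → LM} (hd : Primrec d) (hA : Primrec A)
    (hB : Primrec B) : Primrec fun a => mulM (d a) (A a) (B a) := pr_mulM.comp (hd.pair (hA.pair hB))

theorem PrB_addM {α : Type} [Primcodable α] {d : α → ℕ} {A B : α → LM} (hd : Primrec d) (hA : Primrec A)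
    (hB : Primrec B) : Primrec fun a => addM (d a) (A a) (B a) := pr_addM.comp (hd.pair (hA.pair hB))

theorem PrB_powM {α : Type} [Primcodable α] {d : α → ℕ} {A : α → LM} {n : α → ℕ} (hd : Primrec d)
    (hA : Primrec A) (hn : Primrec n) : Primrec fun a => powM (d a) (A a) (n a) :=
  pr_powM.comp (hd.pair (hA.pair hn))

theorem PrB_sclM {α : Type} [Primcodable α] {d c : α → ℕ} (hd : Primrec d) (hc : Primrec c) :
    Primrec fun a => sclM (d a) (c a) := pr_sclM.comp (hd.pair hc)

theorem pr_npow : Primrec fun x : ℕ × ℕ => x.1 ^ x.2 := by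
  have h : Primrec fun x : ℕ × ℕ => (Nat.rec 1 (fun _ r => r * x.1) x.2 : ℕ) :=
    Primrec.nat_rec' Primrec.snd (Primrec.const 1)
      (WdC_mul (Primrec.snd.comp Primrec.snd) (Primrec.fst.comp Primrec.fst)).to₂
  refine h.of_eq fun x => ?_
  induction x.2 with
  | zero => rfl
  | succ n ih => rw [pow_succ, ← ih]

theorem PrB_pow {α : Type} [Primcodable α] {f g : α → ℕ} (hf : Primrec f) (hg : Primrec g) :
    Primrec fun a => f a ^ g a := pr_npow.comp (hf.pair hg)

theorem pr_dg : Primrec dg := by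
  unfold dg
  exact WdC_add (WdC_add (WdC_add (Primrec.fst.comp Primrec.fst) (Primrec.snd.comp Primrec.fst))
    (Primrec.fst.comp Primrec.snd)) (Primrec.snd.comp Primrec.snd)

theorem pr_numM : Primrec fun x : MD × VV => numM x.1 x.2 := by
  unfold numM
  have hd : Primrec fun x : MD × VV => x.1.1 := Primrec.fst.comp Primrec.fst
  have h0 : Primrec fun x : MD × VV => x.1.2.2 := Primrec.snd.comp (Primrec.snd.comp Primrec.fst)
  have hA : Primrec fun x : MD × VV => x.1.2.2.1 := Primrec.fst.comp h0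
  have hA' : Primrec fun x : MD × VV => x.1.2.2.2.1 := Primrec.fst.comp (Primrec.snd.comp h0)
  have hB : Primrec fun x : MD × VV => x.1.2.2.2.2.1 := Primrec.fst.comp (Primrec.snd.comp (Primrec.snd.comp h0))
  have hB' : Primrec fun x : MD × VV => x.1.2.2.2.2.2 :=
    Primrec.snd.comp (Primrec.snd.comp (Primrec.snd.comp h0))
  have w1 : Primrec fun x : MD × VV => x.2.1 := Primrec.fst.comp Primrec.snd
  have w2 : Primrec fun x : MD × VV => x.2.2 := Primrec.snd.comp Primrec.snd
  exact PrB_mulM hd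
    (PrB_mulM hd (PrB_powM hd hA (Primrec.fst.comp w1)) (PrB_powM hd hA' (Primrec.snd.comp w1)))
    (PrB_mulM hd (PrB_powM hd hB (Primrec.fst.comp w2)) (PrB_powM hd hB' (Primrec.snd.comp w2)))

/-- one step of `evN` -/
def PrB_step (D : MD) (M : ℕ) (e : (ℕ × ℕ) × (ℕ × ℕ) × Bool) (R : LM) : LM :=
  addM D.1 (mulM D.1 (sclM D.1 (D.2.1 ^ (M - dg (e.1, e.2.1))))
    (cond e.2.2 (numM D (e.1, e.2.1)) (negM (numM D (e.1, e.2.1))))) R

theorem PrB_numM {α : Type} [Primcodable α] {D : α → MD} {w : α → VV} (hD : Primrec D) (hw : Primrec w) :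
    Primrec fun a => numM (D a) (w a) := by
  have h1 : Primrec fun a => (D a, w a) := hD.pair hw
  have h2 := pr_numM.comp h1
  exact h2

theorem PrB_step_pr {α : Type} [Primcodable α] {D : α → MD} {M : α → ℕ}
    {e : α → (ℕ × ℕ) × (ℕ × ℕ) × Bool} {R : α → LM} (hD : Primrec D) (hM : Primrec M) (he : Primrec e)
    (hR : Primrec R) : Primrec fun a => PrB_step (D a) (M a) (e a) (R a) := by
  unfold PrB_step
  have hd : Primrec fun a => (D a).1 := Primrec.fst.comp hD
  have hm : Primrec fun a => (D a).2.1 := Primrec.fst.comp (Primrec.snd.comp hD)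
  have hv : Primrec fun a => (((e a).1, (e a).2.1) : VV) :=
    (Primrec.fst.comp he).pair (Primrec.fst.comp (Primrec.snd.comp he))
  have hb : Primrec fun a => (e a).2.2 := Primrec.snd.comp (Primrec.snd.comp he)
  have hN := PrB_numM hD hv
  exact PrB_addM hd (PrB_mulM hd
    (PrB_sclM hd (PrB_pow hm (Primrec.nat_sub.comp hM (pr_dg.comp hv))))
    (Primrec.cond hb hN (pr_negM.comp hN))) hR

theorem pr_evN : Primrec fun x : MD × ℕ × NL => evN x.1 x.2.1 x.2.2 := by
  have hh : Primrec₂ fun (x : MD × ℕ × NL) (p : ((ℕ × ℕ) × (ℕ × ℕ) × Bool) × LM) =>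
      PrB_step x.1 x.2.1 p.1 p.2 :=
    (PrB_step_pr (α := (MD × ℕ × NL) × (((ℕ × ℕ) × (ℕ × ℕ) × Bool) × LM))
      (D := fun q => q.1.1) (M := fun q => q.1.2.1) (e := fun q => q.2.1) (R := fun q => q.2.2)
      (Primrec.fst.comp Primrec.fst) (Primrec.fst.comp (Primrec.snd.comp Primrec.fst))
      (Primrec.fst.comp Primrec.snd) (Primrec.snd.comp Primrec.snd)).to₂
  have hf : Primrec fun x : MD × ℕ × NL => x.2.2 := Primrec.snd.comp Primrec.snd
  have hg : Primrec fun _ : MD × ℕ × NL => ([] : LM) := Primrec.const []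
  exact (Primrec.list_foldr hf hg hh).of_eq fun x => rfl

theorem pr_sclV : Primrec fun x : ℕ × VV => sclV x.1 x.2 := by
  unfold sclV
  have h1 : Primrec fun x : ℕ × VV => x.2.1 := Primrec.fst.comp Primrec.snd
  have h2 : Primrec fun x : ℕ × VV => x.2.2 := Primrec.snd.comp Primrec.snd
  exact ((WdC_mul Primrec.fst (Primrec.fst.comp h1)).pair (WdC_mul Primrec.fst (Primrec.snd.comp h1))).pair
    ((WdC_mul Primrec.fst (Primrec.fst.comp h2)).pair (WdC_mul Primrec.fst (Primrec.snd.comp h2)))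

theorem pr_negV : Primrec negV := by
  unfold negV
  exact (Primrec.pair (Primrec.snd.comp Primrec.fst) (Primrec.fst.comp Primrec.fst)).pair
    (Primrec.pair (Primrec.snd.comp Primrec.snd) (Primrec.fst.comp Primrec.snd))

theorem pr_dotV : Primrec fun x : VV × VV => dotV x.1 x.2 := by
  unfold dotV
  exact PrB_add (WdC_mulp (Primrec.fst.comp Primrec.fst) (Primrec.fst.comp Primrec.snd))
    (WdC_mulp (Primrec.snd.comp Primrec.fst) (Primrec.snd.comp Primrec.snd))

theorem pr_detV : Primrec fun x : VV × VV => detV x.1 x.2 := by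
  unfold detV
  exact WdC_subp (WdC_mulp (Primrec.fst.comp Primrec.fst) (Primrec.snd.comp Primrec.snd))
    (WdC_mulp (Primrec.snd.comp Primrec.fst) (Primrec.fst.comp Primrec.snd))

theorem pr_box2 : Primrec box2 := by
  unfold box2
  refine Primrec.list_flatMap WdB_ints ?_
  exact (Primrec.list_map (WdB_ints.comp Primrec.fst)
    ((Primrec.snd.comp Primrec.fst).pair Primrec.snd).to₂).to₂

theorem pr_famN : Primrec fun x : MP × VV × VV × (ℕ × ℕ) => famN x.1 x.2.1 x.2.2.1 x.2.2.2 := by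
  unfold famN
  have m0 : Primrec fun x : MP × VV × VV × (ℕ × ℕ) => x.1 := Primrec.fst
  have m1 : Primrec fun x : MP × VV × VV × (ℕ × ℕ) => x.1.1 := Primrec.fst.comp m0
  have m2 : Primrec fun x : MP × VV × VV × (ℕ × ℕ) => x.1.2.1 := Primrec.fst.comp (Primrec.snd.comp m0)
  have m3 : Primrec fun x : MP × VV × VV × (ℕ × ℕ) => x.1.2.2.1 :=
    Primrec.fst.comp (Primrec.snd.comp (Primrec.snd.comp m0))
  have m4 : Primrec fun x : MP × VV × VV × (ℕ × ℕ) => x.1.2.2.2 :=
    Primrec.snd.comp (Primrec.snd.comp (Primrec.snd.comp m0))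
  have w : Primrec fun x : MP × VV × VV × (ℕ × ℕ) => x.2.1 := Primrec.fst.comp Primrec.snd
  have w' : Primrec fun x : MP × VV × VV × (ℕ × ℕ) => x.2.2.1 :=
    Primrec.fst.comp (Primrec.snd.comp Primrec.snd)
  have k : Primrec fun x : MP × VV × VV × (ℕ × ℕ) => x.2.2.2 :=
    Primrec.snd.comp (Primrec.snd.comp Primrec.snd)
  exact (WdC_subp m1 (WdC_mulp k (WdC_mulp (Primrec.snd.comp w') (Primrec.fst.comp w)))).pair
    ((WdC_subp m2 (WdC_mulp k (WdC_mulp (Primrec.snd.comp w') (Primrec.snd.comp w)))).pair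
    ((PrB_add m3 (WdC_mulp k (WdC_mulp (Primrec.fst.comp w') (Primrec.fst.comp w)))).pair
    (PrB_add m4 (WdC_mulp k (WdC_mulp (Primrec.fst.comp w') (Primrec.snd.comp w))))))

theorem pr_pvN : Primrec fun x : List (ℕ × ℕ) × (ℕ × ℕ) => pvN x.1 x.2 := by
  unfold pvN
  exact Primrec.list_foldr Primrec.fst (Primrec.const (0, 0))
    (PrB_add (Primrec.fst.comp Primrec.snd)
      (WdC_mulp (Primrec.snd.comp Primrec.fst) (Primrec.snd.comp Primrec.snd))).to₂

theorem pr_mxF : Primrec mxF := by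
  unfold mxF
  exact WdB_sum.comp (Primrec.list_map Primrec.id
    (WdC_add (Primrec.fst.comp Primrec.snd) (Primrec.snd.comp Primrec.snd)).to₂)

end Pool.Agent.H28.IP
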