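/-
ROW PrD. The conditions Cov and PB are recursively enumerable.
PROOFS. Cov: conjunction of primitive recursive conditions and bounded quantifiers over lists: re_all
(Pool.Agent.H28.IP.Re2) for `∀ L ∈ Ls` and `∀ x ∈ box2 (4 * b)` (with `vv x ≠ 0 → …` written as `vv x = 0 ∨ …`, both decidable:
`vv x = 0 ↔ vz x.1 = 0 ∧ vz x.2 = 0`), bounded existence `∃ w ∈ l, p w` as `∃ w, w ∈ l ∧ p w` (re_ex; membership in a
list is primitive recursive), the length of a filtered list: `List.filter` with a primitive recursive Boolean function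
depending on parameters (`Primrec.list_filter`-type lemma or via foldr: `(L.filter q).length` is the fold adding 1 for
each element with `q`; compare WdC_cnt in Pool.Agent.H28.IP.WdC). `leE`: `vz u ≤ vz v ↔ u.1 + v.2 ≤ v.1 + u.2`.
PB: re_ex for `Lx`, `Ly`; re_InN (Pool.Agent.H28.IP.NcB), prim_subst, prim_wl (WdA, WdB), NiA_inn / NiA_two (NiA);
re_coef (WdC) with the constant 0; `Lx.length ≤ 2 ^ c` (pr_npow).
-/
import Pool.Agent.H28.IQ.PrB
import Pool.Agent.H28.IP.NiA

set_option autoImplicit false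

namespace Pool.Agent.H28.IP

section
variable {α β : Type} [Primcodable α] [Primcodable β]

theorem PrD_ex {p : α × β → Prop} (hp : PrimrecPred p) {f : α → List β} (hf : Primrec f) :
    PrimrecPred fun a => ∃ b ∈ f a, p (a, b) := by
  have hR : PrimrecRel fun (b : β) (a : α) => p (a, b) := hp.comp (Primrec.snd.pair Primrec.fst)
  exact (PrimrecRel.exists_mem_list hR).comp hf Primrec.id

theorem PrD_all {p : α × β → Prop} (hp : PrimrecPred p) {f : α → List β} (hf : Primrec f) :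
    PrimrecPred fun a => ∀ b ∈ f a, p (a, b) := by
  have hR : PrimrecRel fun (b : β) (a : α) => p (a, b) := hp.comp (Primrec.snd.pair Primrec.fst)
  exact (PrimrecRel.forall_mem_list hR).comp hf Primrec.id

theorem PrD_len {p : α × β → Prop} (hp : PrimrecPred p) {f : α → List β} (hf : Primrec f)
    (q : α → β → Bool) (hq : ∀ a b, q a b = true ↔ p (a, b)) :
    Primrec fun a => ((f a).filter (q a)).length := by
  classical
  have hR : PrimrecRel fun (b : β) (a : α) => p (a, b) := hp.comp (Primrec.snd.pair Primrec.fst)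
  have h1 : Primrec fun a => ((f a).filter (fun b => decide (p (a, b)))) :=
    (PrimrecRel.listFilter hR).comp hf Primrec.id
  refine (Primrec.list_length.comp h1).of_eq fun a => ?_
  have e : (fun b => decide (p (a, b))) = q a := by
    funext b
    rw [Bool.eq_iff_iff, decide_eq_true_iff, hq]
  rw [e]

theorem PrD_vzle {f g : α → ℕ × ℕ} (hf : Primrec f) (hg : Primrec g) :
    PrimrecPred fun a => vz (f a) ≤ vz (g a) := by
  have h := Primrec.nat_le.comp (WdC_add (Primrec.fst.comp hf) (Primrec.snd.comp hg))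
    (WdC_add (Primrec.fst.comp hg) (Primrec.snd.comp hf))
  refine h.of_eq fun a => ?_
  unfold vz
  omega

theorem PrD_vv {f : α → VV} (hf : Primrec f) : PrimrecPred fun a => vv (f a) = 0 := by
  have h := (WdC_vzeq (Primrec.fst.comp hf) (Primrec.const ((0, 0) : ℕ × ℕ))).and
    (WdC_vzeq (Primrec.snd.comp hf) (Primrec.const ((0, 0) : ℕ × ℕ)))
  refine h.of_eq fun a => ?_
  have h0 : vz (0, 0) = 0 := by simp [vz]
  rw [h0]
  unfold vv
  rw [Prod.mk_eq_zero]

theorem PrD_dot {f g : α → VV} (hf : Primrec f) (hg : Primrec g) :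
    Primrec fun a => dotV (f a) (g a) := pr_dotV.comp (hf.pair hg)

end

/-- The letters of a list. -/
abbrev PrD_E : Type := (ℕ × ℕ) × (ℕ × ℕ) × Bool

theorem PrD_leE {α : Type} [Primcodable α] {x : α → VV} {e e' : α → PrD_E} (hx : Primrec x)
    (he : Primrec e) (he' : Primrec e') :
    PrimrecPred fun a => vz (dotV (x a) ((e' a).1, (e' a).2.1)) ≤ vz (dotV (x a) ((e a).1, (e a).2.1)) :=
  PrD_vzle (PrD_dot hx ((Primrec.fst.comp he').pair (Primrec.fst.comp (Primrec.snd.comp he'))))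
    (PrD_dot hx ((Primrec.fst.comp he).pair (Primrec.fst.comp (Primrec.snd.comp he))))

theorem PrD_c1 : PrimrecPred fun y : ((List NL × ℕ) × VV) × NL =>
    ∃ e ∈ y.2, (y.2.filter (leE y.1.2 e)).length = 1 := by
  have h1 : PrimrecPred fun z : ((((List NL × ℕ) × VV) × NL) × PrD_E) × PrD_E =>
      vz (dotV z.1.1.1.2 (z.2.1, z.2.2.1)) ≤ vz (dotV z.1.1.1.2 (z.1.2.1, z.1.2.2.1)) :=
    PrD_leE (x := fun z : ((((List NL × ℕ) × VV) × NL) × PrD_E) × PrD_E => z.1.1.1.2)
      (e := fun z => z.1.2) (e' := fun z => z.2)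
      (Primrec.snd.comp (Primrec.fst.comp (Primrec.fst.comp Primrec.fst)))
      (Primrec.snd.comp Primrec.fst) Primrec.snd
  have h2 := PrD_len h1 (f := fun z : (((List NL × ℕ) × VV) × NL) × PrD_E => z.1.2)
    (Primrec.snd.comp Primrec.fst) (fun z e' => leE z.1.1.2 z.2 e')
    (fun z e' => by unfold leE; rw [decide_eq_true_iff])
  have h3 : PrimrecPred fun z : (((List NL × ℕ) × VV) × NL) × PrD_E =>
      (z.1.2.filter (leE z.1.1.2 z.2)).length = 1 := WdC_eq h2 (Primrec.const 1)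
  exact PrD_ex h3 Primrec.snd

theorem PrD_c2 : PrimrecPred fun y : (List NL × ℕ) × VV =>
    ∃ L ∈ y.1.1, ∃ e ∈ L, (L.filter (leE y.2 e)).length = 1 :=
  PrD_ex PrD_c1 (f := fun y : (List NL × ℕ) × VV => y.1.1) (Primrec.fst.comp Primrec.fst)

theorem PrD_c3 : PrimrecPred fun y : (List NL × ℕ) × VV =>
    ∃ w ∈ box2 (2 * y.1.2), vv w ≠ 0 ∧ vz (dotV y.2 w) = 0 := by
  have h1 : PrimrecPred fun z : ((List NL × ℕ) × VV) × VV => vv z.2 ≠ 0 :=
    (PrD_vv Primrec.snd).not
  have h2 : PrimrecPred fun z : ((List NL × ℕ) × VV) × VV =>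
      vz (dotV z.1.2 z.2) = vz ((0, 0) : ℕ × ℕ) :=
    WdC_vzeq (PrD_dot (Primrec.snd.comp Primrec.fst) Primrec.snd) (Primrec.const _)
  have h3 : PrimrecPred fun z : ((List NL × ℕ) × VV) × VV => vv z.2 ≠ 0 ∧ vz (dotV z.1.2 z.2) = 0 := by
    refine (h1.and h2).of_eq fun z => ?_
    have h0 : vz (0, 0) = 0 := by simp [vz]
    rw [h0]
  exact PrD_ex h3 (f := fun y : (List NL × ℕ) × VV => box2 (2 * y.1.2))
    (pr_box2.comp (WdC_mul (Primrec.const 2) (Primrec.snd.comp Primrec.fst)))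

theorem re_Cov : Re fun x : List NL × ℕ => Cov x.1 x.2 := by
  apply re_prim
  have h1 : PrimrecPred fun x : List NL × ℕ => 1 ≤ x.2 :=
    Primrec.nat_le.comp (Primrec.const 1) Primrec.snd
  have h2 : PrimrecPred fun x : List NL × ℕ => ∀ L ∈ x.1, mx L ≤ x.2 :=
    PrD_all (p := fun y : (List NL × ℕ) × NL => mx y.2 ≤ y.1.2)
      (Primrec.nat_le.comp (prim_mx.comp Primrec.snd) (Primrec.snd.comp Primrec.fst))
      (f := fun x : List NL × ℕ => x.1) Primrec.fst
  have h3 : PrimrecPred fun y : (List NL × ℕ) × VV => vv y.2 ≠ 0 →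
      (∃ w ∈ box2 (2 * y.1.2), vv w ≠ 0 ∧ vz (dotV y.2 w) = 0) ∨
        ∃ L ∈ y.1.1, ∃ e ∈ L, (L.filter (leE y.2 e)).length = 1 := by
    have h4 : PrimrecPred fun y : (List NL × ℕ) × VV => vv y.2 = 0 := PrD_vv Primrec.snd
    refine (h4.or (PrD_c3.or PrD_c2)).of_eq fun y => ?_
    constructor
    · rintro (h | h) hne
      · exact absurd h hne
      · exact h
    · intro h
      by_cases hv : vv y.2 = 0
      · exact Or.inl hv
      · exact Or.inr (h hv)
  have h5 := PrD_all h3 (f := fun x : List NL × ℕ => box2 (4 * x.2))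
    (pr_box2.comp (WdC_mul (Primrec.const 4) Primrec.snd))
  exact h1.and (h2.and h5)

theorem PrD_B {α : Type} [Primcodable α] {P : α → Pres} {A B : α → Word} {L : α → NL}
    (hP : Primrec P) (hA : Primrec A) (hB : Primrec B) (hL : Primrec L) :
    Re fun a => InN (P a) (subst [A a, B a] (wl (L a))) :=
  NiA_inn hP (prim_subst.comp (NiA_two hA hB) (prim_wl.comp hL))

theorem PrD_coef {α : Type} [Primcodable α] {L : α → NL} (hL : Primrec L) :
    Re fun a => ∃ z : ℤ × ℤ, ¬ ((0 : ℕ) : ℤ) ∣ (pol (L a)).coeff z := by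
  have h1 : Primrec fun a => ((0, L a) : ℕ × NL) := (Primrec.const 0).pair hL
  have h2 := re_comp re_coef h1
  exact h2

theorem re_PB : Re fun x : (Pres × Word × Word) × ℕ => PB x.1.1 x.1.2.1 x.1.2.2 x.2 := by
  have hP : Primrec fun y : ((Pres × Word × Word) × ℕ) × (NL × NL) => y.1.1.1 :=
    Primrec.fst.comp (Primrec.fst.comp Primrec.fst)
  have hA : Primrec fun y : ((Pres × Word × Word) × ℕ) × (NL × NL) => y.1.1.2.1 :=
    Primrec.fst.comp (Primrec.snd.comp (Primrec.fst.comp Primrec.fst))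
  have hB : Primrec fun y : ((Pres × Word × Word) × ℕ) × (NL × NL) => y.1.1.2.2 :=
    Primrec.snd.comp (Primrec.snd.comp (Primrec.fst.comp Primrec.fst))
  have hx : Primrec fun y : ((Pres × Word × Word) × ℕ) × (NL × NL) => y.2.1 :=
    Primrec.fst.comp Primrec.snd
  have hy : Primrec fun y : ((Pres × Word × Word) × ℕ) × (NL × NL) => y.2.2 :=
    Primrec.snd.comp Primrec.snd
  have hc : Primrec fun y : ((Pres × Word × Word) × ℕ) × (NL × NL) => 2 ^ y.1.2 :=
    pr_npow.comp ((Primrec.const 2).pair (Primrec.snd.comp Primrec.fst))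
  have h1 := re_and (PrD_B hP hA hB hx) (PrD_B hP hA hB hy)
  have h2a : PrimrecPred fun y : ((Pres × Word × Word) × ℕ) × (NL × NL) =>
      ∀ e ∈ y.2.1, vz e.2.1 = vz ((0, 0) : ℕ × ℕ) :=
    PrD_all (p := fun z : (((Pres × Word × Word) × ℕ) × (NL × NL)) × PrD_E =>
      vz z.2.2.1 = vz ((0, 0) : ℕ × ℕ))
      (WdC_vzeq (Primrec.fst.comp (Primrec.snd.comp Primrec.snd)) (Primrec.const _)) hx
  have h2b : PrimrecPred fun y : ((Pres × Word × Word) × ℕ) × (NL × NL) =>
      ∀ e ∈ y.2.2, vz e.1 = vz ((0, 0) : ℕ × ℕ) :=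
    PrD_all (p := fun z : (((Pres × Word × Word) × ℕ) × (NL × NL)) × PrD_E =>
      vz z.2.1 = vz ((0, 0) : ℕ × ℕ))
      (WdC_vzeq (Primrec.fst.comp Primrec.snd) (Primrec.const _)) hy
  have h3 := re_and (PrD_coef hx) (PrD_coef hy)
  have h4 : PrimrecPred fun y : ((Pres × Word × Word) × ℕ) × (NL × NL) =>
      y.2.1.length ≤ 2 ^ y.1.2 ∧ y.2.2.length ≤ 2 ^ y.1.2 :=
    (Primrec.nat_le.comp (Primrec.list_length.comp hx) hc).and
      (Primrec.nat_le.comp (Primrec.list_length.comp hy) hc)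
  have hall := re_ex (re_and h1 (re_and (re_prim (h2a.and h2b)) (re_and h3 (re_prim h4))))
  have h0 : vz (0, 0) = 0 := by simp [vz]
  refine re_of_eq hall fun x => ?_
  constructor
  · rintro ⟨⟨Lx, Ly⟩, g1, g2, g3, g4⟩
    exact ⟨Lx, Ly, g1, ⟨fun e he => (g2.1 e he).trans h0, fun e he => (g2.2 e he).trans h0⟩, g3, g4⟩
  · rintro ⟨Lx, Ly, g1, g2, g3, g4⟩
    exact ⟨⟨Lx, Ly⟩, g1, ⟨fun e he => (g2.1 e he).trans h0.symm,
      fun e he => (g2.2 e he).trans h0.symm⟩, g3, g4⟩

end Pool.Agent.H28.IP
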