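/-
ROW PrC. The checks on models.
PROOFS. `vz u = vz v ↔ u.1 + v.2 = v.1 + u.2` (WdC_vz, WdC_vzeq in Pool.Agent.H28.IP.WdC), bounded quantifiers over
`List.range` (`PrimrecPred.forall_mem_list`/`Primrec.all..`, or re_all in Pool.Agent.H28.IP.Re2 for the statements with Re),
`∣` for differences of natural numbers: `((c : ℕ) : ℤ) ∣ vz u ↔ u.1 % c = u.2 % c` (c ≥ 0; also true for c = 0, as
`u.1 % 0 = u.1`), compare WdC_dvd, WdC_pred; `(c : ℤ) < |vz u| ↔ c + u.2 < u.1 ∨ c + u.1 < u.2`. The functions are primitive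
recursive by PrA, PrB; `mx`: prim_mx in WdB. NonInt: two existential quantifiers (re_ex in Pool.Agent.H28.IP.Re1) over a
primitive recursive predicate (`Re1.re_prim`, re_or, re_and).
-/
import Pool.Agent.H28.IQ.PrB
import Pool.Agent.H28.IP.Re2

set_option autoImplicit false

namespace Pool.Agent.H28.IP

theorem PrC_le {α : Type} [Primcodable α] {f g : α → ℕ} (hf : Primrec f) (hg : Primrec g) :
    PrimrecPred fun a => f a ≤ g a := PrimrecRel.comp Primrec.nat_le hf hg

theorem PrC_lt {α : Type} [Primcodable α] {f g : α → ℕ} (hf : Primrec f) (hg : Primrec g) :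
    PrimrecPred fun a => f a < g a := PrimrecRel.comp Primrec.nat_lt hf hg

theorem PrC_getD {α : Type} [Primcodable α] {l : α → LM} {n : α → ℕ} (hl : Primrec l) (hn : Primrec n) :
    Primrec fun a => (l a).getD (n a) (0, 0) := (Primrec.list_getD (0, 0)).comp hl hn

theorem PrC_forall {α : Type} [Primcodable α] {R : ℕ → α → Prop}
    (h : PrimrecPred fun x : ℕ × α => R x.1 x.2) {f : α → ℕ} (hf : Primrec f) :
    PrimrecPred fun a => ∀ t < f a, R t a := by
  have h1 : PrimrecRel R := h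
  have h2 : PrimrecRel fun (L : List ℕ) (a : α) => ∀ t ∈ L, R t a := PrimrecRel.forall_mem_list h1
  have h3 : PrimrecPred fun a => ∀ t ∈ List.range (f a), R t a :=
    PrimrecPred.comp (p := fun q : List ℕ × α => ∀ t ∈ q.1, R t q.2) h2
      (f := fun a : α => (List.range (f a), a)) ((Primrec.list_range.comp hf).pair Primrec.id)
  exact h3.of_eq fun a => by simp only [List.mem_range]

theorem PrC_eqM {α : Type} [Primcodable α] {d : α → ℕ} {A B : α → LM} (hd : Primrec d)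
    (hA : Primrec A) (hB : Primrec B) : PrimrecPred fun a => eqM (d a) (A a) (B a) := by
  unfold eqM
  refine PrC_forall (R := fun t a => vz ((A a).getD t (0, 0)) = vz ((B a).getD t (0, 0))) ?_
    (WdC_mul hd hd)
  exact WdC_vzeq (PrC_getD (hA.comp Primrec.snd) Primrec.fst)
    (PrC_getD (hB.comp Primrec.snd) Primrec.fst)

theorem PrC_ndvd {α : Type} [Primcodable α] {c : α → ℕ} {u : α → ℕ × ℕ} (hc : Primrec c)
    (hu : Primrec u) : PrimrecPred fun a => ¬ ((c a : ℕ) : ℤ) ∣ vz (u a) := by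
  have h := (WdC_eq (Primrec.nat_mod.comp (Primrec.fst.comp hu) hc)
    (Primrec.nat_mod.comp (Primrec.snd.comp hu) hc)).not
  refine h.of_eq fun a => ?_
  exact (WdC_dvd (c a) (u a).1 (u a).2).symm

theorem PrC_abs (c : ℕ) (u : ℕ × ℕ) : ((c : ℕ) : ℤ) < |vz u| ↔ c + u.2 < u.1 ∨ c + u.1 < u.2 := by
  unfold vz
  rw [lt_abs]
  omega

theorem PrC_gt {α : Type} [Primcodable α] {c : α → ℕ} {u : α → ℕ × ℕ} (hc : Primrec c)
    (hu : Primrec u) : PrimrecPred fun a => ((c a : ℕ) : ℤ) < |vz (u a)| := by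
  have h := (PrC_lt (WdC_add hc (Primrec.snd.comp hu)) (Primrec.fst.comp hu)).or
    (PrC_lt (WdC_add hc (Primrec.fst.comp hu)) (Primrec.snd.comp hu))
  exact h.of_eq fun a => (PrC_abs (c a) (u a)).symm

theorem PrC_sclV {α : Type} [Primcodable α] {k : α → ℕ} {w : α → VV} (hk : Primrec k)
    (hw : Primrec w) : Primrec fun a => sclV (k a) (w a) := by
  have h1 := pr_sclV.comp (hk.pair hw)
  exact h1

theorem re_eqM : Re fun x : ℕ × LM × LM => eqM x.1 x.2.1 x.2.2 :=
  re_prim (PrC_eqM Primrec.fst (Primrec.fst.comp Primrec.snd) (Primrec.snd.comp Primrec.snd))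

theorem PrC_MatOK : PrimrecPred MatOK := by
  have hd : Primrec fun D : MD => D.1 := Primrec.fst
  have hm : Primrec fun D : MD => D.2.1 := Primrec.fst.comp Primrec.snd
  have h0 : Primrec fun D : MD => D.2.2 := Primrec.snd.comp Primrec.snd
  have hA : Primrec fun D : MD => D.2.2.1 := Primrec.fst.comp h0
  have hA' : Primrec fun D : MD => D.2.2.2.1 := Primrec.fst.comp (Primrec.snd.comp h0)
  have hB : Primrec fun D : MD => D.2.2.2.2.1 := Primrec.fst.comp (Primrec.snd.comp (Primrec.snd.comp h0))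
  have hB' : Primrec fun D : MD => D.2.2.2.2.2 := Primrec.snd.comp (Primrec.snd.comp (Primrec.snd.comp h0))
  have hs := PrB_sclM hd (WdC_mul hm hm)
  exact (PrC_le (Primrec.const 1) hm).and ((PrC_eqM hd (PrB_mulM hd hA hA') hs).and
    ((PrC_eqM hd (PrB_mulM hd hB hB') hs).and (PrC_eqM hd (PrB_mulM hd hA hB) (PrB_mulM hd hB hA))))

theorem re_MatOK : Re MatOK := re_prim PrC_MatOK

theorem PrC_evN {α : Type} [Primcodable α] {D : α → MD} {M : α → ℕ} {L : α → NL}
    (hD : Primrec D) (hM : Primrec M) (hL : Primrec L) : Primrec fun a => evN (D a) (M a) (L a) := by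
  have h1 : Primrec fun a => (D a, M a, L a) := hD.pair (hM.pair hL)
  have h2 := pr_evN.comp h1
  exact h2

theorem PrC_van {α : Type} [Primcodable α] {D : α → MD} {L : α → NL}
    (hD : Primrec D) (hL : Primrec L) : PrimrecPred fun a => Vanish (D a) (L a) := by
  have h2 := PrC_evN hD (prim_mx.comp hL) hL
  exact (PrC_eqM (Primrec.fst.comp hD) h2 (Primrec.const [])).of_eq fun a => Iff.rfl

theorem re_Vanish : Re fun x : MD × NL => Vanish x.1 x.2 :=
  re_prim (PrC_van Primrec.fst Primrec.snd)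

/-- the inner condition of `NonInt` -/
def PrC_ni (D : MD) (w : VV) (k t : ℕ) : Prop := D.1 ≤ k ∧ t < D.1 * D.1 ∧
  (¬ ((D.2.1 ^ (dg w * (k - D.1)) : ℕ) : ℤ) ∣ vz ((numM D (sclV k w)).getD t (0, 0)) ∨
   ¬ ((D.2.1 ^ (dg w * (k - D.1)) : ℕ) : ℤ) ∣ vz ((numM D (sclV k (negV w))).getD t (0, 0)))

theorem PrC_nip {α : Type} [Primcodable α] {D : α → MD} {w : α → VV} {k t : α → ℕ}
    (hD : Primrec D) (hw : Primrec w) (hk : Primrec k) (ht : Primrec t) :
    PrimrecPred fun a => PrC_ni (D a) (w a) (k a) (t a) := by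
  have hd : Primrec fun a => (D a).1 := Primrec.fst.comp hD
  have hm : Primrec fun a => (D a).2.1 := Primrec.fst.comp (Primrec.snd.comp hD)
  have hp : Primrec fun a => (D a).2.1 ^ (dg (w a) * (k a - (D a).1)) :=
    PrB_pow hm (WdC_mul (pr_dg.comp hw) (Primrec.nat_sub.comp hk hd))
  have h1 := PrC_ndvd hp (PrC_getD (PrB_numM hD (PrC_sclV hk hw)) ht)
  have h2 := PrC_ndvd hp (PrC_getD (PrB_numM hD (PrC_sclV hk (pr_negV.comp hw))) ht)
  exact (PrC_le hd hk).and ((PrC_lt ht (WdC_mul hd hd)).and (h1.or h2))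

theorem re_NonInt : Re fun x : MD × VV => NonInt x.1 x.2 := by
  have h3 : PrimrecPred fun y : ((MD × VV) × ℕ) × ℕ => PrC_ni y.1.1.1 y.1.1.2 y.1.2 y.2 :=
    PrC_nip (Primrec.fst.comp (Primrec.fst.comp Primrec.fst))
      (Primrec.snd.comp (Primrec.fst.comp Primrec.fst)) (Primrec.snd.comp Primrec.fst) Primrec.snd
  have h4 : Re fun z : (MD × VV) × ℕ => ∃ t : ℕ, PrC_ni z.1.1 z.1.2 z.2 t :=
    re_ex (p := fun y : ((MD × VV) × ℕ) × ℕ => PrC_ni y.1.1.1 y.1.1.2 y.1.2 y.2) (re_prim h3)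
  have h5 : Re fun x : MD × VV => ∃ k t : ℕ, PrC_ni x.1 x.2 k t :=
    re_ex (p := fun z : (MD × VV) × ℕ => ∃ t : ℕ, PrC_ni z.1.1 z.1.2 z.2 t) h4
  exact re_of_eq h5 fun x => Iff.rfl

theorem re_Growth : Re fun x : MD × VV × ℕ => Growth x.1 x.2.1 x.2.2 := by
  unfold Growth
  have hD : Primrec fun y : MD × VV × ℕ => y.1 := Primrec.fst
  have hw : Primrec fun y : MD × VV × ℕ => y.2.1 := Primrec.fst.comp Primrec.snd
  have hn : Primrec fun y : MD × VV × ℕ => y.2.2 := Primrec.snd.comp Primrec.snd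
  have hd : Primrec fun y : MD × VV × ℕ => y.1.1 := Primrec.fst.comp hD
  have hm : Primrec fun y : MD × VV × ℕ => y.1.2.1 := Primrec.fst.comp (Primrec.snd.comp hD)
  have hc : Primrec fun y : MD × VV × ℕ => 2 * y.1.1 * y.1.2.1 ^ (dg y.2.1 * y.2.2) :=
    WdC_mul (WdC_mul (Primrec.const 2) hd) (PrB_pow hm (WdC_mul (pr_dg.comp hw) hn))
  have h1 := PrB_numM hD (PrC_sclV hn hw)
  have h2 : Primrec fun y : MD × VV × ℕ => trM y.1.1 (numM y.1 (sclV y.2.2 y.2.1)) :=
    pr_trM.comp (hd.pair h1)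
  exact re_prim (PrC_gt hc h2)

theorem re_Unip : Re fun x : MD × VV × ℕ => Unip x.1 x.2.1 x.2.2 := by
  unfold Unip
  have hD : Primrec fun y : MD × VV × ℕ => y.1 := Primrec.fst
  have hw : Primrec fun y : MD × VV × ℕ => y.2.1 := Primrec.fst.comp Primrec.snd
  have hn : Primrec fun y : MD × VV × ℕ => y.2.2 := Primrec.snd.comp Primrec.snd
  have hd : Primrec fun y : MD × VV × ℕ => y.1.1 := Primrec.fst.comp hD
  have hm : Primrec fun y : MD × VV × ℕ => y.1.2.1 := Primrec.fst.comp (Primrec.snd.comp hD)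
  have h1 := PrB_numM hD (PrC_sclV hn hw)
  have h2 := pr_negM.comp (PrB_sclM hd (PrB_pow hm (WdC_mul (pr_dg.comp hw) hn)))
  exact re_prim (PrC_eqM hd (PrB_powM hd (PrB_addM hd h1 h2) hd) (Primrec.const []))

end Pool.Agent.H28.IP
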