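/-
ROW PrE. The one-sided obstructions are recursively enumerable.
PROOFS. re_FQp: as re_FQ in Pool.Agent.H28.IP.RfA (pr_actw_aux and the statement for IsRep there), with the
additional bounded condition `∀ s < k, actw T r s = s`. re_NImS: as NiA_core / re_NIm in Pool.Agent.H28.IP.NiA (NiA_inn,
NiA_fq, NiA_two, prim_actl, prim_wl, prim_subst). re_FamP: the same with re_FQp; the list
`[(w.1, w.2, true), ((0, 0), (0, 0), false)]` is a primitive recursive function of `w` (list_cons).
-/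
import Pool.Agent.H28.IQ.PrB
import Pool.Agent.H28.IP.NiA

set_option autoImplicit false

namespace Pool.Agent.H28.IP

theorem re_FQp : Re fun x : Pres × Word × Word => FQp x.1 x.2.1 x.2.2 := by
  -- parameters
  have hA : Re fun x : (Pres × Word × Word) × ((ℕ × List (List ℕ × List ℕ)) × ℕ) =>
      x.2.1.2.length = x.1.1.1 := by
    refine re_prim ?_
    exact Primrec.eq.comp (Primrec.list_length.comp (Primrec.snd.comp (Primrec.fst.comp Primrec.snd)))
      (Primrec.fst.comp (Primrec.fst.comp Primrec.fst))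
  have hD : Re fun x : (Pres × Word × Word) × ((ℕ × List (List ℕ × List ℕ)) × ℕ) => x.2.2 < x.2.1.1 := by
    refine re_prim ?_
    exact Primrec.nat_lt.comp (Primrec.snd.comp Primrec.snd)
      (Primrec.fst.comp (Primrec.fst.comp Primrec.snd))
  have hE : Re fun x : (Pres × Word × Word) × ((ℕ × List (List ℕ × List ℕ)) × ℕ) =>
      ¬ (actw x.2.1.2 x.1.2.2 x.2.2 = x.2.2) := by
    refine re_prim ?_
    exact PrimrecPred.not (Primrec.eq.comp (pr_actw_aux (Primrec.snd.comp (Primrec.fst.comp Primrec.snd))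
      (Primrec.snd.comp (Primrec.snd.comp Primrec.fst)) (Primrec.snd.comp Primrec.snd))
      (Primrec.snd.comp Primrec.snd))
  have hB : Re fun x : (Pres × Word × Word) × ((ℕ × List (List ℕ × List ℕ)) × ℕ) =>
      ∀ i ∈ List.range x.1.1.1, ∀ s ∈ List.range x.2.1.1,
        ((stp x.2.1.2 (i, true) s < x.2.1.1 ∧ stp x.2.1.2 (i, false) s < x.2.1.1) ∧
        (stp x.2.1.2 (i, false) (stp x.2.1.2 (i, true) s) = s ∧
          stp x.2.1.2 (i, true) (stp x.2.1.2 (i, false) s) = s)) := by
    have h2 : Re fun y : (((Pres × Word × Word) × ((ℕ × List (List ℕ × List ℕ)) × ℕ)) × ℕ) × ℕ =>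
        ((stp y.1.1.2.1.2 (y.1.2, true) y.2 < y.1.1.2.1.1 ∧
          stp y.1.1.2.1.2 (y.1.2, false) y.2 < y.1.1.2.1.1) ∧
        (stp y.1.1.2.1.2 (y.1.2, false) (stp y.1.1.2.1.2 (y.1.2, true) y.2) = y.2 ∧
          stp y.1.1.2.1.2 (y.1.2, true) (stp y.1.1.2.1.2 (y.1.2, false) y.2) = y.2)) := by
      have pT : Primrec fun y : (((Pres × Word × Word) × ((ℕ × List (List ℕ × List ℕ)) × ℕ)) × ℕ) × ℕ =>
          y.1.1.2.1.2 :=
        Primrec.snd.comp (Primrec.fst.comp (Primrec.snd.comp (Primrec.fst.comp Primrec.fst)))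
      have pk : Primrec fun y : (((Pres × Word × Word) × ((ℕ × List (List ℕ × List ℕ)) × ℕ)) × ℕ) × ℕ =>
          y.1.1.2.1.1 :=
        Primrec.fst.comp (Primrec.fst.comp (Primrec.snd.comp (Primrec.fst.comp Primrec.fst)))
      have pi : ∀ b : Bool, Primrec fun y : (((Pres × Word × Word) ×
          ((ℕ × List (List ℕ × List ℕ)) × ℕ)) × ℕ) × ℕ => (y.1.2, b) := fun b =>
        Primrec.pair (Primrec.snd.comp Primrec.fst) (Primrec.const b)
      have ps : ∀ b : Bool, Primrec fun y : (((Pres × Word × Word) ×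
          ((ℕ × List (List ℕ × List ℕ)) × ℕ)) × ℕ) × ℕ => stp y.1.1.2.1.2 (y.1.2, b) y.2 := fun b =>
        pr_stp_aux pT (pi b) Primrec.snd
      have ps2 : ∀ b c : Bool, Primrec fun y : (((Pres × Word × Word) ×
          ((ℕ × List (List ℕ × List ℕ)) × ℕ)) × ℕ) × ℕ =>
          stp y.1.1.2.1.2 (y.1.2, b) (stp y.1.1.2.1.2 (y.1.2, c) y.2) := fun b c =>
        pr_stp_aux pT (pi b) (ps c)
      refine re_and (re_and (re_prim ?_) (re_prim ?_)) (re_and (re_prim ?_) (re_prim ?_))
      · exact Primrec.nat_lt.comp (ps true) pk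
      · exact Primrec.nat_lt.comp (ps false) pk
      · exact Primrec.eq.comp (ps2 false true) Primrec.snd
      · exact Primrec.eq.comp (ps2 true false) Primrec.snd
    have h1 := re_all h2 (f := fun y : ((Pres × Word × Word) × ((ℕ × List (List ℕ × List ℕ)) × ℕ)) × ℕ =>
      List.range y.1.2.1.1) (Primrec.list_range.comp
        (Primrec.fst.comp (Primrec.fst.comp (Primrec.snd.comp Primrec.fst))))
    exact re_all h1 (f := fun x : (Pres × Word × Word) × ((ℕ × List (List ℕ × List ℕ)) × ℕ) =>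
      List.range x.1.1.1) (Primrec.list_range.comp
        (Primrec.fst.comp (Primrec.fst.comp Primrec.fst)))
  have hC : Re fun x : (Pres × Word × Word) × ((ℕ × List (List ℕ × List ℕ)) × ℕ) =>
      ∀ r ∈ x.1.1.2, ∀ s ∈ List.range x.2.1.1, actw x.2.1.2 r s = s := by
    have h2 : Re fun y : (((Pres × Word × Word) × ((ℕ × List (List ℕ × List ℕ)) × ℕ)) × Word) × ℕ =>
        actw y.1.1.2.1.2 y.1.2 y.2 = y.2 := by
      refine re_prim ?_
      exact Primrec.eq.comp (pr_actw_aux
        (Primrec.snd.comp (Primrec.fst.comp (Primrec.snd.comp (Primrec.fst.comp Primrec.fst))))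
        (Primrec.snd.comp Primrec.fst) Primrec.snd) Primrec.snd
    have h1 := re_all h2 (f := fun y : ((Pres × Word × Word) × ((ℕ × List (List ℕ × List ℕ)) × ℕ)) × Word =>
      List.range y.1.2.1.1) (Primrec.list_range.comp
        (Primrec.fst.comp (Primrec.fst.comp (Primrec.snd.comp Primrec.fst))))
    exact re_all h1 (f := fun x : (Pres × Word × Word) × ((ℕ × List (List ℕ × List ℕ)) × ℕ) =>
      x.1.1.2) (Primrec.snd.comp (Primrec.fst.comp Primrec.fst))
  have hG : Re fun x : (Pres × Word × Word) × ((ℕ × List (List ℕ × List ℕ)) × ℕ) =>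
      ∀ s ∈ List.range x.2.1.1, actw x.2.1.2 x.1.2.1 s = s := by
    have h2 : Re fun y : ((Pres × Word × Word) × ((ℕ × List (List ℕ × List ℕ)) × ℕ)) × ℕ =>
        actw y.1.2.1.2 y.1.1.2.1 y.2 = y.2 := by
      refine re_prim ?_
      exact Primrec.eq.comp (pr_actw_aux
        (Primrec.snd.comp (Primrec.fst.comp (Primrec.snd.comp Primrec.fst)))
        (Primrec.fst.comp (Primrec.snd.comp (Primrec.fst.comp Primrec.fst))) Primrec.snd) Primrec.snd
    exact re_all h2 (f := fun x : (Pres × Word × Word) × ((ℕ × List (List ℕ × List ℕ)) × ℕ) =>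
      List.range x.2.1.1) (Primrec.list_range.comp
        (Primrec.fst.comp (Primrec.fst.comp Primrec.snd)))
  have hall := re_ex (re_and (re_and hA (re_and hB hC)) (re_and hG (re_and hD hE)))
  refine re_of_eq hall ?_
  intro a
  constructor
  · rintro ⟨b, ⟨h1, h2, h3⟩, h6, h4, h5⟩
    refine ⟨b.1.1, b.1.2, ⟨h1, ?_, ?_⟩, fun s hs => h6 s (List.mem_range.2 hs), b.2, h4, h5⟩
    · intro i hi s hs
      obtain ⟨⟨p, q⟩, r, t⟩ := h2 i (List.mem_range.2 hi) s (List.mem_range.2 hs)
      exact ⟨p, q, r, t⟩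
    · intro r hr s hs
      exact h3 r hr s (List.mem_range.2 hs)
  · rintro ⟨k, T, ⟨h1, h2, h3⟩, h6, s, h4, h5⟩
    refine ⟨((k, T), s), ⟨h1, ?_, ?_⟩, fun s hs => h6 s (List.mem_range.1 hs), h4, h5⟩
    · intro i hi s hs
      obtain ⟨p, q, r, t⟩ := h2 i (List.mem_range.1 hi) s (List.mem_range.1 hs)
      exact ⟨⟨p, q⟩, r, t⟩
    · intro r hr s hs
      exact h3 r hr s (List.mem_range.1 hs)

theorem re_NImS : Re fun x : (Pres × Word × Word) × (Pres × Word × Word) × MP =>
    NImS x.1.1 x.1.2.1 x.1.2.2 x.2.1.1 x.2.1.2.1 x.2.1.2.2 x.2.2 := by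
  have hP1 : Primrec fun y : ((Pres × Word × Word) × (Pres × Word × Word) × MP) × NL => y.1.1.1 :=
    Primrec.fst.comp (Primrec.fst.comp Primrec.fst)
  have hP2 : Primrec fun y : ((Pres × Word × Word) × (Pres × Word × Word) × MP) × NL => y.1.2.1.1 :=
    Primrec.fst.comp (Primrec.fst.comp (Primrec.snd.comp Primrec.fst))
  have hT1 : Primrec fun y : ((Pres × Word × Word) × (Pres × Word × Word) × MP) × NL =>
      ([y.1.1.2.1, y.1.1.2.2] : List Word) :=
    NiA_two (Primrec.fst.comp (Primrec.snd.comp (Primrec.fst.comp Primrec.fst)))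
      (Primrec.snd.comp (Primrec.snd.comp (Primrec.fst.comp Primrec.fst)))
  have hT2 : Primrec fun y : ((Pres × Word × Word) × (Pres × Word × Word) × MP) × NL =>
      ([y.1.2.1.2.1, y.1.2.1.2.2] : List Word) :=
    NiA_two (Primrec.fst.comp (Primrec.snd.comp (Primrec.fst.comp (Primrec.snd.comp Primrec.fst))))
      (Primrec.snd.comp (Primrec.snd.comp (Primrec.fst.comp (Primrec.snd.comp Primrec.fst))))
  have hm : Primrec fun y : ((Pres × Word × Word) × (Pres × Word × Word) × MP) × NL => y.1.2.2 :=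
    Primrec.snd.comp (Primrec.snd.comp Primrec.fst)
  have hw2 : Primrec fun y : ((Pres × Word × Word) × (Pres × Word × Word) × MP) × NL =>
      subst [y.1.2.1.2.1, y.1.2.1.2.2] (wl y.2) :=
    prim_subst.comp hT2 (prim_wl.comp Primrec.snd)
  have hw1 : Primrec fun y : ((Pres × Word × Word) × (Pres × Word × Word) × MP) × NL =>
      subst [y.1.1.2.1, y.1.1.2.2] (wl (actl y.1.2.2 y.2)) :=
    prim_subst.comp hT1 (prim_wl.comp (prim_actl.comp hm Primrec.snd))
  have key := re_and (NiA_inn hP2 hw2) (NiA_fq hP1 hw1)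
  have key2 := re_ex key
  exact re_of_eq key2 (fun x => Iff.rfl)

theorem re_FamP : Re fun x : (Pres × Word × Word) × (Pres × Word × Word) × VV × MP =>
    FamP x.1.1 x.1.2.1 x.1.2.2 x.2.1.1 x.2.1.2.1 x.2.1.2.2 x.2.2.1 x.2.2.2 := by
  have hP1 : Primrec fun y : ((Pres × Word × Word) × (Pres × Word × Word) × VV × MP) × NL =>
      y.1.1.1 :=
    Primrec.fst.comp (Primrec.fst.comp Primrec.fst)
  have hP2 : Primrec fun y : ((Pres × Word × Word) × (Pres × Word × Word) × VV × MP) × NL =>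
      y.1.2.1.1 :=
    Primrec.fst.comp (Primrec.fst.comp (Primrec.snd.comp Primrec.fst))
  have hT1 : Primrec fun y : ((Pres × Word × Word) × (Pres × Word × Word) × VV × MP) × NL =>
      ([y.1.1.2.1, y.1.1.2.2] : List Word) :=
    NiA_two (Primrec.fst.comp (Primrec.snd.comp (Primrec.fst.comp Primrec.fst)))
      (Primrec.snd.comp (Primrec.snd.comp (Primrec.fst.comp Primrec.fst)))
  have hT2 : Primrec fun y : ((Pres × Word × Word) × (Pres × Word × Word) × VV × MP) × NL =>
      ([y.1.2.1.2.1, y.1.2.1.2.2] : List Word) :=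
    NiA_two (Primrec.fst.comp (Primrec.snd.comp (Primrec.fst.comp (Primrec.snd.comp Primrec.fst))))
      (Primrec.snd.comp (Primrec.snd.comp (Primrec.fst.comp (Primrec.snd.comp Primrec.fst))))
  have hw : Primrec fun y : ((Pres × Word × Word) × (Pres × Word × Word) × VV × MP) × NL =>
      y.1.2.2.1 :=
    Primrec.fst.comp (Primrec.snd.comp (Primrec.snd.comp Primrec.fst))
  have hm : Primrec fun y : ((Pres × Word × Word) × (Pres × Word × Word) × VV × MP) × NL =>
      y.1.2.2.2 :=
    Primrec.snd.comp (Primrec.snd.comp (Primrec.snd.comp Primrec.fst))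
  have hw2 : Primrec fun y : ((Pres × Word × Word) × (Pres × Word × Word) × VV × MP) × NL =>
      subst [y.1.2.1.2.1, y.1.2.1.2.2] (wl y.2) :=
    prim_subst.comp hT2 (prim_wl.comp Primrec.snd)
  have hw1 : Primrec fun y : ((Pres × Word × Word) × (Pres × Word × Word) × VV × MP) × NL =>
      subst [y.1.1.2.1, y.1.1.2.2] (wl (actl y.1.2.2.2 y.2)) :=
    prim_subst.comp hT1 (prim_wl.comp (prim_actl.comp hm Primrec.snd))
  have hL : Primrec fun y : ((Pres × Word × Word) × (Pres × Word × Word) × VV × MP) × NL =>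
      ([(y.1.2.2.1.1, y.1.2.2.1.2, true), ((0, 0), (0, 0), false)] : NL) :=
    Primrec.list_cons.comp ((Primrec.fst.comp hw).pair ((Primrec.snd.comp hw).pair
      (Primrec.const true))) (Primrec.const _)
  have hr : Primrec fun y : ((Pres × Word × Word) × (Pres × Word × Word) × VV × MP) × NL =>
      subst [y.1.1.2.1, y.1.1.2.2]
        (wl [(y.1.2.2.1.1, y.1.2.2.1.2, true), ((0, 0), (0, 0), false)]) :=
    prim_subst.comp hT1 (prim_wl.comp hL)
  have k2 : Re fun y : ((Pres × Word × Word) × (Pres × Word × Word) × VV × MP) × NL =>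
      FQp y.1.1.1 (subst [y.1.1.2.1, y.1.1.2.2]
        (wl [(y.1.2.2.1.1, y.1.2.2.1.2, true), ((0, 0), (0, 0), false)]))
        (subst [y.1.1.2.1, y.1.1.2.2] (wl (actl y.1.2.2.2 y.2))) := by
    have h2 := re_comp re_FQp (hP1.pair (hr.pair hw1))
    exact h2
  have key := re_and (NiA_inn hP2 hw2) k2
  have key2 := re_ex key
  exact re_of_eq key2 (fun x => Iff.rfl)

end Pool.Agent.H28.IP
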