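/-
ROW PrF. The family certificates are recursively enumerable.
PROOFS. re_FamQ: re_ex four times; re_and; re_InN (NiA_inn); `t < D.1 * D.1`, `F.length ≤ D.1` primitive recursive;
`∃ c ∈ F, vz c ≠ 0` as `∃ c, c ∈ F ∧ vz c ≠ 0`; `∀ k < D.1, …` as `∀ k ∈ List.range D.1, …` (re_all), an equation between
integers of pairs: `(E : ℤ) * vz u = vz v * (c : ℤ) ↔ vz (mulp (E, 0) u) = vz (mulp v (c, 0))` (vz_mulp in WlA; WdC_vzeq), the
functions by PrB (pr_evN, pr_famN, pr_pvN, prim_actl, prim_mx, pr_npow); the last condition by re_all and re_NImS (PrE)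
over `ints (mxF F)` (WdB_ints).
re_Fam: re_ex, re_and, re_Unip (PrC), re_all over `box (K * (k + 2))` (prim_box); the implications from decidable
conditions `p → q` as `¬ p ∨ q` (NiB_ndt in Pool.Agent.H28.IP.NiB for the determinant; equations between vectors by
coordinates: `actz (vm m) (vv w') = vv w` is two equations of pairs), re_or, re_FamP, re_FamQ.
-/
import Pool.Agent.H28.IQ.PrC
import Pool.Agent.H28.IQ.PrE
import Pool.Agent.H28.IP.NiB

set_option autoImplicit false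

namespace Pool.Agent.H28.IP

section PrF

variable {X : Type} [Primcodable X]

theorem PrF_nims {P1 P2 : X → Pres} {A1 B1 A2 B2 : X → Word} {m : X → MP}
    (hP1 : Primrec P1) (hA1 : Primrec A1) (hB1 : Primrec B1)
    (hP2 : Primrec P2) (hA2 : Primrec A2) (hB2 : Primrec B2) (hm : Primrec m) :
    Re fun x => NImS (P1 x) (A1 x) (B1 x) (P2 x) (A2 x) (B2 x) (m x) := by
  have h1 : Primrec fun x => (((P1 x, A1 x, B1 x), (P2 x, A2 x, B2 x), m x) :
      (Pres × Word × Word) × (Pres × Word × Word) × MP) :=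
    (hP1.pair (hA1.pair hB1)).pair ((hP2.pair (hA2.pair hB2)).pair hm)
  have h2 := re_comp re_NImS h1
  exact h2

theorem PrF_famp {P1 P2 : X → Pres} {A1 B1 A2 B2 : X → Word} {w : X → VV} {m : X → MP}
    (hP1 : Primrec P1) (hA1 : Primrec A1) (hB1 : Primrec B1)
    (hP2 : Primrec P2) (hA2 : Primrec A2) (hB2 : Primrec B2) (hw : Primrec w) (hm : Primrec m) :
    Re fun x => FamP (P1 x) (A1 x) (B1 x) (P2 x) (A2 x) (B2 x) (w x) (m x) := by
  have h1 : Primrec fun x => (((P1 x, A1 x, B1 x), (P2 x, A2 x, B2 x), w x, m x) :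
      (Pres × Word × Word) × (Pres × Word × Word) × VV × MP) :=
    (hP1.pair (hA1.pair hB1)).pair ((hP2.pair (hA2.pair hB2)).pair (hw.pair hm))
  have h2 := re_comp re_FamP h1
  exact h2

theorem PrF_unip {D : X → MD} {w : X → VV} {h : X → ℕ}
    (hD : Primrec D) (hw : Primrec w) (hh : Primrec h) :
    Re fun x => Unip (D x) (w x) (h x) := by
  have h1 : Primrec fun x => ((D x, w x, h x) : MD × VV × ℕ) := hD.pair (hw.pair hh)
  have h2 := re_comp re_Unip h1
  exact h2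

theorem PrF_famN {m : X → MP} {w w' : X → VV} {k : X → ℕ × ℕ}
    (hm : Primrec m) (hw : Primrec w) (hw' : Primrec w') (hk : Primrec k) :
    Primrec fun x => famN (m x) (w x) (w' x) (k x) := by
  have h1 : Primrec fun x => ((m x, w x, w' x, k x) : MP × VV × VV × (ℕ × ℕ)) :=
    hm.pair (hw.pair (hw'.pair hk))
  have h2 := pr_famN.comp h1
  exact h2

theorem PrF_evN {D : X → MD} {M : X → ℕ} {L : X → NL}
    (hD : Primrec D) (hM : Primrec M) (hL : Primrec L) :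
    Primrec fun x => evN (D x) (M x) (L x) := by
  have h1 : Primrec fun x => ((D x, M x, L x) : MD × ℕ × NL) := hD.pair (hM.pair hL)
  have h2 := pr_evN.comp h1
  exact h2

theorem PrF_pvN {F : X → List (ℕ × ℕ)} {k : X → ℕ × ℕ} (hF : Primrec F) (hk : Primrec k) :
    Primrec fun x => pvN (F x) (k x) := by
  have h1 : Primrec fun x => ((F x, k x) : List (ℕ × ℕ) × (ℕ × ℕ)) := hF.pair hk
  have h2 := pr_pvN.comp h1
  exact h2

theorem PrF_pow {a b : X → ℕ} (ha : Primrec a) (hb : Primrec b) :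
    Primrec fun x => a x ^ b x := by
  have h1 : Primrec fun x => ((a x, b x) : ℕ × ℕ) := ha.pair hb
  have h2 := pr_npow.comp h1
  exact h2

theorem PrF_sclV {a : X → ℕ} {w : X → VV} (ha : Primrec a) (hw : Primrec w) :
    Primrec fun x => sclV (a x) (w x) := by
  have h1 : Primrec fun x => ((a x, w x) : ℕ × VV) := ha.pair hw
  have h2 := pr_sclV.comp h1
  exact h2

/-- nonzero coefficients -/
theorem PrF_nz (F : List (ℕ × ℕ)) :
    (∃ c ∈ F, vz c ≠ 0) ↔ ∃ i : ℕ, ¬ (vz (F.getD i (0, 0)) = vz (0, 0)) := by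
  have e0 : vz (0, 0) = 0 := rfl
  rw [e0]
  constructor
  · rintro ⟨c, hc, hz⟩
    obtain ⟨i, hi, rfl⟩ := List.getElem_of_mem hc
    refine ⟨i, ?_⟩
    rwa [List.getD_eq_getElem _ _ hi]
  · rintro ⟨i, hi⟩
    by_cases h : i < F.length
    · rw [List.getD_eq_getElem _ _ h] at hi
      exact ⟨F[i], List.getElem_mem h, hi⟩
    · rw [List.getD_eq_default _ _ (by omega)] at hi
      exact absurd e0 hi

/-- the equation in `FamQ` -/
theorem PrF_eqn {D : X → MD} {N : X → NL} {t E : X → ℕ} {F : X → List (ℕ × ℕ)} {w w' : X → VV}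
    {m : X → MP} {k : X → ℕ} (hD : Primrec D) (hN : Primrec N) (ht : Primrec t) (hE : Primrec E)
    (hF : Primrec F) (hw : Primrec w) (hw' : Primrec w') (hm : Primrec m) (hk : Primrec k) :
    PrimrecPred fun x => (E x : ℤ) * vz ((evN (D x) (mx (actl (famN (m x) (w x) (w' x) (k x, 0)) (N x)))
        (actl (famN (m x) (w x) (w' x) (k x, 0)) (N x))).getD (t x) (0, 0)) =
      vz (pvN (F x) (k x, 0)) *
        (((D x).2.1 ^ mx (actl (famN (m x) (w x) (w' x) (k x, 0)) (N x)) : ℕ) : ℤ) := by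
  have hk0 : Primrec fun x => ((k x, 0) : ℕ × ℕ) := hk.pair (Primrec.const 0)
  have hfam := PrF_famN hm hw hw' hk0
  have hL : Primrec fun x => actl (famN (m x) (w x) (w' x) (k x, 0)) (N x) :=
    prim_actl.comp hfam hN
  have hM : Primrec fun x => mx (actl (famN (m x) (w x) (w' x) (k x, 0)) (N x)) := prim_mx.comp hL
  have hev := PrF_evN hD hM hL
  have hget : Primrec fun x => (evN (D x) (mx (actl (famN (m x) (w x) (w' x) (k x, 0)) (N x)))
        (actl (famN (m x) (w x) (w' x) (k x, 0)) (N x))).getD (t x) (0, 0) :=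
    (Primrec.list_getD ((0, 0) : ℕ × ℕ)).comp hev ht
  have hE0 : Primrec fun x => ((E x, 0) : ℕ × ℕ) := hE.pair (Primrec.const 0)
  have hd : Primrec fun x => (D x).2.1 := Primrec.fst.comp (Primrec.snd.comp hD)
  have hc : Primrec fun x => (((D x).2.1 ^ mx (actl (famN (m x) (w x) (w' x) (k x, 0)) (N x)), 0) :
      ℕ × ℕ) := (PrF_pow hd hM).pair (Primrec.const 0)
  refine (WdC_vzeq (WdC_mulp hE0 hget) (WdC_mulp (PrF_pvN hF hk0) hc)).of_eq fun x => ?_
  rw [WdC_mulv, WdC_mulv]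
  have e1 : vz (E x, 0) = (E x : ℤ) := by simp [vz]
  have e2 : ∀ n : ℕ, vz (n, 0) = (n : ℤ) := fun n => by simp [vz]
  rw [e1, e2]

/-- the condition on `m` in `Fam` -/
theorem PrF_act : PrimrecPred fun x : MP × VV × VV =>
    ¬ (actz (vm x.1) (vv x.2.2) = vv x.2.1 ∨ actz (vm x.1) (vv x.2.2) = -vv x.2.1) := by
  have a1 : Primrec fun x : MP × VV × VV => x.1.1 := Primrec.fst.comp Primrec.fst
  have a2 : Primrec fun x : MP × VV × VV => x.1.2.1 :=
    Primrec.fst.comp (Primrec.snd.comp Primrec.fst)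
  have a3 : Primrec fun x : MP × VV × VV => x.1.2.2.1 :=
    Primrec.fst.comp (Primrec.snd.comp (Primrec.snd.comp Primrec.fst))
  have a4 : Primrec fun x : MP × VV × VV => x.1.2.2.2 :=
    Primrec.snd.comp (Primrec.snd.comp (Primrec.snd.comp Primrec.fst))
  have w1 : Primrec fun x : MP × VV × VV => x.2.1.1 :=
    Primrec.fst.comp (Primrec.fst.comp Primrec.snd)
  have w2 : Primrec fun x : MP × VV × VV => x.2.1.2 :=
    Primrec.snd.comp (Primrec.fst.comp Primrec.snd)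
  have v1 : Primrec fun x : MP × VV × VV => x.2.2.1 :=
    Primrec.fst.comp (Primrec.snd.comp Primrec.snd)
  have v2 : Primrec fun x : MP × VV × VV => x.2.2.2 :=
    Primrec.snd.comp (Primrec.snd.comp Primrec.snd)
  have z0 : Primrec fun _ : MP × VV × VV => ((0, 0) : ℕ × ℕ) := Primrec.const _
  have s1 := WdB_addp.comp (WdC_mulp a1 v1) (WdC_mulp a3 v2)
  have s2 := WdB_addp.comp (WdC_mulp a2 v1) (WdC_mulp a4 v2)
  have h := ((WdC_vzeq s1 w1).and (WdC_vzeq s2 w2)).or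
    ((WdC_vzeq s1 (WdC_subp z0 w1)).and (WdC_vzeq s2 (WdC_subp z0 w2)))
  refine h.not.of_eq fun x => ?_
  have hadd : ∀ u v : ℕ × ℕ, vz (addp u v) = vz u + vz v := fun u v => by
    simp only [vz, addp]; push_cast; ring
  have e0 : vz (0, 0) = 0 := rfl
  simp only [hadd, WdC_mulv, WdC_sub, e0, zero_sub, actz, vm, vv, Prod.mk.injEq, Prod.neg_mk]


theorem PrF_famq {D : X → MD} {P1 P2 : X → Pres}
    {A1 B1 A2 B2 : X → Word} {w w' : X → VV} {m : X → MP} (hD : Primrec D)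
    (hP1 : Primrec P1) (hA1 : Primrec A1) (hB1 : Primrec B1)
    (hP2 : Primrec P2) (hA2 : Primrec A2) (hB2 : Primrec B2) (hw : Primrec w) (hw' : Primrec w')
    (hm : Primrec m) :
    Re fun x => FamQ (D x) (P1 x) (A1 x) (B1 x) (P2 x) (A2 x) (B2 x) (w x) (w' x) (m x) := by
  have f0 : Primrec fun y : X × (NL × ℕ × ℕ × List (ℕ × ℕ)) => y.1 := Primrec.fst
  have hN : Primrec fun y : X × (NL × ℕ × ℕ × List (ℕ × ℕ)) => y.2.1 := Primrec.fst.comp Primrec.snd
  have ht : Primrec fun y : X × (NL × ℕ × ℕ × List (ℕ × ℕ)) => y.2.2.1 :=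
    Primrec.fst.comp (Primrec.snd.comp Primrec.snd)
  have hE : Primrec fun y : X × (NL × ℕ × ℕ × List (ℕ × ℕ)) => y.2.2.2.1 :=
    Primrec.fst.comp (Primrec.snd.comp (Primrec.snd.comp Primrec.snd))
  have hF : Primrec fun y : X × (NL × ℕ × ℕ × List (ℕ × ℕ)) => y.2.2.2.2 :=
    Primrec.snd.comp (Primrec.snd.comp (Primrec.snd.comp Primrec.snd))
  have hd : Primrec fun y : X × (NL × ℕ × ℕ × List (ℕ × ℕ)) => (D y.1).1 :=
    Primrec.fst.comp (hD.comp f0)
  -- conditions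
  have c1 := NiA_inn (hP2.comp f0)
    (prim_subst.comp (NiA_two (hA2.comp f0) (hB2.comp f0)) (prim_wl.comp hN))
  have c2 : Re fun y : X × (NL × ℕ × ℕ × List (ℕ × ℕ)) => y.2.2.1 < (D y.1).1 * (D y.1).1 :=
    re_prim (Primrec.nat_lt.comp ht (Primrec.nat_mul.comp hd hd))
  have c3 : Re fun y : X × (NL × ℕ × ℕ × List (ℕ × ℕ)) => y.2.2.2.2.length ≤ (D y.1).1 :=
    re_prim (Primrec.nat_le.comp (Primrec.list_length.comp hF) hd)
  have c4 : Re fun y : X × (NL × ℕ × ℕ × List (ℕ × ℕ)) => ∃ c ∈ y.2.2.2.2, vz c ≠ 0 := by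
    have hg : Primrec fun z : (X × (NL × ℕ × ℕ × List (ℕ × ℕ))) × ℕ =>
        z.1.2.2.2.2.getD z.2 (0, 0) :=
      (Primrec.list_getD ((0, 0) : ℕ × ℕ)).comp (hF.comp Primrec.fst) Primrec.snd
    have h1 := re_ex (re_prim (WdC_vzeq hg (Primrec.const ((0, 0) : ℕ × ℕ))).not)
    exact re_of_eq h1 fun y => (PrF_nz y.2.2.2.2).symm
  have c5 : Re fun y : X × (NL × ℕ × ℕ × List (ℕ × ℕ)) => ∀ k ∈ List.range (D y.1).1,
      (y.2.2.2.1 : ℤ) * vz ((evN (D y.1) (mx (actl (famN (m y.1) (w y.1) (w' y.1) (k, 0))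
        y.2.1)) (actl (famN (m y.1) (w y.1) (w' y.1) (k, 0)) y.2.1)).getD y.2.2.1
          (0, 0)) =
      vz (pvN y.2.2.2.2 (k, 0)) *
        (((D y.1).2.1 ^ mx (actl (famN (m y.1) (w y.1) (w' y.1) (k, 0)) y.2.1) : ℕ) : ℤ) := by
    have f1 : Primrec fun z : (X × (NL × ℕ × ℕ × List (ℕ × ℕ))) × ℕ => z.1 := Primrec.fst
    have f2 : Primrec fun z : (X × (NL × ℕ × ℕ × List (ℕ × ℕ))) × ℕ => z.1.1 :=
      Primrec.fst.comp Primrec.fst
    have hk : Primrec fun z : (X × (NL × ℕ × ℕ × List (ℕ × ℕ))) × ℕ => z.2 := Primrec.snd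
    have h1 := PrF_eqn (hD.comp f2) (hN.comp f1) (ht.comp f1)
      (hE.comp f1) (hF.comp f1) (hw.comp f2) (hw'.comp f2)
      (hm.comp f2) hk
    exact re_all (re_prim h1) (Primrec.list_range.comp hd)
  have c6 : Re fun y : X × (NL × ℕ × ℕ × List (ℕ × ℕ)) => ∀ k ∈ ints (mxF y.2.2.2.2),
      NImS (P1 y.1) (A1 y.1) (B1 y.1) (P2 y.1) (A2 y.1) (B2 y.1)
        (famN (m y.1) (w y.1) (w' y.1) k) := by
    have f2 : Primrec fun z : (X × (NL × ℕ × ℕ × List (ℕ × ℕ))) × (ℕ × ℕ) => z.1.1 :=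
      Primrec.fst.comp Primrec.fst
    have hk : Primrec fun z : (X × (NL × ℕ × ℕ × List (ℕ × ℕ))) × (ℕ × ℕ) => z.2 := Primrec.snd
    have h1 := PrF_nims (hP1.comp f2) (hA1.comp f2) (hB1.comp f2)
      (hP2.comp f2) (hA2.comp f2) (hB2.comp f2)
      (PrF_famN (hm.comp f2) (hw.comp f2) (hw'.comp f2) hk)
    exact re_all h1 (WdB_ints.comp (pr_mxF.comp hF))
  have key := re_ex (re_and c1 (re_and c2 (re_and c3 (re_and c4 (re_and c5 c6)))))
  refine re_of_eq key fun x => ⟨?_, ?_⟩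
  · rintro ⟨⟨N, t, E, F⟩, h1, h2, h3, h4, h5, h6⟩
    exact ⟨N, t, E, F, h1, h2, h3, h4, fun k hk => h5 k (List.mem_range.2 hk), h6⟩
  · rintro ⟨N, t, E, F, h1, h2, h3, h4, h5, h6⟩
    exact ⟨⟨N, t, E, F⟩, h1, h2, h3, h4, fun k hk => h5 k (List.mem_range.1 hk), h6⟩

theorem PrF_fam {D : X → MD} {P1 P2 : X → Pres}
    {A1 B1 A2 B2 : X → Word} {K : X → ℕ} {w w' : X → VV} (hD : Primrec D)
    (hP1 : Primrec P1) (hA1 : Primrec A1) (hB1 : Primrec B1)
    (hP2 : Primrec P2) (hA2 : Primrec A2) (hB2 : Primrec B2) (hK : Primrec K)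
    (hw : Primrec w) (hw' : Primrec w') :
    Re fun x => Fam (D x) (P1 x) (A1 x) (B1 x) (P2 x) (A2 x) (B2 x) (K x) (w x) (w' x) := by
  have f0 : Primrec fun y : X × ℕ => y.1 := Primrec.fst
  have hk : Primrec fun y : X × ℕ => y.2 := Primrec.snd
  have c1 : Re fun y : X × ℕ => 1 ≤ y.2 := re_prim (Primrec.nat_le.comp (Primrec.const 1) hk)
  have c2 := PrF_unip (hD.comp f0) (hw.comp f0) hk
  have c3 : Re fun y : X × ℕ =>
      ∀ m ∈ box (K y.1 * (y.2 + 2)), ¬ (dt (vm m) = 1 ∨ dt (vm m) = -1) ∨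
        (¬ (actz (vm m) (vv (w' y.1)) = vv (w y.1) ∨
          actz (vm m) (vv (w' y.1)) = -vv (w y.1)) ∨
        (FamP (P1 y.1) (A1 y.1) (B1 y.1) (P2 y.1) (A2 y.1) (B2 y.1) (sclV y.2 (w y.1)) m ∨
        FamQ (D y.1) (P1 y.1) (A1 y.1) (B1 y.1) (P2 y.1) (A2 y.1) (B2 y.1)
          (sclV y.2 (w y.1)) (w' y.1) m)) := by
    have g0 : Primrec fun z : (X × ℕ) × MP => z.1.1 := Primrec.fst.comp Primrec.fst
    have hm : Primrec fun z : (X × ℕ) × MP => z.2 := Primrec.snd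
    have hkk : Primrec fun z : (X × ℕ) × MP => z.1.2 := Primrec.snd.comp Primrec.fst
    have g1 : PrimrecPred fun z : (X × ℕ) × MP => ¬ (dt (vm z.2) = 1 ∨ dt (vm z.2) = -1) :=
      PrimrecPred.comp (p := fun m : MP => ¬ (dt (vm m) = 1 ∨ dt (vm m) = -1)) NiB_ndt hm
    have g2 : PrimrecPred fun z : (X × ℕ) × MP =>
        ¬ (actz (vm z.2) (vv (w' z.1.1)) = vv (w z.1.1) ∨
          actz (vm z.2) (vv (w' z.1.1)) = -vv (w z.1.1)) :=
      PrimrecPred.comp (p := fun x : MP × VV × VV =>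
        ¬ (actz (vm x.1) (vv x.2.2) = vv x.2.1 ∨ actz (vm x.1) (vv x.2.2) = -vv x.2.1))
        PrF_act (hm.pair ((hw.comp g0).pair (hw'.comp g0)))
    have kw := PrF_sclV hkk (hw.comp g0)
    have g3 := PrF_famp (hP1.comp g0) (hA1.comp g0) (hB1.comp g0) (hP2.comp g0) (hA2.comp g0)
      (hB2.comp g0) kw hm
    have g4 := PrF_famq (hD.comp g0) (hP1.comp g0) (hA1.comp g0) (hB1.comp g0) (hP2.comp g0)
      (hA2.comp g0) (hB2.comp g0) kw (hw'.comp g0) hm
    have hb : Primrec fun y : X × ℕ => box (K y.1 * (y.2 + 2)) :=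
      prim_box.comp (Primrec.nat_mul.comp (hK.comp f0)
        (Primrec.nat_add.comp hk (Primrec.const 2)))
    exact re_all (re_or (re_prim g1) (re_or (re_prim g2) (re_or g3 g4))) hb
  have key := re_ex (re_and c1 (re_and c2 c3))
  refine re_of_eq key fun x => ⟨?_, ?_⟩
  · rintro ⟨k, h1, h2, h3⟩
    refine ⟨k, h1, h2, fun m hm hd ha => ?_⟩
    rcases h3 m hm with h | h | h
    · exact absurd hd h
    · exact absurd ha h
    · exact h
  · rintro ⟨k, h1, h2, h3⟩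
    refine ⟨k, h1, h2, fun m hm => ?_⟩
    by_cases hd : dt (vm m) = 1 ∨ dt (vm m) = -1
    · by_cases ha : actz (vm m) (vv (w' x)) = vv (w x) ∨
        actz (vm m) (vv (w' x)) = -vv (w x)
      · exact Or.inr (Or.inr (h3 m hm hd ha))
      · exact Or.inr (Or.inl ha)
    · exact Or.inl hd

end PrF

theorem re_FamQ : Re fun x : MD × (Pres × Word × Word) × (Pres × Word × Word) × VV × VV × MP =>
    FamQ x.1 x.2.1.1 x.2.1.2.1 x.2.1.2.2 x.2.2.1.1 x.2.2.1.2.1 x.2.2.1.2.2 x.2.2.2.1 x.2.2.2.2.1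
      x.2.2.2.2.2 := by
  have qD : Primrec fun x : MD × (Pres × Word × Word) × (Pres × Word × Word) × VV × VV × MP => x.1 :=
    Primrec.fst
  have q2 : Primrec fun x : MD × (Pres × Word × Word) × (Pres × Word × Word) × VV × VV × MP => x.2.1 :=
    Primrec.fst.comp Primrec.snd
  have q3 : Primrec fun x : MD × (Pres × Word × Word) × (Pres × Word × Word) × VV × VV × MP =>
      x.2.2.1 := Primrec.fst.comp (Primrec.snd.comp Primrec.snd)
  have q4 : Primrec fun x : MD × (Pres × Word × Word) × (Pres × Word × Word) × VV × VV × MP =>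
      x.2.2.2 := Primrec.snd.comp (Primrec.snd.comp Primrec.snd)
  exact PrF_famq qD (Primrec.fst.comp q2) (Primrec.fst.comp (Primrec.snd.comp q2))
    (Primrec.snd.comp (Primrec.snd.comp q2)) (Primrec.fst.comp q3)
    (Primrec.fst.comp (Primrec.snd.comp q3)) (Primrec.snd.comp (Primrec.snd.comp q3))
    (Primrec.fst.comp q4) (Primrec.fst.comp (Primrec.snd.comp q4))
    (Primrec.snd.comp (Primrec.snd.comp q4))

theorem re_Fam : Re fun x : MD × (Pres × Word × Word) × (Pres × Word × Word) × ℕ × VV × VV =>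
    Fam x.1 x.2.1.1 x.2.1.2.1 x.2.1.2.2 x.2.2.1.1 x.2.2.1.2.1 x.2.2.1.2.2 x.2.2.2.1 x.2.2.2.2.1
      x.2.2.2.2.2 := by
  have qD : Primrec fun x : MD × (Pres × Word × Word) × (Pres × Word × Word) × ℕ × VV × VV => x.1 :=
    Primrec.fst
  have q2 : Primrec fun x : MD × (Pres × Word × Word) × (Pres × Word × Word) × ℕ × VV × VV => x.2.1 :=
    Primrec.fst.comp Primrec.snd
  have q3 : Primrec fun x : MD × (Pres × Word × Word) × (Pres × Word × Word) × ℕ × VV × VV =>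
      x.2.2.1 := Primrec.fst.comp (Primrec.snd.comp Primrec.snd)
  have q4 : Primrec fun x : MD × (Pres × Word × Word) × (Pres × Word × Word) × ℕ × VV × VV =>
      x.2.2.2 := Primrec.snd.comp (Primrec.snd.comp Primrec.snd)
  exact PrF_fam qD (Primrec.fst.comp q2) (Primrec.fst.comp (Primrec.snd.comp q2))
    (Primrec.snd.comp (Primrec.snd.comp q2)) (Primrec.fst.comp q3)
    (Primrec.fst.comp (Primrec.snd.comp q3)) (Primrec.snd.comp (Primrec.snd.comp q3))
    (Primrec.fst.comp q4) (Primrec.fst.comp (Primrec.snd.comp q4))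
    (Primrec.snd.comp (Primrec.snd.comp q4))

end Pool.Agent.H28.IP
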