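/-
ROW PrG. The certificate NJ is recursively enumerable.
PROOFS. re_NJ2: re_ex for `c₁ c₂ b₁ b₂ K Ls₁ Ls₂` (as one quantifier over the product type, then unpack), re_and, re_PB,
re_Cov (PrD), re_InN (NiA_inn) with re_all over `Ls₁`, `Ls₂`, re_NonInt, re_Growth (PrC), re_Fam (PrF), re_NImS (PrE), re_all
over `box2 (2 * b₁)`, `box2 (2 * b₂)` (pr_box2), `box K` (prim_box); `(∃ z ∈ box2 (2 * b₁), vz (detV w z) = 1) → q`: the
premise is a primitive recursive predicate (bounded existence over a list), so write it as `¬ p ∨ q`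
(`PrimrecPred.not`, `PrimrecPred.exists_mem_list` or: `¬ ∃ z ∈ l, p z ↔ ∀ z ∈ l, ¬ p z` and re_all).
re_NJ: as re_NI in Pool.Agent.H28.IP.NiB: re_ex, re_GenW, re_HomM (NiA), NiB_first for the first alternative, re_MatOK,
re_Vanish with re_all, re_NJ2.
-/
import Pool.Agent.H28.IQ.PrD
import Pool.Agent.H28.IQ.PrF

set_option autoImplicit false

namespace Pool.Agent.H28.IP

variable {X : Type} [Primcodable X]

private theorem PrG_all {β : Type} [Primcodable β] {p : X → β → Prop}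
    (hp : Re fun y : X × β => p y.1 y.2) {f : X → List β} (hf : Primrec f) :
    Re fun x => ∀ b ∈ f x, p x b := re_all (p := fun y : X × β => p y.1 y.2) hp hf

private theorem PrG_ex {β : Type} [Primcodable β] {p : X → β → Prop}
    (hp : Re fun y : X × β => p y.1 y.2) : Re fun x => ∃ b, p x b :=
  re_ex (p := fun y : X × β => p y.1 y.2) hp

private theorem PrG_imp {p q : X → Prop} (hp : PrimrecPred p) (hq : Re q) :
    Re fun x => p x → q x := by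
  refine re_of_eq (re_or (re_prim hp.not) hq) fun x => ?_
  rw [imp_iff_not_or]

/-- the bounded existence of a complementary vector -/
private theorem PrG_det {w : X → VV} {b : X → ℕ} (hw : Primrec w) (hb : Primrec b) :
    PrimrecPred fun x => ∃ z ∈ box2 (2 * b x), vz (detV (w x) z) = 1 := by
  have h1 : PrimrecRel fun (z w : VV) => vz (detV w z) = 1 := by
    have h2 : PrimrecPred fun y : VV × VV => vz (detV y.2 y.1) = vz (1, 0) :=
      WdC_vzeq (pr_detV.comp (Primrec.snd.pair Primrec.fst)) (Primrec.const (1, 0))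
    exact h2
  have h3 : PrimrecRel fun (L : List VV) (w : VV) => ∃ z ∈ L, vz (detV w z) = 1 :=
    PrimrecRel.exists_mem_list h1
  exact PrimrecPred.comp (p := fun q : List VV × VV => ∃ z ∈ q.1, vz (detV q.2 z) = 1) h3
    (f := fun x : X => (box2 (2 * b x), w x))
    ((pr_box2.comp (Primrec.nat_mul.comp (Primrec.const 2) hb)).pair hw)

private theorem PrG_nonInt {D : X → MD} {w : X → VV} (hD : Primrec D) (hw : Primrec w) :
    Re fun x => NonInt (D x) (w x) := by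
  have h := re_comp re_NonInt (hD.pair hw)
  exact h

private theorem PrG_growth {D : X → MD} {w : X → VV} {n : X → ℕ} (hD : Primrec D)
    (hw : Primrec w) (hn : Primrec n) : Re fun x => Growth (D x) (w x) (n x) := by
  have h := re_comp re_Growth (hD.pair (hw.pair hn))
  exact h

private theorem PrG_fam {D : X → MD} {Q₁ Q₂ : X → Pres × Word × Word} {K : X → ℕ}
    {w w' : X → VV} (hD : Primrec D) (h₁ : Primrec Q₁) (h₂ : Primrec Q₂) (hK : Primrec K)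
    (hw : Primrec w) (hw' : Primrec w') :
    Re fun x => Fam (D x) (Q₁ x).1 (Q₁ x).2.1 (Q₁ x).2.2 (Q₂ x).1 (Q₂ x).2.1 (Q₂ x).2.2
      (K x) (w x) (w' x) := by
  have h := re_comp re_Fam (hD.pair (h₁.pair (h₂.pair (hK.pair (hw.pair hw')))))
  exact h

/-- the growth alternative -/
private theorem PrG_gr {D : X → MD} {c₁ c₂ b₁ b₂ K : X → ℕ} {w : X → VV} (hD : Primrec D)
    (hc₁ : Primrec c₁) (hc₂ : Primrec c₂) (hb₁ : Primrec b₁) (hb₂ : Primrec b₂)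
    (hK : Primrec K) (hw : Primrec w) :
    Re fun x => ∃ n, Growth (D x) (w x) n ∧
      (n * (c₂ x + 8 * b₁ x * b₂ x * c₁ x) + 2 * b₂ x) * (2 * b₁ x) ≤ K x := by
  refine PrG_ex (p := fun x n => Growth (D x) (w x) n ∧
      (n * (c₂ x + 8 * b₁ x * b₂ x * c₁ x) + 2 * b₂ x) * (2 * b₁ x) ≤ K x) ?_
  refine re_and (PrG_growth (hD.comp Primrec.fst) (hw.comp Primrec.fst) Primrec.snd) (re_prim ?_)
  have c1 := hc₁.comp (Primrec.fst (α := X) (β := ℕ))
  have c2 := hc₂.comp (Primrec.fst (α := X) (β := ℕ))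
  have d1 := hb₁.comp (Primrec.fst (α := X) (β := ℕ))
  have d2 := hb₂.comp (Primrec.fst (α := X) (β := ℕ))
  have k1 := hK.comp (Primrec.fst (α := X) (β := ℕ))
  refine Primrec.nat_le.comp (Primrec.nat_mul.comp (Primrec.nat_add.comp (Primrec.nat_mul.comp
    Primrec.snd (Primrec.nat_add.comp c2 (Primrec.nat_mul.comp (Primrec.nat_mul.comp
      (Primrec.nat_mul.comp (Primrec.const 8) d1) d2) c1)))
    (Primrec.nat_mul.comp (Primrec.const 2) d2)) (Primrec.nat_mul.comp (Primrec.const 2) d1)) k1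

/-- the family alternative -/
private theorem PrG_fa {D : X → MD} {Q₁ Q₂ : X → Pres × Word × Word} {b₁ b₂ : X → ℕ}
    {w : X → VV} (hD : Primrec D) (h₁ : Primrec Q₁) (h₂ : Primrec Q₂)
    (hb₁ : Primrec b₁) (hb₂ : Primrec b₂) (hw : Primrec w) :
    Re fun x => ∀ w' ∈ box2 (2 * b₂ x), (∃ z ∈ box2 (2 * b₂ x), vz (detV w' z) = 1) →
      Fam (D x) (Q₁ x).1 (Q₁ x).2.1 (Q₁ x).2.2 (Q₂ x).1 (Q₂ x).2.1 (Q₂ x).2.2
      (4 * b₁ x * b₂ x) (w x) w' := by
  refine PrG_all (p := fun x w' => (∃ z ∈ box2 (2 * b₂ x), vz (detV w' z) = 1) →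
      Fam (D x) (Q₁ x).1 (Q₁ x).2.1 (Q₁ x).2.2 (Q₂ x).1 (Q₂ x).2.1 (Q₂ x).2.2
      (4 * b₁ x * b₂ x) (w x) w') ?_ (pr_box2.comp (Primrec.nat_mul.comp (Primrec.const 2) hb₂))
  refine PrG_imp (PrG_det Primrec.snd (hb₂.comp Primrec.fst)) ?_
  exact PrG_fam (hD.comp Primrec.fst) (h₁.comp Primrec.fst) (h₂.comp Primrec.fst)
    (Primrec.nat_mul.comp (Primrec.nat_mul.comp (Primrec.const 4) (hb₁.comp Primrec.fst))
      (hb₂.comp Primrec.fst)) (hw.comp Primrec.fst) Primrec.snd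

/-- the condition on the directions -/
private theorem PrG_dir {D : X → MD} {Q₁ Q₂ : X → Pres × Word × Word}
    {c₁ c₂ b₁ b₂ K : X → ℕ} (hD : Primrec D) (h₁ : Primrec Q₁) (h₂ : Primrec Q₂)
    (hc₁ : Primrec c₁) (hc₂ : Primrec c₂) (hb₁ : Primrec b₁) (hb₂ : Primrec b₂)
    (hK : Primrec K) :
    Re fun x => ∀ w ∈ box2 (2 * b₁ x), (∃ z ∈ box2 (2 * b₁ x), vz (detV w z) = 1) →
      NonInt (D x) w ∨
      (∃ n, Growth (D x) w n ∧
        (n * (c₂ x + 8 * b₁ x * b₂ x * c₁ x) + 2 * b₂ x) * (2 * b₁ x) ≤ K x) ∨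
      ∀ w' ∈ box2 (2 * b₂ x), (∃ z ∈ box2 (2 * b₂ x), vz (detV w' z) = 1) →
        Fam (D x) (Q₁ x).1 (Q₁ x).2.1 (Q₁ x).2.2 (Q₂ x).1 (Q₂ x).2.1 (Q₂ x).2.2
          (4 * b₁ x * b₂ x) w w' := by
  refine PrG_all (p := fun x w => (∃ z ∈ box2 (2 * b₁ x), vz (detV w z) = 1) →
      NonInt (D x) w ∨
      (∃ n, Growth (D x) w n ∧
        (n * (c₂ x + 8 * b₁ x * b₂ x * c₁ x) + 2 * b₂ x) * (2 * b₁ x) ≤ K x) ∨
      ∀ w' ∈ box2 (2 * b₂ x), (∃ z ∈ box2 (2 * b₂ x), vz (detV w' z) = 1) →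
        Fam (D x) (Q₁ x).1 (Q₁ x).2.1 (Q₁ x).2.2 (Q₂ x).1 (Q₂ x).2.1 (Q₂ x).2.2
          (4 * b₁ x * b₂ x) w w') ?_ (pr_box2.comp (Primrec.nat_mul.comp (Primrec.const 2) hb₁))
  refine PrG_imp (PrG_det Primrec.snd (hb₁.comp Primrec.fst)) ?_
  refine re_or (PrG_nonInt (hD.comp Primrec.fst) Primrec.snd) (re_or ?_ ?_)
  · exact PrG_gr (X := X × VV) (hD.comp Primrec.fst) (hc₁.comp Primrec.fst)
      (hc₂.comp Primrec.fst) (hb₁.comp Primrec.fst) (hb₂.comp Primrec.fst)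
      (hK.comp Primrec.fst) Primrec.snd
  · exact PrG_fa (X := X × VV) (hD.comp Primrec.fst) (h₁.comp Primrec.fst)
      (h₂.comp Primrec.fst) (hb₁.comp Primrec.fst) (hb₂.comp Primrec.fst) Primrec.snd

/-- the condition on the matrices of bounded size -/
private theorem PrG_box {Q₁ Q₂ : X → Pres × Word × Word} {K : X → ℕ} (h₁ : Primrec Q₁)
    (h₂ : Primrec Q₂) (hK : Primrec K) :
    Re fun x => ∀ m ∈ box (K x), (dt (vm m) = 1 ∨ dt (vm m) = -1) →
      NImS (Q₁ x).1 (Q₁ x).2.1 (Q₁ x).2.2 (Q₂ x).1 (Q₂ x).2.1 (Q₂ x).2.2 m := by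
  refine PrG_all (p := fun x m => (dt (vm m) = 1 ∨ dt (vm m) = -1) →
      NImS (Q₁ x).1 (Q₁ x).2.1 (Q₁ x).2.2 (Q₂ x).1 (Q₂ x).2.1 (Q₂ x).2.2 m) ?_
    (prim_box.comp hK)
  have h3 : Re fun y : X × MP => NImS (Q₁ y.1).1 (Q₁ y.1).2.1 (Q₁ y.1).2.2 (Q₂ y.1).1
      (Q₂ y.1).2.1 (Q₂ y.1).2.2 y.2 := by
    have h := re_comp re_NImS ((h₁.comp Primrec.fst).pair ((h₂.comp Primrec.fst).pair
      (Primrec.snd (α := X) (β := MP))))
    exact h
  refine re_of_eq (re_or (re_prim (NiB_ndt.comp (Primrec.snd (α := X) (β := MP)))) h3)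
    fun y => ?_
  rw [imp_iff_not_or]

private theorem PrG_pb {Q : X → Pres × Word × Word} {c : X → ℕ} (hQ : Primrec Q)
    (hc : Primrec c) : Re fun x => PB (Q x).1 (Q x).2.1 (Q x).2.2 (c x) := by
  have h := re_comp re_PB (hQ.pair hc)
  exact h

private theorem PrG_cov {Ls : X → List NL} {b : X → ℕ} (hL : Primrec Ls)
    (hb : Primrec b) : Re fun x => Cov (Ls x) (b x) := by
  have h := re_comp re_Cov (hL.pair hb)
  exact h

private theorem PrG_rel {Q : X → Pres × Word × Word} {Ls : X → List NL} (hQ : Primrec Q)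
    (hL : Primrec Ls) :
    Re fun x => ∀ L ∈ Ls x, InN (Q x).1 (subst [(Q x).2.1, (Q x).2.2] (wl L)) := by
  refine PrG_all (p := fun x L => InN (Q x).1 (subst [(Q x).2.1, (Q x).2.2] (wl L))) ?_ hL
  have q := hQ.comp (Primrec.fst (α := X) (β := NL))
  exact NiA_inn (Primrec.fst.comp q) (prim_subst.comp
    (NiA_two (Primrec.fst.comp (Primrec.snd.comp q)) (Primrec.snd.comp (Primrec.snd.comp q)))
    (prim_wl.comp Primrec.snd))

/-- the type of the parameters -/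
private abbrev PrG_T : Type := MD × (Pres × Word × Word) × (Pres × Word × Word)

/-- the type of the certificates -/
private abbrev PrG_Y : Type := ℕ × ℕ × ℕ × ℕ × ℕ × List NL × List NL

theorem re_NJ2 : Re fun x : MD × (Pres × Word × Word) × (Pres × Word × Word) =>
    NJ2 x.1 x.2.1.1 x.2.1.2.1 x.2.1.2.2 x.2.2.1 x.2.2.2.1 x.2.2.2.2 := by
  have t1 : Primrec fun z : PrG_T × PrG_Y => z.1.1 := Primrec.fst.comp Primrec.fst
  have t2 : Primrec fun z : PrG_T × PrG_Y => z.1.2.1 :=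
    Primrec.fst.comp (Primrec.snd.comp Primrec.fst)
  have t3 : Primrec fun z : PrG_T × PrG_Y => z.1.2.2 :=
    Primrec.snd.comp (Primrec.snd.comp Primrec.fst)
  have y1 : Primrec fun z : PrG_T × PrG_Y => z.2.1 := Primrec.fst.comp Primrec.snd
  have r1 : Primrec fun z : PrG_T × PrG_Y => z.2.2 := Primrec.snd.comp Primrec.snd
  have y2 : Primrec fun z : PrG_T × PrG_Y => z.2.2.1 := Primrec.fst.comp r1
  have r2 : Primrec fun z : PrG_T × PrG_Y => z.2.2.2 := Primrec.snd.comp r1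
  have y3 : Primrec fun z : PrG_T × PrG_Y => z.2.2.2.1 := Primrec.fst.comp r2
  have r3 : Primrec fun z : PrG_T × PrG_Y => z.2.2.2.2 := Primrec.snd.comp r2
  have y4 : Primrec fun z : PrG_T × PrG_Y => z.2.2.2.2.1 := Primrec.fst.comp r3
  have r4 : Primrec fun z : PrG_T × PrG_Y => z.2.2.2.2.2 := Primrec.snd.comp r3
  have y5 : Primrec fun z : PrG_T × PrG_Y => z.2.2.2.2.2.1 := Primrec.fst.comp r4
  have r5 : Primrec fun z : PrG_T × PrG_Y => z.2.2.2.2.2.2 := Primrec.snd.comp r4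
  have y6 : Primrec fun z : PrG_T × PrG_Y => z.2.2.2.2.2.2.1 := Primrec.fst.comp r5
  have y7 : Primrec fun z : PrG_T × PrG_Y => z.2.2.2.2.2.2.2 := Primrec.snd.comp r5
  have k1 := re_and (PrG_pb t2 y1) (PrG_pb t3 y2)
  have k2 := re_and (PrG_rel t2 y6) (PrG_rel t3 y7)
  have k3 := re_and (PrG_cov y6 y3) (PrG_cov y7 y4)
  have k4 : Re fun z : PrG_T × PrG_Y => 8 * z.2.2.2.1 * z.2.2.2.2.1 ≤ z.2.2.2.2.2.1 :=
    re_prim (Primrec.nat_le.comp (Primrec.nat_mul.comp (Primrec.nat_mul.comp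
      (Primrec.const 8) y3) y4) y5)
  have k5 : Re fun z : PrG_T × PrG_Y =>
      NonInt z.1.1 ((1, 0), (0, 0)) ∨ NonInt z.1.1 ((0, 0), (1, 0)) :=
    re_or (PrG_nonInt t1 (Primrec.const _)) (PrG_nonInt t1 (Primrec.const _))
  have k6 := PrG_dir t1 t2 t3 y1 y2 y3 y4 y5
  have k7 := PrG_box t2 t3 y5
  have key := re_ex (re_and k1 (re_and k2 (re_and k3 (re_and k4 (re_and k5 (re_and k6 k7))))))
  refine re_of_eq key fun x => ?_
  constructor
  · rintro ⟨⟨c₁, c₂, b₁, b₂, K, Ls₁, Ls₂⟩, h⟩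
    exact ⟨c₁, c₂, b₁, b₂, K, Ls₁, Ls₂, h⟩
  · rintro ⟨c₁, c₂, b₁, b₂, K, Ls₁, Ls₂, h⟩
    exact ⟨(c₁, c₂, b₁, b₂, K, Ls₁, Ls₂), h⟩

/-- the type of the certificates of NJ -/
private abbrev PrG_Z : Type := Word × Word × List Word × Word × Word × List Word × List NL

/-- the second alternative -/
private theorem PrG_second {Q₁ Q₂ : X → Pres × Word × Word} {Js : X → List NL}
    (h₁ : Primrec Q₁) (h₂ : Primrec Q₂) (hJ : Primrec Js) :
    Re fun x => ∃ D : MD, MatOK D ∧ (∀ L ∈ Js x, Vanish D L) ∧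
      NJ2 D (Q₁ x).1 (Q₁ x).2.1 (Q₁ x).2.2 (Q₂ x).1 (Q₂ x).2.1 (Q₂ x).2.2 := by
  refine PrG_ex (p := fun x D => MatOK D ∧ (∀ L ∈ Js x, Vanish D L) ∧
      NJ2 D (Q₁ x).1 (Q₁ x).2.1 (Q₁ x).2.2 (Q₂ x).1 (Q₂ x).2.1 (Q₂ x).2.2) ?_
  refine re_and ?_ (re_and ?_ ?_)
  · have h := re_comp re_MatOK (Primrec.snd (α := X) (β := MD))
    exact h
  · refine PrG_all (X := X × MD) (p := fun y L => Vanish y.2 L) ?_ (hJ.comp Primrec.fst)
    have h := re_comp re_Vanish ((Primrec.snd.comp Primrec.fst).pair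
      (Primrec.snd (α := X × MD) (β := NL)))
    exact h
  · have h := re_comp re_NJ2 ((Primrec.snd (α := X) (β := MD)).pair
      ((h₁.comp Primrec.fst).pair (h₂.comp Primrec.fst)))
    exact h

private theorem PrG_gen : Re fun z : (Pres × Pres) × PrG_Z =>
    GenW z.1.1 z.2.1 z.2.2.1 z.2.2.2.1 ∧
      GenW z.1.2 z.2.2.2.2.1 z.2.2.2.2.2.1 z.2.2.2.2.2.2.1 := by
  have z1 : Primrec fun z : (Pres × Pres) × PrG_Z => z.1.1 := Primrec.fst.comp Primrec.fst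
  have z2 : Primrec fun z : (Pres × Pres) × PrG_Z => z.1.2 := Primrec.snd.comp Primrec.fst
  have y1 : Primrec fun z : (Pres × Pres) × PrG_Z => z.2.1 := Primrec.fst.comp Primrec.snd
  have r1 : Primrec fun z : (Pres × Pres) × PrG_Z => z.2.2 := Primrec.snd.comp Primrec.snd
  have y2 : Primrec fun z : (Pres × Pres) × PrG_Z => z.2.2.1 := Primrec.fst.comp r1
  have r2 : Primrec fun z : (Pres × Pres) × PrG_Z => z.2.2.2 := Primrec.snd.comp r1
  have y3 : Primrec fun z : (Pres × Pres) × PrG_Z => z.2.2.2.1 := Primrec.fst.comp r2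
  have r3 : Primrec fun z : (Pres × Pres) × PrG_Z => z.2.2.2.2 := Primrec.snd.comp r2
  have y4 : Primrec fun z : (Pres × Pres) × PrG_Z => z.2.2.2.2.1 := Primrec.fst.comp r3
  have r4 : Primrec fun z : (Pres × Pres) × PrG_Z => z.2.2.2.2.2 := Primrec.snd.comp r3
  have y5 : Primrec fun z : (Pres × Pres) × PrG_Z => z.2.2.2.2.2.1 := Primrec.fst.comp r4
  have r5 : Primrec fun z : (Pres × Pres) × PrG_Z => z.2.2.2.2.2.2 := Primrec.snd.comp r4
  have y6 : Primrec fun z : (Pres × Pres) × PrG_Z => z.2.2.2.2.2.2.1 := Primrec.fst.comp r5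
  refine re_and ?_ ?_
  · exact re_comp re_GenW (f := fun z : (Pres × Pres) × PrG_Z => (z.1.1, z.2.1, z.2.2.1, z.2.2.2.1))
      (z1.pair (y1.pair (y2.pair y3)))
  · exact re_comp re_GenW (f := fun z : (Pres × Pres) × PrG_Z =>
      (z.1.2, z.2.2.2.2.1, z.2.2.2.2.2.1, z.2.2.2.2.2.2.1)) (z2.pair (y4.pair (y5.pair y6)))

private theorem PrG_hom : Re fun z : (Pres × Pres) × PrG_Z =>
    HomM z.1.1 z.2.2.2.2.2.2.2 z.2.1 z.2.2.1 z.2.2.2.1 := by
  have z1 : Primrec fun z : (Pres × Pres) × PrG_Z => z.1.1 := Primrec.fst.comp Primrec.fst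
  have z2 : Primrec fun z : (Pres × Pres) × PrG_Z => z.1.2 := Primrec.snd.comp Primrec.fst
  have y1 : Primrec fun z : (Pres × Pres) × PrG_Z => z.2.1 := Primrec.fst.comp Primrec.snd
  have r1 : Primrec fun z : (Pres × Pres) × PrG_Z => z.2.2 := Primrec.snd.comp Primrec.snd
  have y2 : Primrec fun z : (Pres × Pres) × PrG_Z => z.2.2.1 := Primrec.fst.comp r1
  have r2 : Primrec fun z : (Pres × Pres) × PrG_Z => z.2.2.2 := Primrec.snd.comp r1
  have y3 : Primrec fun z : (Pres × Pres) × PrG_Z => z.2.2.2.1 := Primrec.fst.comp r2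
  have r3 : Primrec fun z : (Pres × Pres) × PrG_Z => z.2.2.2.2 := Primrec.snd.comp r2
  have y4 : Primrec fun z : (Pres × Pres) × PrG_Z => z.2.2.2.2.1 := Primrec.fst.comp r3
  have r4 : Primrec fun z : (Pres × Pres) × PrG_Z => z.2.2.2.2.2 := Primrec.snd.comp r3
  have y5 : Primrec fun z : (Pres × Pres) × PrG_Z => z.2.2.2.2.2.1 := Primrec.fst.comp r4
  have r5 : Primrec fun z : (Pres × Pres) × PrG_Z => z.2.2.2.2.2.2 := Primrec.snd.comp r4
  have y7 : Primrec fun z : (Pres × Pres) × PrG_Z => z.2.2.2.2.2.2.2 := Primrec.snd.comp r5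
  exact re_comp re_HomM (f := fun z : (Pres × Pres) × PrG_Z =>
    (z.1.1, z.2.2.2.2.2.2.2, z.2.1, z.2.2.1, z.2.2.2.1))
    (z1.pair (y7.pair (y1.pair (y2.pair y3))))

private theorem PrG_alt : Re fun z : (Pres × Pres) × PrG_Z =>
    (∃ u v : ℕ × ℕ, (vz u ≠ 0 ∨ vz v ≠ 0) ∧
      cl z.1.2 (subst [z.2.2.2.2.1, z.2.2.2.2.2.1] (zp 0 u ++ zp 1 v)) ∈
        commutator (GN z.1.2)) ∨ ∃ D : MD, MatOK D ∧
      (∀ L ∈ z.2.2.2.2.2.2.2, Vanish D L) ∧
      NJ2 D z.1.1 z.2.1 z.2.2.1 z.1.2 z.2.2.2.2.1 z.2.2.2.2.2.1 := by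
  have z1 : Primrec fun z : (Pres × Pres) × PrG_Z => z.1.1 := Primrec.fst.comp Primrec.fst
  have z2 : Primrec fun z : (Pres × Pres) × PrG_Z => z.1.2 := Primrec.snd.comp Primrec.fst
  have y1 : Primrec fun z : (Pres × Pres) × PrG_Z => z.2.1 := Primrec.fst.comp Primrec.snd
  have r1 : Primrec fun z : (Pres × Pres) × PrG_Z => z.2.2 := Primrec.snd.comp Primrec.snd
  have y2 : Primrec fun z : (Pres × Pres) × PrG_Z => z.2.2.1 := Primrec.fst.comp r1
  have r2 : Primrec fun z : (Pres × Pres) × PrG_Z => z.2.2.2 := Primrec.snd.comp r1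
  have y3 : Primrec fun z : (Pres × Pres) × PrG_Z => z.2.2.2.1 := Primrec.fst.comp r2
  have r3 : Primrec fun z : (Pres × Pres) × PrG_Z => z.2.2.2.2 := Primrec.snd.comp r2
  have y4 : Primrec fun z : (Pres × Pres) × PrG_Z => z.2.2.2.2.1 := Primrec.fst.comp r3
  have r4 : Primrec fun z : (Pres × Pres) × PrG_Z => z.2.2.2.2.2 := Primrec.snd.comp r3
  have y5 : Primrec fun z : (Pres × Pres) × PrG_Z => z.2.2.2.2.2.1 := Primrec.fst.comp r4
  have r5 : Primrec fun z : (Pres × Pres) × PrG_Z => z.2.2.2.2.2.2 := Primrec.snd.comp r4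
  have y7 : Primrec fun z : (Pres × Pres) × PrG_Z => z.2.2.2.2.2.2.2 := Primrec.snd.comp r5
  refine re_or ?_ ?_
  · exact re_comp NiB_first (f := fun z : (Pres × Pres) × PrG_Z =>
      (z.1.2, z.2.2.2.2.1, z.2.2.2.2.2.1)) (z2.pair (y4.pair y5))
  · exact PrG_second (Q₁ := fun z : (Pres × Pres) × PrG_Z => (z.1.1, z.2.1, z.2.2.1))
      (Q₂ := fun z : (Pres × Pres) × PrG_Z => (z.1.2, z.2.2.2.2.1, z.2.2.2.2.2.1))
      (Js := fun z : (Pres × Pres) × PrG_Z => z.2.2.2.2.2.2.2)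
      (z1.pair (y1.pair y2)) (z2.pair (y4.pair y5)) y7

theorem re_NJ : Re fun x : Pres × Pres => NJ x.1 x.2 := by
  refine re_of_eq (re_ex (re_and PrG_gen (re_and PrG_hom PrG_alt))) fun x => ?_
  constructor
  · rintro ⟨⟨A₁, B₁, W₁, A₂, B₂, W₂, Js⟩, ⟨h1, h2⟩, h3, h4⟩
    exact ⟨A₁, B₁, W₁, A₂, B₂, W₂, Js, h1, h2, h3, h4⟩
  · rintro ⟨A₁, B₁, W₁, A₂, B₂, W₂, Js, h1, h2, h3, h4⟩
    exact ⟨(A₁, B₁, W₁, A₂, B₂, W₂, Js), ⟨h1, h2⟩, h3, h4⟩

end Pool.Agent.H28.IP
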