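/-
ROW PrH. The certificate NZ is recursively enumerable.
PROOFS. `xs` is a foldr with `getD`, `swap`, `cond` (`Primrec.list_foldr`, `Primrec.list_getD`). HZ: `E.length ≤ P.1` and a
bounded quantifier over `P.2` (re_all) of `(n : ℤ) ∣ vz u ↔ u.1 % n = u.2 % n` (also for `n = 0`). NC: re_ex, re_GenW
(NiA), re_ab (Pool.Agent.H28.IP.NcB) with prim_subst, prim_zp, `1 ≤ n`; re_prime (WdC); `(p : ℤ) ∣ vz u - 1 ↔
u.1 % p = (u.2 + 1) % p`. NZ: re_ex, re_and, re_or, re_ab, re_NIm (NiA) at the constant matrices, `vz u ≠ 0`.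
-/
import Pool.Agent.H28.IQ.PrB
import Pool.Agent.H28.IP.NiB

set_option autoImplicit false

namespace Pool.Agent.H28.IP

theorem PrH_dvd (n : ℕ) (u : ℕ × ℕ) : (n : ℤ) ∣ vz u ↔ u.1 % n = u.2 % n := by
  have h := WdC_dvd n u.1 u.2
  unfold vz
  tauto

theorem PrH_dvdp {α : Type} [Primcodable α] {n : α → ℕ} {u : α → ℕ × ℕ} (hn : Primrec n)
    (hu : Primrec u) : PrimrecPred fun a => (n a : ℤ) ∣ vz (u a) :=
  (WdC_eq (Primrec.nat_mod.comp (Primrec.fst.comp hu) hn)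
    (Primrec.nat_mod.comp (Primrec.snd.comp hu) hn)).of_eq fun _ => (PrH_dvd _ _).symm

theorem PrH_dvdq {α : Type} [Primcodable α] {n : α → ℕ} {u : α → ℕ × ℕ} (hn : Primrec n)
    (hu : Primrec u) : PrimrecPred fun a => (n a : ℤ) ∣ vz (u a) - 1 := by
  have h1 := PrH_dvdp hn (WdC_subp hu (Primrec.const ((1, 0) : ℕ × ℕ)))
  refine h1.of_eq fun a => ?_
  have e1 : vz (1, 0) = 1 := by simp [vz]
  rw [WdC_sub, e1]

theorem pr_xs : Primrec fun x : List (ℕ × ℕ) × Word => xs x.1 x.2 := by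
  unfold xs
  have hg : Primrec fun y : (List (ℕ × ℕ) × Word) × ((ℕ × Bool) × (ℕ × ℕ)) =>
      y.1.1.getD y.2.1.1 ((0, 0) : ℕ × ℕ) :=
    (Primrec.list_getD ((0, 0) : ℕ × ℕ)).comp (Primrec.fst.comp Primrec.fst)
      (Primrec.fst.comp (Primrec.fst.comp Primrec.snd))
  have hc : Primrec fun y : (List (ℕ × ℕ) × Word) × ((ℕ × Bool) × (ℕ × ℕ)) =>
      cond y.2.1.2 (y.1.1.getD y.2.1.1 ((0, 0) : ℕ × ℕ))
        (y.1.1.getD y.2.1.1 ((0, 0) : ℕ × ℕ)).swap :=
    Primrec.cond (Primrec.snd.comp (Primrec.fst.comp Primrec.snd)) hg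
      ((Primrec.snd.comp hg).pair (Primrec.fst.comp hg))
  have h : Primrec₂ fun (x : List (ℕ × ℕ) × Word) (y : (ℕ × Bool) × (ℕ × ℕ)) =>
      addp (cond y.1.2 (x.1.getD y.1.1 ((0, 0) : ℕ × ℕ))
        (x.1.getD y.1.1 ((0, 0) : ℕ × ℕ)).swap) y.2 :=
    WdB_addp.comp hc (Primrec.snd.comp Primrec.snd)
  exact Primrec.list_foldr Primrec.snd (Primrec.const _) h

theorem PrH_xs {α : Type} [Primcodable α] {E : α → List (ℕ × ℕ)} {w : α → Word} (hE : Primrec E)
    (hw : Primrec w) : Primrec fun a => xs (E a) (w a) :=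
  pr_xs.comp (hE.pair hw)

theorem re_HZ : Re fun x : Pres × List (ℕ × ℕ) × ℕ => HZ x.1 x.2.1 x.2.2 := by
  refine re_and (re_prim (Primrec.nat_le.comp (Primrec.list_length.comp (Primrec.fst.comp Primrec.snd))
    (Primrec.fst.comp Primrec.fst))) ?_
  refine re_all (p := fun y : (Pres × List (ℕ × ℕ) × ℕ) × Word =>
    ((y.1.2.2 : ℕ) : ℤ) ∣ vz (xs y.1.2.1 y.2)) (re_prim (PrH_dvdp ?_ ?_))
    (Primrec.snd.comp Primrec.fst)
  · exact Primrec.snd.comp (Primrec.snd.comp Primrec.fst)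
  · exact PrH_xs (Primrec.fst.comp (Primrec.snd.comp Primrec.fst)) Primrec.snd

theorem PrH_hz {α : Type} [Primcodable α] {P : α → Pres} {E : α → List (ℕ × ℕ)} {n : α → ℕ}
    (hP : Primrec P) (hE : Primrec E) (hn : Primrec n) : Re fun a => HZ (P a) (E a) (n a) :=
  re_comp (p := fun x : Pres × List (ℕ × ℕ) × ℕ => HZ x.1 x.2.1 x.2.2) re_HZ
    (f := fun a => (P a, E a, n a)) (hP.pair (hE.pair hn))

theorem PrH_gen {α : Type} [Primcodable α] {P : α → Pres} {A B : α → Word} {W : α → List Word}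
    (hP : Primrec P) (hA : Primrec A) (hB : Primrec B) (hW : Primrec W) :
    Re fun a => GenW (P a) (A a) (B a) (W a) :=
  re_comp (p := fun x : Pres × Word × Word × List Word => GenW x.1 x.2.1 x.2.2.1 x.2.2.2) re_GenW
    (f := fun a => (P a, A a, B a, W a)) (hP.pair (hA.pair (hB.pair hW)))

theorem PrH_ab {α : Type} [Primcodable α] {P : α → Pres} {w : α → Word}
    (hP : Primrec P) (hw : Primrec w) : Re fun a => cl (P a) (w a) ∈ commutator (GN (P a)) :=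
  re_comp (p := fun x : Pres × Word => cl x.1 x.2 ∈ commutator (GN x.1)) re_ab
    (f := fun a => (P a, w a)) (hP.pair hw)

theorem PrH_first : Re fun x : Pres × Word × Word => ∃ n : ℕ, 1 ≤ n ∧
    cl x.1 (subst [x.2.1, x.2.2] (zp 0 (n, 0))) ∈ commutator (GN x.1) ∧
      cl x.1 (subst [x.2.1, x.2.2] (zp 1 (n, 0))) ∈ commutator (GN x.1) := by
  have hP : Primrec fun y : (Pres × Word × Word) × ℕ => y.1.1 := Primrec.fst.comp Primrec.fst
  have hA : Primrec fun y : (Pres × Word × Word) × ℕ => y.1.2.1 :=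
    Primrec.fst.comp (Primrec.snd.comp Primrec.fst)
  have hB : Primrec fun y : (Pres × Word × Word) × ℕ => y.1.2.2 :=
    Primrec.snd.comp (Primrec.snd.comp Primrec.fst)
  have hn : Primrec fun y : (Pres × Word × Word) × ℕ => ((y.2, 0) : ℕ × ℕ) :=
    Primrec.snd.pair (Primrec.const 0)
  refine re_ex (p := fun y : (Pres × Word × Word) × ℕ => 1 ≤ y.2 ∧
    cl y.1.1 (subst [y.1.2.1, y.1.2.2] (zp 0 (y.2, 0))) ∈ commutator (GN y.1.1) ∧
      cl y.1.1 (subst [y.1.2.1, y.1.2.2] (zp 1 (y.2, 0))) ∈ commutator (GN y.1.1)) ?_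
  refine re_and (re_prim (Primrec.nat_le.comp (Primrec.const 1) Primrec.snd)) (re_and ?_ ?_)
  · exact PrH_ab hP (prim_subst.comp (NiB_two hA hB) ((prim_zp 0).comp hn))
  · exact PrH_ab hP (prim_subst.comp (NiB_two hA hB) ((prim_zp 1).comp hn))

/-- the second certificate -/
abbrev PrH_Y : Type := ℕ × List (ℕ × ℕ) × List (ℕ × ℕ)

theorem PrH_second : Re fun x : Pres × Word × Word => ∃ (p : ℕ) (E F : List (ℕ × ℕ)),
    p.Prime ∧ HZ x.1 E p ∧ HZ x.1 F p ∧
      (p : ℤ) ∣ vz (xs E x.2.1) - 1 ∧ (p : ℤ) ∣ vz (xs E x.2.2) ∧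
      (p : ℤ) ∣ vz (xs F x.2.1) ∧ (p : ℤ) ∣ vz (xs F x.2.2) - 1 := by
  have hP : Primrec fun y : (Pres × Word × Word) × PrH_Y => y.1.1 := Primrec.fst.comp Primrec.fst
  have hA : Primrec fun y : (Pres × Word × Word) × PrH_Y => y.1.2.1 :=
    Primrec.fst.comp (Primrec.snd.comp Primrec.fst)
  have hB : Primrec fun y : (Pres × Word × Word) × PrH_Y => y.1.2.2 :=
    Primrec.snd.comp (Primrec.snd.comp Primrec.fst)
  have hp : Primrec fun y : (Pres × Word × Word) × PrH_Y => y.2.1 := Primrec.fst.comp Primrec.snd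
  have hE : Primrec fun y : (Pres × Word × Word) × PrH_Y => y.2.2.1 :=
    Primrec.fst.comp (Primrec.snd.comp Primrec.snd)
  have hF : Primrec fun y : (Pres × Word × Word) × PrH_Y => y.2.2.2 :=
    Primrec.snd.comp (Primrec.snd.comp Primrec.snd)
  have h : Re fun y : (Pres × Word × Word) × PrH_Y => (y.2.1).Prime ∧ HZ y.1.1 y.2.2.1 y.2.1 ∧
      HZ y.1.1 y.2.2.2 y.2.1 ∧
      (y.2.1 : ℤ) ∣ vz (xs y.2.2.1 y.1.2.1) - 1 ∧ (y.2.1 : ℤ) ∣ vz (xs y.2.2.1 y.1.2.2) ∧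
      (y.2.1 : ℤ) ∣ vz (xs y.2.2.2 y.1.2.1) ∧ (y.2.1 : ℤ) ∣ vz (xs y.2.2.2 y.1.2.2) - 1 := by
    refine re_and (re_comp re_prime hp) (re_and (PrH_hz hP hE hp) (re_and (PrH_hz hP hF hp) ?_))
    exact re_prim ((PrH_dvdq hp (PrH_xs hE hA)).and ((PrH_dvdp hp (PrH_xs hE hB)).and
      ((PrH_dvdp hp (PrH_xs hF hA)).and (PrH_dvdq hp (PrH_xs hF hB)))))
  refine re_of_eq (re_ex h) fun x => ?_
  constructor
  · rintro ⟨⟨p, E, F⟩, hb⟩
    exact ⟨p, E, F, hb⟩
  · rintro ⟨p, E, F, hb⟩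
    exact ⟨(p, E, F), hb⟩

theorem re_NC : Re NC := by
  have hP : Primrec fun y : Pres × (Word × Word × List Word) => y.1 := Primrec.fst
  have hA : Primrec fun y : Pres × (Word × Word × List Word) => y.2.1 :=
    Primrec.fst.comp Primrec.snd
  have hB : Primrec fun y : Pres × (Word × Word × List Word) => y.2.2.1 :=
    Primrec.fst.comp (Primrec.snd.comp Primrec.snd)
  have hW : Primrec fun y : Pres × (Word × Word × List Word) => y.2.2.2 :=
    Primrec.snd.comp (Primrec.snd.comp Primrec.snd)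
  have h1 := re_comp PrH_first (f := fun y : Pres × (Word × Word × List Word) =>
    (y.1, y.2.1, y.2.2.1)) (hP.pair (hA.pair hB))
  have h2 := re_comp PrH_second (f := fun y : Pres × (Word × Word × List Word) =>
    (y.1, y.2.1, y.2.2.1)) (hP.pair (hA.pair hB))
  refine re_of_eq (re_ex (re_and (PrH_gen hP hA hB hW) (re_or h1 h2))) fun P => ?_
  constructor
  · rintro ⟨⟨A, B, W⟩, h3, h4⟩
    exact ⟨A, B, W, h3, h4⟩
  · rintro ⟨A, B, W, h3, h4⟩
    exact ⟨(A, B, W), h3, h4⟩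

/-- the type of the first part of the certificate -/
abbrev PrH_A : Type := Word × Word × List Word × List (ℕ × ℕ)

theorem PrH_nim {α : Type} [Primcodable α] {P₁ P₂ : α → Pres} {A₁ B₁ A₂ B₂ : α → Word} (m : MP)
    (h1 : Primrec P₁) (h2 : Primrec A₁) (h3 : Primrec B₁) (h4 : Primrec P₂) (h5 : Primrec A₂)
    (h6 : Primrec B₂) : Re fun a => NIm (P₁ a) (A₁ a) (B₁ a) (P₂ a) (A₂ a) (B₂ a) m :=
  re_comp (p := fun x : (Pres × Word × Word) × (Pres × Word × Word) × MP =>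
    NIm x.1.1 x.1.2.1 x.1.2.2 x.2.1.1 x.2.1.2.1 x.2.1.2.2 x.2.2) re_NIm
    (f := fun a => ((P₁ a, A₁ a, B₁ a), (P₂ a, A₂ a, B₂ a), m))
    ((h1.pair (h2.pair h3)).pair ((h4.pair (h5.pair h6)).pair (Primrec.const m)))

theorem PrH_third : Re fun x : (Pres × Word × Word) × Pres =>
    ∃ (A₂ B₂ : Word) (W₂ : List Word), GenW x.2 A₂ B₂ W₂ ∧
      cl x.2 B₂ ∈ commutator (GN x.2) ∧
      NIm x.1.1 x.1.2.1 x.1.2.2 x.2 A₂ B₂ ((1, 0), (0, 0), (0, 0), (1, 0)) ∧
      NIm x.1.1 x.1.2.1 x.1.2.2 x.2 A₂ B₂ ((0, 1), (0, 0), (0, 0), (1, 0)) := by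
  have hP : Primrec fun y : ((Pres × Word × Word) × Pres) × (Word × Word × List Word) => y.1.2 :=
    Primrec.snd.comp Primrec.fst
  have hA : Primrec fun y : ((Pres × Word × Word) × Pres) × (Word × Word × List Word) => y.2.1 :=
    Primrec.fst.comp Primrec.snd
  have hB : Primrec fun y : ((Pres × Word × Word) × Pres) × (Word × Word × List Word) => y.2.2.1 :=
    Primrec.fst.comp (Primrec.snd.comp Primrec.snd)
  have hW : Primrec fun y : ((Pres × Word × Word) × Pres) × (Word × Word × List Word) => y.2.2.2 :=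
    Primrec.snd.comp (Primrec.snd.comp Primrec.snd)
  have h0 : Primrec fun y : ((Pres × Word × Word) × Pres) × (Word × Word × List Word) => y.1.1 :=
    Primrec.fst.comp Primrec.fst
  have h1 : Primrec fun y : ((Pres × Word × Word) × Pres) × (Word × Word × List Word) => y.1.1.1 :=
    Primrec.fst.comp h0
  have h2 : Primrec fun y : ((Pres × Word × Word) × Pres) × (Word × Word × List Word) => y.1.1.2.1 :=
    Primrec.fst.comp (Primrec.snd.comp h0)
  have h3 : Primrec fun y : ((Pres × Word × Word) × Pres) × (Word × Word × List Word) => y.1.1.2.2 :=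
    Primrec.snd.comp (Primrec.snd.comp h0)
  refine re_of_eq (re_ex (re_and (PrH_gen hP hA hB hW) (re_and (PrH_ab hP hB)
    (re_and (PrH_nim ((1, 0), (0, 0), (0, 0), (1, 0)) h1 h2 h3 hP hA hB)
      (PrH_nim ((0, 1), (0, 0), (0, 0), (1, 0)) h1 h2 h3 hP hA hB))))) fun x => ?_
  constructor
  · rintro ⟨⟨A, B, W⟩, hb⟩
    exact ⟨A, B, W, hb⟩
  · rintro ⟨A, B, W, hb⟩
    exact ⟨(A, B, W), hb⟩

theorem re_NZ : Re fun x : Pres × Pres => NZ x.1 x.2 := by
  have z1 : Primrec fun z : (Pres × Pres) × PrH_A => z.1.1 := Primrec.fst.comp Primrec.fst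
  have z2 : Primrec fun z : (Pres × Pres) × PrH_A => z.1.2 := Primrec.snd.comp Primrec.fst
  have hA : Primrec fun z : (Pres × Pres) × PrH_A => z.2.1 := Primrec.fst.comp Primrec.snd
  have hB : Primrec fun z : (Pres × Pres) × PrH_A => z.2.2.1 :=
    Primrec.fst.comp (Primrec.snd.comp Primrec.snd)
  have hW : Primrec fun z : (Pres × Pres) × PrH_A => z.2.2.2.1 :=
    Primrec.fst.comp (Primrec.snd.comp (Primrec.snd.comp Primrec.snd))
  have hE : Primrec fun z : (Pres × Pres) × PrH_A => z.2.2.2.2 :=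
    Primrec.snd.comp (Primrec.snd.comp (Primrec.snd.comp Primrec.snd))
  have e0 : vz (0, 0) = 0 := rfl
  have hne : PrimrecPred fun z : (Pres × Pres) × PrH_A => vz (xs z.2.2.2.2 z.2.1) ≠ 0 := by
    refine (WdC_vzeq (PrH_xs hE hA) (Primrec.const ((0, 0) : ℕ × ℕ))).not.of_eq fun z => ?_
    rw [e0]
  have h3 := re_comp PrH_third (f := fun z : (Pres × Pres) × PrH_A =>
    ((z.1.1, z.2.1, z.2.2.1), z.1.2)) ((z1.pair (hA.pair hB)).pair z2)
  refine re_of_eq (re_ex (re_and (PrH_gen z1 hA hB hW) (re_and (PrH_ab z1 hB)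
    (re_and (PrH_hz z1 hE (Primrec.const 0)) (re_and (re_prim hne)
      (re_or (re_comp re_NC z2) h3)))))) fun x => ?_
  constructor
  · rintro ⟨⟨A, B, W, E⟩, hb⟩
    exact ⟨A, B, W, E, hb⟩
  · rintro ⟨A, B, W, E, hb⟩
    exact ⟨(A, B, W, E), hb⟩

end Pool.Agent.H28.IP
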