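import Pool.Agent.H28.IP.Main3
import Pool.Agent.H28.IQ.MainC
import Pool.Agent.H28.IQ.Hpf
import Pool.Agent.H28.IQ.PrG
import Pool.Agent.H28.IQ.PrH

set_option autoImplicit false

namespace Pool.Agent.H28.IP

/-- as `main_f`, with the prime given -/
theorem main_f' {G : Type} [Group G] [Metab G] [Group.IsFinitelyPresented G] {a b : G}
    (hg : Gen2 a b) (h : ∃ p : ℕ, p.Prime ∧ Infinite (Lam ⧸ (Ann a b ⊔ Ideal.span {(p : Lam)}))) :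
    AbFree a b ∧ ∃ (p : ℕ) (f : Lam), p.Prime ∧ NC3 p f ∧ Ann a b ≤ Ideal.span {f, (p : Lam)} := by
  obtain ⟨p, hp, hinf⟩ := h
  obtain ⟨P, hP, hIP, hinfP⟩ := exists_prime hinf
  have hAP : Ann a b ≤ P := le_sup_left.trans hIP
  have hpP : (p : Lam) ∈ P := hIP (Ideal.mem_sup_right (Ideal.mem_span_singleton_self _))
  have hz : ∀ z : ℤ × ℤ, z ≠ 0 → mo z - 1 ∉ P := fun z hz =>
    tame_prime hg hAP hp.one_lt.le hpP hinfP hz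
  have hab : AbFree a b := by
    intro i j h
    by_contra hne
    have hne' : ((i, j) : ℤ × ℤ) ≠ 0 := fun h0 => hne ⟨congrArg Prod.fst h0, congrArg Prod.snd h0⟩
    exact hz _ hne' (hAP (fix_mem h))
  obtain ⟨g, hg1, hg2⟩ := ann_not_p hg hab hp
  obtain ⟨f, hf1, hf2, hf3⟩ := prime_gen hp hP hpP hz
    ⟨g, hAP (mem_Ann.2 hg1), red_ne.2 hg2⟩
  exact ⟨hab, p, f, hp, nc3_of hp hP hpP hz hf1 hf2, hAP.trans hf3⟩

/-- as `ni_complete`, with the prime given -/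
theorem ni_complete'  {P₁ P₂ : Pres} [Metab (GN P₁)] [Metab (GN P₂)] {a₁ b₁ : GN P₁} {a₂ b₂ : GN P₂}
    (hg₁ : Gen2 a₁ b₁) (hg₂ : Gen2 a₂ b₂) (hr : ∃ p : ℕ, p.Prime ∧
      Infinite (Lam ⧸ (Ann a₁ b₁ ⊔ Ideal.span {(p : Lam)})))
    (hiso : ¬ Nonempty (GN P₁ ≃* GN P₂)) : NI P₁ P₂ := by
  have := gn_fp P₁
  have := gn_fp P₂
  obtain ⟨hf₁, p, f, hp, hnc, hAnn⟩ := main_f' hg₁ hr
  obtain ⟨A₁, B₁, W₁, hG₁, rfl, rfl⟩ := genW_exists hg₁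
  obtain ⟨A₂, B₂, W₂, hG₂, rfl, rfl⟩ := genW_exists hg₂
  obtain ⟨L, rfl⟩ := pol_surj f
  have hle : Ann (cl P₁ A₁) (cl P₁ B₁) ≤ idl [L, cst p] := by
    intro g hg
    rw [mem_idl2, pol_cst]
    exact hAnn hg
  obtain ⟨ψ, hψa, hψb⟩ := psi_iso hg₁ hf₁
  obtain ⟨κ, hκ⟩ := gjMap_exists hle
  have hM : HomM P₁ [L, cst p] A₁ B₁ W₁ := by
    refine homM_complete hG₁ (κ.comp ψ.symm.toMonoidHom) ?_ ?_
    · show κ (ψ.symm (cl P₁ A₁)) = al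
      have h1 : ψ.symm (cl P₁ A₁) = al := ψ.symm_apply_eq.2 hψa.symm
      rw [h1]
      obtain ⟨h2, h3, h4⟩ := hκ al
      ext
      · rw [h2]; rfl
      · rw [h3]; rfl
      · rw [h4]
        show Ideal.Quotient.factor hle 0 = 0
        exact map_zero _
    · show κ (ψ.symm (cl P₁ B₁)) = be
      have h1 : ψ.symm (cl P₁ B₁) = be := ψ.symm_apply_eq.2 hψb.symm
      rw [h1]
      obtain ⟨h2, h3, h4⟩ := hκ be
      ext
      · rw [h2]; rfl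
      · rw [h3]; rfl
      · rw [h4]
        show Ideal.Quotient.factor hle 0 = 0
        exact map_zero _
  refine ⟨A₁, B₁, W₁, A₂, B₂, W₂, p, L, hG₁, hG₂, hp, hnc, hM, ?_⟩
  by_cases hf₂ : AbFree (cl P₂ A₂) (cl P₂ B₂)
  · right
    obtain ⟨h, hh1, hh2⟩ := ann_not_p hg₂ hf₂ hp
    obtain ⟨M, rfl⟩ := pol_surj h
    refine ⟨M, ?_, hh2, ?_⟩
    · rw [← cl_one, cl_wl]
      exact hh1
    · intro m _ hm
      have h1 : ¬ ∀ f, ev (cl P₂ A₂) (cl P₂ B₂) f = 1 ↔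
          ev (cl P₁ A₁) (cl P₁ B₁) (act (vm m) f) = 1 := fun h2 =>
        hiso (iso_of hg₁ hf₁ hg₂ hf₂ hm h2)
      push Not at h1
      obtain ⟨g, hgg⟩ := h1
      obtain ⟨N, rfl⟩ := pol_surj g
      rw [← pol_actl, ← cl_wl, ← cl_wl] at hgg
      refine ⟨N, ?_⟩
      rcases hgg with ⟨g1, g2⟩ | ⟨g1, g2⟩
      · left
        obtain ⟨Q, iQ, fQ, π, hπ⟩ := metab_rf hg₁ hf₁ g2
        exact ⟨cl_one.1 g1, fq_complete π hπ⟩
      · right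
        obtain ⟨Q, iQ, fQ, π, hπ⟩ := metab_rf hg₂ hf₂ g1
        exact ⟨fq_complete π hπ, cl_one.1 g2⟩
  · left
    unfold AbFree at hf₂
    push Not at hf₂
    obtain ⟨i, j, hij, hne⟩ := hf₂
    refine ⟨(i.toNat, (-i).toNat), (j.toNat, (-j).toNat), ?_, ?_⟩
    · have e1 : vz (i.toNat, (-i).toNat) = i := by unfold vz; omega
      have e2 : vz (j.toNat, (-j).toNat) = j := by unfold vz; omega
      rw [e1, e2]
      by_contra hcon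
      push Not at hcon
      exact hne hcon.1 hcon.2
    · have e1 : vz (i.toNat, (-i).toNat) = i := by unfold vz; omega
      have e2 : vz (j.toNat, (-j).toNat) = j := by unfold vz; omega
      rw [cl_sub2]
      have h1 : (FreeGroup.mk (zp 0 (i.toNat, (-i).toNat) ++ zp 1 (j.toNat, (-j).toNat)) :
          FreeGroup ℕ) = FreeGroup.mk (zp 0 (i.toNat, (-i).toNat)) *
            FreeGroup.mk (zp 1 (j.toNat, (-j).toNat)) := FreeGroup.mul_mk.symm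
      rw [h1, map_mul, lift_zp, lift_zp, e1, e2]
      exact hij


/-- independent generators of the first group only -/
theorem nj_nonab {P₁ P₂ : Pres} [Metab (GN P₁)] {a₁ b₁ : GN P₁} {a₂ b₂ : GN P₂}
    (hg₁ : Gen2 a₁ b₁) (hg₂ : Gen2 a₂ b₂) (hf₁ : AbFree a₁ b₁) (hf₂ : ¬ AbFree a₂ b₂) :
    NJ P₁ P₂ := by
  obtain ⟨A₁, B₁, W₁, hG₁, rfl, rfl⟩ := genW_exists hg₁
  obtain ⟨A₂, B₂, W₂, hG₂, rfl, rfl⟩ := genW_exists hg₂
  obtain ⟨Js, hJs⟩ := idl_fg (Ann (cl P₁ A₁) (cl P₁ B₁))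
  have hM : HomM P₁ Js A₁ B₁ W₁ := by
    obtain ⟨ψ, hψa, hψb⟩ := psi_iso hg₁ hf₁
    obtain ⟨κ, hκ⟩ := gjMap_exists (le_of_eq hJs.symm)
    refine homM_complete hG₁ (κ.comp ψ.symm.toMonoidHom) ?_ ?_
    · show κ (ψ.symm (cl P₁ A₁)) = al
      have h1 : ψ.symm (cl P₁ A₁) = al := ψ.symm_apply_eq.2 hψa.symm
      rw [h1]
      obtain ⟨h2, h3, h4⟩ := hκ al
      ext
      · rw [h2]; rfl
      · rw [h3]; rfl
      · rw [h4]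
        show Ideal.Quotient.factor _ 0 = 0
        exact map_zero _
    · show κ (ψ.symm (cl P₁ B₁)) = be
      have h1 : ψ.symm (cl P₁ B₁) = be := ψ.symm_apply_eq.2 hψb.symm
      rw [h1]
      obtain ⟨h2, h3, h4⟩ := hκ be
      ext
      · rw [h2]; rfl
      · rw [h3]; rfl
      · rw [h4]
        show Ideal.Quotient.factor _ 0 = 0
        exact map_zero _
  refine ⟨A₁, B₁, W₁, A₂, B₂, W₂, Js, hG₁, hG₂, hM, Or.inl ?_⟩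
  unfold AbFree at hf₂
  push Not at hf₂
  obtain ⟨i, j, hij, hne⟩ := hf₂
  have e1 : vz (i.toNat, (-i).toNat) = i := by unfold vz; omega
  have e2 : vz (j.toNat, (-j).toNat) = j := by unfold vz; omega
  refine ⟨(i.toNat, (-i).toNat), (j.toNat, (-j).toNat), ?_, ?_⟩
  · rw [e1, e2]
    by_contra hcon
    push Not at hcon
    exact hne hcon.1 hcon.2
  · rw [cl_sub2]
    have h1 : (FreeGroup.mk (zp 0 (i.toNat, (-i).toNat) ++ zp 1 (j.toNat, (-j).toNat)) :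
        FreeGroup ℕ) = FreeGroup.mk (zp 0 (i.toNat, (-i).toNat)) *
          FreeGroup.mk (zp 1 (j.toNat, (-j).toNat)) := FreeGroup.mul_mk.symm
    rw [h1, map_mul, lift_zp, lift_zp, e1, e2]
    exact hij

/-- one of the certificates exists -/
theorem cert {P₁ P₂ : Pres} [Metab (GN P₁)] [Metab (GN P₂)] {a₁ b₁ : GN P₁} {a₂ b₂ : GN P₂}
    (hg₁ : Gen2 a₁ b₁) (hg₂ : Gen2 a₂ b₂) (ht : TFab (GN P₁))
    (hn : ∃ H : Subgroup (GN P₁), ¬ H.FG) (hiso : ¬ Nonempty (GN P₁ ≃* GN P₂)) :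
    (NI P₁ P₂ ∨ NI P₂ P₁) ∨ (NJ P₁ P₂ ∨ NJ P₂ P₁) ∨ NZ P₁ P₂ := by
  rcases tf_cases hg₁ ht hn with hf₁ | ⟨a', b', hg', hb', ha'⟩
  · by_cases hi₁ : ∃ p : ℕ, p.Prime ∧ Infinite (Lam ⧸ (Ann a₁ b₁ ⊔ Ideal.span {(p : Lam)}))
    · exact Or.inl (Or.inl (ni_complete' hg₁ hg₂ hi₁ hiso))
    have hfin₁ : ∀ p : ℕ, p.Prime → Finite (Lam ⧸ (Ann a₁ b₁ ⊔ Ideal.span {(p : Lam)})) := by
      intro p hp
      by_contra h
      exact hi₁ ⟨p, hp, not_finite_iff_infinite.1 h⟩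
    by_cases hf₂ : AbFree a₂ b₂
    · by_cases hi₂ : ∃ p : ℕ, p.Prime ∧ Infinite (Lam ⧸ (Ann a₂ b₂ ⊔ Ideal.span {(p : Lam)}))
      · exact Or.inl (Or.inr (ni_complete' hg₂ hg₁ hi₂ fun ⟨σ⟩ => hiso ⟨σ.symm⟩))
      have hfin₂ : ∀ p : ℕ, p.Prime → Finite (Lam ⧸ (Ann a₂ b₂ ⊔ Ideal.span {(p : Lam)})) := by
        intro p hp
        by_contra h
        exact hi₂ ⟨p, hp, not_finite_iff_infinite.1 h⟩
      have hnf₁ : ¬ Module.Finite ℤ (Lam ⧸ Ann a₁ b₁) := by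
        intro h
        obtain ⟨H, hH⟩ := hn
        exact hH (noeth hg₁ h H)
      by_cases hA : ∀ m : ℤ × ℤ × ℤ × ℤ, (dt m = 1 ∨ dt m = -1) →
          ¬ ∀ f ∈ Ann a₂ b₂, act m f ∈ Ann a₁ b₁
      · exact Or.inr (Or.inl (Or.inl (nj_complete hg₁ hg₂ hf₁ hfin₁ hfin₂ hnf₁ hA)))
      · push Not at hA
        obtain ⟨φ, hφ, h1⟩ := hA
        have hnf₂ : ¬ Module.Finite ℤ (Lam ⧸ Ann a₂ b₂) := fun h => hnf₁ (fin_surj hφ h1 h)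
        refine Or.inr (Or.inl (Or.inr (nj_complete hg₂ hg₁ hf₂ hfin₂ hfin₁ hnf₂ ?_)))
        intro ψ hψ h2
        refine hiso (iso_of hg₁ hf₁ hg₂ hf₂ hφ fun f => ?_)
        rw [← mem_Ann, ← mem_Ann]
        exact hopf hφ hψ h1 h2 f
    · exact Or.inr (Or.inl (Or.inl (nj_nonab hg₁ hg₂ hf₁ hf₂)))
  · exact Or.inr (Or.inr (nz_complete hg' hb' ha' hg₂ hiso))

theorem tfab_equiv {G H : Type} [Group G] [Group H] (σ : G ≃* H) (h : TFab G) : TFab H := by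
  intro g n hn hg
  have h1 := h (σ.symm g) n hn (by rw [← map_pow, comm_equiv]; exact hg)
  rwa [comm_equiv] at h1

theorem fg_equiv {G H : Type} [Group G] [Group H] (σ : G ≃* H)
    (h : ∃ K : Subgroup G, ¬ K.FG) : ∃ K : Subgroup H, ¬ K.FG := by
  classical
  obtain ⟨K, hK⟩ := h
  refine ⟨K.map σ.toMonoidHom, fun ⟨S, hS⟩ => hK ⟨S.image σ.symm, ?_⟩⟩
  have h1 : ((S.image σ.symm : Finset G) : Set G) = σ.symm.toMonoidHom '' (S : Set H) := by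
    rw [Finset.coe_image]
    rfl
  rw [h1, ← MonoidHom.map_closure, hS, Subgroup.map_map]
  have h2 : σ.symm.toMonoidHom.comp σ.toMonoidHom = MonoidHom.id G := by
    ext x
    exact σ.symm_apply_apply x
  rw [h2, Subgroup.map_id]

theorem main_thm2 : ∃ D : Pres × Pres →. Bool, Partrec D ∧ ∀ P₁ P₂ : Pres, Cls P₁ → Cls P₂ →
    ((TFab (Grp P₁) ∧ ∃ H : Subgroup (Grp P₁), ¬ H.FG) ∨
      (TFab (Grp P₂) ∧ ∃ H : Subgroup (Grp P₂), ¬ H.FG)) →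
      ∃ b ∈ D (P₁, P₂), (b = true ↔ Nonempty (Grp P₁ ≃* Grp P₂)) := by
  have hsw : Primrec fun x : Pres × Pres => (x.2, x.1) := Primrec.snd.pair Primrec.fst
  have hq : Re fun x : Pres × Pres =>
      ((NI x.1 x.2 ∨ NI x.2 x.1) ∨ (NJ x.1 x.2 ∨ NJ x.2 x.1)) ∨ (NZ x.1 x.2 ∨ NZ x.2 x.1) :=
    re_or (re_or (re_or re_NI (re_comp re_NI hsw)) (re_or re_NJ (re_comp re_NJ hsw)))
      (re_or re_NZ (re_comp re_NZ hsw))
  obtain ⟨D, hD, hDs⟩ := re_decide re_iso hq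
  refine ⟨D, hD, fun P₁ P₂ hP₁ hP₂ hr => ?_⟩
  obtain ⟨e₁⟩ := grp_iso P₁
  obtain ⟨e₂⟩ := grp_iso P₂
  have m₁ : Metab (GN P₁) := metab_equiv e₁ hP₁.1
  have m₂ : Metab (GN P₂) := metab_equiv e₂ hP₂.1
  obtain ⟨a₁, b₁, g₁⟩ := hP₁.2
  obtain ⟨a₂, b₂, g₂⟩ := hP₂.2
  have hg₁ : Gen2 (e₁ a₁) (e₁ b₁) := gen2_equiv e₁ g₁
  have hg₂ : Gen2 (e₂ a₂) (e₂ b₂) := gen2_equiv e₂ g₂
  have hisoiff : Nonempty (GN P₁ ≃* GN P₂) ↔ Nonempty (Grp P₁ ≃* Grp P₂) :=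
    ⟨fun ⟨σ⟩ => ⟨(e₁.trans σ).trans e₂.symm⟩, fun ⟨σ⟩ => ⟨(e₁.symm.trans σ).trans e₂⟩⟩
  have hor : Nonempty (GN P₁ ≃* GN P₂) ∨
      (((NI P₁ P₂ ∨ NI P₂ P₁) ∨ (NJ P₁ P₂ ∨ NJ P₂ P₁)) ∨ (NZ P₁ P₂ ∨ NZ P₂ P₁)) := by
    by_cases hiso : Nonempty (GN P₁ ≃* GN P₂)
    · exact Or.inl hiso
    · right
      rcases hr with ⟨ht, hn⟩ | ⟨ht, hn⟩
      · rcases cert hg₁ hg₂ (tfab_equiv e₁ ht) (fg_equiv e₁ hn) hiso with h | h | h
        · exact Or.inl (Or.inl h)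
        · exact Or.inl (Or.inr h)
        · exact Or.inr (Or.inl h)
      · rcases cert hg₂ hg₁ (tfab_equiv e₂ ht) (fg_equiv e₂ hn) (fun ⟨σ⟩ => hiso ⟨σ.symm⟩)
          with h | h | h
        · exact Or.inl (Or.inl h.symm)
        · exact Or.inl (Or.inr h.symm)
        · exact Or.inr (Or.inr h)
  have hand : ¬ (Nonempty (GN P₁ ≃* GN P₂) ∧
      (((NI P₁ P₂ ∨ NI P₂ P₁) ∨ (NJ P₁ P₂ ∨ NJ P₂ P₁)) ∨ (NZ P₁ P₂ ∨ NZ P₂ P₁))) := by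
    rintro ⟨⟨σ⟩, ((h | h) | (h | h)) | (h | h)⟩
    · exact ni_sound h ⟨σ⟩
    · exact ni_sound h ⟨σ.symm⟩
    · exact nj_sound h ⟨σ⟩
    · exact nj_sound h ⟨σ.symm⟩
    · exact nz_sound h ⟨σ⟩
    · exact nz_sound h ⟨σ.symm⟩
  obtain ⟨b, hb, hbb⟩ := hDs (P₁, P₂) hor hand
  exact ⟨b, hb, hbb.trans hisoiff⟩

end Pool.Agent.H28.IP
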